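import Mathlib

set_option autoImplicit false

/-! Denominators of convergents: elementary facts; patterns with few exceptional positions. -/

namespace Pool.Agent.R461.CF

open Finset

/-- the denominators of the convergents of the continued fraction with the partial quotients
`a 1, a 2, …` -/
def den (a : ℕ → ℕ) : ℕ → ℕ
  | 0 => 1
  | 1 => a 1
  | (n + 2) => a (n + 2) * den a (n + 1) + den a n

/-- the partial quotients are positive and at most `B` -/
def Bd (B : ℕ) (a : ℕ → ℕ) : Prop := ∀ i, 1 ≤ i → 1 ≤ a i ∧ a i ≤ B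

section facts

variable {B : ℕ} {a : ℕ → ℕ}

lemma den_zero : den a 0 = 1 := rfl
lemma den_one : den a 1 = a 1 := rfl
lemma den_add (n : ℕ) : den a (n + 2) = a (n + 2) * den a (n + 1) + den a n := rfl

lemma den_pos (h : Bd B a) : ∀ n, 1 ≤ den a n := by
  intro n
  induction n using Nat.strong_induction_on with
  | _ n ih =>
    match n, ih with
    | 0, _ => exact le_rfl
    | 1, _ => exact (h 1 le_rfl).1
    | (m + 2), ih =>
      rw [den_add]
      have := ih m (by omega)
      omega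

lemma den_mono (h : Bd B a) (n : ℕ) : den a n ≤ den a (n + 1) := by
  match n with
  | 0 => exact (h 1 le_rfl).1
  | (m + 1) =>
    rw [den_add]
    have := (h (m + 2) (by omega)).1
    nlinarith [den_pos h (m + 1), den_pos h m]

lemma den_monotone (h : Bd B a) : Monotone (den a) := monotone_nat_of_le_succ (den_mono h)

lemma den_two (h : Bd B a) (n : ℕ) : 2 * den a n ≤ den a (n + 2) := by
  rw [den_add]
  have h1 := (h (n + 2) (by omega)).1
  have h2 := den_mono h n
  nlinarith [den_pos h (n + 1)]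

lemma den_two_pow (h : Bd B a) (n m : ℕ) : 2 ^ m * den a n ≤ den a (n + 2 * m) := by
  induction m with
  | zero => simp
  | succ m ih =>
    have := den_two h (n + 2 * m)
    rw [pow_succ, show n + 2 * (m + 1) = n + 2 * m + 2 by ring]
    linarith

lemma den_succ_le (h : Bd B a) (n : ℕ) : den a (n + 1) ≤ (B + 1) * den a n := by
  match n with
  | 0 =>
    have := (h 1 le_rfl).2
    rw [den_one, den_zero]
    omega
  | (m + 1) =>
    rw [den_add]
    have h1 := (h (m + 2) (by omega)).2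
    have h2 := den_mono h m
    nlinarith [den_pos h (m + 1)]

lemma den_le_pow (h : Bd B a) (n : ℕ) : den a n ≤ (B + 1) ^ n := by
  induction n with
  | zero => simp [den_zero]
  | succ n ih =>
    rw [pow_succ]
    calc den a (n + 1) ≤ (B + 1) * den a n := den_succ_le h n
      _ ≤ (B + 1) * (B + 1) ^ n := Nat.mul_le_mul_left _ ih
      _ = _ := mul_comm _ _

lemma den_coprime (n : ℕ) : (den a n).Coprime (den a (n + 1)) := by
  induction n with
  | zero => simp [den_zero]
  | succ n ih =>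
    rw [den_add, Nat.coprime_mul_right_add_right]
    exact ih.symm

end facts

/-! ### integer solutions of the recurrence -/

lemma fwd (Y : ℕ → ℤ) (c : ℕ → ℤ) (n : ℕ) (hc : ∀ j, 1 ≤ c j)
    (hY : ∀ j, j + 2 ≤ 2 * n + 1 → Y (j + 2) = c j * Y (j + 1) + Y j) (h0 : 0 ≤ Y 0) (h1 : 0 ≤ Y 1)
    (hne : ¬ (Y 0 = 0 ∧ Y 1 = 0)) : (2 : ℤ) ^ n ≤ Y (2 * n) + Y (2 * n + 1) := by
  have key : ∀ m, m ≤ n → 0 ≤ Y (2 * m) ∧ 0 ≤ Y (2 * m + 1) ∧ (2 : ℤ) ^ m ≤ Y (2 * m) + Y (2 * m + 1) := by
    intro m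
    induction m with
    | zero =>
      intro _
      refine ⟨by simpa using h0, by simpa using h1, ?_⟩
      simp only [pow_zero, mul_zero, zero_add]
      omega
    | succ m ih =>
      intro hm
      obtain ⟨a0, a1, a2⟩ := ih (by omega)
      have e1 := hY (2 * m) (by omega)
      have e2 := hY (2 * m + 1) (by omega)
      have c1 := hc (2 * m)
      have c2 := hc (2 * m + 1)
      have e3 : 2 * (m + 1) = 2 * m + 2 := by ring
      rw [e3, show 2 * m + 2 + 1 = 2 * m + 1 + 2 by ring, e2, show 2 * m + 1 + 1 = 2 * m + 2 by ring, e1]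
      have f1 : Y (2 * m + 1) ≤ c (2 * m) * Y (2 * m + 1) := by nlinarith
      have f0 : 0 ≤ c (2 * m) * Y (2 * m + 1) + Y (2 * m) := by linarith
      have f2 : c (2 * m) * Y (2 * m + 1) + Y (2 * m) ≤ c (2 * m + 1) * (c (2 * m) * Y (2 * m + 1) + Y (2 * m)) := by nlinarith
      refine ⟨f0, by linarith, ?_⟩
      rw [pow_succ]
      linarith
  exact (key n le_rfl).2.2

/-- a bounded integer solution on a long interval vanishes in the middle -/
lemma middle (Y : ℕ → ℤ) (c : ℕ → ℤ) (n : ℕ) (D : ℤ) (hc : ∀ j, 1 ≤ c j)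
    (hY : ∀ j, j + 2 ≤ 4 * n + 1 → Y (j + 2) = c j * Y (j + 1) + Y j)
    (hb : ∀ j, j ≤ 4 * n + 1 → |Y j| < D) (hD : 2 * D ≤ 2 ^ n) : Y (2 * n) = 0 ∧ Y (2 * n + 1) = 0 := by
  by_contra hne
  -- same signs forward, opposite signs backward
  have hF : ∀ Z : ℕ → ℤ, ∀ c' : ℕ → ℤ, (∀ j, 1 ≤ c' j) → (∀ j, j + 2 ≤ 2 * n + 1 → Z (j + 2) = c' j * Z (j + 1) + Z j) →
      (∀ j, j ≤ 2 * n + 1 → |Z j| < D) → ¬ (Z 0 = 0 ∧ Z 1 = 0) → ¬ (0 ≤ Z 0 * Z 1) := by
    intro Z c' hc' hZ hZb hZ0 hsgn
    rcases le_total 0 (Z 0 + Z 1) with hs | hs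
    · have a0 : 0 ≤ Z 0 := by
        by_contra h
        push Not at h
        have : 0 < Z 1 := by linarith
        nlinarith
      have a1 : 0 ≤ Z 1 := by
        by_contra h
        push Not at h
        have : 0 < Z 0 := by linarith
        nlinarith
      have h1 := fwd Z c' n hc' hZ a0 a1 hZ0
      have h2 := hZb (2 * n) (by omega)
      have h3 := hZb (2 * n + 1) le_rfl
      have h4 := le_abs_self (Z (2 * n))
      have h5 := le_abs_self (Z (2 * n + 1))
      linarith
    · have a0 : 0 ≤ -Z 0 := by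
        by_contra h
        push Not at h
        have : Z 1 < 0 := by linarith
        nlinarith
      have a1 : 0 ≤ -Z 1 := by
        by_contra h
        push Not at h
        have : Z 0 < 0 := by linarith
        nlinarith
      have h1 := fwd (fun j => -Z j) c' n hc' (fun j hj => by
        rw [hZ j hj]
        ring) a0 a1 (by
          intro h
          apply hZ0
          constructor
          · have := h.1
            simpa using this
          · have := h.2
            simpa using this)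
      have h2 := hZb (2 * n) (by omega)
      have h3 := hZb (2 * n + 1) le_rfl
      have h4 := neg_abs_le (Z (2 * n))
      have h5 := neg_abs_le (Z (2 * n + 1))
      linarith
  rcases le_total 0 (Y (2 * n) * Y (2 * n + 1)) with h | h
  · refine hF (fun j => Y (2 * n + j)) (fun j => c (2 * n + j)) (fun j => hc _) (fun j hj => ?_) (fun j hj => hb _ (by omega)) ?_ ?_
    · exact hY (2 * n + j) (by omega)
    · simpa using hne
    · simpa using h
  · refine hF (fun j => (-1) ^ j * Y (2 * n + 1 - j)) (fun j => c (2 * n + 1 - (j + 2))) (fun j => hc _) (fun j hj => ?_)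
      (fun j hj => ?_) ?_ ?_
    · have h1 := hY (2 * n + 1 - (j + 2)) (by omega)
      rw [show 2 * n + 1 - (j + 2) + 2 = 2 * n + 1 - j by omega,
        show 2 * n + 1 - (j + 2) + 1 = 2 * n + 1 - (j + 1) by omega] at h1
      rw [h1, pow_succ, pow_succ]
      ring
    · rw [abs_mul, abs_pow, abs_neg, abs_one, one_pow, one_mul]
      exact hb _ (by omega)
    · simp only [pow_zero, one_mul, pow_one, Nat.sub_zero, Nat.add_sub_cancel]
      intro h2
      apply hne
      constructor
      · have := h2.2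
        linarith
      · exact h2.1
    · simp only [pow_zero, one_mul, pow_one, Nat.sub_zero, Nat.add_sub_cancel]
      nlinarith

/-! ### patterns -/

/-- the functions on `Fin n` with values in `{0, …, D}`, at most `T` of them different from `0` -/
def Pat (n D T : ℕ) : Finset (Fin n → ℕ) :=
  (Fintype.piFinset (fun _ : Fin n => range (D + 1))).filter (fun f => (univ.filter (fun j => f j ≠ 0)).card ≤ T)

lemma Pat_card (n D T : ℕ) (ξ : ℝ) (h0 : 0 < ξ) (h1 : ξ ≤ 1) :
    ξ ^ T * ((Pat n D T).card : ℝ) ≤ (1 + D * ξ) ^ n := by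
  have e1 : ∑ f ∈ Fintype.piFinset (fun _ : Fin n => range (D + 1)), ∏ j, (if f j ≠ 0 then ξ else 1) = (1 + D * ξ) ^ n := by
    rw [← Finset.prod_univ_sum (fun _ : Fin n => range (D + 1)) (fun _ x => if x ≠ 0 then ξ else 1)]
    rw [prod_const, card_univ, Fintype.card_fin]
    congr 1
    rw [sum_range_succ']
    simp
    ring
  have e2 : ∀ f : Fin n → ℕ, ∏ j, (if f j ≠ 0 then ξ else 1) = ξ ^ (univ.filter (fun j => f j ≠ 0)).card := by
    intro f
    rw [← prod_filter, prod_const]
  rw [← e1]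
  calc ξ ^ T * ((Pat n D T).card : ℝ) = ∑ f ∈ Pat n D T, ξ ^ T := by
        rw [sum_const, nsmul_eq_mul, mul_comm]
    _ ≤ ∑ f ∈ Pat n D T, ∏ j, (if f j ≠ 0 then ξ else 1) := by
        refine sum_le_sum fun f hf => ?_
        rw [e2]
        exact pow_le_pow_of_le_one h0.le h1 (mem_filter.1 hf).2
    _ ≤ _ := sum_le_sum_of_subset_of_nonneg (filter_subset _ _) fun f _ _ =>
        prod_nonneg fun j _ => by split_ifs <;> linarith

/-- few patterns -/
theorem Pat_ent (D E : ℕ) (hD : 1 ≤ D) (hE : 1 ≤ E) : ∃ R : ℕ, 1 ≤ R ∧ ∀ n T : ℕ, T * R ≤ 2 * n →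
    (Pat n D T).card ≤ 2 ^ (n / E + 1) := by
  obtain ⟨c, hc⟩ : ∃ c : ℕ, 4 * D * E ≤ 2 ^ c := ⟨4 * D * E, (Nat.lt_two_pow_self).le⟩
  refine ⟨4 * E * (c + 1), Nat.succ_le_of_lt (Nat.mul_pos (by omega) (by omega)), fun n T hT => ?_⟩
  have hD0 : (0 : ℝ) < D := by exact_mod_cast hD
  have hE0 : (0 : ℝ) < E := by exact_mod_cast hE
  have hD1 : (1 : ℝ) ≤ D := by exact_mod_cast hD
  have hE1 : (1 : ℝ) ≤ E := by exact_mod_cast hE
  obtain ⟨ξ, hξ⟩ : ∃ ξ : ℝ, ξ = 1 / (4 * D * E) := ⟨_, rfl⟩
  have hξ0 : 0 < ξ := by rw [hξ]; positivity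
  have hξ1 : ξ ≤ 1 := by
    rw [hξ, div_le_one (by positivity)]
    nlinarith
  have h1 := Pat_card n D T ξ hξ0 hξ1
  have h2 : (1 + D * ξ) ^ n ≤ Real.exp ((n : ℝ) / (4 * E)) := by
    have e1 : (1 + D * ξ) ≤ Real.exp (1 / (4 * E)) := by
      have := Real.add_one_le_exp (1 / (4 * (E : ℝ)))
      have e2 : D * ξ = 1 / (4 * E) := by
        rw [hξ]
        field_simp
      rw [e2]
      linarith
    calc (1 + D * ξ) ^ n ≤ (Real.exp (1 / (4 * E))) ^ n := pow_le_pow_left₀ (by have := mul_pos hD0 hξ0; linarith) e1 n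
      _ = _ := by
        rw [← Real.exp_nat_mul]
        congr 1
        ring
  have h3 : ((Pat n D T).card : ℝ) ≤ (2 : ℝ) ^ (c * T) * Real.exp ((n : ℝ) / (4 * E)) := by
    have e1 : (1 : ℝ) ≤ (2 : ℝ) ^ (c * T) * ξ ^ T := by
      rw [pow_mul, ← mul_pow]
      apply one_le_pow₀
      rw [hξ, mul_one_div, one_le_div (by positivity)]
      exact_mod_cast hc
    calc ((Pat n D T).card : ℝ) ≤ ((2 : ℝ) ^ (c * T) * ξ ^ T) * ((Pat n D T).card : ℝ) := by
          have : (0 : ℝ) ≤ ((Pat n D T).card : ℝ) := Nat.cast_nonneg _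
          nlinarith
      _ = (2 : ℝ) ^ (c * T) * (ξ ^ T * ((Pat n D T).card : ℝ)) := by ring
      _ ≤ _ := mul_le_mul_of_nonneg_left (h1.trans h2) (by positivity)
  have h4 : Real.exp ((n : ℝ) / (4 * E)) ≤ (2 : ℝ) ^ ((n : ℝ) / (2 * E)) := by
    rw [Real.rpow_def_of_pos (by norm_num)]
    apply Real.exp_le_exp.2
    have := Real.log_two_gt_d9
    have e1 : (n : ℝ) / (4 * E) = 1 / 2 * ((n : ℝ) / (2 * E)) := by field_simp; ring
    rw [e1]
    apply mul_le_mul_of_nonneg_right _ (by positivity)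
    linarith
  have h5 : (2 : ℝ) ^ (c * T) ≤ (2 : ℝ) ^ ((n : ℝ) / (2 * E)) := by
    rw [← Real.rpow_natCast]
    apply Real.rpow_le_rpow_of_exponent_le (by norm_num)
    rw [le_div_iff₀ (by positivity)]
    have e1 : c * T * (2 * E) ≤ n := by
      have e2 : T * (4 * E * (c + 1)) = 2 * ((c + 1) * T * (2 * E)) := by ring
      rw [e2] at hT
      have e3 : c * T * (2 * E) ≤ (c + 1) * T * (2 * E) := by
        apply Nat.mul_le_mul_right
        exact Nat.mul_le_mul_right _ (by omega)
      omega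
    exact_mod_cast e1
  have h6 : ((Pat n D T).card : ℝ) ≤ (2 : ℝ) ^ ((n : ℝ) / E) := by
    calc ((Pat n D T).card : ℝ) ≤ (2 : ℝ) ^ ((n : ℝ) / (2 * E)) * (2 : ℝ) ^ ((n : ℝ) / (2 * E)) :=
          h3.trans (mul_le_mul h5 h4 (Real.exp_pos _).le (by positivity))
      _ = _ := by
        rw [← Real.rpow_add (by norm_num)]
        congr 1
        field_simp
        ring
  have h7 : (2 : ℝ) ^ ((n : ℝ) / E) ≤ (2 : ℝ) ^ (((n / E + 1 : ℕ) : ℝ)) := by
    apply Real.rpow_le_rpow_of_exponent_le (by norm_num)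
    rw [div_le_iff₀ hE0]
    have e1 : n ≤ (n / E + 1) * E := by
      have d1 := Nat.div_add_mod n E
      have d2 := Nat.mod_lt n (show 0 < E by omega)
      rw [add_mul, one_mul, mul_comm (n / E) E]
      omega
    exact_mod_cast e1
  rw [Real.rpow_natCast] at h7
  exact_mod_cast h6.trans h7

end Pool.Agent.R461.CF
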