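import Pool.Agent.R461.CF.C9

set_option autoImplicit false

/-! Romanoff's sum for shifted denominators. -/

namespace Pool.Agent.R461.CF

open Finset
open Pool.Agent.H373R2.T7
open Pool.Agent.W93.HD
open Pool.Agent.TH894.SM (w3 w3_nonneg prod_eq_w3 one_le_prod3 prod3_mono prod3_le gg_sq_le card_pf gg_sq_split)

/-- the number of hits -/
def hits (a : ℕ → ℕ) (K : ℕ) (s : ℤ) (p : ℕ) : ℕ := ((range K).filter (fun j => (p : ℤ) ∣ den a j + s)).card

/-- the weight of a prime -/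
noncomputable def wp (C : ℝ) (p : ℕ) : ℝ := 3 / (p : ℝ) * (3 * C * Real.log ((p + 3 : ℕ) : ℝ)) ^ 3

lemma wp_nonneg (C : ℝ) (hC : 0 ≤ C) (p : ℕ) : 0 ≤ wp C p := by
  unfold wp
  have : 0 ≤ Real.log ((p + 3 : ℕ) : ℝ) := Real.log_natCast_nonneg _
  positivity

/-- the product over a set of primes -/
lemma prod_wp (C : ℝ) (hC0 : 0 ≤ C) (hC : ∀ y : ℕ, 3 ≤ y → ∏ p ∈ pz y, (1 + 1 / (p : ℝ)) ≤ C * Real.log y) (S : Finset ℕ)
    (hS : ∀ p ∈ S, p.Prime) : ∏ p ∈ S, (1 + 3 / (p : ℝ)) ≤ 1 + ∑ p ∈ S, wp C p := by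
  classical
  rw [Finset.prod_add_ordered S (fun _ => (1 : ℝ)) (fun p => 3 / (p : ℝ))]
  simp only [prod_const_one, mul_one]
  gcongr with p hp
  unfold wp
  apply mul_le_mul_of_nonneg_left _ (by positivity)
  have h1 := prod_U C hC0 hC (S.filter (fun j => j < p)) (fun q hq => hS q (mem_filter.1 hq).1) (p + 3) (by omega) (by
    have h2 : S.filter (fun j => j < p) ⊆ range p := by
      intro j hj
      rw [mem_range]
      exact (mem_filter.1 hj).2
    have := card_le_card h2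
    rw [card_range] at this
    omega)
  have h2 : 0 ≤ ∏ p ∈ S.filter (fun j => j < p), (1 + 1 / (p : ℝ)) := prod_nonneg fun _ _ => by positivity
  exact (prod3_le _).trans (pow_le_pow_left₀ h2 h1 3)

lemma cube_sum : ∃ T : ℝ, 0 ≤ T ∧ ∀ n : ℕ, ∑ m ∈ range n, ((m : ℝ) + 2) ^ 3 / 2 ^ m ≤ T := by
  have h1 : Summable (fun n : ℕ => ((n : ℝ) ^ 3 * (1 / 2 : ℝ) ^ n : ℝ)) :=
    summable_pow_mul_geometric_of_norm_lt_one 3 (by rw [Real.norm_of_nonneg (by norm_num)]; norm_num)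
  refine ⟨4 * ∑' n : ℕ, ((n : ℝ) ^ 3 * (1 / 2 : ℝ) ^ n : ℝ), mul_nonneg (by norm_num) (tsum_nonneg fun _ => by positivity), fun n => ?_⟩
  have h2 : ∑ m ∈ range n, ((m : ℝ) + 2) ^ 3 / 2 ^ m = 4 * ∑ m ∈ (range n).map (addRightEmbedding 2), ((m : ℝ) ^ 3 * (1 / 2 : ℝ) ^ m) := by
    rw [sum_map, mul_sum]
    apply sum_congr rfl
    intro m _
    simp only [addRightEmbedding_apply]
    push_cast
    rw [one_div, inv_pow, pow_add]
    field_simp
    ring
  rw [h2]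
  apply mul_le_mul_of_nonneg_left _ (by norm_num)
  exact h1.sum_le_tsum _ (fun _ _ => by positivity)

/-- the hits of the primes of one size -/
lemma group_sum {B : ℕ} {a : ℕ → ℕ} (h : Bd B a) (hB : 1 ≤ B) (C : ℝ) (hC : 0 ≤ C) (K m : ℕ) (s : ℤ) (Q : Finset ℕ)
    (hQ : ∀ p ∈ Q, p.Prime ∧ 256 ^ m ≤ p ∧ p < 256 ^ (m + 1)) :
    ∑ p ∈ Q, wp C p * hits a K s p ≤ (3 * (18 * C) ^ 3 * (1282 + 2 * B)) * (K * (((m : ℝ) + 2) ^ 3 / 2 ^ m) + ((m : ℝ) + 2) ^ 3) := by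
  have h256 : (0 : ℝ) < (256 : ℝ) ^ m := by positivity
  have h1 : ∀ p ∈ Q, wp C p * hits a K s p ≤ (3 / (256 : ℝ) ^ m * (18 * C * ((m : ℝ) + 2)) ^ 3) * hits a K s p := by
    intro p hp
    obtain ⟨hp1, hp2, hp3⟩ := hQ p hp
    apply mul_le_mul_of_nonneg_right _ (Nat.cast_nonneg _)
    unfold wp
    have hp2r : (256 : ℝ) ^ m ≤ p := by exact_mod_cast hp2
    apply mul_le_mul _ _ (by have := Real.log_natCast_nonneg (p + 3); positivity) (by positivity)
    · exact div_le_div_of_nonneg_left (by norm_num) h256 hp2r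
    · apply pow_le_pow_left₀ (by have := Real.log_natCast_nonneg (p + 3); positivity)
      have h2 : Real.log ((p + 3 : ℕ) : ℝ) ≤ ((m : ℝ) + 2) * 6 := by
        have h3 : p + 3 ≤ 256 ^ (m + 2) := by
          have : 256 ^ (m + 2) = 256 * 256 ^ (m + 1) := by ring
          have : 1 ≤ 256 ^ (m + 1) := Nat.one_le_pow _ _ (by norm_num)
          omega
        have h4 : Real.log ((p + 3 : ℕ) : ℝ) ≤ Real.log (((256 : ℕ) ^ (m + 2) : ℕ) : ℝ) := by
          apply Real.log_le_log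
          · exact_mod_cast (by omega : 0 < p + 3)
          · exact_mod_cast h3
        have h5 : Real.log (((256 : ℕ) ^ (m + 2) : ℕ) : ℝ) = ((m : ℝ) + 2) * (8 * Real.log 2) := by
          push_cast
          rw [Real.log_pow, show (256 : ℝ) = 2 ^ 8 by norm_num, Real.log_pow]
          push_cast
          ring
        rw [h5] at h4
        refine h4.trans ?_
        apply mul_le_mul_of_nonneg_left _ (by positivity)
        have := Real.log_two_lt_d9
        linarith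
      calc 3 * C * Real.log ((p + 3 : ℕ) : ℝ) ≤ 3 * C * (((m : ℝ) + 2) * 6) := mul_le_mul_of_nonneg_left h2 (by positivity)
        _ = _ := by ring
  refine (sum_le_sum h1).trans ?_
  rw [← mul_sum]
  have h2 : ∑ p ∈ Q, (hits a K s p : ℝ) ≤ (K / 2 ^ m + 1) * (((256 : ℝ) ^ m) * (1282 + 2 * B)) := by
    have h3 := all_hits h hB K (2 ^ m) (Nat.one_le_pow _ _ (by norm_num)) s Q (fun p hp => (hQ p hp).1)
    have h4 : Q.card ≤ 256 ^ (m + 1) := by
      have h5 : Q ⊆ range (256 ^ (m + 1)) := by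
        intro p hp
        rw [mem_range]
        exact (hQ p hp).2.2
      have := card_le_card h5
      rwa [card_range] at this
    have h5 : (2 ^ m) ^ 5 ≤ 256 ^ m := by
      rw [← pow_mul, mul_comm m 5, pow_mul]
      exact Nat.pow_le_pow_left (by norm_num) m
    have h6 : 5 * Q.card + 2 * (B + 1) * (2 ^ m) ^ 5 ≤ 256 ^ m * (1282 + 2 * B) := by
      calc 5 * Q.card + 2 * (B + 1) * (2 ^ m) ^ 5 ≤ 5 * 256 ^ (m + 1) + 2 * (B + 1) * 256 ^ m :=
            Nat.add_le_add (Nat.mul_le_mul_left _ h4) (Nat.mul_le_mul_left _ h5)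
        _ = 256 ^ m * (1282 + 2 * B) := by ring
    have h7 : ∑ p ∈ Q, hits a K s p ≤ (K / 2 ^ m + 1) * (256 ^ m * (1282 + 2 * B)) := by
      refine le_trans (le_of_eq rfl) (h3.trans (Nat.mul_le_mul_left _ h6))
    have h8 : ((∑ p ∈ Q, hits a K s p : ℕ) : ℝ) ≤ (((K / 2 ^ m + 1) * (256 ^ m * (1282 + 2 * B)) : ℕ) : ℝ) := by exact_mod_cast h7
    push_cast at h8
    refine h8.trans ?_
    apply mul_le_mul_of_nonneg_right _ (by positivity)
    have h9 : ((K / 2 ^ m : ℕ) : ℝ) ≤ (K : ℝ) / ((2 ^ m : ℕ) : ℝ) := Nat.cast_div_le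
    push_cast at h9
    linarith
  calc (3 / (256 : ℝ) ^ m * (18 * C * ((m : ℝ) + 2)) ^ 3) * ∑ p ∈ Q, (hits a K s p : ℝ) ≤
        (3 / (256 : ℝ) ^ m * (18 * C * ((m : ℝ) + 2)) ^ 3) * ((K / 2 ^ m + 1) * (((256 : ℝ) ^ m) * (1282 + 2 * B))) :=
        mul_le_mul_of_nonneg_left h2 (by positivity)
    _ = _ := by field_simp

/-- all primes -/
lemma rom_primes (B : ℕ) (hB : 1 ≤ B) (C : ℝ) (hC : 0 ≤ C) : ∃ C₁ : ℝ, 0 ≤ C₁ ∧ ∀ K : ℕ, 1 ≤ K → ∀ a : ℕ → ℕ, Bd B a → ∀ s : ℤ,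
    ∑ p ∈ (Icc 1 ((B + 3) * K)).filter Nat.Prime, wp C p * hits a K s p ≤ C₁ * K := by
  obtain ⟨T, hT0, hT⟩ := cube_sum
  refine ⟨(3 * (18 * C) ^ 3 * (1282 + 2 * B)) * (T + 16 * (B + 3)), by positivity, fun K hK a ha s => ?_⟩
  obtain ⟨Y, hY⟩ : ∃ Y, Y = (B + 3) * K := ⟨_, rfl⟩
  obtain ⟨D, hD⟩ : ∃ D : ℝ, D = 3 * (18 * C) ^ 3 * (1282 + 2 * B) := ⟨_, rfl⟩
  have hD0 : 0 ≤ D := by rw [hD]; positivity
  have hY1 : 1 ≤ Y := by rw [hY]; exact Nat.mul_pos (by omega) hK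
  rw [← hY, ← hD]
  have hmaps : ∀ p ∈ (Icc 1 Y).filter Nat.Prime, Nat.log 256 p ∈ range (Nat.log 256 Y + 1) := by
    intro p hp
    rw [mem_filter, mem_Icc] at hp
    rw [mem_range]
    exact Nat.lt_succ_of_le (Nat.log_mono_right hp.1.2)
  rw [← sum_fiberwise_of_maps_to hmaps]
  have h1 : ∀ m ∈ range (Nat.log 256 Y + 1), ∑ p ∈ ((Icc 1 Y).filter Nat.Prime).filter (fun p => Nat.log 256 p = m), wp C p * hits a K s p ≤
      D * (K * (((m : ℝ) + 2) ^ 3 / 2 ^ m) + ((m : ℝ) + 2) ^ 3) := by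
    intro m _
    rw [hD]
    apply group_sum ha hB C hC
    intro p hp
    rw [mem_filter, mem_filter, mem_Icc] at hp
    obtain ⟨⟨⟨g1, g2⟩, g3⟩, g4⟩ := hp
    refine ⟨g3, ?_, ?_⟩
    · rw [← g4]
      exact Nat.pow_log_le_self 256 (by omega)
    · rw [← g4]
      exact Nat.lt_pow_succ_log_self (by norm_num) p
  refine (sum_le_sum h1).trans ?_
  rw [← mul_sum, sum_add_distrib, ← mul_sum]
  have h2 := hT (Nat.log 256 Y + 1)
  have h3 : (∑ m ∈ range (Nat.log 256 Y + 1), ((m : ℝ) + 2) ^ 3 : ℝ) ≤ 16 * ((B : ℝ) + 3) * (K : ℝ) := by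
    obtain ⟨v, hv⟩ : ∃ v, v = Nat.log 256 Y := ⟨_, rfl⟩
    rw [← hv]
    have h4 : ∑ m ∈ range (v + 1), ((m : ℝ) + 2) ^ 3 ≤ ∑ _m ∈ range (v + 1), ((v : ℝ) + 2) ^ 3 := by
      apply sum_le_sum
      intro m hm
      rw [mem_range] at hm
      apply pow_le_pow_left₀ (by positivity)
      have : (m : ℝ) ≤ v := by exact_mod_cast (by omega : m ≤ v)
      linarith
    refine h4.trans ?_
    rw [sum_const, card_range, nsmul_eq_mul]
    have h5 : 256 ^ v ≤ Y := by rw [hv]; exact Nat.pow_log_le_self 256 (by omega)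
    have h6 : v + 2 ≤ 2 ^ (v + 1) := by
      have := Nat.lt_two_pow_self (n := v + 1)
      omega
    have h7 : (v + 1) * (v + 2) ^ 3 ≤ 16 * Y := by
      calc (v + 1) * (v + 2) ^ 3 ≤ (v + 2) * (v + 2) ^ 3 := Nat.mul_le_mul_right _ (by omega)
        _ = (v + 2) ^ 4 := by ring
        _ ≤ (2 ^ (v + 1)) ^ 4 := Nat.pow_le_pow_left h6 4
        _ = 16 * 16 ^ v := by rw [← pow_mul, show (v + 1) * 4 = 4 + 4 * v by ring, pow_add, pow_mul]; norm_num
        _ ≤ 16 * 256 ^ v := Nat.mul_le_mul_left _ (Nat.pow_le_pow_left (by norm_num) v)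
        _ ≤ 16 * Y := Nat.mul_le_mul_left _ h5
    have h8 : (((v + 1) * (v + 2) ^ 3 : ℕ) : ℝ) ≤ ((16 * Y : ℕ) : ℝ) := by exact_mod_cast h7
    rw [hY] at h8
    push_cast at h8 ⊢
    linarith
  have hK0 : (0 : ℝ) ≤ K := Nat.cast_nonneg K
  calc D * ((K : ℝ) * ∑ m ∈ range (Nat.log 256 Y + 1), ((m : ℝ) + 2) ^ 3 / 2 ^ m + ∑ m ∈ range (Nat.log 256 Y + 1), ((m : ℝ) + 2) ^ 3) ≤
        D * ((K : ℝ) * T + 16 * (B + 3) * K) := by
        apply mul_le_mul_of_nonneg_left _ hD0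
        exact add_le_add (mul_le_mul_of_nonneg_left h2 hK0) h3
    _ = _ := by ring

/-- Romanoff's sum -/
theorem rom_shiftC (B : ℕ) (hB : 1 ≤ B) : ∃ C : ℝ, 0 ≤ C ∧ ∀ K : ℕ, 1 ≤ K → ∀ a : ℕ → ℕ, Bd B a → ∀ J ⊆ range K,
    ∀ s : ℤ, |s| ≤ 3 * ((B : ℤ) + 1) ^ K →
    ∑ j ∈ J, (if (den a j : ℤ) + s = 0 then 0 else gg ((den a j : ℤ) + s).natAbs ^ 2) ≤ C * K := by
  classical
  obtain ⟨C, hC1, hC⟩ := mert_prod
  have hC0 : 0 ≤ C := by linarith
  obtain ⟨C₁, hC₁, hrom⟩ := rom_primes B hB C hC0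
  refine ⟨108 * (1 + C₁), by positivity, fun K hK a ha J hJ s hs => ?_⟩
  obtain ⟨Y, hY⟩ : ∃ Y, Y = (B + 3) * K := ⟨_, rfl⟩
  have hY1 : 1 ≤ Y := by rw [hY]; exact Nat.mul_pos (by omega) hK
  obtain ⟨P, hP⟩ : ∃ P, P = (Icc 1 Y).filter Nat.Prime := ⟨_, rfl⟩
  have hrom' := hrom K hK a ha s
  rw [← hY, ← hP] at hrom'
  -- size
  have hsize : ∀ j ∈ J, (den a j : ℤ) + s ≠ 0 → ((den a j : ℤ) + s).natAbs.primeFactors.card ≤ Y := by
    intro j hj hne
    have hj' := mem_range.1 (hJ hj)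
    apply card_pf
    · omega
    · have h1 : |(den a j : ℤ) + s| ≤ 4 * ((B : ℤ) + 1) ^ K := by
        refine (abs_add_le _ _).trans ?_
        have h2 : |(den a j : ℤ)| ≤ ((B : ℤ) + 1) ^ K := by
          rw [Nat.abs_cast]
          have h3 := (den_le_pow ha j).trans (Nat.pow_le_pow_right (by omega : 0 < B + 1) hj'.le)
          exact_mod_cast h3
        linarith
      have h2 : (((den a j : ℤ) + s).natAbs : ℤ) ≤ ((4 * (B + 1) ^ K : ℕ) : ℤ) := by
        rw [Int.natCast_natAbs]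
        push_cast
        exact h1
      have h3 : ((den a j : ℤ) + s).natAbs ≤ 4 * (B + 1) ^ K := by exact_mod_cast h2
      refine h3.trans ?_
      have h4 : (B + 1) ^ K ≤ 2 ^ ((B + 1) * K) := by
        rw [pow_mul]
        exact Nat.pow_le_pow_left Nat.lt_two_pow_self.le _
      calc 4 * (B + 1) ^ K ≤ 4 * 2 ^ ((B + 1) * K) := Nat.mul_le_mul_left _ h4
        _ = 2 ^ ((B + 1) * K + 2) := by ring
        _ ≤ 2 ^ Y := by
            apply Nat.pow_le_pow_right (by norm_num)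
            rw [hY]
            nlinarith
  -- each position
  have hpos : ∀ j ∈ J, (if (den a j : ℤ) + s = 0 then 0 else gg ((den a j : ℤ) + s).natAbs ^ 2) ≤
      108 * (1 + ∑ p ∈ P, (if (p : ℤ) ∣ den a j + s then wp C p else 0)) := by
    intro j hj
    have hnn : ∀ p ∈ P, 0 ≤ (if (p : ℤ) ∣ den a j + s then wp C p else 0) := by
      intro p _
      split_ifs
      · exact wp_nonneg C hC0 p
      · exact le_rfl
    have hnn' := sum_nonneg hnn
    by_cases hne : (den a j : ℤ) + s = 0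
    · rw [if_pos hne]
      positivity
    · rw [if_neg hne]
      have h1 := gg_sq_split 1 Y _ hY1 (hsize j hj hne)
      rw [← prod_eq_w3] at h1
      refine h1.trans ?_
      norm_num
      have h2 := prod_wp C hC0 hC ((((den a j : ℤ) + s).natAbs.primeFactors).filter (fun p => 1 < p ∧ p ≤ Y))
        (fun p hp => Nat.prime_of_mem_primeFactors (mem_filter.1 hp).1)
      refine h2.trans ?_
      rw [← sum_filter]
      apply add_le_add_right
      apply sum_le_sum_of_subset_of_nonneg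
      · intro p hp
        rw [mem_filter] at hp
        have hpp := Nat.prime_of_mem_primeFactors hp.1
        rw [mem_filter, hP, mem_filter, mem_Icc]
        exact ⟨⟨⟨hpp.one_le, hp.2.2⟩, hpp⟩, Int.natCast_dvd.2 (Nat.dvd_of_mem_primeFactors hp.1)⟩
      · intro p _ _
        exact wp_nonneg C hC0 p
  refine (sum_le_sum hpos).trans ?_
  rw [← mul_sum, sum_add_distrib, sum_const, nsmul_eq_mul, mul_one, mul_assoc 108]
  apply mul_le_mul_of_nonneg_left _ (by norm_num)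
  rw [add_mul, one_mul]
  apply add_le_add
  · have := card_le_card hJ
    rw [card_range] at this
    exact_mod_cast this
  · rw [sum_comm]
    refine le_trans ?_ hrom'
    apply sum_le_sum
    intro p _
    rw [← sum_filter, sum_const, nsmul_eq_mul, mul_comm]
    apply mul_le_mul_of_nonneg_left _ (wp_nonneg C hC0 p)
    have h1 : (J.filter (fun j => (p : ℤ) ∣ den a j + s)).card ≤ hits a K s p := by
      unfold hits
      exact card_le_card (filter_subset_filter _ hJ)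
    exact_mod_cast h1

end Pool.Agent.R461.CF
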