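import Pool.Agent.R461.CF.C8
import Pool.Agent.R461.CF.C10
import Pool.Agent.TH894.SM3

set_option autoImplicit false

/-! The fourth moment over the denominators. -/

namespace Pool.Agent.R461.CF

open Finset
open Pool.Agent.H807R2.Dav
open Pool.Agent.H373R2.T7
open Pool.Agent.W93.DG (FF logX)
open Pool.Agent.W93.HD
open Pool.Agent.TH894.SM (Ph yq fourth cor cor_FF cor_neg cor_nonneg cor_bound VV VV_nonneg)

lemma den_lt {B : ℕ} {a : ℕ → ℕ} (h : Bd B a) (n : ℕ) (hn : 1 ≤ n) : den a n < den a (n + 1) := by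
  obtain ⟨m, rfl⟩ : ∃ m, n = m + 1 := ⟨n - 1, by omega⟩
  rw [den_add]
  have h1 := (h (m + 2) (by omega)).1
  have h2 := den_pos h m
  have h3 : 1 * den a (m + 1) ≤ a (m + 2) * den a (m + 1) := Nat.mul_le_mul_right _ h1
  omega

lemma den_strict {B : ℕ} {a : ℕ → ℕ} (h : Bd B a) (m n : ℕ) (hm : 1 ≤ m) (hmn : m < n) : den a m < den a n :=
  lt_of_lt_of_le (den_lt h m hm) (den_monotone h hmn)

/-- few positions with a given denominator -/
lemma den_val {B : ℕ} {a : ℕ → ℕ} (h : Bd B a) (J : Finset ℕ) (v : ℕ) : (J.filter (fun j => den a j = v)).card ≤ 2 := by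
  classical
  have h1 : ((J.filter (fun j => den a j = v)).filter (fun j => 1 ≤ j)).card ≤ 1 := by
    apply card_le_one.2
    intro x hx y hy
    rw [mem_filter, mem_filter] at hx hy
    by_contra hne
    rcases Nat.lt_or_gt_of_ne hne with hlt | hlt
    · have := den_strict h x y hx.2 hlt
      omega
    · have := den_strict h y x hy.2 hlt
      omega
  have h2 : ((J.filter (fun j => den a j = v)).filter (fun j => ¬ 1 ≤ j)).card ≤ 1 := by
    apply card_le_one.2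
    intro x hx y hy
    rw [mem_filter] at hx hy
    omega
  have := card_filter_add_card_filter_not (s := J.filter (fun j => den a j = v)) (fun j => 1 ≤ j)
  omega

lemma pair_half {B : ℕ} {a : ℕ → ℕ} (h : Bd B a) (J : Finset ℕ) (s : ℕ) :
    ((J ×ˢ J).filter (fun p => den a p.1 + den a p.2 = s ∧ p.1 ≤ p.2)).card ≤ 6 := by
  classical
  obtain ⟨S, hS⟩ : ∃ S, S = (J ×ˢ J).filter (fun p => den a p.1 + den a p.2 = s ∧ p.1 ≤ p.2) := ⟨_, rfl⟩
  rw [← hS]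
  have hmem : ∀ p ∈ S, den a p.1 + den a p.2 = s ∧ p.1 ≤ p.2 ∧ p.1 ∈ J ∧ p.2 ∈ J := by
    intro p hp
    rw [hS, mem_filter, mem_product] at hp
    exact ⟨hp.2.1, hp.2.2, hp.1.1, hp.1.2⟩
  obtain ⟨I, hI⟩ : ∃ I, I = S.image (fun p => p.2) := ⟨_, rfl⟩
  have hIc : I.card ≤ 3 := by
    rcases I.eq_empty_or_nonempty with h0 | h0
    · rw [h0]; simp
    · obtain ⟨l, hl⟩ : ∃ l, l = I.min' h0 := ⟨_, rfl⟩
      have hlI : l ∈ I := by rw [hl]; exact min'_mem _ _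
      have hlmin : ∀ y ∈ I, l ≤ y := by rw [hl]; exact fun y hy => min'_le _ _ hy
      have hsub : I ⊆ Ico l (l + 3) := by
        intro y hy
        rw [mem_Ico]
        refine ⟨hlmin y hy, ?_⟩
        by_contra hcon
        push Not at hcon
        rw [hI, mem_image] at hlI hy
        obtain ⟨p, hp, hpl⟩ := hlI
        obtain ⟨p', hp', hpy⟩ := hy
        obtain ⟨a1, a2, _, _⟩ := hmem p hp
        obtain ⟨b1, b2, _, _⟩ := hmem p' hp'
        have c1 := den_monotone h a2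
        have c2 := den_pos h p'.1
        have c3 : den a (l + 3) ≤ den a y := den_monotone h hcon
        have c4 := den_two h l
        have c5 := den_pos h (l + 1)
        have c6 : den a (l + 3) = a (l + 3) * den a (l + 2) + den a (l + 1) := den_add (l + 1)
        have c7 := (h (l + 3) (by omega)).1
        have c8 : 1 * den a (l + 2) ≤ a (l + 3) * den a (l + 2) := Nat.mul_le_mul_right _ c7
        rw [hpl] at c1 a1
        rw [hpy] at b1
        omega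
      have := card_le_card hsub
      rwa [Nat.card_Ico, Nat.add_sub_cancel_left] at this
  have hmaps : ∀ p ∈ S, p.2 ∈ I := by
    intro p hp
    rw [hI, mem_image]
    exact ⟨p, hp, rfl⟩
  rw [card_eq_sum_card_fiberwise hmaps]
  have hfib : ∀ l ∈ I, (S.filter (fun p => p.2 = l)).card ≤ 2 := by
    intro l _
    refine le_trans ?_ (den_val h J (s - den a l))
    apply card_le_card_of_injOn (fun p => p.1)
    · intro p hp
      rw [mem_coe, mem_filter] at hp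
      obtain ⟨a1, _, a3, _⟩ := hmem p hp.1
      rw [mem_coe, mem_filter]
      refine ⟨a3, ?_⟩
      rw [hp.2] at a1
      show den a p.1 = s - den a l
      omega
    · intro p hp p' hp' hpp
      rw [mem_coe, mem_filter] at hp hp'
      exact Prod.ext hpp (hp.2.trans hp'.2.symm)
  refine (sum_le_card_nsmul _ _ _ hfib).trans ?_
  rw [smul_eq_mul]
  omega

lemma pair_cntC {B : ℕ} {a : ℕ → ℕ} (h : Bd B a) (J : Finset ℕ) (s : ℕ) :
    ((J ×ˢ J).filter (fun p => den a p.1 + den a p.2 = s)).card ≤ 12 := by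
  classical
  have h1 := pair_half h J s
  have h2 : ((J ×ˢ J).filter (fun p => den a p.1 + den a p.2 = s ∧ p.2 ≤ p.1)).card ≤ 6 := by
    refine le_trans ?_ h1
    apply card_le_card_of_injOn (fun p => (p.2, p.1))
    · intro p hp
      rw [mem_coe, mem_filter, mem_product] at hp ⊢
      exact ⟨⟨hp.1.2, hp.1.1⟩, by show den a p.2 + den a p.1 = s; rw [add_comm]; exact hp.2.1, hp.2.2⟩
    · intro p _ p' _ hpp
      simp only [Prod.mk.injEq] at hpp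
      exact Prod.ext hpp.2 hpp.1
  have h3 : (J ×ˢ J).filter (fun p => den a p.1 + den a p.2 = s) ⊆
      (J ×ˢ J).filter (fun p => den a p.1 + den a p.2 = s ∧ p.1 ≤ p.2) ∪ (J ×ˢ J).filter (fun p => den a p.1 + den a p.2 = s ∧ p.2 ≤ p.1) := by
    intro p hp
    rw [mem_filter] at hp
    rw [mem_union, mem_filter, mem_filter]
    rcases Nat.le_total p.1 p.2 with h | h
    · exact Or.inl ⟨hp.1, hp.2, h⟩
    · exact Or.inr ⟨hp.1, hp.2, h⟩
  have h4 := card_le_card h3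
  have h5 := card_union_le ((J ×ˢ J).filter (fun p => den a p.1 + den a p.2 = s ∧ p.1 ≤ p.2)) ((J ×ˢ J).filter (fun p => den a p.1 + den a p.2 = s ∧ p.2 ≤ p.1))
  omega

lemma yq_dlC (a : ℕ → ℕ) (σ : ℤ) (q : (ℕ × ℕ) × (ℕ × ℕ)) :
    yq (dlC a σ) q = σ * ((den a q.1.1 : ℤ) + (den a q.1.2 - den a q.2.1 - den a q.2.2)) := by
  unfold yq dlC
  ring

lemma zero_cntC {B : ℕ} {a : ℕ → ℕ} (h : Bd B a) (σ : ℤ) (hσ : σ = 1 ∨ σ = -1) (J : Finset ℕ) :
    ∑ q ∈ (J ×ˢ J) ×ˢ (J ×ˢ J), (if yq (dlC a σ) q = 0 then (1 : ℝ) else 0) ≤ 12 * (J.card : ℝ) ^ 2 := by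
  classical
  have hσ0 : σ ≠ 0 := by rcases hσ with rfl | rfl <;> norm_num
  rw [sum_product, sum_comm]
  have h1 : ∀ p' ∈ J ×ˢ J, ∑ p ∈ J ×ˢ J, (if yq (dlC a σ) (p, p') = 0 then (1 : ℝ) else 0) ≤ 12 := by
    intro p' _
    rw [← sum_filter, sum_const, nsmul_eq_mul, mul_one]
    have h2 := pair_cntC h J (den a p'.1 + den a p'.2)
    have h3 : (J ×ˢ J).filter (fun p => yq (dlC a σ) (p, p') = 0) = (J ×ˢ J).filter (fun p => den a p.1 + den a p.2 = den a p'.1 + den a p'.2) := by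
      apply filter_congr
      intro p _
      rw [yq_dlC]
      simp only
      constructor
      · intro h
        rcases mul_eq_zero.1 h with h | h
        · exact absurd h hσ0
        · have : ((den a p.1 + den a p.2 : ℕ) : ℤ) = ((den a p'.1 + den a p'.2 : ℕ) : ℤ) := by push_cast; linarith
          exact_mod_cast this
      · intro h
        have : ((den a p.1 + den a p.2 : ℕ) : ℤ) = ((den a p'.1 + den a p'.2 : ℕ) : ℤ) := by rw [h]
        push_cast at this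
        rw [mul_eq_zero]
        right
        linarith
    rw [h3]
    exact_mod_cast h2
  refine (sum_le_sum h1).trans (le_of_eq ?_)
  rw [sum_const, card_product, nsmul_eq_mul]
  push_cast
  ring

lemma natAbs_dlC (σ y : ℤ) (hσ : σ = 1 ∨ σ = -1) : (σ * y).natAbs = y.natAbs := by
  rcases hσ with rfl | rfl
  · rw [one_mul]
  · rw [neg_one_mul, Int.natAbs_neg]

/-- Romanoff's sum over four positions -/
theorem rom_fourC (B : ℕ) (hB : 1 ≤ B) : ∃ C : ℝ, 0 ≤ C ∧ ∀ K : ℕ, 1 ≤ K → ∀ a : ℕ → ℕ, Bd B a → ∀ σ : ℤ, (σ = 1 ∨ σ = -1) →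
    ∀ J ⊆ range K,
    ∑ q ∈ (J ×ˢ J) ×ˢ (J ×ˢ J), (if yq (dlC a σ) q = 0 then 0 else gg (yq (dlC a σ) q).natAbs ^ 2) ≤ C * K * (J.card : ℝ) ^ 3 := by
  classical
  obtain ⟨C, hC0, hC⟩ := rom_shiftC B hB
  refine ⟨C, hC0, fun K hK a ha σ hσ J hJ => ?_⟩
  have hσ0 : σ ≠ 0 := by rcases hσ with rfl | rfl <;> norm_num
  have hsmall : ∀ j ∈ J, (0 : ℤ) ≤ den a j ∧ (den a j : ℤ) ≤ ((B : ℤ) + 1) ^ K := by
    intro j hj
    have hj' := mem_range.1 (hJ hj)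
    have h3 := (den_le_pow ha j).trans (Nat.pow_le_pow_right (by omega : 0 < B + 1) hj'.le)
    exact ⟨Int.natCast_nonneg _, by exact_mod_cast h3⟩
  have h1 : ∑ q ∈ (J ×ˢ J) ×ˢ (J ×ˢ J), (if yq (dlC a σ) q = 0 then 0 else gg (yq (dlC a σ) q).natAbs ^ 2) =
      ∑ j₂ ∈ J, ∑ p' ∈ J ×ˢ J, ∑ j₁ ∈ J, (if yq (dlC a σ) ((j₁, j₂), p') = 0 then 0 else gg (yq (dlC a σ) ((j₁, j₂), p')).natAbs ^ 2) := by
    rw [sum_product, sum_product, sum_comm]
    apply sum_congr rfl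
    intro j₂ _
    rw [sum_comm]
  rw [h1]
  have h2 : ∀ j₂ ∈ J, ∀ p' ∈ J ×ˢ J, ∑ j₁ ∈ J, (if yq (dlC a σ) ((j₁, j₂), p') = 0 then 0 else gg (yq (dlC a σ) ((j₁, j₂), p')).natAbs ^ 2) ≤ C * K := by
    intro j₂ hj₂ p' hp'
    rw [mem_product] at hp'
    have h3 := hC K hK a ha J hJ ((den a j₂ : ℤ) - den a p'.1 - den a p'.2) (by
      have a1 := hsmall _ hj₂
      have a2 := hsmall _ hp'.1
      have a3 := hsmall _ hp'.2
      rw [abs_le]
      constructor <;> linarith)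
    refine le_trans (le_of_eq ?_) h3
    apply sum_congr rfl
    intro j₁ _
    rw [yq_dlC]
    simp only
    rw [natAbs_dlC σ _ hσ]
    by_cases h0 : (den a j₁ : ℤ) + ((den a j₂ : ℤ) - den a p'.1 - den a p'.2) = 0
    · rw [if_pos h0, if_pos (by rw [h0, mul_zero])]
    · rw [if_neg h0, if_neg (mul_ne_zero hσ0 h0)]
  have h3 : ∀ j₂ ∈ J, ∑ p' ∈ J ×ˢ J, ∑ j₁ ∈ J, (if yq (dlC a σ) ((j₁, j₂), p') = 0 then 0 else gg (yq (dlC a σ) ((j₁, j₂), p')).natAbs ^ 2) ≤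
      (J.card : ℝ) ^ 2 * (C * K) := by
    intro j₂ hj₂
    refine (sum_le_sum (h2 j₂ hj₂)).trans (le_of_eq ?_)
    rw [sum_const, card_product, nsmul_eq_mul]
    push_cast
    ring
  refine (sum_le_sum h3).trans (le_of_eq ?_)
  rw [sum_const, nsmul_eq_mul]
  ring

/-- the fourth moment -/
theorem VV_fourC (B : ℕ) (hB : 1 ≤ B) : ∃ C : ℝ, 0 ≤ C ∧ ∀ Ez : ℕ, ∃ k₀ : ℕ, ∀ k : ℕ, k₀ ≤ k → ∀ z : ℕ,
    Real.log ((2 ^ k : ℕ) : ℝ) ≤ z → (z : ℝ) ≤ Real.log ((2 ^ k : ℕ) : ℝ) ^ Ez → ∀ a : ℕ → ℕ, Bd B a → ∀ σ : ℤ, (σ = 1 ∨ σ = -1) →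
    ∀ g : ℕ, k ≤ 8 * B * g → 4 * den a g ≤ 2 ^ k →
    ∑ r ∈ range (2 ^ (k + 1)), ∑ r' ∈ range (2 ^ (k + 1)), VV z (2 ^ k) (2 ^ (k + 1)) r * VV z (2 ^ k) (2 ^ (k + 1)) r' *
        ‖Ph (dlC a σ) (Ico 0 g) (((r' : ℝ) - r) / ((2 ^ (k + 1) : ℕ) : ℝ))‖ ^ 4 ≤
      C * (((2 ^ (k + 1) : ℕ) : ℝ) * ((2 ^ k : ℕ) : ℝ)) ^ 2 * (g : ℝ) ^ 4 := by
  classical
  obtain ⟨C₁, hC₁, hcor⟩ := cor_bound 2 le_rfl
  obtain ⟨C₂, hC₂, hrom⟩ := rom_fourC B hB
  refine ⟨C₁ ^ 2 * (768 * B ^ 2 + C₂), by positivity, fun Ez => ?_⟩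
  obtain ⟨k₀, h0⟩ := hcor Ez
  refine ⟨k₀ + 3, fun k hk z hz1 hz2 a ha σ hσ g hkg hg4 => ?_⟩
  obtain ⟨hc0, hc1⟩ := h0 k (by omega) z hz1 hz2
  obtain ⟨X, hX⟩ : ∃ X, X = 2 ^ k := ⟨_, rfl⟩
  obtain ⟨M, hM⟩ : ∃ M, M = 2 ^ (k + 1) := ⟨_, rfl⟩
  rw [← hX] at hc0 hc1 hg4 ⊢
  rw [← hM]
  have hX0 : 0 < X := by rw [hX]; positivity
  have hMX : M = 2 * X := by rw [hM, hX, pow_succ']
  have hXM : 2 * X ≤ M := hMX.ge
  have hXr : (0 : ℝ) < X := by exact_mod_cast hX0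
  have hMr : (0 : ℝ) < M := by exact_mod_cast (by omega : 0 < M)
  have hg1 : 1 ≤ g := by
    rcases Nat.eq_zero_or_pos g with h | h
    · rw [h, mul_zero] at hkg
      omega
    · exact h
  obtain ⟨J, hJ⟩ : ∃ J, J = Ico 0 g := ⟨_, rfl⟩
  have hJc : J.card = g := by rw [hJ, Nat.card_Ico, Nat.sub_zero]
  have hJr : J ⊆ range g := by
    intro j hj
    rw [hJ, mem_Ico] at hj
    exact mem_range.2 hj.2
  rw [← hJ]
  obtain ⟨c, hc⟩ : ∃ c : ℤ → ℝ, c = fun y => cor (fun n => ArithmeticFunction.vonMangoldt n) X y + cor (lamz z) X y := ⟨_, rfl⟩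
  have hyq : ∀ q ∈ (J ×ˢ J) ×ˢ (J ×ˢ J), |yq (dlC a σ) q| ≤ (X : ℤ) := by
    intro q hq
    rw [mem_product, mem_product, mem_product] at hq
    have hb : ∀ j ∈ J, (0 : ℤ) ≤ den a j ∧ 4 * (den a j : ℤ) ≤ X := by
      intro j hj
      have h1 := den_monotone ha (mem_range.1 (hJr hj)).le
      refine ⟨Int.natCast_nonneg _, ?_⟩
      have : 4 * den a j ≤ X := (Nat.mul_le_mul_left 4 h1).trans hg4
      exact_mod_cast this
    have a0 := hb _ hq.1.1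
    have a1 := hb _ hq.1.2
    have a2 := hb _ hq.2.1
    have a3 := hb _ hq.2.2
    rw [yq_dlC]
    have : |σ * ((den a q.1.1 : ℤ) + (den a q.1.2 - den a q.2.1 - den a q.2.2))| = |(den a q.1.1 : ℤ) + (den a q.1.2 - den a q.2.1 - den a q.2.2)| := by
      rcases hσ with rfl | rfl
      · rw [one_mul]
      · rw [neg_one_mul, abs_neg]
    rw [this, abs_le]
    constructor <;> linarith
  have hV : ∀ y : ℤ, |y| ≤ (X : ℤ) → ∑ r ∈ range M, ((VV z X M r : ℝ) : ℂ) * ee (-((y : ℝ) * ((r : ℝ) / (M : ℝ)))) = ((M * c y : ℝ) : ℂ) := by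
    intro y hy
    have hyM : |y| + X ≤ M := by
      have : (2 * X : ℤ) ≤ M := by exact_mod_cast hXM
      linarith
    have a1 := cor_FF (fun n => ArithmeticFunction.vonMangoldt n) X M (by omega) y hyM
    have a2 := cor_FF (lamz z) X M (by omega) y hyM
    rw [hc]
    simp only
    rw [mul_add, Complex.ofReal_add, ← a1, ← a2, ← sum_add_distrib]
    apply sum_congr rfl
    intro r _
    unfold VV
    push_cast
    ring
  rw [fourth (dlC a σ) J M (VV z X M) c X hyq hV]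
  have hcn : ∀ y, c (-y) = c y := by
    intro y
    rw [hc]
    simp only
    rw [cor_neg, cor_neg]
  have hcp : ∀ y, 0 ≤ c y := by
    intro y
    rw [hc]
    exact add_nonneg (cor_nonneg _ (fun a => ArithmeticFunction.vonMangoldt_nonneg) X y) (cor_nonneg _ (lamz_nonneg z) X y)
  have hterm : ∀ q ∈ (J ×ˢ J) ×ˢ (J ×ˢ J), c (yq (dlC a σ) q) * c (-yq (dlC a σ) q) ≤
      (C₁ * X) ^ 2 * ((k : ℝ) ^ 2 * (if yq (dlC a σ) q = 0 then (1 : ℝ) else 0) + (if yq (dlC a σ) q = 0 then 0 else gg (yq (dlC a σ) q).natAbs ^ 2)) := by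
    intro q hq
    rw [hcn, ← sq]
    by_cases h : yq (dlC a σ) q = 0
    · rw [if_pos h, if_pos h, h, mul_one, add_zero, ← mul_pow]
      apply pow_le_pow_left₀ (hcp _)
      rw [hc]
      exact hc0
    · rw [if_neg h, if_neg h, mul_zero, zero_add, ← mul_pow]
      apply pow_le_pow_left₀ (hcp _)
      rw [hc]
      exact hc1 _ h (hyq q hq)
  have hsum := sum_le_sum hterm
  rw [← mul_sum, sum_add_distrib, ← mul_sum] at hsum
  have hz := zero_cntC ha σ hσ J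
  have hr := hrom g hg1 a ha σ hσ J hJr
  rw [hJc] at hz hr
  have hkgr : (k : ℝ) ≤ 8 * B * g := by exact_mod_cast hkg
  have hk0 : (0 : ℝ) ≤ k := Nat.cast_nonneg k
  have hg0 : (0 : ℝ) ≤ g := Nat.cast_nonneg _
  have hB0 : (0 : ℝ) ≤ B := Nat.cast_nonneg _
  have hfin : (k : ℝ) ^ 2 * ∑ q ∈ (J ×ˢ J) ×ˢ (J ×ˢ J), (if yq (dlC a σ) q = 0 then (1 : ℝ) else 0) +
      ∑ q ∈ (J ×ˢ J) ×ˢ (J ×ˢ J), (if yq (dlC a σ) q = 0 then 0 else gg (yq (dlC a σ) q).natAbs ^ 2) ≤ (768 * B ^ 2 + C₂) * (g : ℝ) ^ 4 := by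
    have a1 : (k : ℝ) ^ 2 * ∑ q ∈ (J ×ˢ J) ×ˢ (J ×ˢ J), (if yq (dlC a σ) q = 0 then (1 : ℝ) else 0) ≤ (8 * (B : ℝ) * g) ^ 2 * (12 * (g : ℝ) ^ 2) := by
      apply mul_le_mul (pow_le_pow_left₀ hk0 hkgr 2) hz _ (by positivity)
      exact sum_nonneg fun _ _ => by split_ifs <;> norm_num
    calc _ ≤ (8 * (B : ℝ) * g) ^ 2 * (12 * (g : ℝ) ^ 2) + C₂ * g * (g : ℝ) ^ 3 := add_le_add a1 hr
      _ = _ := by ring
  calc (M : ℝ) ^ 2 * ∑ q ∈ (J ×ˢ J) ×ˢ (J ×ˢ J), c (yq (dlC a σ) q) * c (-yq (dlC a σ) q) ≤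
      (M : ℝ) ^ 2 * ((C₁ * X) ^ 2 * ((768 * B ^ 2 + C₂) * (g : ℝ) ^ 4)) := by
        apply mul_le_mul_of_nonneg_left _ (by positivity)
        exact hsum.trans (mul_le_mul_of_nonneg_left hfin (by positivity))
    _ = _ := by ring

end Pool.Agent.R461.CF
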