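import Pool.Agent.R461.CF.C1

set_option autoImplicit false

/-! The residuals of the multiples of a real number by the denominators of the convergents. -/

namespace Pool.Agent.R461.CF

open Finset

/-- the distance (with sign) of `q_n α` from the nearest integer -/
noncomputable def rho (a : ℕ → ℕ) (n : ℕ) (α : ℝ) : ℝ := den a n * α - round (den a n * α)

/-- the defect of the recurrence for the nearest integers -/
noncomputable def DD (a : ℕ → ℕ) (n : ℕ) (α : ℝ) : ℤ :=
  round (den a (n + 2) * α) - a (n + 2) * round (den a (n + 1) * α) - round (den a n * α)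

open Classical in
/-- the number of positions in `[i, i + l)` whose residual is large -/
noncomputable def farc (a : ℕ → ℕ) (ε : ℝ) (i l : ℕ) (α : ℝ) : ℕ :=
  ((Ico i (i + l)).filter (fun n => ε < |rho a n α|)).card

lemma rho_abs (a : ℕ → ℕ) (n : ℕ) (α : ℝ) : |rho a n α| ≤ 1 / 2 := abs_sub_round _

lemma DD_eq (a : ℕ → ℕ) (n : ℕ) (α : ℝ) :
    (DD a n α : ℝ) = -(rho a (n + 2) α - a (n + 2) * rho a (n + 1) α - rho a n α) := by
  unfold DD rho
  rw [den_add]
  push_cast
  ring

lemma DD_abs {B : ℕ} {a : ℕ → ℕ} (h : Bd B a) (n : ℕ) (α : ℝ) : |DD a n α| ≤ (B : ℤ) + 1 := by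
  have h1 := DD_eq a n α
  have h2 := abs_le.1 (rho_abs a n α)
  have h3 := abs_le.1 (rho_abs a (n + 1) α)
  have h4 := abs_le.1 (rho_abs a (n + 2) α)
  have ha : (a (n + 2) : ℝ) ≤ B := by exact_mod_cast (h (n + 2) (by omega)).2
  have ha0 : (0 : ℝ) ≤ a (n + 2) := Nat.cast_nonneg _
  have h5 : |(DD a n α : ℝ)| ≤ (B : ℝ) + 1 := by
    rw [h1, abs_le]
    constructor <;> nlinarith
  have : ((|DD a n α| : ℤ) : ℝ) ≤ (((B : ℤ) + 1 : ℤ) : ℝ) := by
    push_cast
    exact h5
  exact_mod_cast this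

lemma DD_zero {B : ℕ} {a : ℕ → ℕ} (h : Bd B a) {ε : ℝ} (hε0 : 0 ≤ ε) (hε : (B + 2) * ε < 1) (n : ℕ) (α : ℝ)
    (h0 : |rho a n α| ≤ ε) (h1 : |rho a (n + 1) α| ≤ ε) (h2 : |rho a (n + 2) α| ≤ ε) : DD a n α = 0 := by
  have e1 := DD_eq a n α
  have h2' := abs_le.1 h0
  have h3 := abs_le.1 h1
  have h4 := abs_le.1 h2
  have ha : (a (n + 2) : ℝ) ≤ B := by exact_mod_cast (h (n + 2) (by omega)).2
  have ha0 : (0 : ℝ) ≤ a (n + 2) := Nat.cast_nonneg _
  have h5 : |(DD a n α : ℝ)| < 1 := by
    rw [e1, abs_lt]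
    constructor <;> nlinarith
  have : ((|DD a n α| : ℤ) : ℝ) < ((1 : ℤ) : ℝ) := by
    push_cast
    exact h5
  have h6 : |DD a n α| < 1 := by exact_mod_cast this
  exact abs_eq_zero.1 (le_antisymm (by omega) (abs_nonneg _))

/-- the nearest integers are determined by two of them and the defects -/
lemma det_z (a : ℕ → ℕ) (i l : ℕ) (α α' : ℝ) (h0 : round (den a i * α) = round (den a i * α'))
    (h1 : round (den a (i + 1) * α) = round (den a (i + 1) * α'))
    (hD : ∀ j < l, DD a (i + j) α = DD a (i + j) α') :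
    ∀ j ≤ l + 1, round (den a (i + j) * α) = round (den a (i + j) * α') := by
  have key : ∀ j ≤ l, round (den a (i + j) * α) = round (den a (i + j) * α') ∧
      round (den a (i + j + 1) * α) = round (den a (i + j + 1) * α') := by
    intro j
    induction j with
    | zero => intro _; exact ⟨h0, h1⟩
    | succ j ih =>
      intro hj
      obtain ⟨g0, g1⟩ := ih (by omega)
      refine ⟨g1, ?_⟩
      have g2 := hD j (by omega)
      unfold DD at g2
      rw [g0, g1] at g2
      have e : i + (j + 1) + 1 = i + j + 2 := by ring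
      rw [e]
      linarith
  intro j hj
  rcases Nat.lt_or_ge j (l + 1) with h | h
  · exact (key j (by omega)).1
  · have : j = l + 1 := by omega
    rw [this]
    exact (key l le_rfl).2

/-- the code of a defect -/
def code (B : ℕ) (D : ℤ) : ℕ := if D = 0 then 0 else (D + (B + 2)).toNat

lemma code_inj (B : ℕ) (D D' : ℤ) (h : |D| ≤ (B : ℤ) + 1) (h' : |D'| ≤ (B : ℤ) + 1) (he : code B D = code B D') : D = D' := by
  rw [abs_le] at h h'
  unfold code at he
  split_ifs at he <;> omega

lemma code_le (B : ℕ) (D : ℤ) (h : |D| ≤ (B : ℤ) + 1) : code B D ≤ 2 * B + 3 := by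
  rw [abs_le] at h
  unfold code
  split_ifs <;> omega

lemma code_ne (B : ℕ) (D : ℤ) (h : code B D ≠ 0) : D ≠ 0 := by
  rintro rfl
  simp [code] at h

/-- the pattern of `α` on the window which begins with `i` -/
noncomputable def pt (B : ℕ) (a : ℕ → ℕ) (i l : ℕ) (α : ℝ) : Fin l → ℕ := fun j => code B (DD a (i + j) α)

lemma pt_mem {B : ℕ} {a : ℕ → ℕ} (h : Bd B a) {ε : ℝ} (hε0 : 0 ≤ ε) (hε : (B + 2) * ε < 1) (i l T : ℕ) (α : ℝ)
    (hT : farc a ε i (l + 2) α ≤ T) : pt B a i l α ∈ Pat l (2 * B + 3) (3 * T) := by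
  classical
  unfold Pat
  rw [mem_filter, Fintype.mem_piFinset]
  refine ⟨fun j => ?_, ?_⟩
  · rw [mem_range]
    have := code_le B _ (DD_abs h (i + j) α)
    unfold pt
    omega
  · have h1 : (univ.filter (fun j : Fin l => pt B a i l α j ≠ 0)).card ≤
        ((range l).filter (fun j => DD a (i + j) α ≠ 0)).card := by
      apply card_le_card_of_injOn (fun j : Fin l => (j : ℕ))
      · intro j hj
        rw [mem_coe, mem_filter] at hj ⊢
        exact ⟨mem_range.2 j.2, code_ne B _ hj.2⟩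
      · intro j _ j' _ hjj
        exact Fin.ext hjj
    have h2 : ∀ e : ℕ, e ≤ 2 → ((range l).filter (fun j => ε < |rho a (i + j + e) α|)).card ≤ T := by
      intro e he
      refine le_trans ?_ hT
      unfold farc
      apply card_le_card_of_injOn (fun j => i + j + e)
      · intro j hj
        rw [mem_coe, mem_filter, mem_range] at hj
        have : i + j + e ∈ (Ico i (i + (l + 2))).filter (fun n => ε < |rho a n α|) :=
          mem_filter.2 ⟨mem_Ico.2 ⟨by omega, by omega⟩, hj.2⟩
        exact this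
      · intro j _ j' _ hjj
        simp only at hjj
        omega
    have h3 : (range l).filter (fun j => DD a (i + j) α ≠ 0) ⊆
        ((range l).filter (fun j => ε < |rho a (i + j + 0) α|)) ∪
        (((range l).filter (fun j => ε < |rho a (i + j + 1) α|)) ∪
        ((range l).filter (fun j => ε < |rho a (i + j + 2) α|))) := by
      intro j hj
      rw [mem_filter] at hj
      rw [mem_union, mem_union, mem_filter, mem_filter, mem_filter]
      by_contra hcon
      push Not at hcon
      obtain ⟨c0, c1, c2⟩ := hcon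
      exact hj.2 (DD_zero h hε0 hε (i + j) α (c0 hj.1) (c1 hj.1) (c2 hj.1))
    refine h1.trans ((card_le_card h3).trans ((card_union_le _ _).trans ?_))
    have h4 := card_union_le ((range l).filter (fun j => ε < |rho a (i + j + 1) α|)) ((range l).filter (fun j => ε < |rho a (i + j + 2) α|))
    have a0 := h2 0 (by omega)
    have a1 := h2 1 (by omega)
    have a2 := h2 2 (by omega)
    omega

lemma pt_eq {B : ℕ} {a : ℕ → ℕ} (h : Bd B a) (i l : ℕ) (α α' : ℝ) (he : pt B a i l α = pt B a i l α') :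
    ∀ j < l, DD a (i + j) α = DD a (i + j) α' := by
  intro j hj
  have := congrFun he ⟨j, hj⟩
  exact code_inj B _ _ (DD_abs h _ _) (DD_abs h _ _) this

lemma round_mono' {x y : ℝ} (h : x ≤ y) : round x ≤ round y := by
  rw [round_eq, round_eq]
  exact Int.floor_le_floor (by linarith)

/-- the number of frequencies in an interval which have few large residuals in a window -/
theorem count_W {B : ℕ} {a : ℕ → ℕ} (h : Bd B a) {ε : ℝ} (hε0 : 0 ≤ ε) (hε : (B + 2) * ε < 1) (M : ℕ) (hM : 1 ≤ M) (i l T : ℕ)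
    (y₀ Len : ℕ) (S : Finset ℕ) (hS : ∀ y ∈ S, y₀ ≤ y ∧ y ≤ y₀ + Len ∧ farc a ε i (l + 2) ((y : ℝ) / M) ≤ T) :
    S.card ≤ (M / den a (i + l + 1) + 1) * ((den a (i + 1) * Len / M + 2) * (3 * (Pat l (2 * B + 3) (3 * T)).card)) := by
  classical
  have hM0 : (0 : ℝ) < M := by exact_mod_cast hM
  have hq1 : 1 ≤ den a (i + 1) := den_pos h _
  have hq10 : (0 : ℝ) < den a (i + 1) := by exact_mod_cast hq1
  have hqt : 1 ≤ den a (i + l + 1) := den_pos h _
  have hqt0 : (0 : ℝ) < den a (i + l + 1) := by exact_mod_cast hqt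
  obtain ⟨f, hf⟩ : ∃ f : ℕ → ℕ × ℕ × (Fin l → ℕ), f = fun y : ℕ =>
    ((round (den a (i + 1) * ((y : ℝ) / M)) - round (den a (i + 1) * ((y₀ : ℝ) / M))).toNat,
      (round (den a i * ((y : ℝ) / M)) - round ((den a i : ℝ) * round (den a (i + 1) * ((y : ℝ) / M)) / den a (i + 1)) + 1).toNat,
      pt B a i l ((y : ℝ) / M)) := ⟨_, rfl⟩
  have hr1 : ∀ y ∈ S, 0 ≤ round (den a (i + 1) * ((y : ℝ) / M)) - round (den a (i + 1) * ((y₀ : ℝ) / M)) ∧
      round (den a (i + 1) * ((y : ℝ) / M)) - round (den a (i + 1) * ((y₀ : ℝ) / M)) ≤ ((den a (i + 1) * Len / M + 1 : ℕ) : ℤ) := by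
    intro y hy
    obtain ⟨g1, g2, _⟩ := hS y hy
    have g1' : (y₀ : ℝ) ≤ y := by exact_mod_cast g1
    have g2' : (y : ℝ) ≤ y₀ + Len := by exact_mod_cast g2
    have e1 := abs_le.1 (abs_sub_round ((den a (i + 1) : ℝ) * ((y : ℝ) / M)))
    have e2 := abs_le.1 (abs_sub_round ((den a (i + 1) : ℝ) * ((y₀ : ℝ) / M)))
    constructor
    · have : round ((den a (i + 1) : ℝ) * ((y₀ : ℝ) / M)) ≤ round ((den a (i + 1) : ℝ) * ((y : ℝ) / M)) := by
        apply round_mono'
        apply mul_le_mul_of_nonneg_left _ hq10.le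
        exact div_le_div_of_nonneg_right g1' hM0.le
      omega
    · have e3 : (den a (i + 1) : ℝ) * ((y : ℝ) / M) ≤ (den a (i + 1) : ℝ) * ((y₀ : ℝ) / M) + den a (i + 1) * Len / M := by
        rw [mul_div_assoc', mul_div_assoc', ← add_div]
        apply div_le_div_of_nonneg_right _ hM0.le
        nlinarith
      obtain ⟨W, hW⟩ : ∃ W, W = den a (i + 1) * Len / M := ⟨_, rfl⟩
      have e4 : ((den a (i + 1) * Len : ℕ) : ℝ) / M < ((W + 1 : ℕ) : ℝ) := by
        rw [div_lt_iff₀ hM0]
        have : den a (i + 1) * Len < M * (den a (i + 1) * Len / M + 1) := Nat.lt_mul_div_succ _ (by omega)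
        have : den a (i + 1) * Len < (W + 1) * M := by rw [mul_comm (W + 1), hW]; exact this
        exact_mod_cast this
      rw [← hW]
      push_cast at e4
      have e5 : ((round ((den a (i + 1) : ℝ) * ((y : ℝ) / M)) - round ((den a (i + 1) : ℝ) * ((y₀ : ℝ) / M)) : ℤ) : ℝ) <
          (((W : ℤ) + 2 : ℤ) : ℝ) := by
        push_cast
        linarith
      have e7 : round ((den a (i + 1) : ℝ) * ((y : ℝ) / M)) - round ((den a (i + 1) : ℝ) * ((y₀ : ℝ) / M)) <
          (W : ℤ) + 2 := by exact_mod_cast e5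
      push_cast
      omega
  have hr2 : ∀ y : ℕ, 0 ≤ round (den a i * ((y : ℝ) / M)) - round ((den a i : ℝ) * round (den a (i + 1) * ((y : ℝ) / M)) / den a (i + 1)) + 1 ∧
      round (den a i * ((y : ℝ) / M)) - round ((den a i : ℝ) * round (den a (i + 1) * ((y : ℝ) / M)) / den a (i + 1)) + 1 ≤ 2 := by
    intro y
    have e1 := abs_le.1 (abs_sub_round ((den a (i + 1) : ℝ) * ((y : ℝ) / M)))
    have e2 := abs_le.1 (abs_sub_round ((den a i : ℝ) * ((y : ℝ) / M)))
    have e3 := abs_le.1 (abs_sub_round ((den a i : ℝ) * round (den a (i + 1) * ((y : ℝ) / M)) / den a (i + 1)))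
    have hqq : (den a i : ℝ) ≤ den a (i + 1) := by exact_mod_cast den_mono h i
    have hq0 : (0 : ℝ) ≤ den a i := Nat.cast_nonneg _
    have e4 : |(den a i : ℝ) * ((y : ℝ) / M) - (den a i : ℝ) * round (den a (i + 1) * ((y : ℝ) / M)) / den a (i + 1)| ≤ 1 / 2 := by
      have e5 : (den a i : ℝ) * ((y : ℝ) / M) - (den a i : ℝ) * round (den a (i + 1) * ((y : ℝ) / M)) / den a (i + 1) =
          (den a i / den a (i + 1)) * ((den a (i + 1) : ℝ) * ((y : ℝ) / M) - round (den a (i + 1) * ((y : ℝ) / M))) := by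
        field_simp
      rw [e5, abs_mul]
      have e6 : |(den a i : ℝ) / den a (i + 1)| ≤ 1 := by
        rw [abs_of_nonneg (by positivity), div_le_one hq10]
        exact hqq
      have e7 := abs_sub_round ((den a (i + 1) : ℝ) * ((y : ℝ) / M))
      calc |(den a i : ℝ) / den a (i + 1)| * |(den a (i + 1) : ℝ) * ((y : ℝ) / M) - round (den a (i + 1) * ((y : ℝ) / M))| ≤
          1 * (1 / 2) := mul_le_mul e6 e7 (abs_nonneg _) (by norm_num)
        _ = 1 / 2 := by norm_num
    have e5 := abs_le.1 e4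
    obtain ⟨u, hu⟩ : ∃ u, u = round (den a i * ((y : ℝ) / M)) := ⟨_, rfl⟩
    obtain ⟨v, hv⟩ : ∃ v, v = round ((den a i : ℝ) * round (den a (i + 1) * ((y : ℝ) / M)) / den a (i + 1)) := ⟨_, rfl⟩
    rw [← hu] at e2 ⊢
    rw [← hv] at e3 ⊢
    have f1 : ((u - v : ℤ) : ℝ) < ((2 : ℤ) : ℝ) := by push_cast; linarith [e2.1, e3.2, e5.2]
    have f2 : ((-2 : ℤ) : ℝ) < ((u - v : ℤ) : ℝ) := by push_cast; linarith [e2.2, e3.1, e5.1]
    have f1' : u - v < 2 := by exact_mod_cast f1
    have f2' : -2 < u - v := by exact_mod_cast f2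
    omega
  have hmaps : ∀ y ∈ S, f y ∈ range (den a (i + 1) * Len / M + 2) ×ˢ (range 3 ×ˢ Pat l (2 * B + 3) (3 * T)) := by
    intro y hy
    have g1 := hr1 y hy
    have g2 := hr2 y
    rw [hf, mem_product, mem_product, mem_range, mem_range]
    simp only
    refine ⟨by omega, by omega, pt_mem h hε0 hε i l T _ (hS y hy).2.2⟩
  have hfib : ∀ b ∈ range (den a (i + 1) * Len / M + 2) ×ˢ (range 3 ×ˢ Pat l (2 * B + 3) (3 * T)),
      (S.filter (fun y => f y = b)).card ≤ M / den a (i + l + 1) + 1 := by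
    intro b _
    rcases (S.filter (fun y => f y = b)).eq_empty_or_nonempty with h0 | h0
    · rw [h0, card_empty]; exact Nat.zero_le _
    obtain ⟨u, hu⟩ : ∃ u, u = (S.filter (fun y => f y = b)).min' h0 := ⟨_, rfl⟩
    have hum : u ∈ S.filter (fun y => f y = b) := by rw [hu]; exact min'_mem _ _
    have hsub : S.filter (fun y => f y = b) ⊆ Icc u (u + M / den a (i + l + 1)) := by
      intro y hy
      have huy : u ≤ y := by rw [hu]; exact min'_le _ _ hy
      rw [mem_Icc]
      refine ⟨huy, ?_⟩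
      rw [mem_filter] at hy hum
      have hfe : f y = f u := by rw [hy.2, hum.2]
      rw [hf] at hfe
      simp only [Prod.mk.injEq] at hfe
      obtain ⟨k1, k2, k3⟩ := hfe
      have g1 := hr1 y hy.1
      have g1' := hr1 u hum.1
      have k4 : round (den a (i + 1) * ((y : ℝ) / M)) = round (den a (i + 1) * ((u : ℝ) / M)) := by omega
      have g2 := hr2 y
      have g2' := hr2 u
      rw [k4] at k2 g2
      have k5 : round (den a i * ((y : ℝ) / M)) = round (den a i * ((u : ℝ) / M)) := by omega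
      have k6 := det_z a i l _ _ k5 k4 (pt_eq h i l _ _ k3) (l + 1) le_rfl
      rw [← add_assoc] at k6
      have e1 := abs_le.1 (abs_sub_round ((den a (i + l + 1) : ℝ) * ((y : ℝ) / M)))
      have e2 := abs_le.1 (abs_sub_round ((den a (i + l + 1) : ℝ) * ((u : ℝ) / M)))
      rw [k6] at e1
      have e3 : (den a (i + l + 1) : ℝ) * ((y : ℝ) / M) - (den a (i + l + 1) : ℝ) * ((u : ℝ) / M) ≤ 1 := by linarith [e1.2, e2.1]
      have e4 : ((y : ℝ) - u) * den a (i + l + 1) ≤ M := by
        have e5 : (den a (i + l + 1) : ℝ) * ((y : ℝ) / M) - (den a (i + l + 1) : ℝ) * ((u : ℝ) / M) = ((y : ℝ) - u) * den a (i + l + 1) / M := by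
          field_simp
        rw [e5, div_le_one hM0] at e3
        exact e3
      obtain ⟨d, hd⟩ : ∃ d, y = u + d := ⟨y - u, by omega⟩
      rw [hd] at e4 ⊢
      push_cast at e4
      have e6 : ((d * den a (i + l + 1) : ℕ) : ℝ) ≤ (M : ℝ) := by push_cast; linarith
      have e7 : d * den a (i + l + 1) ≤ M := by exact_mod_cast e6
      have e8 : d ≤ M / den a (i + l + 1) := (Nat.le_div_iff_mul_le (by omega)).2 e7
      omega
    refine (card_le_card hsub).trans (le_of_eq ?_)
    rw [Nat.card_Icc]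
    have : ∀ u x : ℕ, u + x + 1 - u = x + 1 := fun u x => by omega
    exact this _ _
  have := card_le_mul_card_image_of_maps_to hmaps _ hfib
  rw [card_product, card_product, card_range, card_range] at this
  exact this

end Pool.Agent.R461.CF
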