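import Pool.Agent.R461.CF.C2

set_option autoImplicit false

/-! Frequencies near fractions with small denominators. -/

namespace Pool.Agent.R461.CF

open Finset

lemma rho_near (a : ℕ → ℕ) (n : ℕ) (α α' ε δ : ℝ) (h1 : |rho a n α| ≤ ε) (h2 : den a n * |α - α'| ≤ δ) :
    |rho a n α'| ≤ ε + δ := by
  have h3 := round_le ((den a n : ℝ) * α') (round ((den a n : ℝ) * α))
  have h4 : |(den a n : ℝ) * α' - round ((den a n : ℝ) * α)| ≤ |rho a n α| + den a n * |α - α'| := by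
    have e1 : (den a n : ℝ) * α' - round ((den a n : ℝ) * α) = rho a n α + (-(den a n * (α - α'))) := by
      unfold rho; ring
    rw [e1]
    refine (abs_add_le _ _).trans ?_
    rw [abs_neg, abs_mul, abs_of_nonneg (show (0 : ℝ) ≤ den a n from Nat.cast_nonneg _)]
  unfold rho at h1 h4 ⊢
  linarith

lemma farc_near {B : ℕ} {a : ℕ → ℕ} (h : Bd B a) (i l : ℕ) (α α' ε δ : ℝ) (hδ : den a (i + l + 1) * |α - α'| ≤ δ) :
    farc a (ε + δ) i (l + 2) α' ≤ farc a ε i (l + 2) α := by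
  classical
  unfold farc
  apply card_le_card
  intro n hn
  rw [mem_filter, mem_Ico] at hn ⊢
  refine ⟨hn.1, ?_⟩
  by_contra hcon
  rw [not_lt] at hcon
  have h1 : den a n * |α - α'| ≤ δ := by
    refine le_trans ?_ hδ
    apply mul_le_mul_of_nonneg_right _ (abs_nonneg _)
    exact_mod_cast den_monotone h (by omega)
  exact absurd (rho_near a n α α' ε δ hcon h1) (not_le.2 hn.2)

/-- fractions with small denominators and equal patterns are equal modulo one -/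
lemma frac_eq {B : ℕ} {a : ℕ → ℕ} (h : Bd B a) (i n Q : ℕ) (θ : ℝ) (q q' : ℕ) (c c' : ℤ) (hq : 1 ≤ q) (hq' : 1 ≤ q')
    (hqQ : q ≤ Q) (hqQ' : q' ≤ Q) (hn : 2 * (Q * Q + 1) ≤ 2 ^ n)
    (hD : ∀ j < 4 * n, DD a (i + j) (θ + c / q) = DD a (i + j) (θ + c' / q')) : ∃ g : ℤ, (c : ℝ) / q - c' / q' = g := by
  have hq0 : (0 : ℝ) < q := by exact_mod_cast hq
  have hq0' : (0 : ℝ) < q' := by exact_mod_cast hq'
  obtain ⟨Y, hY⟩ : ∃ Y : ℕ → ℤ, Y = fun j => (q' : ℤ) * c * den a (i + j) - q * c' * den a (i + j) -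
      q * q' * (round ((den a (i + j) : ℝ) * (θ + c / q)) - round ((den a (i + j) : ℝ) * (θ + c' / q'))) := ⟨_, rfl⟩
  have hYr : ∀ j, (Y j : ℝ) = q * q' * (rho a (i + j) (θ + c / q) - rho a (i + j) (θ + c' / q')) := by
    intro j
    rw [hY]
    unfold rho
    push_cast
    field_simp
    ring
  have hmid := middle Y (fun j => (a (i + j + 2) : ℤ)) n ((Q * Q + 1 : ℕ) : ℤ) (fun j => by
      have := (h (i + j + 2) (by omega)).1
      exact_mod_cast this) ?_ ?_ (by exact_mod_cast hn)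
  · obtain ⟨m1, m2⟩ := hmid
    have hcop : IsCoprime (den a (i + 2 * n) : ℤ) (den a (i + (2 * n + 1)) : ℤ) :=
      Nat.isCoprime_iff_coprime.2 (den_coprime (i + 2 * n))
    obtain ⟨u, v, huv⟩ := hcop
    rw [hY] at m1 m2
    simp only at m1 m2
    obtain ⟨z1, hz1⟩ : ∃ z1, z1 = round ((den a (i + 2 * n) : ℝ) * (θ + c / q)) - round ((den a (i + 2 * n) : ℝ) * (θ + c' / q')) := ⟨_, rfl⟩
    obtain ⟨z2, hz2⟩ : ∃ z2, z2 = round ((den a (i + (2 * n + 1)) : ℝ) * (θ + c / q)) -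
      round ((den a (i + (2 * n + 1)) : ℝ) * (θ + c' / q')) := ⟨_, rfl⟩
    rw [← hz1] at m1
    rw [← hz2] at m2
    refine ⟨u * z1 + v * z2, ?_⟩
    have k1 : (q' : ℤ) * c - q * c' = q * q' * (u * z1 + v * z2) := by
      linear_combination (-((q' : ℤ) * c - q * c')) * huv + u * m1 + v * m2
    have k2 : (q' : ℝ) * c - q * c' = q * q' * (u * z1 + v * z2) := by exact_mod_cast k1
    rw [div_sub_div _ _ hq0.ne' hq0'.ne', div_eq_iff (by positivity)]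
    push_cast
    linarith
  · intro j hj
    have hDj := hD j (by omega)
    unfold DD at hDj
    rw [hY]
    simp only
    have e1 : i + (j + 2) = i + j + 2 := by ring
    have e2 : i + (j + 1) = i + j + 1 := by ring
    rw [e1, e2]
    have hd : (den a (i + j + 2) : ℤ) = a (i + j + 2) * den a (i + j + 1) + den a (i + j) := by
      rw [den_add]; push_cast; ring
    rw [hd]
    linear_combination (-((q : ℤ) * q')) * hDj
  · intro j _
    have h1 := hYr j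
    have h2 := rho_abs a (i + j) (θ + c / q)
    have h3 := rho_abs a (i + j) (θ + c' / q')
    have h4 : |(Y j : ℝ)| ≤ ((q * q' : ℕ) : ℝ) := by
      rw [h1, abs_mul, abs_of_nonneg (by positivity)]
      push_cast
      have h5 : |rho a (i + j) (θ + c / q) - rho a (i + j) (θ + c' / q')| ≤ 1 := by
        refine (abs_sub _ _).trans ?_
        linarith
      calc (q : ℝ) * q' * |rho a (i + j) (θ + c / q) - rho a (i + j) (θ + c' / q')| ≤ q * q' * 1 :=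
            mul_le_mul_of_nonneg_left h5 (by positivity)
        _ = _ := by ring
    have h5 : q * q' ≤ Q * Q := Nat.mul_le_mul hqQ hqQ'
    have h6 : |Y j| ≤ ((q * q' : ℕ) : ℤ) := by
      have : ((|Y j| : ℤ) : ℝ) ≤ (((q * q' : ℕ) : ℤ) : ℝ) := by push_cast; push_cast at h4; exact h4
      exact_mod_cast this
    have h7 : ((q * q' : ℕ) : ℤ) < ((Q * Q + 1 : ℕ) : ℤ) := by exact_mod_cast (by omega : q * q' < Q * Q + 1)
    exact lt_of_le_of_lt h6 h7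

/-- the number of frequencies near fractions with small denominators -/
theorem count_S {B : ℕ} {a : ℕ → ℕ} (h : Bd B a) {ε : ℝ} (hε0 : 0 ≤ ε) (hε : (B + 2) * (ε + ε) < 1) (M : ℕ) (hM : 1 ≤ M)
    (i : ℕ → ℕ) (nb n Q j₃ r₀ T : ℕ) (hn : 2 * (Q * Q + 1) ≤ 2 ^ n)
    (hβ : ∀ w < nb, (den a (i w + 4 * n + 1) : ℝ) * 2 ^ (j₃ + 1) ≤ ε * M) (hM2 : 2 ^ (j₃ + 2) < M) (P : ℕ → Prop) (G : ℕ)
    (hG : ∀ y₀ : ℕ, ∀ S' : Finset ℕ, (∀ y ∈ S', y₀ ≤ y ∧ y ≤ y₀ + 2 ^ (j₃ + 3) ∧ P y) → S'.card ≤ G) (S : Finset ℕ)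
    (hS : ∀ x ∈ S, x < M ∧ (∃ q : ℕ, ∃ c : ℤ, 1 ≤ q ∧ q ≤ Q ∧ |(x : ℤ) * q - c * M| ≤ q * 2 ^ (j₃ + 1)) ∧
      (∃ w < nb, farc a ε (i w) (4 * n + 2) (((x + r₀ : ℕ) : ℝ) / M) ≤ T) ∧ P (x + r₀)) :
    S.card ≤ (3 * G) * (nb * (Pat (4 * n) (2 * B + 3) (3 * T)).card) := by
  classical
  have hM0 : (0 : ℝ) < M := by exact_mod_cast hM
  have hex : ∀ x : ℕ, ∃ d : ℕ × ℕ × ℤ, x ∈ S → (d.1 < nb ∧ farc a ε (i d.1) (4 * n + 2) (((x + r₀ : ℕ) : ℝ) / M) ≤ T ∧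
      1 ≤ d.2.1 ∧ d.2.1 ≤ Q ∧ |(x : ℤ) * d.2.1 - d.2.2 * M| ≤ d.2.1 * 2 ^ (j₃ + 1)) := by
    intro x
    by_cases hx : x ∈ S
    · obtain ⟨_, ⟨q, c, h1, h2, h3⟩, ⟨w, hw, hw2⟩, _⟩ := hS x hx
      exact ⟨(w, q, c), fun _ => ⟨hw, hw2, h1, h2, h3⟩⟩
    · exact ⟨(0, 0, 0), fun h => absurd h hx⟩
  choose d hd using hex
  obtain ⟨θ, hθ⟩ : ∃ θ : ℝ, θ = (r₀ : ℝ) / M := ⟨_, rfl⟩
  obtain ⟨f, hf⟩ : ∃ f : ℕ → ℕ × (Fin (4 * n) → ℕ), f = fun x : ℕ =>
    ((d x).1, pt B a (i (d x).1) (4 * n) (θ + ((d x).2.2 : ℝ) / ((d x).2.1 : ℕ))) := ⟨_, rfl⟩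
  -- the approximations
  have happ : ∀ x ∈ S, |(x : ℝ) / M - ((d x).2.2 : ℝ) / ((d x).2.1 : ℕ)| ≤ 2 ^ (j₃ + 1) / M := by
    intro x hx
    obtain ⟨_, _, h1, _, h3⟩ := hd x hx
    have hq0 : (0 : ℝ) < ((d x).2.1 : ℕ) := by exact_mod_cast h1
    have h4 : |(x : ℝ) * ((d x).2.1 : ℕ) - (d x).2.2 * M| ≤ ((d x).2.1 : ℕ) * 2 ^ (j₃ + 1) := by exact_mod_cast h3
    have e1 : (x : ℝ) / M - ((d x).2.2 : ℝ) / ((d x).2.1 : ℕ) = ((x : ℝ) * ((d x).2.1 : ℕ) - (d x).2.2 * M) / (((d x).2.1 : ℕ) * M) := by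
      field_simp
    rw [e1, abs_div, abs_of_pos (by positivity : (0 : ℝ) < ((d x).2.1 : ℕ) * M), div_le_div_iff₀ (by positivity) hM0]
    calc |(x : ℝ) * ((d x).2.1 : ℕ) - (d x).2.2 * M| * M ≤ (((d x).2.1 : ℕ) * 2 ^ (j₃ + 1)) * M :=
          mul_le_mul_of_nonneg_right h4 hM0.le
      _ = _ := by ring
  have hmaps : ∀ x ∈ S, f x ∈ range nb ×ˢ Pat (4 * n) (2 * B + 3) (3 * T) := by
    intro x hx
    obtain ⟨h1, h2, h3, _, _⟩ := hd x hx
    rw [hf, mem_product, mem_range]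
    simp only
    refine ⟨h1, ?_⟩
    apply pt_mem h (by linarith : (0 : ℝ) ≤ ε + ε) hε
    refine le_trans ?_ h2
    apply farc_near h
    have e1 : ((x + r₀ : ℕ) : ℝ) / M - (θ + ((d x).2.2 : ℝ) / ((d x).2.1 : ℕ)) = (x : ℝ) / M - ((d x).2.2 : ℝ) / ((d x).2.1 : ℕ) := by
      rw [hθ]; push_cast; ring
    rw [e1]
    have e2 := hβ _ h1
    calc (den a (i (d x).1 + 4 * n + 1) : ℝ) * |(x : ℝ) / M - ((d x).2.2 : ℝ) / ((d x).2.1 : ℕ)| ≤
          (den a (i (d x).1 + 4 * n + 1) : ℝ) * (2 ^ (j₃ + 1) / M) :=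
          mul_le_mul_of_nonneg_left (happ x hx) (Nat.cast_nonneg _)
      _ = (den a (i (d x).1 + 4 * n + 1) : ℝ) * 2 ^ (j₃ + 1) / M := by ring
      _ ≤ ε := by rw [div_le_iff₀ hM0]; exact e2
  have hfib : ∀ b ∈ range nb ×ˢ Pat (4 * n) (2 * B + 3) (3 * T), (S.filter (fun x => f x = b)).card ≤ 3 * G := by
    intro b _
    rcases (S.filter (fun x => f x = b)).eq_empty_or_nonempty with h0 | ⟨x₀, hx₀⟩
    · rw [h0, card_empty]; exact Nat.zero_le _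
    obtain ⟨F, hF⟩ : ∃ F : ℤ → Finset ℕ, F = fun g => S.filter (fun x : ℕ => |(x : ℤ) - x₀ - g * M| ≤ 2 ^ (j₃ + 2)) := ⟨_, rfl⟩
    have hx₀' := mem_filter.1 hx₀
    have hsub : S.filter (fun x => f x = b) ⊆ F (-1) ∪ (F 0 ∪ F 1) := by
      intro x hx
      have hx' := mem_filter.1 hx
      have hfe : f x = f x₀ := by rw [hx'.2, hx₀'.2]
      rw [hf] at hfe
      simp only [Prod.mk.injEq] at hfe
      obtain ⟨k1, k2⟩ := hfe
      rw [k1] at k2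
      obtain ⟨_, _, q1, q2, _⟩ := hd x hx'.1
      obtain ⟨_, _, q1', q2', _⟩ := hd x₀ hx₀'.1
      obtain ⟨g, hg⟩ := frac_eq h (i (d x₀).1) n Q θ (d x).2.1 (d x₀).2.1 (d x).2.2 (d x₀).2.2 q1 q1' q2 q2' hn
        (pt_eq h _ _ _ _ k2)
      have a1 := happ x hx'.1
      have a2 := happ x₀ hx₀'.1
      have a3 : |(x : ℝ) / M - (x₀ : ℝ) / M - g| ≤ 2 ^ (j₃ + 2) / M := by
        have e1 : (x : ℝ) / M - (x₀ : ℝ) / M - g = ((x : ℝ) / M - ((d x).2.2 : ℝ) / ((d x).2.1 : ℕ)) -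
            ((x₀ : ℝ) / M - ((d x₀).2.2 : ℝ) / ((d x₀).2.1 : ℕ)) := by rw [← hg]; ring
        rw [e1]
        refine (abs_sub _ _).trans ?_
        have e2 : (2 : ℝ) ^ (j₃ + 2) / M = 2 ^ (j₃ + 1) / M + 2 ^ (j₃ + 1) / M := by ring
        rw [e2]
        exact add_le_add a1 a2
      have a4 : |(x : ℝ) - x₀ - g * M| ≤ 2 ^ (j₃ + 2) := by
        have e1 : (x : ℝ) / M - (x₀ : ℝ) / M - g = ((x : ℝ) - x₀ - g * M) / M := by field_simp
        rw [e1, abs_div, abs_of_pos hM0, div_le_div_iff_of_pos_right hM0] at a3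
        exact a3
      have a5 : |(x : ℤ) - x₀ - g * M| ≤ 2 ^ (j₃ + 2) := by exact_mod_cast a4
      have b1 := (hS x hx'.1).1
      have b2 := (hS x₀ hx₀'.1).1
      have b3 : (2 : ℤ) ^ (j₃ + 2) < M := by exact_mod_cast hM2
      have hMz : (0 : ℤ) < M := by exact_mod_cast hM
      have a6 := abs_le.1 a5
      have g1 : g < 2 := by
        by_contra hcon
        have : 2 * (M : ℤ) ≤ g * M := mul_le_mul_of_nonneg_right (by omega) hMz.le
        omega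
      have g2 : -2 < g := by
        by_contra hcon
        have : g * (M : ℤ) ≤ (-2) * M := mul_le_mul_of_nonneg_right (by omega) hMz.le
        omega
      rw [mem_union, mem_union, hF]
      simp only [mem_filter]
      have hg3 : g = -1 ∨ g = 0 ∨ g = 1 := by omega
      rcases hg3 with rfl | rfl | rfl
      · exact Or.inl ⟨hx'.1, a5⟩
      · exact Or.inr (Or.inl ⟨hx'.1, a5⟩)
      · exact Or.inr (Or.inr ⟨hx'.1, a5⟩)
    have hcard : ∀ g : ℤ, (F g).card ≤ G := by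
      intro g
      rw [← card_image_of_injective (F g) (add_left_injective r₀)]
      apply hG ((x₀ : ℤ) + r₀ + g * M - 2 ^ (j₃ + 2)).toNat
      intro y hy
      obtain ⟨x, hx, rfl⟩ := mem_image.1 hy
      rw [hF] at hx
      simp only [mem_filter] at hx
      have a6 := abs_le.1 hx.2
      have e3 : ((2 ^ (j₃ + 3) : ℕ) : ℤ) = 2 * 2 ^ (j₃ + 2) := by push_cast; ring
      refine ⟨?_, ?_, (hS x hx.1).2.2.2⟩
      · omega
      · have : ((x + r₀ : ℕ) : ℤ) ≤ ((((x₀ : ℤ) + r₀ + g * M - 2 ^ (j₃ + 2)).toNat + 2 ^ (j₃ + 3) : ℕ) : ℤ) := by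
          have e4 := Int.self_le_toNat ((x₀ : ℤ) + r₀ + g * M - 2 ^ (j₃ + 2))
          rw [Nat.cast_add ((((x₀ : ℤ) + r₀ + g * M - 2 ^ (j₃ + 2)).toNat)), e3, Nat.cast_add]
          linarith [a6.2]
        exact_mod_cast this
    have c0 := hcard (-1)
    have c1 := hcard 0
    have c2 := hcard 1
    have u1 := card_union_le (F (-1)) (F 0 ∪ F 1)
    have u2 := card_union_le (F 0) (F 1)
    have u3 := card_le_card hsub
    omega
  have := card_le_mul_card_image_of_maps_to hmaps _ hfib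
  rw [card_product, card_range] at this
  exact this

end Pool.Agent.R461.CF
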