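import Pool.Agent.R461.CF.C3

set_option autoImplicit false

/-! The number of nearly extremal frequencies in a scale. -/

namespace Pool.Agent.R461.CF

open Finset

lemma farc_add (a : ℕ → ℕ) (ε : ℝ) (i l₁ l₂ : ℕ) (α : ℝ) :
    farc a ε i (l₁ + l₂) α = farc a ε i l₁ α + farc a ε (i + l₁) l₂ α := by
  classical
  unfold farc
  rw [← card_union_of_disjoint]
  · congr 1
    ext n
    simp only [mem_filter, mem_union, mem_Ico]
    constructor
    · rintro ⟨h1, h2⟩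
      rcases Nat.lt_or_ge n (i + l₁) with h3 | h3
      · exact Or.inl ⟨⟨h1.1, h3⟩, h2⟩
      · exact Or.inr ⟨⟨h3, by omega⟩, h2⟩
    · rintro (⟨h1, h2⟩ | ⟨h1, h2⟩)
      · exact ⟨⟨h1.1, by omega⟩, h2⟩
      · exact ⟨⟨by omega, by omega⟩, h2⟩
  · rw [disjoint_left]
    intro n h1 h2
    rw [mem_filter, mem_Ico] at h1 h2
    omega

lemma farc_blocks (a : ℕ → ℕ) (ε : ℝ) (l nb : ℕ) (α : ℝ) :
    farc a ε 0 (nb * l) α = ∑ w ∈ range nb, farc a ε (w * l) l α := by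
  induction nb with
  | zero => simp [farc]
  | succ nb ih =>
    rw [sum_range_succ, ← ih, add_mul, one_mul, farc_add, zero_add]

lemma block_exC (a : ℕ → ℕ) (ε : ℝ) (l nb g : ℕ) (α : ℝ) (hnb : 1 ≤ nb) (hg : nb * l ≤ g) :
    ∃ w < nb, farc a ε (w * l) l α * nb ≤ farc a ε 0 g α := by
  classical
  have h1 : farc a ε 0 (nb * l) α ≤ farc a ε 0 g α := by
    obtain ⟨d, rfl⟩ : ∃ d, g = nb * l + d := ⟨g - nb * l, by omega⟩
    rw [farc_add]
    exact Nat.le_add_right _ _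
  rw [farc_blocks] at h1
  by_contra hcon
  push Not at hcon
  have h2 : (∑ w ∈ range nb, farc a ε (w * l) l α) * nb ≤ nb * farc a ε 0 g α := by
    rw [mul_comm]
    exact Nat.mul_le_mul_left _ h1
  have h3 : ∑ w ∈ range nb, (farc a ε 0 g α + 1) ≤ (∑ w ∈ range nb, farc a ε (w * l) l α) * nb := by
    rw [sum_mul]
    apply sum_le_sum
    intro w hw
    exact hcon w (mem_range.1 hw)
  rw [sum_const, card_range, smul_eq_mul] at h3
  have : nb * (farc a ε 0 g α + 1) = nb * farc a ε 0 g α + nb := by ring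
  omega

lemma rho_sub_int (a : ℕ → ℕ) (n : ℕ) (α : ℝ) (e : ℤ) : rho a n (α - e) = rho a n α := by
  unfold rho
  have h1 : (den a n : ℝ) * (α - e) = den a n * α - ((den a n * e : ℤ) : ℝ) := by push_cast; ring
  rw [h1, round_sub_intCast]
  push_cast
  ring

lemma farc_sub_int (a : ℕ → ℕ) (ε : ℝ) (i l : ℕ) (α : ℝ) (e : ℤ) : farc a ε i l (α - e) = farc a ε i l α := by
  unfold farc
  simp only [rho_sub_int]

lemma den_le_add {B : ℕ} {a : ℕ → ℕ} (h : Bd B a) (n t : ℕ) : den a (n + t) ≤ (B + 1) ^ t * den a n := by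
  induction t with
  | zero => simp
  | succ t ih =>
    rw [← add_assoc]
    calc den a (n + t + 1) ≤ (B + 1) * den a (n + t) := den_succ_le h _
      _ ≤ (B + 1) * ((B + 1) ^ t * den a n) := Nat.mul_le_mul_left _ ih
      _ = _ := by ring

/-- the window condition -/
def BadC (a : ℕ → ℕ) (ε : ℝ) (R κ h : ℕ) (α : ℝ) : Prop :=
  farc a ε 0 (κ - (4 * h + 2)) α * R ≤ κ ∧ farc a ε (κ - (4 * h + 2)) (4 * h + 2) α * R ≤ 2 * (4 * h + 2)

lemma kap_le {B : ℕ} {a : ℕ → ℕ} (h : Bd B a) (k κ : ℕ) (h1 : den a κ ≤ 2 ^ k) : κ ≤ 2 * k + 1 := by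
  have h2 := den_two_pow h 0 (κ / 2)
  rw [zero_add, den_zero, mul_one] at h2
  have h3 : den a (2 * (κ / 2)) ≤ den a κ := den_monotone h (by omega)
  have h4 : 2 ^ (κ / 2) ≤ 2 ^ k := h2.trans (h3.trans h1)
  have := (Nat.pow_le_pow_iff_right (by norm_num : 1 < 2)).1 h4
  omega

/-- the number of all nearly extremal frequencies -/
theorem total_C {B : ℕ} {a : ℕ → ℕ} (h : Bd B a) {ε : ℝ} (hε0 : 0 ≤ ε) (hε : (B + 2) * ε < 1) (R₂ : ℕ)
    (hR₂ : ∀ n T : ℕ, T * R₂ ≤ 2 * n → (Pat n (2 * B + 3) T).card ≤ 2 ^ (n / 1024 + 1)) (k κ hh r₀ : ℕ)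
    (hk2 : 2 ^ k ≤ k * den a κ) (hκ : 4 * (4 * hh + 2) + 16 ≤ κ) (S : Finset ℕ)
    (hS : ∀ x ∈ S, x < 2 ^ (k + 1) ∧ BadC a ε (12 * R₂) κ hh (((x + r₀ : ℕ) : ℝ) / ((2 ^ (k + 1) : ℕ) : ℝ))) :
    S.card ≤ (2 * k * (B + 1) ^ (4 * hh + 3) + 1) * ((B + 2) * (3 * 2 ^ (κ / 1024 + 1))) := by
  classical
  obtain ⟨M, hM⟩ : ∃ M, M = 2 ^ (k + 1) := ⟨_, rfl⟩
  rw [← hM] at hS
  have hM1 : 1 ≤ M := by rw [hM]; exact Nat.one_le_two_pow
  obtain ⟨g, hg⟩ : ∃ g, g = κ - (4 * hh + 2) := ⟨_, rfl⟩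
  obtain ⟨l, hl⟩ : ∃ l, g = l + 2 := ⟨g - 2, by omega⟩
  rw [← card_image_of_injective S (add_left_injective r₀)]
  have h1 := count_W h hε0 hε M hM1 0 l (κ / (12 * R₂)) r₀ M (S.image (· + r₀)) (by
    intro y hy
    obtain ⟨x, hx, rfl⟩ := mem_image.1 hy
    obtain ⟨h1, h2, _⟩ := hS x hx
    refine ⟨by omega, by omega, ?_⟩
    rw [← hg, hl] at h2
    rcases Nat.eq_zero_or_pos R₂ with h0 | h0
    · exfalso
      -- all patterns are allowed, which is impossible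
      have e1 := hR₂ 1 (1) (by rw [h0]; omega)
      have e2 : (Pat 1 (2 * B + 3) 1).card = 2 * B + 4 := by
        unfold Pat
        rw [filter_true_of_mem]
        · rw [Fintype.card_piFinset]
          simp
        · intro f _
          refine (card_filter_le _ _).trans ?_
          simp
      rw [e2] at e1
      norm_num at e1
      omega
    · exact (Nat.le_div_iff_mul_le (by omega)).2 h2)
  refine h1.trans ?_
  have hq0 := den_pos h (0 + l + 1)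
  apply Nat.mul_le_mul
  · have e1 : den a κ ≤ (B + 1) ^ (4 * hh + 3) * den a (0 + l + 1) := by
      have := den_le_add h (0 + l + 1) (4 * hh + 3)
      have e2 : 0 + l + 1 + (4 * hh + 3) = κ := by omega
      rw [e2] at this
      exact this
    have e3 : M / den a (0 + l + 1) ≤ 2 * k * (B + 1) ^ (4 * hh + 3) := by
      apply Nat.div_le_of_le_mul
      calc M = 2 * 2 ^ k := by rw [hM, pow_succ']
        _ ≤ 2 * (k * den a κ) := Nat.mul_le_mul_left _ hk2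
        _ ≤ 2 * (k * ((B + 1) ^ (4 * hh + 3) * den a (0 + l + 1))) := Nat.mul_le_mul_left _ (Nat.mul_le_mul_left _ e1)
        _ = _ := by ring
    omega
  · apply Nat.mul_le_mul
    · rw [zero_add, den_one, Nat.mul_div_cancel _ (by omega)]
      have := (h 1 le_rfl).2
      omega
    · apply Nat.mul_le_mul_left
      have e1 := hR₂ l (3 * (κ / (12 * R₂))) (by
        have e2 : κ / (12 * R₂) * (12 * R₂) ≤ κ := Nat.div_mul_le_self _ _
        have e3 : 3 * (κ / (12 * R₂)) * R₂ * 4 = κ / (12 * R₂) * (12 * R₂) := by ring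
        omega)
      refine e1.trans (Nat.pow_le_pow_right (by norm_num) ?_)
      have : l / 1024 ≤ κ / 1024 := Nat.div_le_div_right (by omega)
      omega

/-- the number of nearly extremal frequencies in a scale -/
theorem scale_C {B : ℕ} {a : ℕ → ℕ} (h : Bd B a) {ε : ℝ} (hε0 : 0 < ε) (hε : (B + 2) * (ε + ε) < 1) (hε2 : 1 ≤ 4 * (B + 2) * ε)
    (R₂ : ℕ) (hR1 : 1 ≤ R₂)
    (hR₂ : ∀ n T : ℕ, T * R₂ ≤ 2 * n → (Pat n (2 * B + 3) T).card ≤ 2 ^ (n / 1024 + 1)) (k κ m hh r₀ : ℕ)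
    (hk1 : den a κ ≤ 2 ^ k)
    (hk2 : 2 ^ k ≤ k * den a κ) (hm : m = κ / 128) (hm2 : B + 4 ≤ m) (hκ : 4 * (4 * hh + 2) + 16 ≤ κ) (hh1 : 8 ≤ hh) (i₁ i₂ i₃ : ℕ)
    (hi1 : i₁ ≤ m) (hi2 : i₂ ≤ m) (hi3 : i₃ ≤ 2 * m) (hlarge : hh ≤ i₁ ∨ hh ≤ i₂ ∨ hh ≤ i₃) (S : Finset ℕ)
    (hS : ∀ x ∈ S, x < 2 ^ (k + 1) ∧ (∃ q : ℕ, ∃ c : ℤ, 1 ≤ q ∧ q ≤ 2 ^ (i₁ + i₂) ∧
        |(x : ℤ) * q - c * ((2 ^ (k + 1) : ℕ) : ℤ)| ≤ q * 2 ^ (i₃ + 1)) ∧
      BadC a ε (12 * R₂) κ hh (((x + r₀ : ℕ) : ℝ) / ((2 ^ (k + 1) : ℕ) : ℝ))) :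
    S.card * 2 ^ (hh / 2) ≤ (6000 * (B + 2)) * k ^ 2 * 2 ^ (i₁ + i₂ + i₃) := by
  classical
  obtain ⟨M, hM⟩ : ∃ M, M = 2 ^ (k + 1) := ⟨_, rfl⟩
  rw [← hM] at hS
  have hM1 : 1 ≤ M := by rw [hM]; exact Nat.one_le_two_pow
  obtain ⟨I, hI⟩ : ∃ I, I = i₁ + i₂ := ⟨_, rfl⟩
  have hκ2 := kap_le h k κ hk1
  obtain ⟨n, hn⟩ : ∃ n, n = 2 * I + 2 := ⟨_, rfl⟩
  obtain ⟨nb, hnb⟩ : ∃ nb, nb = (κ - κ / 4) / (4 * n + 2) := ⟨_, rfl⟩
  have hnl : 4 * n + 2 = 8 * I + 10 := by omega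
  have hIm : I ≤ 2 * m := by omega
  have hbl : nb * (4 * n + 2) ≤ κ - κ / 4 := by rw [hnb]; exact Nat.div_mul_le_self _ _
  have hbl2 : κ - κ / 4 < nb * (4 * n + 2) + (4 * n + 2) := by rw [hnb]; exact Nat.lt_div_mul_add (by omega)
  have hbl3 : κ ≤ 2 * (nb * (4 * n + 2)) := by omega
  have hnb1 : 1 ≤ nb := by
    rcases Nat.eq_zero_or_pos nb with h0 | h0
    · rw [h0, zero_mul] at hbl3; omega
    · exact h0
  have hnbκ : nb ≤ κ := by
    calc nb ≤ nb * (4 * n + 2) := Nat.le_mul_of_pos_right _ (by omega)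
      _ ≤ κ := by omega
  obtain ⟨Tb, hTb⟩ : ∃ Tb, Tb = κ / (12 * R₂ * nb) := ⟨_, rfl⟩
  have hTb2 : Tb * (12 * R₂ * nb) ≤ κ := by rw [hTb]; exact Nat.div_mul_le_self _ _
  have hPatb : (Pat (4 * n) (2 * B + 3) (3 * Tb)).card ≤ 2 ^ ((4 * n) / 1024 + 1) := by
    apply hR₂
    have e1 : (Tb * (12 * R₂)) * nb ≤ (2 * (4 * n + 2)) * nb := by
      calc (Tb * (12 * R₂)) * nb = Tb * (12 * R₂ * nb) := by ring
        _ ≤ κ := hTb2
        _ ≤ 2 * (nb * (4 * n + 2)) := hbl3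
        _ = _ := by ring
    have e2 : Tb * (12 * R₂) ≤ 2 * (4 * n + 2) := Nat.le_of_mul_le_mul_right e1 (by omega)
    have e3 : Tb * (12 * R₂) = 4 * (3 * Tb * R₂) := by ring
    omega
  have hden : den a (κ - κ / 4) * 2 ^ (κ / 8) ≤ 2 ^ k := by
    have e1 := den_two_pow h (κ - κ / 4) (κ / 8)
    have e2 : den a (κ - κ / 4 + 2 * (κ / 8)) ≤ den a κ := den_monotone h (by omega)
    rw [mul_comm]
    exact e1.trans (e2.trans hk1)
  have hBpow : 4 * (B + 2) ≤ 2 ^ (B + 4) := by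
    have : B + 2 ≤ 2 ^ (B + 2) := Nat.lt_two_pow_self.le
    calc 4 * (B + 2) ≤ 4 * 2 ^ (B + 2) := Nat.mul_le_mul_left _ this
      _ = _ := by rw [show B + 4 = (B + 2) + 2 by ring, pow_add]; ring
  have hβ : ∀ w < nb, (den a (w * (4 * n + 2) + 4 * n + 1) : ℝ) * 2 ^ (i₃ + 1) ≤ ε * M := by
    intro w hw
    have e1 : (w + 1) * (4 * n + 2) ≤ nb * (4 * n + 2) := Nat.mul_le_mul_right _ hw
    have e2 : (w + 1) * (4 * n + 2) = w * (4 * n + 2) + 4 * n + 1 + 1 := by ring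
    have e3 : den a (w * (4 * n + 2) + 4 * n + 1) ≤ den a (κ - κ / 4) := den_monotone h (by omega)
    have e4 : den a (w * (4 * n + 2) + 4 * n + 1) * 2 ^ (i₃ + 1) * (4 * (B + 2)) ≤ M := by
      calc den a (w * (4 * n + 2) + 4 * n + 1) * 2 ^ (i₃ + 1) * (4 * (B + 2)) ≤
            den a (κ - κ / 4) * 2 ^ (2 * m + 1) * 2 ^ (B + 4) := by
            apply Nat.mul_le_mul _ hBpow
            apply Nat.mul_le_mul e3
            exact Nat.pow_le_pow_right (by norm_num) (by omega)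
        _ = 2 * (den a (κ - κ / 4) * 2 ^ (2 * m + (B + 4))) := by rw [pow_succ, pow_add 2 (2 * m)]; ring
        _ ≤ 2 * (den a (κ - κ / 4) * 2 ^ (κ / 8)) := by
            apply Nat.mul_le_mul_left
            apply Nat.mul_le_mul_left
            exact Nat.pow_le_pow_right (by norm_num) (by omega)
        _ ≤ 2 * 2 ^ k := Nat.mul_le_mul_left _ hden
        _ = M := by rw [hM, pow_succ']
    have e5 : (den a (w * (4 * n + 2) + 4 * n + 1) : ℝ) * 2 ^ (i₃ + 1) * (4 * (B + 2)) ≤ M := by exact_mod_cast e4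
    have e6 : (0 : ℝ) ≤ (den a (w * (4 * n + 2) + 4 * n + 1) : ℝ) * 2 ^ (i₃ + 1) := by positivity
    calc (den a (w * (4 * n + 2) + 4 * n + 1) : ℝ) * 2 ^ (i₃ + 1) ≤
          (den a (w * (4 * n + 2) + 4 * n + 1) : ℝ) * 2 ^ (i₃ + 1) * (4 * (B + 2) * ε) := by nlinarith
      _ = ε * ((den a (w * (4 * n + 2) + 4 * n + 1) : ℝ) * 2 ^ (i₃ + 1) * (4 * (B + 2))) := by ring
      _ ≤ ε * M := mul_le_mul_of_nonneg_left e5 hε0.le
  have hM2 : 2 ^ (i₃ + 2) < M := by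
    rw [hM]
    exact Nat.pow_lt_pow_right (by norm_num) (by omega)
  have hQ : 2 * (2 ^ I * 2 ^ I + 1) ≤ 2 ^ n := by
    have e1 : 2 ^ n = 4 * (2 ^ I * 2 ^ I) := by
      rw [hn, show 2 * I + 2 = I + I + 2 by ring, pow_add, pow_add]; ring
    have e2 : 1 ≤ 2 ^ I * 2 ^ I := Nat.mul_pos (Nat.two_pow_pos _) (Nat.two_pow_pos _)
    omega
  have hblock : ∀ x ∈ S, ∃ w < nb, farc a ε (w * (4 * n + 2)) (4 * n + 2) (((x + r₀ : ℕ) : ℝ) / M) ≤ Tb := by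
    intro x hx
    obtain ⟨_, _, h3⟩ := hS x hx
    obtain ⟨w, hw, hw2⟩ := block_exC a ε (4 * n + 2) nb (κ - (4 * hh + 2)) (((x + r₀ : ℕ) : ℝ) / M) hnb1 (by omega)
    refine ⟨w, hw, ?_⟩
    rw [hTb]
    apply (Nat.le_div_iff_mul_le (Nat.mul_pos (by omega) (by omega))).2
    calc farc a ε (w * (4 * n + 2)) (4 * n + 2) (((x + r₀ : ℕ) : ℝ) / M) * (12 * R₂ * nb) =
          (farc a ε (w * (4 * n + 2)) (4 * n + 2) (((x + r₀ : ℕ) : ℝ) / M) * nb) * (12 * R₂) := by ring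
      _ ≤ farc a ε 0 (κ - (4 * hh + 2)) (((x + r₀ : ℕ) : ℝ) / M) * (12 * R₂) := Nat.mul_le_mul_right _ hw2
      _ ≤ κ := h3.1
  have hk1' : 1 ≤ k := by omega
  by_cases hcase : hh ≤ i₁ ∨ hh ≤ i₂
  · -- large denominators
    have hIh : hh ≤ I := by omega
    have h1 := count_S h hε0.le hε M hM1 (fun w => w * (4 * n + 2)) nb n (2 ^ I) i₃ r₀ Tb hQ hβ hM2 (fun _ => True) (2 ^ (i₃ + 3) + 1)
      (by
        intro y₀ S' hS'
        have : S' ⊆ Icc y₀ (y₀ + 2 ^ (i₃ + 3)) := by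
          intro y hy
          have := hS' y hy
          exact mem_Icc.2 ⟨this.1, this.2.1⟩
        refine (card_le_card this).trans ?_
        rw [Nat.card_Icc]
        have : ∀ u x : ℕ, u + x + 1 - u ≤ x + 1 := fun u x => by omega
        exact this _ _) S (by
        intro x hx
        obtain ⟨h1, h2, _⟩ := hS x hx
        rw [← hI] at h2
        exact ⟨h1, h2, hblock x hx, trivial⟩)
    have e1 : (4 * n) / 1024 + 1 ≤ I / 4 + 1 := by omega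
    have e2 : (Pat (4 * n) (2 * B + 3) (3 * Tb)).card ≤ 2 ^ (I / 4 + 1) := hPatb.trans (Nat.pow_le_pow_right (by norm_num) e1)
    have e3 : 2 ^ (i₃ + 3) + 1 ≤ 2 ^ (i₃ + 4) := by
      have : 1 ≤ 2 ^ (i₃ + 3) := Nat.one_le_two_pow
      have e : 2 ^ (i₃ + 4) = 2 * 2 ^ (i₃ + 3) := by rw [pow_succ 2 (i₃ + 3)]; ring
      omega
    have e4 : nb ≤ 3 * k := by omega
    calc S.card * 2 ^ (hh / 2) ≤ ((3 * 2 ^ (i₃ + 4)) * ((3 * k) * 2 ^ (I / 4 + 1))) * 2 ^ (I / 2) := by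
          apply Nat.mul_le_mul
          · refine h1.trans ?_
            exact Nat.mul_le_mul (Nat.mul_le_mul_left _ e3) (Nat.mul_le_mul e4 e2)
          · exact Nat.pow_le_pow_right (by norm_num) (by omega)
      _ = 288 * k * (2 ^ i₃ * 2 ^ (I / 4 + I / 2)) := by rw [pow_add 2 i₃, pow_add 2 (I / 4) 1, pow_add 2 (I / 4) (I / 2)]; ring
      _ ≤ 288 * k * (2 ^ i₃ * 2 ^ I) := by
          apply Nat.mul_le_mul_left
          apply Nat.mul_le_mul_left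
          exact Nat.pow_le_pow_right (by norm_num) (by omega)
      _ = 288 * k * 2 ^ (i₁ + i₂ + i₃) := by rw [← pow_add]; congr 2; omega
      _ ≤ (6000 * (B + 2)) * k ^ 2 * 2 ^ (i₁ + i₂ + i₃) := by
          apply Nat.mul_le_mul_right
          calc 288 * k ≤ (6000 * (B + 2)) * k := Nat.mul_le_mul_right _ (by omega)
            _ ≤ (6000 * (B + 2)) * k ^ 2 := by
                apply Nat.mul_le_mul_left
                rw [sq]
                exact Nat.le_mul_of_pos_left _ hk1'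
  · -- small denominators
    push Not at hcase
    have hi3h : hh ≤ i₃ := by omega
    obtain ⟨g, hg⟩ : ∃ g, g = κ - (4 * hh + 2) := ⟨_, rfl⟩
    obtain ⟨Tt, hTt⟩ : ∃ Tt, Tt = 2 * (4 * hh + 2) / (12 * R₂) := ⟨_, rfl⟩
    obtain ⟨G, hG⟩ : ∃ G, G = (M / den a (g + 4 * hh + 1) + 1) * ((den a (g + 1) * 2 ^ (i₃ + 3) / M + 2) * (3 * (Pat (4 * hh) (2 * B + 3) (3 * Tt)).card)) := ⟨_, rfl⟩
    have h1 := count_S h hε0.le hε M hM1 (fun w => w * (4 * n + 2)) nb n (2 ^ I) i₃ r₀ Tb hQ hβ hM2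
      (fun y => farc a ε g (4 * hh + 2) ((y : ℝ) / M) ≤ Tt) G
      (by
        intro y₀ S' hS'
        rw [hG]
        exact count_W h hε0.le (by linarith [mul_nonneg (show (0 : ℝ) ≤ B + 2 by positivity) hε0.le]) M hM1 g (4 * hh) Tt y₀ (2 ^ (i₃ + 3)) S' hS') S (by
        intro x hx
        obtain ⟨h1, h2, h3⟩ := hS x hx
        rw [← hI] at h2
        refine ⟨h1, h2, hblock x hx, ?_⟩
        rw [hTt, hg]
        exact (Nat.le_div_iff_mul_le (by omega)).2 h3.2)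
    have e1 : (4 * n) / 1024 + 1 ≤ hh / 8 + 1 := by omega
    have e2 : (Pat (4 * n) (2 * B + 3) (3 * Tb)).card ≤ 2 ^ (hh / 8 + 1) := hPatb.trans (Nat.pow_le_pow_right (by norm_num) e1)
    have e3 : (Pat (4 * hh) (2 * B + 3) (3 * Tt)).card ≤ 2 ^ (hh / 8 + 1) := by
      refine (hR₂ _ _ ?_).trans (Nat.pow_le_pow_right (by norm_num) (by omega))
      have a1 : Tt * (12 * R₂) ≤ 2 * (4 * hh + 2) := by rw [hTt]; exact Nat.div_mul_le_self _ _
      have a2 : Tt * (12 * R₂) = 4 * (3 * Tt * R₂) := by ring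
      omega
    have hq0 := den_pos h (g + 4 * hh + 1)
    have e4 : M / den a (g + 4 * hh + 1) + 1 ≤ 3 * k * (B + 1) := by
      have a1 : den a κ ≤ (B + 1) * den a (g + 4 * hh + 1) := by
        have := den_succ_le h (g + 4 * hh + 1)
        have e2 : g + 4 * hh + 1 + 1 = κ := by omega
        rw [e2] at this
        exact this
      have a2 : M / den a (g + 4 * hh + 1) ≤ 2 * k * (B + 1) := by
        apply Nat.div_le_of_le_mul
        calc M = 2 * 2 ^ k := by rw [hM, pow_succ']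
          _ ≤ 2 * (k * den a κ) := Nat.mul_le_mul_left _ hk2
          _ ≤ 2 * (k * ((B + 1) * den a (g + 4 * hh + 1))) := Nat.mul_le_mul_left _ (Nat.mul_le_mul_left _ a1)
          _ = _ := by ring
      have a3 : 1 ≤ k * (B + 1) := Nat.mul_pos hk1' (by omega)
      calc M / den a (g + 4 * hh + 1) + 1 ≤ 2 * k * (B + 1) + k * (B + 1) := Nat.add_le_add a2 a3
        _ = _ := by ring
    have e5 : den a (g + 1) * 2 ^ (i₃ + 3) / M + 2 ≤ 2 ^ (i₃ + 3 - 2 * hh) + 2 ^ 3 := by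
      have a1 : den a (g + 1) * 2 ^ (2 * hh) ≤ M := by
        have b1 := den_two_pow h (g + 1) (2 * hh)
        have b2 : den a (g + 1 + 2 * (2 * hh)) ≤ den a κ := den_monotone h (by omega)
        rw [mul_comm]
        refine b1.trans (b2.trans (hk1.trans ?_))
        rw [hM]
        exact Nat.pow_le_pow_right (by norm_num) (by omega)
      have a2 : den a (g + 1) * 2 ^ (i₃ + 3) / M ≤ 2 ^ (i₃ + 3 - 2 * hh) + 1 := by
        apply Nat.div_le_of_le_mul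
        by_cases hc : 2 * hh ≤ i₃ + 3
        · calc den a (g + 1) * 2 ^ (i₃ + 3) = (den a (g + 1) * 2 ^ (2 * hh)) * 2 ^ (i₃ + 3 - 2 * hh) := by
                rw [mul_assoc, ← pow_add]; congr 2; omega
            _ ≤ M * 2 ^ (i₃ + 3 - 2 * hh) := Nat.mul_le_mul_right _ a1
            _ ≤ M * (2 ^ (i₃ + 3 - 2 * hh) + 1) := Nat.mul_le_mul_left _ (Nat.le_succ _)
        · calc den a (g + 1) * 2 ^ (i₃ + 3) ≤ den a (g + 1) * 2 ^ (2 * hh) :=
                Nat.mul_le_mul_left _ (Nat.pow_le_pow_right (by norm_num) (by omega))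
            _ ≤ M := a1
            _ ≤ M * (2 ^ (i₃ + 3 - 2 * hh) + 1) := Nat.le_mul_of_pos_right _ (Nat.succ_pos _)
      omega
    have e6 : G ≤ (3 * k * (B + 1)) * ((2 ^ (i₃ + 3 - 2 * hh) + 2 ^ 3) * (3 * 2 ^ (hh / 8 + 1))) := by
      rw [hG]
      exact Nat.mul_le_mul e4 (Nat.mul_le_mul e5 (Nat.mul_le_mul_left _ e3))
    have e7 : (2 ^ (i₃ + 3 - 2 * hh) + 2 ^ 3) * (2 ^ (hh / 8) * 2 ^ (hh / 8) * 2 ^ (hh / 2)) ≤ 16 * 2 ^ i₃ := by
      rw [← pow_add, ← pow_add, add_mul, ← pow_add, ← pow_add]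
      have b1 : 2 ^ (i₃ + 3 - 2 * hh + (hh / 8 + hh / 8 + hh / 2)) ≤ 2 ^ (i₃ + 3) := Nat.pow_le_pow_right (by norm_num) (by omega)
      have b2 : 2 ^ (3 + (hh / 8 + hh / 8 + hh / 2)) ≤ 2 ^ (i₃ + 3) := Nat.pow_le_pow_right (by norm_num) (by omega)
      have b3 : 2 ^ (i₃ + 3) = 8 * 2 ^ i₃ := by rw [pow_add]; ring
      omega
    have e8 : nb ≤ 3 * k := by omega
    calc S.card * 2 ^ (hh / 2) ≤ ((3 * ((3 * k * (B + 1)) * ((2 ^ (i₃ + 3 - 2 * hh) + 2 ^ 3) * (3 * 2 ^ (hh / 8 + 1))))) *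
          ((3 * k) * 2 ^ (hh / 8 + 1))) * 2 ^ (hh / 2) := by
          apply Nat.mul_le_mul_right
          refine h1.trans ?_
          exact Nat.mul_le_mul (Nat.mul_le_mul_left _ e6) (Nat.mul_le_mul e8 e2)
      _ = (324 * (B + 1)) * k ^ 2 * ((2 ^ (i₃ + 3 - 2 * hh) + 2 ^ 3) * (2 ^ (hh / 8) * 2 ^ (hh / 8) * 2 ^ (hh / 2))) := by
          rw [pow_add 2 (hh / 8) 1]; ring
      _ ≤ (324 * (B + 1)) * k ^ 2 * (16 * 2 ^ i₃) := Nat.mul_le_mul_left _ e7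
      _ = (5184 * (B + 1)) * k ^ 2 * 2 ^ i₃ := by ring
      _ ≤ _ := by
          apply Nat.mul_le_mul
          · apply Nat.mul_le_mul_right
            omega
          · exact Nat.pow_le_pow_right (by norm_num) (by omega)

end Pool.Agent.R461.CF
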