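import Pool.Agent.R461.CF.C4
import Pool.Agent.W93.DC8

set_option autoImplicit false

/-! The mean square over the nearly extremal frequencies. -/

namespace Pool.Agent.R461.CF

open Finset
open Pool.Agent.H807R2.Dav
open Pool.Agent.H373R2.T7
open Pool.Agent.W93.DG (FF FF_sub FF_pars FF_vM_le sum_vM_sq hh hh_half hh_up hh_small poly_exp InScale log_count pointwise wt TL
  mem_TL logX mul_card)

/-- many denominators -/
lemma kap_ge {B : ℕ} {a : ℕ → ℕ} (h : Bd B a) (k κ : ℕ) (hk : 2 * (Nat.log 2 k + 1) ≤ k) (h2 : 2 ^ k ≤ k * den a κ) :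
    k ≤ 2 * B * κ := by
  have h3 : den a κ ≤ (2 ^ B) ^ κ := by
    have e1 : B + 1 ≤ 2 ^ B := Nat.lt_two_pow_self
    exact (den_le_pow h κ).trans (Nat.pow_le_pow_left e1 κ)
  have h4 : k ≤ 2 ^ (Nat.log 2 k + 1) := (Nat.lt_pow_succ_log_self (by norm_num) k).le
  have h5 : 2 ^ k ≤ 2 ^ (Nat.log 2 k + 1 + B * κ) := by
    calc 2 ^ k ≤ k * den a κ := h2
      _ ≤ 2 ^ (Nat.log 2 k + 1) * (2 ^ B) ^ κ := Nat.mul_le_mul h4 h3
      _ = _ := by rw [← pow_mul, ← pow_add]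
  have h6 := (Nat.pow_le_pow_iff_right (by norm_num : 1 < 2)).1 h5
  have : 2 * B * κ = 2 * (B * κ) := by ring
  omega

lemma log_le_half : ∃ k₀ : ℕ, ∀ k : ℕ, k₀ ≤ k → 2 * (Nat.log 2 k + 1) ≤ k := by
  obtain ⟨k0, h0⟩ := hh_small 2 1 1 le_rfl
  refine ⟨k0, fun k hk => ?_⟩
  have := h0 k hk
  unfold hh at this
  omega

/-- the sizes of the parameters -/
lemma sizesC (B A c : ℕ) (hA : 4 ≤ A) : ∃ k₀ : ℕ, ∀ k : ℕ, k₀ ≤ k → ∀ a : ℕ → ℕ, Bd B a → ∀ κ : ℕ, den a κ ≤ 2 ^ k →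
    2 ^ k ≤ k * den a κ → 1 ≤ k ∧ 8 ≤ hh 2 A k ∧ k ≤ 2 ^ hh 2 A k ∧ 4 * (4 * hh 2 A k + 2) + 16 ≤ κ ∧ κ ≤ 2 * k + 1 ∧ k ≤ 2 * B * κ ∧
      c * hh 2 A k ≤ κ / 128 ∧ B + 4 ≤ κ / 128 ∧ 4 * (κ / 128) ≤ k ∧ 4 * hh 2 A k ≤ k := by
  obtain ⟨k1, h1⟩ := log_le_half
  obtain ⟨k2, h2⟩ := hh_small 2 A (2 * B * (256 * (c + 24 + B))) le_rfl
  obtain ⟨k3, h3⟩ := hh_small 2 A 4 le_rfl
  refine ⟨k1 + k2 + k3 + 1, fun k hk a ha κ hκ1 hκ2 => ?_⟩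
  have hB : 1 ≤ B := (ha 1 le_rfl).1.trans (ha 1 le_rfl).2
  have g1 := kap_ge ha k κ (h1 k (by omega)) hκ2
  have g2 := kap_le ha k κ hκ1
  have g3 := h2 k (by omega)
  have g4 := h3 k (by omega)
  obtain ⟨H, hH⟩ : ∃ H, H = hh 2 A k := ⟨_, rfl⟩
  rw [← hH] at g3 g4 ⊢
  have hH8 : 8 ≤ H := by
    rw [hH]
    unfold hh
    calc 8 = 2 * 4 * 1 := by norm_num
      _ ≤ 2 * A * (Nat.log 2 k + 1) := Nat.mul_le_mul (Nat.mul_le_mul_left _ hA) (by omega)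
  have hkH : k ≤ 2 ^ H := by
    have e1 : k ≤ 2 ^ (Nat.log 2 k + 1) := (Nat.lt_pow_succ_log_self (by norm_num) k).le
    refine e1.trans (Nat.pow_le_pow_right (by norm_num) ?_)
    rw [hH]
    unfold hh
    exact Nat.le_mul_of_pos_left _ (by omega)
  have g5 : 256 * (c + 24 + B) * H ≤ κ := by
    have e1 : (2 * B) * (256 * (c + 24 + B) * H) ≤ (2 * B) * κ := by
      calc (2 * B) * (256 * (c + 24 + B) * H) = 2 * B * (256 * (c + 24 + B)) * H := by ring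
        _ ≤ k := g3
        _ ≤ (2 * B) * κ := g1
    exact Nat.le_of_mul_le_mul_left e1 (by omega)
  have g6 : 256 * (c + 24 + B) * H = 256 * (c * H) + 256 * 24 * H + 256 * (B * H) := by ring
  have g7 : B ≤ B * H := Nat.le_mul_of_pos_right _ (by omega)
  refine ⟨by omega, hH8, hkH, by omega, g2, g1, ?_, by omega, by omega, g4⟩
  omega

lemma BadC_mod {a : ℕ → ℕ} {ε : ℝ} {R κ h M : ℕ} (hM : 1 ≤ M) (x r₀ : ℕ)
    (hb : BadC a ε R κ h (((x + r₀ : ℕ) : ℝ) / (M : ℝ))) : BadC a ε R κ h (((x % M + r₀ : ℕ) : ℝ) / (M : ℝ)) := by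
  have hM0 : (0 : ℝ) < M := by exact_mod_cast hM
  have e1 : ((x % M + r₀ : ℕ) : ℝ) / (M : ℝ) = ((x + r₀ : ℕ) : ℝ) / (M : ℝ) - (((x / M : ℕ) : ℤ) : ℝ) := by
    have h1 : ((M * (x / M) + x % M : ℕ) : ℝ) = (x : ℝ) := by rw [Nat.div_add_mod]
    push_cast at h1
    rw [Int.cast_natCast, eq_sub_iff_add_eq, div_add' _ _ _ hM0.ne', div_left_inj' hM0.ne']
    push_cast
    linarith
  unfold BadC at hb ⊢
  rw [e1, farc_sub_int, farc_sub_int]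
  exact hb

/-- the sum of the weights over the nearly extremal frequencies -/
theorem wt_sum_C (B : ℕ) : ∃ (R : ℕ) (ε : ℝ), 1 ≤ R ∧ 0 < ε ∧ ε ≤ 1 / 4 ∧ ∀ A c e₀ : ℕ, 4 ≤ A → ∃ k₀ : ℕ, ∀ k : ℕ, k₀ ≤ k →
    ∀ a : ℕ → ℕ, Bd B a → ∀ κ : ℕ, den a κ ≤ 2 ^ k → 2 ^ k ≤ k * den a κ → ∀ r₀ μ : ℕ, 1 ≤ μ → μ ≤ 2 ^ e₀ → ∀ S : Finset ℕ,
    (∀ x ∈ S, x < 2 ^ (k + 1) ∧ BadC a ε R κ (hh 2 A k) (((μ * x + r₀ : ℕ) : ℝ) / ((2 ^ (k + 1) : ℕ) : ℝ))) →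
    ∑ r ∈ S, wt 2 k (κ / 128) (hh 2 A k) r ≤ 1 / (k : ℝ) ^ c + (96000 * (B + 2) * 2 ^ (2 * e₀)) * (k : ℝ) ^ 5 / 2 ^ (hh 2 A k / 2) := by
  classical
  obtain ⟨R₂, hR1, hR₂⟩ := Pat_ent (2 * B + 3) 1024 (by omega) (by norm_num)
  obtain ⟨ε, hε⟩ : ∃ ε : ℝ, ε = 1 / (4 * (B + 2)) := ⟨_, rfl⟩
  have hB2 : (2 : ℝ) ≤ (B : ℝ) + 2 := by
    have : (0 : ℝ) ≤ B := Nat.cast_nonneg _
    linarith
  have hε0 : 0 < ε := by rw [hε]; positivity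
  have hεm : (B + 2) * ε = 1 / 4 := by rw [hε]; field_simp
  refine ⟨12 * R₂, ε, by omega, hε0, ?_, fun A c e₀ hA => ?_⟩
  · nlinarith
  obtain ⟨k1, h1⟩ := sizesC B A (64 * (7 * B + 20 + e₀)) hA
  obtain ⟨y0, h2⟩ := poly_exp c ((512 * B : ℝ) ^ c)
  refine ⟨k1 + 512 * B * (y0 + 1), fun k hk a ha κ hκ1 hκ2 r₀ μ hμ1 hμ2 S hS => ?_⟩
  obtain ⟨s1, s2, s3, s4, s5, s6, s7, s8, s9, s10⟩ := h1 k (by omega) a ha κ hκ1 hκ2
  have hB : 1 ≤ B := (ha 1 le_rfl).1.trans (ha 1 le_rfl).2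
  obtain ⟨H, hH⟩ : ∃ H, H = hh 2 A k := ⟨_, rfl⟩
  obtain ⟨m, hm⟩ : ∃ m, m = κ / 128 := ⟨_, rfl⟩
  rw [← hH] at s2 s3 s4 s7 s10 hS ⊢
  rw [← hm] at s7 s8 s9 ⊢
  have he₀ : e₀ ≤ e₀ * H := Nat.le_mul_of_pos_right _ (by omega)
  have hc0 : 64 * (7 * B + 20 + e₀) * H = 64 * (7 * (B * H)) + 64 * 20 * H + 64 * (e₀ * H) := by ring
  have hM1 : 1 ≤ 2 ^ (k + 1) := Nat.one_le_two_pow
  have himg : ∀ x ∈ S, (μ * x) % 2 ^ (k + 1) < 2 ^ (k + 1) ∧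
      BadC a ε (12 * R₂) κ H (((((μ * x) % 2 ^ (k + 1)) + r₀ : ℕ) : ℝ) / ((2 ^ (k + 1) : ℕ) : ℝ)) :=
    fun x hx => ⟨Nat.mod_lt _ (by omega), BadC_mod hM1 _ _ (hS x hx).2⟩
  have hk0 : (0 : ℝ) < k := by exact_mod_cast s1
  unfold wt
  rw [sum_add_distrib, sum_const, nsmul_eq_mul, sum_comm]
  apply add_le_add
  · -- all frequencies
    have g0 := mul_card (2 ^ (k + 1)) μ hμ1 S (fun r hr => (hS r hr).1)
    have g1 := total_C ha hε0.le (by linarith) R₂ hR₂ k κ H r₀ hκ2 s4 (S.image (fun x => (μ * x) % 2 ^ (k + 1))) (by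
      intro y hy
      obtain ⟨x, hx, rfl⟩ := mem_image.1 hy
      exact himg x hx)
    have g2 : S.card ≤ 2 ^ (m / 2) := by
      refine (g0.trans (Nat.mul_le_mul g1 hμ2)).trans ?_
      have e1 : 2 * k * (B + 1) ^ (4 * H + 3) + 1 ≤ 2 ^ (2 + H + B * (4 * H + 3)) := by
        have f1 : (B + 1) ^ (4 * H + 3) ≤ 2 ^ (B * (4 * H + 3)) := by
          rw [pow_mul]
          exact Nat.pow_le_pow_left Nat.lt_two_pow_self _
        have f2 : 2 * k * (B + 1) ^ (4 * H + 3) ≤ 2 * 2 ^ H * 2 ^ (B * (4 * H + 3)) :=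
          Nat.mul_le_mul (Nat.mul_le_mul_left _ s3) f1
        have f3 : 2 ^ (2 + H + B * (4 * H + 3)) = 2 * (2 * 2 ^ H * 2 ^ (B * (4 * H + 3))) := by
          rw [pow_add, pow_add]; ring
        have f4 : 1 ≤ 2 * 2 ^ H * 2 ^ (B * (4 * H + 3)) := Nat.mul_pos (Nat.mul_pos (by norm_num) (Nat.two_pow_pos _)) (Nat.two_pow_pos _)
        omega
      have e2 : (B + 2) * (3 * 2 ^ (κ / 1024 + 1)) ≤ 2 ^ (B + 5 + m / 8) := by
        have f1 : B + 2 ≤ 2 ^ (B + 2) := Nat.lt_two_pow_self.le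
        have f2 : κ / 1024 = m / 8 := by rw [hm, Nat.div_div_eq_div_mul]
        calc (B + 2) * (3 * 2 ^ (κ / 1024 + 1)) ≤ 2 ^ (B + 2) * (4 * 2 ^ (κ / 1024 + 1)) :=
              Nat.mul_le_mul f1 (Nat.mul_le_mul_right _ (by norm_num))
          _ = _ := by rw [f2, show B + 5 + m / 8 = (B + 2) + 2 + (m / 8 + 1) by ring, pow_add, pow_add]; ring
      calc _ ≤ 2 ^ (2 + H + B * (4 * H + 3)) * 2 ^ (B + 5 + m / 8) * 2 ^ e₀ := Nat.mul_le_mul_right _ (Nat.mul_le_mul e1 e2)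
        _ = 2 ^ (2 + H + B * (4 * H + 3) + (B + 5 + m / 8) + e₀) := by rw [← pow_add, ← pow_add]
        _ ≤ 2 ^ (m / 2) := by
            apply Nat.pow_le_pow_right (by norm_num)
            have e4 : B * (4 * H + 3) = 4 * (B * H) + 3 * B := by ring
            have e5 : B ≤ B * H := Nat.le_mul_of_pos_right _ (by omega)
            omega
    have g3 : (k : ℝ) ^ c ≤ 2 ^ (m / 2) := by
      have e1 : k ≤ 512 * B * (m / 2 + 1) := by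
        have f1 : κ ≤ 256 * (m / 2 + 1) := by omega
        calc k ≤ 2 * B * κ := s6
          _ ≤ 2 * B * (256 * (m / 2 + 1)) := Nat.mul_le_mul_left _ f1
          _ = _ := by ring
      have e2 : y0 ≤ m / 2 := by
        by_contra hcon
        have : 512 * B * (m / 2 + 1) ≤ 512 * B * y0 := Nat.mul_le_mul_left _ (by omega)
        have e3 : 512 * B * (y0 + 1) = 512 * B * y0 + 512 * B := by ring
        omega
      refine le_trans ?_ (h2 _ e2)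
      rw [← mul_pow]
      apply pow_le_pow_left₀ hk0.le
      exact_mod_cast e1
    have g4 : (S.card : ℝ) ≤ 2 ^ (m / 2) := by exact_mod_cast g2
    push_cast
    rw [mul_one_div, div_le_div_iff₀ (by positivity) (by positivity)]
    calc (S.card : ℝ) * (k : ℝ) ^ c ≤ 2 ^ (m / 2) * 2 ^ (m / 2) := mul_le_mul g4 g3 (by positivity) (by positivity)
      _ = 2 ^ (m / 2 + m / 2) := by rw [← pow_add]
      _ ≤ 2 ^ m := pow_le_pow_right₀ (by norm_num) (by omega)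
      _ = 1 * 2 ^ m := (one_mul _).symm
  · -- the scales
    have hsc : ∀ i ∈ TL m H, ∑ r ∈ S, (if InScale 2 k (2 * m) i.1 i.2.1 i.2.2 r then
        2 * ((2 : ℕ) : ℝ) ^ 3 / ((2 : ℕ) : ℝ) ^ (i.1 + i.2.1 + i.2.2) else 0) ≤
          96000 * (B + 2) * 2 ^ (2 * e₀) * (k : ℝ) ^ 2 / 2 ^ (H / 2) := by
      intro i hi
      obtain ⟨i₁, i₂, i₃⟩ := i
      rw [mem_TL] at hi
      obtain ⟨⟨hi1, hi2, hi3⟩, hlarge⟩ := hi
      simp only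
      rw [← sum_filter, sum_const, nsmul_eq_mul]
      obtain ⟨S', hS'⟩ : ∃ S', S' = S.filter (fun r => InScale 2 k (2 * m) i₁ i₂ i₃ r) := ⟨_, rfl⟩
      have g0 := mul_card (2 ^ (k + 1)) μ hμ1 S' (fun r hr => by
        rw [hS', mem_filter] at hr
        exact (hS r hr.1).1)
      have g1 := scale_C ha hε0 (by linarith) (by nlinarith) R₂ hR1 hR₂ k κ m H r₀ hκ1 hκ2 hm s8 s4 s2 i₁ i₂ (i₃ + e₀) hi1 hi2
        (by omega) (by omega)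
        (S'.image (fun x => (μ * x) % 2 ^ (k + 1))) (by
          intro y hy
          obtain ⟨x, hx, rfl⟩ := mem_image.1 hy
          rw [hS', mem_filter] at hx
          obtain ⟨hx1, q₁, q₂, c', a1, a2, a3, a4, a5, a6, a7⟩ := hx
          obtain ⟨hx2, hx3⟩ := himg x hx1
          refine ⟨hx2, ⟨q₁ * q₂, μ * c' - ((μ * x / 2 ^ (k + 1) : ℕ) : ℤ) * (q₁ * q₂), ?_, ?_, ?_⟩, hx3⟩
          · have : 1 ≤ q₁ := Nat.pos_of_dvd_of_pos a1 (by positivity)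
            exact Nat.mul_pos this a3
          · rw [pow_add]; exact Nat.mul_le_mul a2 a4
          · obtain ⟨E, hE⟩ : ∃ E : ℕ, E = μ * x / 2 ^ (k + 1) := ⟨_, rfl⟩
            obtain ⟨Y, hY⟩ : ∃ Y : ℕ, Y = μ * x % 2 ^ (k + 1) := ⟨_, rfl⟩
            have b0 : 2 ^ (k + 1) * E + Y = μ * x := by rw [hE, hY]; exact Nat.div_add_mod _ _
            have b0' : (2 : ℤ) ^ (k + 1) * E + Y = μ * x := by exact_mod_cast b0
            rw [← hE, ← hY]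
            have b1 : (Y : ℤ) * ((q₁ * q₂ : ℕ) : ℤ) - (μ * c' - (E : ℤ) * (q₁ * q₂)) * ((2 ^ (k + 1) : ℕ) : ℤ) =
                μ * ((x : ℤ) * (q₁ * q₂) - c' * ((2 : ℕ) : ℤ) ^ (k + 1)) := by
              push_cast
              linear_combination ((q₁ : ℤ) * q₂) * b0'
            rw [b1, abs_mul, abs_of_nonneg (Int.natCast_nonneg μ)]
            have b2 : (μ : ℤ) ≤ 2 ^ e₀ := by exact_mod_cast hμ2
            push_cast at a7 ⊢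
            calc (μ : ℤ) * |(x : ℤ) * (q₁ * q₂) - c' * 2 ^ (k + 1)| ≤ 2 ^ e₀ * (q₁ * q₂ * 2 ^ (i₃ + 1)) :=
                  mul_le_mul b2 a7 (abs_nonneg _) (by positivity)
              _ = _ := by rw [show i₃ + e₀ + 1 = e₀ + (i₃ + 1) by ring, pow_add 2 e₀]; ring)
      have g2 : (S'.card : ℝ) * 2 ^ (H / 2) ≤ ((6000 * (B + 2)) * (k : ℝ) ^ 2 * 2 ^ (i₁ + i₂ + (i₃ + e₀))) * 2 ^ e₀ := by
        have e1 : S'.card * 2 ^ (H / 2) ≤ ((6000 * (B + 2)) * k ^ 2 * 2 ^ (i₁ + i₂ + (i₃ + e₀))) * 2 ^ e₀ := by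
          calc S'.card * 2 ^ (H / 2) ≤ ((S'.image (fun x => (μ * x) % 2 ^ (k + 1))).card * μ) * 2 ^ (H / 2) := Nat.mul_le_mul_right _ g0
            _ = ((S'.image (fun x => (μ * x) % 2 ^ (k + 1))).card * 2 ^ (H / 2)) * μ := by ring
            _ ≤ _ := Nat.mul_le_mul g1 hμ2
        exact_mod_cast e1
      rw [← hS']
      push_cast
      rw [le_div_iff₀ (by positivity)]
      calc (S'.card : ℝ) * (2 * 2 ^ 3 / 2 ^ (i₁ + i₂ + i₃)) * 2 ^ (H / 2) =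
            (2 * 2 ^ 3 / 2 ^ (i₁ + i₂ + i₃)) * ((S'.card : ℝ) * 2 ^ (H / 2)) := by ring
        _ ≤ (2 * 2 ^ 3 / 2 ^ (i₁ + i₂ + i₃)) * (((6000 * (B + 2)) * (k : ℝ) ^ 2 * 2 ^ (i₁ + i₂ + (i₃ + e₀))) * 2 ^ e₀) :=
            mul_le_mul_of_nonneg_left g2 (by positivity)
        _ = _ := by
            have e3 : (2 : ℝ) ^ (i₁ + i₂ + (i₃ + e₀)) * 2 ^ e₀ = 2 ^ (i₁ + i₂ + i₃) * 2 ^ (2 * e₀) := by
              rw [← pow_add, ← pow_add]; congr 1; ring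
            rw [mul_assoc (6000 * ((B : ℝ) + 2) * (k : ℝ) ^ 2), e3]
            field_simp
            norm_num
    refine (sum_le_sum hsc).trans ?_
    rw [sum_const, nsmul_eq_mul]
    have h4 : (((TL m H).card : ℕ) : ℝ) ≤ (k : ℝ) ^ 3 := by
      have h5 : (TL m H).card ≤ k ^ 3 := by
        refine (card_filter_le _ _).trans ?_
        rw [card_product, card_product, card_range]
        calc (m + 1) * ((m + 1) * (m + 1)) = (m + 1) ^ 3 := by ring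
          _ ≤ k ^ 3 := Nat.pow_le_pow_left (by omega) 3
      exact_mod_cast h5
    calc _ ≤ (k : ℝ) ^ 3 * (96000 * (B + 2) * 2 ^ (2 * e₀) * (k : ℝ) ^ 2 / 2 ^ (H / 2)) :=
          mul_le_mul_of_nonneg_right h4 (by positivity)
      _ = _ := by ring

end Pool.Agent.R461.CF
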