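import Pool.Agent.R461.CF.C5

set_option autoImplicit false

/-! The mean square over the nearly extremal frequencies. -/

namespace Pool.Agent.R461.CF

open Finset
open Pool.Agent.H807R2.Dav
open Pool.Agent.H373R2.T7
open Pool.Agent.W93.DG (FF FF_sub FF_pars FF_vM_le sum_vM_sq hh hh_half hh_up hh_small poly_exp InScale log_count pointwise wt TL
  mem_TL logX lamR part1_num part2_num fin_num)

/-- the mean square of the transform of the difference of the primes and the model -/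
theorem bad_L2 (B : ℕ) : ∃ (R : ℕ) (ε : ℝ), 1 ≤ R ∧ 0 < ε ∧ ε ≤ 1 / 4 ∧ ∀ e₀ U : ℕ, ∃ A B₀ : ℕ, U + 4 ≤ A ∧ ∀ Ez : ℕ, ∃ k₀ : ℕ, ∀ k : ℕ,
    k₀ ≤ k → ∀ a : ℕ → ℕ, Bd B a → ∀ κ : ℕ, den a κ ≤ 2 ^ k → 2 ^ k ≤ k * den a κ →
    ∀ z : ℕ, Real.log ((2 ^ k : ℕ) : ℝ) ^ B₀ ≤ z → (z : ℝ) ≤ Real.log ((2 ^ k : ℕ) : ℝ) ^ Ez → ∀ r₀ μ : ℕ, 1 ≤ μ →
    μ ≤ 2 ^ e₀ → ∀ S : Finset ℕ,
    (∀ x ∈ S, x < 2 ^ (k + 1) ∧ BadC a ε R κ (hh 2 A k) (((μ * x + r₀ : ℕ) : ℝ) / ((2 ^ (k + 1) : ℕ) : ℝ))) →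
    ∑ r ∈ S, ‖FF (fun n => ArithmeticFunction.vonMangoldt n - lamz z n) (2 ^ k) (2 ^ (k + 1)) r‖ ^ 2 ≤
      ((2 ^ (k + 1) : ℕ) : ℝ) * ((2 ^ k : ℕ) : ℝ) / (k : ℝ) ^ U := by
  classical
  obtain ⟨R, ε, hR, hε0, hε1, hwt⟩ := wt_sum_C B
  refine ⟨R, ε, hR, hε0, hε1, fun e₀ U => ?_⟩
  obtain ⟨A, hA⟩ : ∃ A, A = U + 30 := ⟨_, rfl⟩
  obtain ⟨U', hU'⟩ : ∃ U', U' = U + 10 * A + 2 := ⟨_, rfl⟩
  obtain ⟨B₀, hsup⟩ := sup_diff U'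
  refine ⟨A, B₀, by omega, fun Ez => ?_⟩
  obtain ⟨n0, h0⟩ := hwt A (U + 16) e₀ (by omega)
  obtain ⟨n1, h1⟩ := hsup Ez
  obtain ⟨n2, h2⟩ := Pool.Agent.W93.DG.model Ez (U + 2)
  obtain ⟨k4, h4⟩ := sizesC B A 1 (by omega)
  obtain ⟨C2, hC2⟩ : ∃ C2 : ℝ, C2 = 16 * 200000 ^ 2 * (2 : ℝ) ^ 14 * (1 + 96000 * (B + 2) * 2 ^ (2 * e₀)) := ⟨_, rfl⟩
  obtain ⟨C3, hC3⟩ : ∃ C3 : ℝ, C3 = 6 * (2 : ℝ) ^ 8 * (2 : ℝ) ^ (10 * A) * 2 ^ U' := ⟨_, rfl⟩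
  obtain ⟨C4, hC4⟩ : ∃ C4 : ℝ, C4 = 2 ^ (U + 2) := ⟨_, rfl⟩
  have hC20 : 0 ≤ C2 := by rw [hC2]; positivity
  have hC30 : 0 ≤ C3 := by rw [hC3]; positivity
  have hC40 : 0 ≤ C4 := by rw [hC4]; positivity
  obtain ⟨k6, hk6⟩ := exists_nat_ge (2 * C2 + C3 + 2 * C4)
  refine ⟨n0 + n1 + n2 + k4 + k6 + 4, fun k hk a ha κ hκ1 hκ2 z hz1 hz2 r₀ μ hμ1 hμ2 S hS => ?_⟩
  obtain ⟨s1, s2, s3, s4, s5, s6, s7, s8, s9, s10⟩ := h4 k (by omega) a ha κ hκ1 hκ2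
  obtain ⟨X, hX⟩ : ∃ X, X = 2 ^ k := ⟨_, rfl⟩
  obtain ⟨M, hM⟩ : ∃ M, M = 2 ^ (k + 1) := ⟨_, rfl⟩
  have hkX : k < X := by rw [hX]; exact Nat.lt_pow_self (by omega)
  have hX1 : 1 ≤ X := by omega
  have hXM : X ≤ M := by rw [hX, hM]; exact Nat.pow_le_pow_right (by norm_num) (by omega)
  have hM1 : 1 ≤ M := hX1.trans hXM
  have hkr : (1 : ℝ) ≤ k := by exact_mod_cast s1
  have hk0 : (0 : ℝ) < k := by linarith
  have hX0 : (0 : ℝ) < X := by exact_mod_cast hX1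
  have hXMr : (X : ℝ) ≤ M := by exact_mod_cast hXM
  have hM0 : (0 : ℝ) < M := by exact_mod_cast hM1
  obtain ⟨hL1, hL2⟩ := logX 2 k le_rfl
  obtain ⟨L, hL⟩ : ∃ L, L = Real.log (X : ℝ) := ⟨_, rfl⟩
  rw [← hX, ← hL] at hL1 hL2 hz1 hz2
  rw [← hX, ← hM]
  have hL0 : 0 < L := by linarith
  have hLge1 : 1 ≤ L := by
    have : (2 : ℝ) ≤ k := by exact_mod_cast (by omega : 2 ≤ k)
    linarith
  have hz : 1 ≤ z := by
    have : (1 : ℝ) ≤ z := (one_le_pow₀ hLge1).trans hz1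
    exact_mod_cast this
  obtain ⟨m, hm⟩ : ∃ m, m = κ / 128 := ⟨_, rfl⟩
  obtain ⟨h, hh'⟩ : ∃ h, h = hh 2 A k := ⟨_, rfl⟩
  have hwtk := h0 k (by omega) a ha κ hκ1 hκ2 r₀ μ hμ1 hμ2
  rw [← hm] at s7 s8 s9 hwtk
  rw [← hh'] at s2 s3 s4 s7 s10 hwtk hS
  obtain ⟨r', hrL, hrM⟩ := h2 X (by omega) z hz (by rw [← hL]; exact hz2)
  rw [← hL] at hrL hrM
  obtain ⟨f1, hf1⟩ : ∃ f1 : ℕ → ℝ, f1 = fun n => ArithmeticFunction.vonMangoldt n - lamR z r' n := ⟨_, rfl⟩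
  obtain ⟨f2, hf2⟩ : ∃ f2 : ℕ → ℝ, f2 = fun n => lamz z n - lamR z r' n := ⟨_, rfl⟩
  obtain ⟨fH, hfH⟩ : ∃ fH : ℕ → ℝ, fH = fun n => ArithmeticFunction.vonMangoldt n - lamz z n := ⟨_, rfl⟩
  obtain ⟨Φ, hΦ⟩ : ∃ Φ : ℝ, Φ = 200000 * L ^ 7 * X := ⟨_, rfl⟩
  have hΦ0 : 0 ≤ Φ := by rw [hΦ]; positivity
  rw [← hfH]
  obtain ⟨PL, hPL⟩ : ∃ PL : ℕ → Prop, PL = fun r => ∃ i₁ i₂ i₃ : ℕ, i₁ ≤ h ∧ i₂ ≤ h ∧ i₃ ≤ h ∧ InScale 2 k (2 * m) i₁ i₂ i₃ r := ⟨_, rfl⟩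
  -- the pointwise bound
  have hpt : ∀ r, ¬ PL r → ‖FF f1 X M r‖ * ‖FF f1 X M r‖ ≤ 16 * Φ ^ 2 * wt 2 k m h r := by
    intro r hr
    have hmin : ∀ V q : ℕ, 1 ≤ V → (V * V) * (V * V) ≤ 2 ^ k → 1 ≤ q → q ≤ 2 ^ k →
      ∀ c : ℤ, IsCoprime c (q : ℤ) → ∀ α : ℝ, |α - c / q| ≤ 1 / (q : ℝ) ^ 2 →
      ‖∑ n ∈ Icc 1 (2 ^ k), ((f1 n : ℝ) : ℂ) * ee ((n : ℝ) * α)‖ ≤ Φ * √(1 / (q : ℝ) + 1 / V + q / (2 ^ k : ℕ)) := by
      intro V q hV hVN hq hqN c hc α hα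
      have := hrM V q hV (by rw [hX]; exact hVN) hq (by rw [hX]; exact hqN) c hc α hα
      rw [← hX]
      refine (le_of_eq ?_).trans (this.trans (le_of_eq ?_))
      · rw [hf1]
      · rw [hΦ]; ring
    rw [hX, hM]
    rw [hPL] at hr
    exact pointwise 2 le_rfl k m h (by omega) (by omega) Φ hΦ0 f1 f1 hmin hmin r hr
  -- splitting
  rw [← sum_filter_add_sum_filter_not S PL (fun r => ‖FF fH X M r‖ ^ 2)]
  -- small scales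
  have hpart1 : ∑ r ∈ S.filter PL, ‖FF fH X M r‖ ^ 2 ≤ C3 * (M * X / (k : ℝ) ^ (U + 2)) := by
    have e1 : ∀ r ∈ S.filter PL, ‖FF fH X M r‖ ^ 2 ≤ 6 * X * (X / L ^ U') := by
      intro r _
      have e0 : ‖FF fH X M r‖ ≤ X / L ^ U' := by
        have := h1 X (by omega) z (by rw [← hL]; exact hz1) (by rw [← hL]; exact hz2) ((r : ℝ) / (M : ℝ))
        rw [hfH, hL]
        exact this
      have e00 : ‖FF fH X M r‖ ≤ 6 * X := by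
        refine e0.trans ?_
        rw [div_le_iff₀ (by positivity)]
        have : 1 ≤ L ^ U' := one_le_pow₀ hLge1
        nlinarith
      rw [sq]
      exact mul_le_mul e00 e0 (norm_nonneg _) (by positivity)
    have e2 : ((S.filter PL).card : ℝ) ≤ (2 : ℝ) ^ (5 * h + 8) := by
      have := log_count 2 k (2 * m) h le_rfl (by omega) (S.filter PL) (fun r hr => by
        rw [mem_filter, hPL] at hr
        exact ⟨(hS r hr.1).1, hr.2⟩)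
      exact_mod_cast this
    have e3 := hh_up 2 A k s1
    rw [← hh'] at e3
    push_cast at e3
    calc _ ≤ ∑ _r ∈ S.filter PL, 6 * (X : ℝ) * (X / L ^ U') := sum_le_sum e1
      _ = ((S.filter PL).card : ℝ) * (6 * X * (X / L ^ U')) := by rw [sum_const, nsmul_eq_mul]
      _ ≤ _ := by
        rw [hC3]
        exact part1_num 2 k X M L _ U U' A h (by norm_num) hk0 hX0 hXMr hL1 (by omega) e2 e3
  -- large scales
  have hpart2 : ∑ r ∈ S.filter (fun r => ¬ PL r), ‖FF f1 X M r‖ ^ 2 ≤ C2 * (M * X / (k : ℝ) ^ (U + 2)) := by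
    have e1 := hwtk (S.filter (fun r => ¬ PL r)) (fun x hx => hS x (mem_filter.1 hx).1)
    have e2 : 1 / (k : ℝ) ^ (U + 16) + (96000 * (B + 2) * 2 ^ (2 * e₀)) * (k : ℝ) ^ 5 / 2 ^ (h / 2) ≤ (1 + 96000 * (B + 2) * 2 ^ (2 * e₀)) / (k : ℝ) ^ (U + 16) := by
      rw [add_div]
      apply add_le_add le_rfl
      have e3 := hh_half 2 A k le_rfl s1
      rw [← hh'] at e3
      push_cast at e3
      have e4 : (k : ℝ) ^ 5 * (k : ℝ) ^ (U + 16) ≤ 2 ^ (h / 2) := by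
        rw [← pow_add]
        exact (pow_le_pow_right₀ hkr (by omega)).trans e3
      rw [div_le_div_iff₀ (by positivity) (by positivity)]
      calc 96000 * ((B : ℝ) + 2) * 2 ^ (2 * e₀) * (k : ℝ) ^ 5 * (k : ℝ) ^ (U + 16) =
            96000 * ((B : ℝ) + 2) * 2 ^ (2 * e₀) * ((k : ℝ) ^ 5 * (k : ℝ) ^ (U + 16)) := by ring
        _ ≤ _ := mul_le_mul_of_nonneg_left e4 (by positivity)
    calc _ ≤ ∑ r ∈ S.filter (fun r => ¬ PL r), 16 * Φ ^ 2 * wt 2 k m h r := by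
          apply sum_le_sum
          intro r hr
          rw [sq]
          exact hpt r (mem_filter.1 hr).2
      _ = 16 * Φ ^ 2 * ∑ r ∈ S.filter (fun r => ¬ PL r), wt 2 k m h r := by rw [mul_sum]
      _ ≤ _ := by
          rw [hΦ, hC2]
          have := part2_num 200000 2 k X M L (1 + 96000 * (B + 2) * 2 ^ (2 * e₀)) _ U (by norm_num) (by norm_num) hk0 hX0 hXMr hL0.le (by exact_mod_cast hL2)
            (by positivity) (e1.trans e2)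
          exact this
  -- the difference of the models
  have hpart3 : ∑ r ∈ S.filter (fun r => ¬ PL r), ‖FF f2 X M r‖ ^ 2 ≤ C4 * (M * X / (k : ℝ) ^ (U + 2)) := by
    have hsub : S.filter (fun r => ¬ PL r) ⊆ range M := by
      intro r hr
      rw [mem_range, hM]
      exact (hS r (mem_filter.1 hr).1).1
    have e1 : ∑ r ∈ S.filter (fun r => ¬ PL r), ‖FF f2 X M r‖ ^ 2 ≤ ∑ r ∈ range M, ‖FF f2 X M r‖ ^ 2 :=
      sum_le_sum_of_subset_of_nonneg hsub fun _ _ _ => by positivity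
    rw [FF_pars f2 X M hM1 hXM] at e1
    have e2 : ∑ n ∈ Icc 1 X, f2 n ^ 2 ≤ X / L ^ (U + 2) := by rw [hf2]; exact hrL
    have e4 : 1 / L ^ (U + 2) ≤ 2 ^ (U + 2) / (k : ℝ) ^ (U + 2) := by
      rw [← div_pow, ← one_div_pow]
      apply pow_le_pow_left₀ (by positivity)
      rw [div_le_div_iff₀ hL0 hk0]
      linarith
    calc _ ≤ M * ∑ n ∈ Icc 1 X, f2 n ^ 2 := e1
      _ ≤ M * (X / L ^ (U + 2)) := mul_le_mul_of_nonneg_left e2 hM0.le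
      _ = (M * X) * (1 / L ^ (U + 2)) := by ring
      _ ≤ (M * X) * (2 ^ (U + 2) / (k : ℝ) ^ (U + 2)) := mul_le_mul_of_nonneg_left e4 (by positivity)
      _ = _ := by rw [hC4]; ring
  have hpart4 : ∑ r ∈ S.filter (fun r => ¬ PL r), ‖FF fH X M r‖ ^ 2 ≤
      2 * ∑ r ∈ S.filter (fun r => ¬ PL r), ‖FF f1 X M r‖ ^ 2 +
      2 * ∑ r ∈ S.filter (fun r => ¬ PL r), ‖FF f2 X M r‖ ^ 2 := by
    rw [mul_sum, mul_sum, ← sum_add_distrib]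
    apply sum_le_sum
    intro r _
    have e1 : FF fH X M r = FF f1 X M r - FF f2 X M r := by
      rw [← FF_sub]
      congr 1
      ext n
      rw [hfH, hf1, hf2]
      ring
    rw [e1]
    have e2 := norm_sub_le (FF f1 X M r) (FF f2 X M r)
    have e3 := norm_nonneg (FF f1 X M r - FF f2 X M r)
    have e4 : ‖FF f1 X M r - FF f2 X M r‖ ^ 2 ≤ (‖FF f1 X M r‖ + ‖FF f2 X M r‖) ^ 2 := pow_le_pow_left₀ e3 e2 2
    nlinarith [sq_nonneg (‖FF f1 X M r‖ - ‖FF f2 X M r‖)]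
  have hY : 0 ≤ (M : ℝ) * X / (k : ℝ) ^ (U + 2) := by positivity
  have hfin : (2 * C2 + C3 + 2 * C4) * (M * X / (k : ℝ) ^ (U + 2)) ≤ M * X / (k : ℝ) ^ U :=
    fin_num k (2 * C2 + C3 + 2 * C4) (M * X) U hkr (hk6.trans (by exact_mod_cast (by omega : k6 ≤ k))) (by positivity)
  linarith

end Pool.Agent.R461.CF
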