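import Pool.Agent.R461.CF.C6
import Pool.Agent.TH894.SM5

set_option autoImplicit false

/-! The sums over the denominators in a window. -/

namespace Pool.Agent.R461.CF

open Finset
open Pool.Agent.H807R2.Dav
open Pool.Agent.W93.DG (hh)
open Pool.Agent.TH894.SM (Ph Ph_split Ph_le)

/-- the changes -/
def dlC (a : ℕ → ℕ) (σ : ℤ) (j : ℕ) : ℤ := σ * den a j

/-- a set of positions without three consecutive members -/
lemma no_three (x w : ℕ) (G : Finset ℕ) (hG : ∀ n, n ∈ G → n + 1 ∈ G → n + 2 ∈ G → False) :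
    w / 3 ≤ (Ico x (x + w) \ G).card := by
  classical
  have h1 : ∀ i : ℕ, ∃ e : ℕ, e ≤ 2 ∧ x + 3 * i + e ∉ G := by
    intro i
    by_contra hcon
    push Not at hcon
    exact hG (x + 3 * i) (hcon 0 (by omega)) (hcon 1 (by omega)) (hcon 2 (by omega))
  choose e he1 he2 using h1
  calc w / 3 = (range (w / 3)).card := (card_range _).symm
    _ ≤ _ := by
      apply card_le_card_of_injOn (fun i => x + 3 * i + e i)
      · intro i hi
        rw [mem_coe, mem_range] at hi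
        have := he1 i
        have h2 : x + 3 * i + e i ∈ Ico x (x + w) \ G := by
          rw [mem_sdiff, mem_Ico]
          exact ⟨⟨by omega, by omega⟩, he2 i⟩
        exact h2
      · intro i _ j _ hij
        simp only at hij
        have := he1 i
        have := he1 j
        omega

/-- if three consecutive members are close to `c`, then a multiple of `c` is close to an integer -/
lemma close_c {B : ℕ} {a : ℕ → ℕ} (h : Bd B a) (σ : ℤ) (θ c κ : ℝ) (n : ℕ)
    (h0 : ∃ z : ℤ, |(dlC a σ n : ℝ) * θ - c - z| < κ) (h1 : ∃ z : ℤ, |(dlC a σ (n + 1) : ℝ) * θ - c - z| < κ)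
    (h2 : ∃ z : ℤ, |(dlC a σ (n + 2) : ℝ) * θ - c - z| < κ) :
    ∃ z : ℤ, |(B.factorial : ℝ) * c - z| ≤ B.factorial * ((B + 2) * κ) := by
  obtain ⟨z0, h0⟩ := h0
  obtain ⟨z1, h1⟩ := h1
  obtain ⟨z2, h2⟩ := h2
  obtain ⟨ha1, ha2⟩ := h (n + 2) (by omega)
  obtain ⟨d, hd⟩ : a (n + 2) ∣ B.factorial := Nat.dvd_factorial ha1 ha2
  have ha1' : (1 : ℝ) ≤ a (n + 2) := by exact_mod_cast ha1
  have ha2' : (a (n + 2) : ℝ) ≤ B := by exact_mod_cast ha2
  have hκ : 0 < κ := lt_of_le_of_lt (abs_nonneg _) h0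
  have hd' : (B.factorial : ℝ) = a (n + 2) * d := by exact_mod_cast hd
  have hd1 : (d : ℝ) ≤ B.factorial := by
    rw [hd']
    have : (0 : ℝ) ≤ d := Nat.cast_nonneg _
    nlinarith
  have hdl : (dlC a σ (n + 2) : ℝ) = a (n + 2) * dlC a σ (n + 1) + dlC a σ n := by
    unfold dlC
    rw [den_add]
    push_cast
    ring
  have e1 : |(a (n + 2) : ℝ) * c - ((z2 - a (n + 2) * z1 - z0 : ℤ) : ℝ)| ≤ (B + 2) * κ := by
    have e2 : (a (n + 2) : ℝ) * c - ((z2 - a (n + 2) * z1 - z0 : ℤ) : ℝ) =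
        ((dlC a σ (n + 2) : ℝ) * θ - c - z2) - a (n + 2) * ((dlC a σ (n + 1) : ℝ) * θ - c - z1) -
          ((dlC a σ n : ℝ) * θ - c - z0) := by
      rw [hdl]
      push_cast
      ring
    rw [e2]
    have b0 := abs_lt.1 h0
    have b1 := abs_lt.1 h1
    have b2 := abs_lt.1 h2
    rw [abs_le]
    constructor <;> nlinarith
  refine ⟨d * (z2 - a (n + 2) * z1 - z0), ?_⟩
  have e3 : (B.factorial : ℝ) * c - ((d * (z2 - a (n + 2) * z1 - z0) : ℤ) : ℝ) =
      d * ((a (n + 2) : ℝ) * c - ((z2 - a (n + 2) * z1 - z0 : ℤ) : ℝ)) := by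
    rw [hd']
    push_cast
    ring
  rw [e3, abs_mul, abs_of_nonneg (show (0 : ℝ) ≤ d from Nat.cast_nonneg _)]
  calc (d : ℝ) * |(a (n + 2) : ℝ) * c - ((z2 - a (n + 2) * z1 - z0 : ℤ) : ℝ)| ≤ B.factorial * ((B + 2) * κ) :=
        mul_le_mul hd1 e1 (abs_nonneg _) (by positivity)
    _ = _ := rfl

/-- the savings of a window -/
theorem Ph_winC (B R : ℕ) (hR : 1 ≤ R) (ε : ℝ) (hε0 : 0 < ε) (hε1 : ε ≤ 1) : ∃ η : ℝ, 0 < η ∧ η < 1 ∧ ∀ a : ℕ → ℕ, Bd B a →
    ∀ σ : ℤ, (σ = 1 ∨ σ = -1) → ∀ (x w : ℕ) (θ : ℝ), 5 ≤ w → w ≤ R * farc a ε x w (B.factorial * θ) →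
    ‖Ph (dlC a σ) (Ico x (x + w)) θ‖ ≤ (1 - η) * w := by
  classical
  obtain ⟨F, hF⟩ : ∃ F : ℝ, F = (B.factorial : ℝ) := ⟨_, rfl⟩
  have hF1 : 1 ≤ F := by rw [hF]; exact_mod_cast Nat.factorial_pos B
  have hR1 : (1 : ℝ) ≤ R := by exact_mod_cast hR
  obtain ⟨κ, hκ⟩ : ∃ κ : ℝ, κ = ε / (2 * (F * (B + 3))) := ⟨_, rfl⟩
  have hB0 : (0 : ℝ) ≤ B := Nat.cast_nonneg _
  have hκ0 : 0 < κ := by rw [hκ]; positivity
  have hκF : F * ((B + 3) * κ) = ε / 2 := by
    rw [hκ]
    field_simp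
  have hκ1 : κ ≤ 1 / 2 := by
    have : 1 * (1 * κ) ≤ F * ((B + 3) * κ) := by
      apply mul_le_mul hF1 _ (by positivity) (by positivity)
      exact mul_le_mul_of_nonneg_right (by linarith) hκ0.le
    linarith
  refine ⟨4 * κ ^ 2 / (5 * R), by positivity, ?_, fun a ha σ hσ x w θ hw hfar => ?_⟩
  · rw [div_lt_one (by positivity)]
    nlinarith
  obtain ⟨c, G, hGJ, hG, hn⟩ := Ph_split (dlC a σ) (Ico x (x + w)) θ κ hκ0.le hκ1
  rw [Nat.card_Ico, Nat.add_sub_cancel_left] at hn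
  have hw0 : (0 : ℝ) < w := by exact_mod_cast (by omega : 0 < w)
  have hkey : (w : ℝ) / (5 * R) ≤ ((Ico x (x + w) \ G).card : ℝ) := by
    by_cases h3 : ∀ n, n ∈ G → n + 1 ∈ G → n + 2 ∈ G → False
    · have h4 := no_three x w G h3
      have h5 : w ≤ 5 * (w / 3) := by omega
      have h6 : (w : ℝ) ≤ 5 * ((Ico x (x + w) \ G).card : ℝ) := by
        have : w ≤ 5 * (Ico x (x + w) \ G).card := h5.trans (Nat.mul_le_mul_left _ h4)
        exact_mod_cast this
      rw [div_le_iff₀ (by positivity)]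
      have : (0 : ℝ) ≤ ((Ico x (x + w) \ G).card : ℝ) := Nat.cast_nonneg _
      nlinarith
    · push Not at h3
      obtain ⟨n, n0, n1, n2, _⟩ := h3
      obtain ⟨zc, hzc⟩ := close_c ha σ θ c κ n (hG n n0) (hG _ n1) (hG _ n2)
      rw [← hF] at hzc
      -- the members of `G` are near
      have h4 : farc a ε x w (B.factorial * θ) ≤ (Ico x (x + w) \ G).card := by
        unfold farc
        apply card_le_card
        intro j hj
        rw [mem_filter] at hj
        rw [mem_sdiff]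
        refine ⟨hj.1, fun hjG => ?_⟩
        obtain ⟨zj, hzj⟩ := hG j hjG
        have h5 : |(den a j : ℝ) * (F * θ) - ((σ * (B.factorial * zj + zc) : ℤ) : ℝ)| ≤ ε / 2 := by
          have hσr : (σ : ℝ) * σ = 1 := by
            rcases hσ with rfl | rfl <;> norm_num
          have hσa : |(σ : ℝ)| = 1 := by
            rcases hσ with rfl | rfl <;> norm_num
          have e1 : (den a j : ℝ) * (F * θ) - ((σ * (B.factorial * zj + zc) : ℤ) : ℝ) =
              σ * (F * ((dlC a σ j : ℝ) * θ - c - zj) + (F * c - zc)) := by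
            unfold dlC
            push_cast
            rw [← hF]
            linear_combination (-((den a j : ℝ) * (F * θ))) * hσr
          rw [e1, abs_mul, hσa, one_mul]
          refine (abs_add_le _ _).trans ?_
          rw [abs_mul, abs_of_nonneg (show 0 ≤ F by linarith)]
          calc F * |(dlC a σ j : ℝ) * θ - c - zj| + |F * c - zc| ≤ F * κ + F * ((B + 2) * κ) :=
                add_le_add (mul_le_mul_of_nonneg_left hzj.le (by linarith)) hzc
            _ = F * ((B + 3) * κ) := by ring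
            _ = ε / 2 := hκF
        have h6 := round_le ((den a j : ℝ) * (F * θ)) (σ * (B.factorial * zj + zc))
        have h7 := hj.2
        unfold rho at h7
        rw [← hF] at h7
        linarith
      have h5 : (w : ℝ) ≤ R * ((Ico x (x + w) \ G).card : ℝ) := by
        have : w ≤ R * (Ico x (x + w) \ G).card := hfar.trans (Nat.mul_le_mul_left _ h4)
        exact_mod_cast this
      rw [div_le_iff₀ (by positivity)]
      have : (0 : ℝ) ≤ ((Ico x (x + w) \ G).card : ℝ) := Nat.cast_nonneg _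
      nlinarith
  calc ‖Ph (dlC a σ) (Ico x (x + w)) θ‖ ≤ w - 4 * κ ^ 2 * ((Ico x (x + w) \ G).card : ℝ) := hn
    _ ≤ w - 4 * κ ^ 2 * (w / (5 * R)) := by
        apply sub_le_sub_left
        exact mul_le_mul_of_nonneg_left hkey (by positivity)
    _ = (1 - 4 * κ ^ 2 / (5 * R)) * w := by ring

end Pool.Agent.R461.CF
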