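import Pool.Agent.R461.CF.C7

set_option autoImplicit false

/-! The second moment over random sums of denominators. -/

namespace Pool.Agent.R461.CF

open Finset
open Pool.Agent.H807R2.Dav
open Pool.Agent.W93.DG (hh)
open Pool.Agent.H373R2.T7 (conj_ee)
open Pool.Agent.W93.RD (EE)
open Pool.Agent.TH894.SM (Ph Ph_split Ph_le ee_sum)

/-- the two windows of positions -/
def JJ (κ h : ℕ) (q : Fin 2) : Finset ℕ := if q = 0 then Ico 0 (κ - (4 * h + 2)) else Ico (κ - (4 * h + 2)) κ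

/-- the choices of the positions -/
def OmC (J : Fin 2 → Finset ℕ) (t : ℕ) : Finset (Fin 2 × Fin t → ℕ) := Fintype.piFinset (fun c => J c.1)

/-- the integer after the changes -/
def nwC (δ : ℕ → ℤ) (N : ℤ) {t : ℕ} (ω : Fin 2 × Fin t → ℕ) : ℤ := N + ∑ c, δ (ω c)

lemma card_OmC (J : Fin 2 → Finset ℕ) (t : ℕ) : ((OmC J t).card : ℝ) = ∏ q, ((J q).card : ℝ) ^ t := by
  unfold OmC
  rw [Fintype.card_piFinset]
  push_cast
  rw [Fintype.prod_prod_type]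
  apply prod_congr rfl
  intro q _
  simp

lemma sum_OmC (δ : ℕ → ℤ) (J : Fin 2 → Finset ℕ) (t : ℕ) (θ : ℝ) :
    ∑ ω ∈ OmC J t, ee (((∑ c, δ (ω c) : ℤ) : ℝ) * θ) = ∏ q, Ph δ (J q) θ ^ t := by
  have h1 : ∏ c : Fin 2 × Fin t, Ph δ (J c.1) θ = ∑ ω ∈ OmC J t, ∏ c, ee ((δ (ω c) : ℝ) * θ) := by
    unfold Ph OmC
    rw [Finset.prod_univ_sum]
  have h2 : ∏ c : Fin 2 × Fin t, Ph δ (J c.1) θ = ∏ q, Ph δ (J q) θ ^ t := by
    rw [Fintype.prod_prod_type]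
    apply prod_congr rfl
    intro q _
    simp
  rw [← h2, h1]
  apply sum_congr rfl
  intro ω _
  rw [← ee_sum]
  congr 1
  push_cast
  rw [sum_mul]

/-- the expansion of the second moment -/
lemma EE_secondC (M : ℕ) (δ : ℕ → ℤ) (N : ℤ) (J : Fin 2 → Finset ℕ) (t : ℕ) (A : ℕ → ℂ) :
    ∑ ω ∈ OmC J t, ‖EE A M (nwC δ N ω)‖ ^ 2 ≤
      ∑ r ∈ range M, ∑ r' ∈ range M, ‖A r‖ * ‖A r'‖ * ∏ q, ‖Ph δ (J q) (((r' : ℝ) - r) / (M : ℝ))‖ ^ t := by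
  have h1 : ∀ n : ℤ, ((‖EE A M n‖ : ℂ)) ^ 2 = ∑ r ∈ range M, ∑ r' ∈ range M, A r * (starRingEnd ℂ) (A r') *
      ee ((n : ℝ) * (((r' : ℝ) - r) / (M : ℝ))) := by
    intro n
    unfold EE
    rw [← Complex.mul_conj', map_sum, sum_mul_sum]
    apply sum_congr rfl
    intro r _
    apply sum_congr rfl
    intro r' _
    rw [map_mul, conj_ee]
    have h2 : ee ((n : ℝ) * (((r' : ℝ) - r) / (M : ℝ))) = ee (-((n : ℝ) * ((r : ℝ) / (M : ℝ)))) * ee (- -((n : ℝ) * ((r' : ℝ) / (M : ℝ)))) := by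
      rw [← ee_add]
      congr 1
      ring
    rw [h2]
    ring
  have hnn : 0 ≤ ∑ ω ∈ OmC J t, ‖EE A M (nwC δ N ω)‖ ^ 2 := sum_nonneg fun _ _ => sq_nonneg _
  have h2 : ((∑ ω ∈ OmC J t, ‖EE A M (nwC δ N ω)‖ ^ 2 : ℝ) : ℂ) =
      ∑ r ∈ range M, ∑ r' ∈ range M, A r * (starRingEnd ℂ) (A r') * ee ((N : ℝ) * (((r' : ℝ) - r) / (M : ℝ))) *
        ∏ q, Ph δ (J q) (((r' : ℝ) - r) / (M : ℝ)) ^ t := by
    push_cast
    simp only [h1]
    rw [sum_comm]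
    apply sum_congr rfl
    intro r _
    rw [sum_comm]
    apply sum_congr rfl
    intro r' _
    rw [← sum_OmC, mul_sum]
    apply sum_congr rfl
    intro ω _
    have h3 : ee ((nwC δ N ω : ℝ) * (((r' : ℝ) - r) / (M : ℝ))) = ee ((N : ℝ) * (((r' : ℝ) - r) / (M : ℝ))) *
        ee (((∑ c, δ (ω c) : ℤ) : ℝ) * (((r' : ℝ) - r) / (M : ℝ))) := by
      rw [← ee_add]
      congr 1
      unfold nwC
      push_cast
      ring
    rw [h3]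
    ring
  have h3 : ∑ ω ∈ OmC J t, ‖EE A M (nwC δ N ω)‖ ^ 2 = ‖((∑ ω ∈ OmC J t, ‖EE A M (nwC δ N ω)‖ ^ 2 : ℝ) : ℂ)‖ := by
    rw [Complex.norm_real, Real.norm_of_nonneg hnn]
  rw [h3, h2]
  refine (norm_sum_le _ _).trans ?_
  apply sum_le_sum
  intro r _
  refine (norm_sum_le _ _).trans ?_
  apply sum_le_sum
  intro r' _
  rw [norm_mul, norm_mul, norm_mul, norm_ee, mul_one, RCLike.norm_conj, norm_prod]
  simp only [norm_pow]
  exact le_rfl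

/-- the product of the two windows -/
lemma two_win (P T : Fin 2 → ℝ) (η : ℝ) (t : ℕ) (ht : 4 ≤ t) (hη0 : 0 ≤ η) (hη1 : η ≤ 1) (hP : ∀ q, 0 ≤ P q) (hPT : ∀ q, P q ≤ T q)
    (hT0 : 0 < T 0) (q₀ : Fin 2) (h : P q₀ ≤ (1 - η) * T q₀) :
    ∏ q, P q ^ t ≤ (1 - η) ^ (t - 4) * (P 0 ^ 4 / T 0 ^ 4) * ∏ q, T q ^ t := by
  have h1 : 0 ≤ 1 - η := by linarith
  obtain ⟨s, hs⟩ : ∃ s, t = 4 + s := ⟨t - 4, by omega⟩
  have hts : t - 4 = s := by omega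
  rw [hts, Fin.prod_univ_two, Fin.prod_univ_two]
  have p0 := hP 0
  have p1 := hP 1
  have t1 : 0 ≤ T 1 := (hP 1).trans (hPT 1)
  have e1 : P 0 ^ t = P 0 ^ 4 * P 0 ^ s := by rw [hs, pow_add]
  have e2 : T 0 ^ t = T 0 ^ 4 * T 0 ^ s := by rw [hs, pow_add]
  have e3 : (1 - η) ^ s * (P 0 ^ 4 / T 0 ^ 4) * (T 0 ^ t * T 1 ^ t) = P 0 ^ 4 * ((1 - η) ^ s * (T 0 ^ s * T 1 ^ t)) := by
    rw [e2]
    have : T 0 ^ 4 ≠ 0 := (pow_pos hT0 4).ne'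
    field_simp
  have e4 : P 0 ^ t * P 1 ^ t = P 0 ^ 4 * (P 0 ^ s * P 1 ^ t) := by rw [e1]; ring
  rw [e3, e4]
  apply mul_le_mul_of_nonneg_left _ (pow_nonneg p0 4)
  have f0 : P 0 ^ s ≤ T 0 ^ s := pow_le_pow_left₀ p0 (hPT 0) s
  have f1 : P 1 ^ t ≤ T 1 ^ t := pow_le_pow_left₀ p1 (hPT 1) t
  have hpow : (1 - η) ^ t ≤ (1 - η) ^ s := pow_le_pow_of_le_one h1 (by linarith) (by omega)
  have hq : q₀ = 0 ∨ q₀ = 1 := by fin_cases q₀ <;> simp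
  rcases hq with rfl | rfl
  · have g0 : P 0 ^ s ≤ (1 - η) ^ s * T 0 ^ s := by
      calc P 0 ^ s ≤ ((1 - η) * T 0) ^ s := pow_le_pow_left₀ p0 h s
        _ = _ := by rw [mul_pow]
    calc P 0 ^ s * P 1 ^ t ≤ ((1 - η) ^ s * T 0 ^ s) * T 1 ^ t := mul_le_mul g0 f1 (by positivity) (by positivity)
      _ = _ := by ring
  · have g1 : P 1 ^ t ≤ (1 - η) ^ s * T 1 ^ t := by
      calc P 1 ^ t ≤ ((1 - η) * T 1) ^ t := pow_le_pow_left₀ p1 h t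
        _ = (1 - η) ^ t * T 1 ^ t := by rw [mul_pow]
        _ ≤ _ := mul_le_mul_of_nonneg_right hpow (by positivity)
    calc P 0 ^ s * P 1 ^ t ≤ T 0 ^ s * ((1 - η) ^ s * T 1 ^ t) := mul_le_mul f0 g1 (by positivity) (by positivity)
      _ = _ := by ring

/-- the second moment is bounded by the contribution of the nearly extremal frequencies and a fourth moment -/
theorem coreC (B R : ℕ) (hR : 1 ≤ R) (ε : ℝ) (hε0 : 0 < ε) (hε1 : ε ≤ 1) : ∃ η : ℝ, 0 < η ∧ η < 1 ∧ ∀ a : ℕ → ℕ, Bd B a →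
    ∀ σ : ℤ, (σ = 1 ∨ σ = -1) → ∀ M κ h : ℕ, 1 ≤ M → 1 ≤ h → 4 * h + 7 ≤ κ → ∀ (N : ℤ) (t : ℕ), 4 ≤ t → ∀ (V : ℕ → ℂ) (E₀ : ℝ),
    (∀ r < M, ∀ S : Finset ℕ, (∀ r' ∈ S, r' < M ∧
        BadC a ε R κ h (((B.factorial * r' + B.factorial * (M - r) : ℕ) : ℝ) / (M : ℝ))) → ∑ r' ∈ S, ‖V r'‖ ≤ E₀) →
    ∑ ω ∈ OmC (JJ κ h) t, ‖EE V M (nwC (dlC a σ) N ω)‖ ^ 2 ≤
      (E₀ * ∑ r ∈ range M, ‖V r‖ + (1 - η) ^ (t - 4) / ((JJ κ h 0).card : ℝ) ^ 4 *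
        ∑ r ∈ range M, ∑ r' ∈ range M,
          ‖V r‖ * ‖V r'‖ * ‖Ph (dlC a σ) (JJ κ h 0) (((r' : ℝ) - r) / (M : ℝ))‖ ^ 4) * (OmC (JJ κ h) t).card := by
  classical
  obtain ⟨η, hη0, hη1, hwin⟩ := Ph_winC B R hR ε hε0 hε1
  refine ⟨η, hη0, hη1, fun a ha σ hσ M κ h hM hh1 hκ N t ht V E₀ hbad => ?_⟩
  refine (EE_secondC M (dlC a σ) N (JJ κ h) t _).trans ?_
  have hM0 : (0 : ℝ) < M := by exact_mod_cast hM
  obtain ⟨g, hg⟩ : ∃ g, g = κ - (4 * h + 2) := ⟨_, rfl⟩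
  have hJ0 : JJ κ h 0 = Ico 0 g := by unfold JJ; rw [if_pos rfl, hg]
  have hJ1 : JJ κ h 1 = Ico g κ := by unfold JJ; rw [if_neg (by decide), hg]
  have hJ0c : ((JJ κ h 0).card : ℝ) = g := by rw [hJ0, Nat.card_Ico, Nat.sub_zero]
  have hJ1c : ((JJ κ h 1).card : ℝ) = ((4 * h + 2 : ℕ) : ℝ) := by rw [hJ1, Nat.card_Ico]; congr 1; omega
  obtain ⟨α, hα⟩ : ∃ α : ℕ → ℕ → ℝ, α = fun r r' => ((B.factorial * r' + B.factorial * (M - r) : ℕ) : ℝ) / (M : ℝ) := ⟨_, rfl⟩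
  obtain ⟨P, hP⟩ : ∃ P : Fin 2 → ℕ → ℕ → ℝ, P = fun (q : Fin 2) (r r' : ℕ) => ‖Ph (dlC a σ) (JJ κ h q) (((r' : ℝ) - (r : ℝ)) / (M : ℝ))‖ := ⟨_, rfl⟩
  obtain ⟨T, hT⟩ : ∃ T : Fin 2 → ℝ, T = fun q => ((JJ κ h q).card : ℝ) := ⟨_, rfl⟩
  have hP0 : ∀ q r r', 0 ≤ P q r r' := fun q r r' => by rw [hP]; exact norm_nonneg _
  have hPT : ∀ q r r', P q r r' ≤ T q := fun q r r' => by rw [hP, hT]; exact Ph_le _ _ _
  have hT0 : ∀ q, 0 ≤ T q := fun q => by rw [hT]; exact Nat.cast_nonneg _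
  have hOm : ((OmC (JJ κ h) t).card : ℝ) = ∏ q, T q ^ t := by rw [card_OmC, hT]
  have hTall : 0 ≤ ∏ q, T q ^ t := prod_nonneg fun q _ => pow_nonneg (hT0 q) t
  have hT00 : 0 < T 0 := by rw [hT]; simp only; rw [hJ0c]; exact_mod_cast (by omega : 0 < g)
  have hT0' : T 0 = ((JJ κ h 0).card : ℝ) := by rw [hT]
  rw [hOm, ← hT0']
  have hshift : ∀ r < M, ∀ r' x w : ℕ, farc a ε x w (B.factorial * (((r' : ℝ) - (r : ℝ)) / (M : ℝ))) = farc a ε x w (α r r') := by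
    intro r hr r' x w
    rw [← farc_sub_int a ε x w (α r r') (B.factorial : ℤ)]
    congr 1
    rw [hα]
    simp only
    push_cast [Nat.cast_sub hr.le]
    field_simp
    ring
  -- the frequencies which are not nearly extremal
  have hgood : ∀ r < M, ∀ r', ¬ BadC a ε R κ h (α r r') →
      ∏ q, P q r r' ^ t ≤ (1 - η) ^ (t - 4) * (P 0 r r' ^ 4 / T 0 ^ 4) * ∏ q, T q ^ t := by
    intro r hr r' hnb
    have hex : ∃ q₀ : Fin 2, P q₀ r r' ≤ (1 - η) * T q₀ := by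
      unfold BadC at hnb
      rw [← hg] at hnb
      by_cases c1 : farc a ε 0 g (α r r') * R ≤ κ
      · have c2 : ¬ farc a ε g (4 * h + 2) (α r r') * R ≤ 2 * (4 * h + 2) := fun c2 => hnb ⟨c1, c2⟩
        refine ⟨1, ?_⟩
        have e0 := hwin a ha σ hσ g (4 * h + 2) (((r' : ℝ) - (r : ℝ)) / (M : ℝ)) (by omega) (by
          rw [hshift r hr r', mul_comm R]
          omega)
        rw [hP, hT]
        simp only
        rw [hJ1c, hJ1]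
        have e1 : g + (4 * h + 2) = κ := by omega
        rw [e1] at e0
        exact e0
      · refine ⟨0, ?_⟩
        have e0 := hwin a ha σ hσ 0 g (((r' : ℝ) - (r : ℝ)) / (M : ℝ)) (by omega) (by
          rw [hshift r hr r', mul_comm R]
          omega)
        rw [hP, hT]
        simp only
        rw [hJ0c, hJ0]
        rw [zero_add] at e0
        exact e0
    obtain ⟨q₀, hq₀⟩ := hex
    exact two_win (fun q => P q r r') T η t ht hη0.le hη1.le (fun q => hP0 q r r') (fun q => hPT q r r') hT00 q₀ hq₀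
  have hη' : 0 ≤ 1 - η := by linarith
  -- the rows
  have hrow : ∀ r ∈ range M, ∑ r' ∈ range M, ‖V r‖ * ‖V r'‖ * ∏ q, P q r r' ^ t ≤
      ‖V r‖ * (E₀ * ∏ q, T q ^ t) +
      (((1 - η) ^ (t - 4) / T 0 ^ 4) * ∏ q, T q ^ t) * ∑ r' ∈ range M, ‖V r‖ * ‖V r'‖ * P 0 r r' ^ 4 := by
    intro r hr
    rw [mem_range] at hr
    rw [← sum_filter_add_sum_filter_not (range M) (fun r' => BadC a ε R κ h (α r r'))]
    apply add_le_add
    · have e1 := hbad r hr ((range M).filter (fun r' => BadC a ε R κ h (α r r'))) (by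
          intro r' hr'
          rw [mem_filter, mem_range, hα] at hr'
          exact hr')
      have e2 : ∑ r' ∈ (range M).filter (fun r' => BadC a ε R κ h (α r r')), ‖V r‖ * ‖V r'‖ * ∏ q, P q r r' ^ t ≤
          ∑ r' ∈ (range M).filter (fun r' => BadC a ε R κ h (α r r')), ‖V r‖ * (‖V r'‖ * ∏ q, T q ^ t) := by
        apply sum_le_sum
        intro r' _
        rw [mul_assoc]
        apply mul_le_mul_of_nonneg_left _ (norm_nonneg _)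
        apply mul_le_mul_of_nonneg_left _ (norm_nonneg _)
        exact prod_le_prod (fun q _ => pow_nonneg (hP0 q r r') t) fun q _ => pow_le_pow_left₀ (hP0 q r r') (hPT q r r') t
      refine e2.trans ?_
      rw [← mul_sum, ← sum_mul]
      apply mul_le_mul_of_nonneg_left _ (norm_nonneg _)
      exact mul_le_mul_of_nonneg_right e1 hTall
    · have e1 : ∀ r' ∈ (range M).filter (fun r' => ¬ BadC a ε R κ h (α r r')),
          ‖V r‖ * ‖V r'‖ * ∏ q, P q r r' ^ t ≤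
          (((1 - η) ^ (t - 4) / T 0 ^ 4) * ∏ q, T q ^ t) * (‖V r‖ * ‖V r'‖ * P 0 r r' ^ 4) := by
        intro r' hr'
        rw [mem_filter] at hr'
        have e2 := hgood r hr r' hr'.2
        calc ‖V r‖ * ‖V r'‖ * ∏ q, P q r r' ^ t ≤ (‖V r‖ * ‖V r'‖) * ((1 - η) ^ (t - 4) * (P 0 r r' ^ 4 / T 0 ^ 4) * ∏ q, T q ^ t) :=
              mul_le_mul_of_nonneg_left e2 (by positivity)
          _ = _ := by ring
      refine (sum_le_sum e1).trans ?_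
      rw [← mul_sum]
      apply mul_le_mul_of_nonneg_left _ (by positivity)
      apply sum_le_sum_of_subset_of_nonneg (filter_subset _ _)
      intro r' _ _
      have := hP0 0 r r'
      positivity
  have hsum := sum_le_sum hrow
  rw [sum_add_distrib, ← sum_mul, ← mul_sum] at hsum
  have hgoal : ∑ r ∈ range M, ∑ r' ∈ range M, ‖V r‖ * ‖V r'‖ * ∏ q, ‖Ph (dlC a σ) (JJ κ h q) (((r' : ℝ) - r) / (M : ℝ))‖ ^ t =
      ∑ r ∈ range M, ∑ r' ∈ range M, ‖V r‖ * ‖V r'‖ * ∏ q, P q r r' ^ t := by rw [hP]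
  rw [hgoal]
  refine hsum.trans (le_of_eq ?_)
  have hgoal2 : ∑ r ∈ range M, ∑ r' ∈ range M, ‖V r‖ * ‖V r'‖ * ‖Ph (dlC a σ) (JJ κ h 0) (((r' : ℝ) - r) / (M : ℝ))‖ ^ 4 =
      ∑ r ∈ range M, ∑ r' ∈ range M, ‖V r‖ * ‖V r'‖ * P 0 r r' ^ 4 := by rw [hP]
  rw [hgoal2]
  ring

end Pool.Agent.R461.CF
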