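import Pool.Agent.R461.CF.C1
import Pool.Agent.TH894.SM1

set_option autoImplicit false

/-! The divisors of shifted denominators in short windows. -/

namespace Pool.Agent.R461.CF

open Finset

/-- the first coordinate of `den a (i + d)` in the basis `den a i`, `den a (i + 1)` -/
def cP (a : ℕ → ℕ) (i : ℕ) : ℕ → ℕ
  | 0 => 1
  | 1 => 0
  | (d + 2) => a (i + d + 2) * cP a i (d + 1) + cP a i d

/-- the second coordinate of `den a (i + d)` in the basis `den a i`, `den a (i + 1)` -/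
def cQ (a : ℕ → ℕ) (i : ℕ) : ℕ → ℕ
  | 0 => 0
  | 1 => 1
  | (d + 2) => a (i + d + 2) * cQ a i (d + 1) + cQ a i d

lemma cP_add (a : ℕ → ℕ) (i d : ℕ) : cP a i (d + 2) = a (i + d + 2) * cP a i (d + 1) + cP a i d := rfl

lemma cQ_add (a : ℕ → ℕ) (i d : ℕ) : cQ a i (d + 2) = a (i + d + 2) * cQ a i (d + 1) + cQ a i d := rfl

lemma den_coord (a : ℕ → ℕ) (i : ℕ) : ∀ d, den a (i + d) = cP a i d * den a i + cQ a i d * den a (i + 1) := by
  have key : ∀ d, den a (i + d) = cP a i d * den a i + cQ a i d * den a (i + 1) ∧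
      den a (i + (d + 1)) = cP a i (d + 1) * den a i + cQ a i (d + 1) * den a (i + 1) := by
    intro d
    induction d with
    | zero => simp [cP, cQ]
    | succ d ih =>
      refine ⟨ih.2, ?_⟩
      have h1 : den a (i + (d + 1 + 1)) = a (i + d + 2) * den a (i + (d + 1)) + den a (i + d) := by
        have : i + (d + 1 + 1) = (i + d) + 2 := by ring
        rw [this, den_add]
        rfl
      rw [h1, ih.1, ih.2, cP_add, cQ_add]
      ring
  exact fun d => (key d).1

lemma cross (a : ℕ → ℕ) (i : ℕ) : ∀ d, (cP a i (d + 1) : ℤ) * cQ a i d - cP a i d * cQ a i (d + 1) = (-1) ^ (d + 1) := by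
  intro d
  induction d with
  | zero => simp [cP, cQ]
  | succ d ih =>
    rw [cP_add, cQ_add]
    push_cast
    rw [pow_succ, ← ih]
    ring

lemma cQ_pos {B : ℕ} {a : ℕ → ℕ} (h : Bd B a) (i : ℕ) : ∀ d, 1 ≤ cQ a i (d + 1) := by
  intro d
  induction d with
  | zero => simp [cQ]
  | succ d ih =>
    rw [cQ_add]
    have h1 := (h (i + d + 2) (by omega)).1
    have : 1 * 1 ≤ a (i + d + 2) * cQ a i (d + 1) := Nat.mul_le_mul h1 ih
    omega

lemma cQ_ge {B : ℕ} {a : ℕ → ℕ} (h : Bd B a) (i d : ℕ) : cQ a i (d + 1) + cQ a i d ≤ cQ a i (d + 2) := by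
  rw [cQ_add]
  have h1 := (h (i + d + 2) (by omega)).1
  have : 1 * cQ a i (d + 1) ≤ a (i + d + 2) * cQ a i (d + 1) := Nat.mul_le_mul_right _ h1
  omega

lemma cQ_gap {B : ℕ} {a : ℕ → ℕ} (h : Bd B a) (i d : ℕ) : cQ a i (d + 4) + 2 ≤ cQ a i (d + 5) := by
  have h1 := cQ_ge h i (d + 3)
  have h2 := cQ_ge h i (d + 1)
  have h3 := cQ_pos h i d
  have h4 := cQ_pos h i (d + 1)
  have e1 : d + 3 + 1 = d + 4 := by ring
  have e2 : d + 3 + 2 = d + 5 := by ring
  have e3 : d + 1 + 1 = d + 2 := by ring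
  have e4 : d + 1 + 2 = d + 3 := by ring
  rw [e1, e2] at h1
  rw [e3, e4] at h2
  rw [e3] at h4
  omega

/-- the determinant -/
def Dd (a : ℕ → ℕ) (i d e : ℕ) : ℤ := ((cP a i e : ℤ) - 1) * cQ a i d - ((cP a i d : ℤ) - 1) * cQ a i e

lemma Dd_pos {B : ℕ} {a : ℕ → ℕ} (h : Bd B a) (i d e : ℕ) (hd : 4 ≤ d) (hde : d < e) : 0 < Dd a i d e := by
  have hQ : ∀ n, (0 : ℚ) < cQ a i (n + 4) := by
    intro n
    exact_mod_cast cQ_pos h i (n + 3)
  have hmono : StrictMono (fun n : ℕ => ((cP a i (n + 4) : ℚ) - 1) / cQ a i (n + 4)) := by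
    apply strictMono_nat_of_lt_succ
    intro n
    have h1 := hQ n
    have h2 := hQ (n + 1)
    have h3 := cross a i (n + 4)
    have h4 := cQ_gap h i n
    have e1 : n + 1 + 4 = n + 5 := by ring
    have e2 : n + 4 + 1 = n + 5 := by ring
    rw [e1] at h2
    rw [e2] at h3
    simp only [e1]
    rw [div_lt_div_iff₀ h1 h2]
    have h5 : (-1 : ℤ) ≤ (-1) ^ (n + 5) := by
      rcases neg_one_pow_eq_or ℤ (n + 5) with h6 | h6
      · rw [h6]; norm_num
      · rw [h6]
    have h7 : ((cP a i (n + 4) : ℤ) - 1) * cQ a i (n + 5) < ((cP a i (n + 5) : ℤ) - 1) * cQ a i (n + 4) := by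
      have h8 : (cQ a i (n + 4) : ℤ) + 2 ≤ cQ a i (n + 5) := by exact_mod_cast h4
      nlinarith
    exact_mod_cast h7
  have h1 := hmono (show d - 4 < e - 4 by omega)
  have e1 : d - 4 + 4 = d := by omega
  have e2 : e - 4 + 4 = e := by omega
  simp only [e1, e2] at h1
  have h2 := hQ (d - 4)
  have h3 := hQ (e - 4)
  rw [e1] at h2
  rw [e2] at h3
  rw [div_lt_div_iff₀ h2 h3] at h1
  unfold Dd
  have h4 : ((cP a i d : ℤ) - 1) * cQ a i e < ((cP a i e : ℤ) - 1) * cQ a i d := by exact_mod_cast h1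
  linarith

lemma coord_le {B : ℕ} {a : ℕ → ℕ} (h : Bd B a) (i : ℕ) : ∀ d, cP a i d ≤ (B + 1) ^ d ∧ cQ a i d ≤ (B + 1) ^ d := by
  have key : ∀ d, (cP a i d ≤ (B + 1) ^ d ∧ cQ a i d ≤ (B + 1) ^ d) ∧ (cP a i (d + 1) ≤ (B + 1) ^ (d + 1) ∧ cQ a i (d + 1) ≤ (B + 1) ^ (d + 1)) := by
    intro d
    induction d with
    | zero => simp [cP, cQ]
    | succ d ih =>
      refine ⟨ih.2, ?_⟩
      obtain ⟨⟨h1, h2⟩, h3, h4⟩ := ih
      have h5 := (h (i + d + 2) (by omega)).2
      have h6 : (B + 1) ^ d ≤ (B + 1) ^ (d + 1) := Nat.pow_le_pow_right (by omega) (by omega)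
      have h7 : (B + 1) ^ (d + 1 + 1) = B * (B + 1) ^ (d + 1) + (B + 1) ^ (d + 1) := by ring
      rw [cP_add, cQ_add, h7]
      exact ⟨Nat.add_le_add (Nat.mul_le_mul h5 h3) (h1.trans h6), Nat.add_le_add (Nat.mul_le_mul h5 h4) (h2.trans h6)⟩
  exact fun d => (key d).1

lemma Dd_le {B : ℕ} {a : ℕ → ℕ} (h : Bd B a) (hB : 1 ≤ B) (i d e x : ℕ) (hd : d < x) (he : e < x) :
    (Dd a i d e).natAbs ≤ 2 ^ (2 * (B + 1) * x) := by
  obtain ⟨h1, h2⟩ := coord_le h i d
  obtain ⟨h3, h4⟩ := coord_le h i e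
  obtain ⟨y, hy⟩ : ∃ y, y = (B + 1) ^ (x - 1) := ⟨_, rfl⟩
  have hyd : (B + 1) ^ d ≤ y := by rw [hy]; exact Nat.pow_le_pow_right (by omega) (by omega)
  have hye : (B + 1) ^ e ≤ y := by rw [hy]; exact Nat.pow_le_pow_right (by omega) (by omega)
  have hy1 : 1 ≤ y := by rw [hy]; exact Nat.one_le_pow _ _ (by omega)
  have g1 : (cP a i d : ℤ) ≤ y := by exact_mod_cast h1.trans hyd
  have g2 : (cQ a i d : ℤ) ≤ y := by exact_mod_cast h2.trans hyd
  have g3 : (cP a i e : ℤ) ≤ y := by exact_mod_cast h3.trans hye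
  have g4 : (cQ a i e : ℤ) ≤ y := by exact_mod_cast h4.trans hye
  have g5 : (1 : ℤ) ≤ y := by exact_mod_cast hy1
  have n1 : (0 : ℤ) ≤ cP a i d := Int.natCast_nonneg _
  have n2 : (0 : ℤ) ≤ cQ a i d := Int.natCast_nonneg _
  have n3 : (0 : ℤ) ≤ cP a i e := Int.natCast_nonneg _
  have n4 : (0 : ℤ) ≤ cQ a i e := Int.natCast_nonneg _
  have h5 : |Dd a i d e| ≤ 2 * (y * y) := by
    unfold Dd
    have a1 : |((cP a i e : ℤ) - 1) * cQ a i d| ≤ y * y := by
      rw [abs_mul]
      apply mul_le_mul _ _ (abs_nonneg _) (by linarith)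
      · rw [abs_le]; constructor <;> linarith
      · rw [abs_of_nonneg n2]; exact g2
    have a2 : |((cP a i d : ℤ) - 1) * cQ a i e| ≤ y * y := by
      rw [abs_mul]
      apply mul_le_mul _ _ (abs_nonneg _) (by linarith)
      · rw [abs_le]; constructor <;> linarith
      · rw [abs_of_nonneg n4]; exact g4
    refine (abs_sub _ _).trans ?_
    linarith
  have h6 : (Dd a i d e).natAbs ≤ 2 * (y * y) := by
    have : ((Dd a i d e).natAbs : ℤ) ≤ ((2 * (y * y) : ℕ) : ℤ) := by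
      rw [Int.natCast_natAbs]
      push_cast
      exact h5
    exact_mod_cast this
  refine h6.trans ?_
  have hx : 1 ≤ x := by omega
  calc 2 * (y * y) ≤ (B + 1) * (y * y) := Nat.mul_le_mul_right _ (by omega)
    _ = (B + 1) ^ (1 + (x - 1) + (x - 1)) := by rw [hy, pow_add, pow_add]; ring
    _ ≤ (B + 1) ^ (2 * x) := Nat.pow_le_pow_right (by omega) (by omega)
    _ ≤ (2 ^ (B + 1)) ^ (2 * x) := Nat.pow_le_pow_left Nat.lt_two_pow_self.le _
    _ = 2 ^ (2 * (B + 1) * x) := by rw [← pow_mul]; congr 1; ring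

/-- a prime which divides three shifted denominators divides the determinant -/
lemma dvd_Dd (a : ℕ → ℕ) (i d e : ℕ) (s : ℤ) (p : ℕ) (hp : p.Prime) (h0 : (p : ℤ) ∣ den a i + s)
    (h1 : (p : ℤ) ∣ den a (i + d) + s) (h2 : (p : ℤ) ∣ den a (i + e) + s) : (p : ℤ) ∣ Dd a i d e := by
  have g1 : (p : ℤ) ∣ ((cP a i d : ℤ) - 1) * den a i + cQ a i d * den a (i + 1) := by
    have := dvd_sub h1 h0
    rw [den_coord a i d] at this
    push_cast at this
    have e1 : (cP a i d : ℤ) * den a i + cQ a i d * den a (i + 1) + s - (den a i + s) = ((cP a i d : ℤ) - 1) * den a i + cQ a i d * den a (i + 1) := by ring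
    rwa [e1] at this
  have g2 : (p : ℤ) ∣ ((cP a i e : ℤ) - 1) * den a i + cQ a i e * den a (i + 1) := by
    have := dvd_sub h2 h0
    rw [den_coord a i e] at this
    push_cast at this
    have e1 : (cP a i e : ℤ) * den a i + cQ a i e * den a (i + 1) + s - (den a i + s) = ((cP a i e : ℤ) - 1) * den a i + cQ a i e * den a (i + 1) := by ring
    rwa [e1] at this
  have g3 : (p : ℤ) ∣ Dd a i d e * den a i := by
    have := dvd_sub (g2.mul_left (cQ a i d : ℤ)) (g1.mul_left (cQ a i e : ℤ))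
    have e1 : (cQ a i d : ℤ) * (((cP a i e : ℤ) - 1) * den a i + cQ a i e * den a (i + 1)) -
        cQ a i e * (((cP a i d : ℤ) - 1) * den a i + cQ a i d * den a (i + 1)) = Dd a i d e * den a i := by
      unfold Dd; ring
    rwa [e1] at this
  have g4 : (p : ℤ) ∣ Dd a i d e * den a (i + 1) := by
    have := dvd_sub (g1.mul_left ((cP a i e : ℤ) - 1)) (g2.mul_left ((cP a i d : ℤ) - 1))
    have e1 : ((cP a i e : ℤ) - 1) * (((cP a i d : ℤ) - 1) * den a i + cQ a i d * den a (i + 1)) -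
        ((cP a i d : ℤ) - 1) * (((cP a i e : ℤ) - 1) * den a i + cQ a i e * den a (i + 1)) = Dd a i d e * den a (i + 1) := by
      unfold Dd; ring
    rwa [e1] at this
  have hpi : Prime (p : ℤ) := Nat.prime_iff_prime_int.1 hp
  rcases hpi.dvd_or_dvd g3 with h | h
  · exact h
  · rcases hpi.dvd_or_dvd g4 with h' | h'
    · exact h'
    · exfalso
      have c1 : p ∣ den a i := by exact_mod_cast h
      have c2 : p ∣ den a (i + 1) := by exact_mod_cast h'
      have c3 := Nat.dvd_gcd c1 c2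
      rw [(den_coprime (a := a) i : (den a i).gcd (den a (i + 1)) = 1)] at c3
      exact hp.one_lt.ne' (Nat.dvd_one.1 c3)

/-- the hits in a window -/
lemma win_hits {B : ℕ} {a : ℕ → ℕ} (h : Bd B a) (hB : 1 ≤ B) (i x : ℕ) (s : ℤ) (Q : Finset ℕ) (hQ : ∀ p ∈ Q, p.Prime) :
    ∑ p ∈ Q, ((Ico i (i + x)).filter (fun j => (p : ℤ) ∣ den a j + s)).card ≤ 5 * Q.card + 2 * (B + 1) * x ^ 5 := by
  classical
  obtain ⟨E, hE⟩ : ∃ E : Finset ℕ, E = (Ico i (i + x) ×ˢ (Ico 4 x ×ˢ Ico 4 x)).biUnion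
      (fun t => if t.2.1 < t.2.2 then (Dd a t.1 t.2.1 t.2.2).natAbs.primeFactors else ∅) := ⟨_, rfl⟩
  have hEc : E.card ≤ 2 * (B + 1) * x ^ 4 := by
    rw [hE]
    refine (card_biUnion_le).trans ?_
    have h1 : ∀ t ∈ Ico i (i + x) ×ˢ (Ico 4 x ×ˢ Ico 4 x),
        (if t.2.1 < t.2.2 then (Dd a t.1 t.2.1 t.2.2).natAbs.primeFactors else ∅).card ≤ 2 * (B + 1) * x := by
      intro t ht
      rw [mem_product, mem_product, mem_Ico, mem_Ico, mem_Ico] at ht
      split_ifs with hlt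
      · apply Pool.Agent.TH894.SM.card_pf
        · have := Dd_pos h t.1 t.2.1 t.2.2 ht.2.1.1 hlt
          omega
        · exact Dd_le h hB t.1 t.2.1 t.2.2 x ht.2.1.2 ht.2.2.2
      · simp
    refine (sum_le_card_nsmul _ _ _ h1).trans ?_
    rw [smul_eq_mul, card_product, card_product, Nat.card_Ico, Nat.card_Ico, Nat.add_sub_cancel_left]
    calc x * ((x - 4) * (x - 4)) * (2 * (B + 1) * x) ≤ x * (x * x) * (2 * (B + 1) * x) := by
          apply Nat.mul_le_mul_right
          apply Nat.mul_le_mul_left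
          exact Nat.mul_le_mul (Nat.sub_le _ _) (Nat.sub_le _ _)
      _ = _ := by ring
  have hgood : ∀ p ∈ Q, p ∉ E → ((Ico i (i + x)).filter (fun j => (p : ℤ) ∣ den a j + s)).card ≤ 5 := by
    intro p hp hpE
    by_contra hcon
    push Not at hcon
    obtain ⟨S, hS⟩ : ∃ S, S = (Ico i (i + x)).filter (fun j => (p : ℤ) ∣ den a j + s) := ⟨_, rfl⟩
    rw [← hS] at hcon
    have hne : S.Nonempty := card_pos.1 (by omega)
    obtain ⟨j, hj⟩ : ∃ j, j = S.min' hne := ⟨_, rfl⟩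
    have hjS : j ∈ S := by rw [hj]; exact min'_mem _ _
    have hjmin : ∀ y ∈ S, j ≤ y := by rw [hj]; exact fun y hy => min'_le _ _ hy
    have hcard : 2 ≤ (S.filter (fun y => j + 4 ≤ y)).card := by
      have h1 := card_filter_add_card_filter_not (s := S) (fun y => j + 4 ≤ y)
      have h2 : (S.filter (fun y => ¬ j + 4 ≤ y)).card ≤ 4 := by
        have h3 : S.filter (fun y => ¬ j + 4 ≤ y) ⊆ Ico j (j + 4) := by
          intro y hy
          rw [mem_filter] at hy
          rw [mem_Ico]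
          exact ⟨hjmin y hy.1, by omega⟩
        have := card_le_card h3
        rwa [Nat.card_Ico, Nat.add_sub_cancel_left] at this
      omega
    obtain ⟨u, hu, v, hv, huv⟩ := one_lt_card.1 (by omega : 1 < (S.filter (fun y => j + 4 ≤ y)).card)
    rw [mem_filter] at hu hv
    wlog hlt : u < v generalizing u v with H
    · exact H v hv u hu (Ne.symm huv) (by omega)
    have hjS' := hjS
    have hu1 := hu.1
    have hv1 := hv.1
    rw [hS, mem_filter, mem_Ico] at hjS' hu1 hv1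
    apply hpE
    rw [hE, mem_biUnion]
    refine ⟨(j, (u - j, v - j)), ?_, ?_⟩
    · rw [mem_product, mem_product, mem_Ico, mem_Ico, mem_Ico]
      simp only
      omega
    · simp only
      rw [if_pos (by omega), Nat.mem_primeFactors]
      have hpos := Dd_pos h j (u - j) (v - j) (by omega) (by omega)
      refine ⟨hQ p hp, ?_, by omega⟩
      rw [← Int.natCast_dvd]
      apply dvd_Dd a j (u - j) (v - j) s p (hQ p hp) hjS'.2
      · have : j + (u - j) = u := by omega
        rw [this]; exact hu1.2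
      · have : j + (v - j) = v := by omega
        rw [this]; exact hv1.2
  have hall : ∀ p ∈ Q, ((Ico i (i + x)).filter (fun j => (p : ℤ) ∣ den a j + s)).card ≤ 5 + (if p ∈ E then x else 0) := by
    intro p hp
    by_cases hpE : p ∈ E
    · rw [if_pos hpE]
      have := card_filter_le (Ico i (i + x)) (fun j => (p : ℤ) ∣ den a j + s)
      rw [Nat.card_Ico] at this
      omega
    · rw [if_neg hpE]
      have := hgood p hp hpE
      omega
  refine (sum_le_sum hall).trans ?_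
  rw [sum_add_distrib, sum_const, smul_eq_mul, ← sum_filter, sum_const, smul_eq_mul, mul_comm Q.card 5]
  apply Nat.add_le_add_left
  have h1 : (Q.filter (fun p => p ∈ E)).card ≤ E.card := by
    apply card_le_card
    intro p hp
    exact (mem_filter.1 hp).2
  calc (Q.filter (fun p => p ∈ E)).card * x ≤ (2 * (B + 1) * x ^ 4) * x := Nat.mul_le_mul_right _ (h1.trans hEc)
    _ = _ := by ring

/-- the hits -/
lemma all_hits {B : ℕ} {a : ℕ → ℕ} (h : Bd B a) (hB : 1 ≤ B) (K x : ℕ) (hx : 1 ≤ x) (s : ℤ) (Q : Finset ℕ) (hQ : ∀ p ∈ Q, p.Prime) :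
    ∑ p ∈ Q, ((range K).filter (fun j => (p : ℤ) ∣ den a j + s)).card ≤ (K / x + 1) * (5 * Q.card + 2 * (B + 1) * x ^ 5) := by
  classical
  have h1 : ∀ p ∈ Q, ((range K).filter (fun j => (p : ℤ) ∣ den a j + s)).card ≤
      ∑ w ∈ range (K / x + 1), ((Ico (w * x) (w * x + x)).filter (fun j => (p : ℤ) ∣ den a j + s)).card := by
    intro p _
    have h2 : (range K).filter (fun j => (p : ℤ) ∣ den a j + s) ⊆
        (range (K / x + 1)).biUnion (fun w => (Ico (w * x) (w * x + x)).filter (fun j => (p : ℤ) ∣ den a j + s)) := by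
      intro j hj
      rw [mem_filter, mem_range] at hj
      rw [mem_biUnion]
      refine ⟨j / x, ?_, ?_⟩
      · rw [mem_range]
        exact Nat.lt_succ_of_le (Nat.div_le_div_right hj.1.le)
      · rw [mem_filter, mem_Ico]
        refine ⟨⟨Nat.div_mul_le_self _ _, ?_⟩, hj.2⟩
        have := Nat.lt_div_mul_add (show 0 < x by omega) (a := j)
        exact this
    exact (card_le_card h2).trans card_biUnion_le
  refine (sum_le_sum h1).trans ?_
  rw [sum_comm]
  refine (sum_le_card_nsmul _ _ _ (fun w _ => win_hits h hB (w * x) x s Q hQ)).trans ?_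
  rw [card_range, smul_eq_mul]

end Pool.Agent.R461.CF
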