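import Pool.Agent.R461.CF.C8

set_option autoImplicit false

/-! The second moment over random digits. -/

namespace Pool.Agent.R461.CF

open Finset
open Pool.Agent.H807R2.Dav
open Pool.Agent.H373R2.T7
open Pool.Agent.W93.DG (hh FF logX)
open Pool.Agent.W93.RD (EE cos_dist)
open Pool.Agent.TH894.SM (ee_sum)

/-- the choices of the digits -/
def OmD (D : ℕ → Finset ℤ) (κ : ℕ) : Finset (Fin κ → ℤ) := Fintype.piFinset (fun j => D j)

/-- the integer which belongs to the digits -/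
def nwD (a : ℕ → ℕ) (N : ℤ) {κ : ℕ} (ω : Fin κ → ℤ) : ℤ := N + ∑ j, ω j * den a j

/-- the sum over one digit -/
noncomputable def Sg (D : Finset ℤ) (x : ℝ) : ℂ := ∑ c ∈ D, ee ((c : ℝ) * x)

lemma card_OmD (D : ℕ → Finset ℤ) (κ : ℕ) : ((OmD D κ).card : ℝ) = ∏ j : Fin κ, ((D j).card : ℝ) := by
  unfold OmD
  rw [Fintype.card_piFinset]
  push_cast
  rfl

lemma sum_OmD (a : ℕ → ℕ) (D : ℕ → Finset ℤ) (κ : ℕ) (θ : ℝ) :
    ∑ ω ∈ OmD D κ, ee (((∑ j, ω j * den a j : ℤ) : ℝ) * θ) = ∏ j : Fin κ, Sg (D j) (den a j * θ) := by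
  have h1 : ∏ j : Fin κ, Sg (D j) (den a j * θ) = ∑ ω ∈ OmD D κ, ∏ j, ee ((ω j : ℝ) * (den a j * θ)) := by
    unfold Sg OmD
    rw [Finset.prod_univ_sum]
  rw [h1]
  apply sum_congr rfl
  intro ω _
  rw [← ee_sum]
  congr 1
  push_cast
  rw [sum_mul]
  apply sum_congr rfl
  intro j _
  ring

/-- the expansion of the second moment -/
lemma EE_secondD (M : ℕ) (a : ℕ → ℕ) (N : ℤ) (D : ℕ → Finset ℤ) (κ : ℕ) (A : ℕ → ℂ) :
    ∑ ω ∈ OmD D κ, ‖EE A M (nwD a N ω)‖ ^ 2 ≤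
      ∑ r ∈ range M, ∑ r' ∈ range M, ‖A r‖ * ‖A r'‖ * ∏ j : Fin κ, ‖Sg (D j) (den a j * (((r' : ℝ) - r) / (M : ℝ)))‖ := by
  have h1 : ∀ n : ℤ, ((‖EE A M n‖ : ℂ)) ^ 2 = ∑ r ∈ range M, ∑ r' ∈ range M, A r * (starRingEnd ℂ) (A r') *
      ee ((n : ℝ) * (((r' : ℝ) - r) / (M : ℝ))) := by
    intro n
    unfold EE
    rw [← Complex.mul_conj', map_sum, sum_mul_sum]
    apply sum_congr rfl
    intro r _
    apply sum_congr rfl
    intro r' _
    rw [map_mul, conj_ee]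
    have h2 : ee ((n : ℝ) * (((r' : ℝ) - r) / (M : ℝ))) = ee (-((n : ℝ) * ((r : ℝ) / (M : ℝ)))) * ee (- -((n : ℝ) * ((r' : ℝ) / (M : ℝ)))) := by
      rw [← ee_add]
      congr 1
      ring
    rw [h2]
    ring
  have hnn : 0 ≤ ∑ ω ∈ OmD D κ, ‖EE A M (nwD a N ω)‖ ^ 2 := sum_nonneg fun _ _ => sq_nonneg _
  have h2 : ((∑ ω ∈ OmD D κ, ‖EE A M (nwD a N ω)‖ ^ 2 : ℝ) : ℂ) =
      ∑ r ∈ range M, ∑ r' ∈ range M, A r * (starRingEnd ℂ) (A r') * ee ((N : ℝ) * (((r' : ℝ) - r) / (M : ℝ))) *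
        ∏ j : Fin κ, Sg (D j) (den a j * (((r' : ℝ) - r) / (M : ℝ))) := by
    push_cast
    simp only [h1]
    rw [sum_comm]
    apply sum_congr rfl
    intro r _
    rw [sum_comm]
    apply sum_congr rfl
    intro r' _
    rw [← sum_OmD, mul_sum]
    apply sum_congr rfl
    intro ω _
    have h3 : ee ((nwD a N ω : ℝ) * (((r' : ℝ) - r) / (M : ℝ))) = ee ((N : ℝ) * (((r' : ℝ) - r) / (M : ℝ))) *
        ee (((∑ j, ω j * den a j : ℤ) : ℝ) * (((r' : ℝ) - r) / (M : ℝ))) := by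
      rw [← ee_add]
      congr 1
      unfold nwD
      push_cast
      ring
    rw [h3]
    ring
  have h3 : ∑ ω ∈ OmD D κ, ‖EE A M (nwD a N ω)‖ ^ 2 = ‖((∑ ω ∈ OmD D κ, ‖EE A M (nwD a N ω)‖ ^ 2 : ℝ) : ℂ)‖ := by
    rw [Complex.norm_real, Real.norm_of_nonneg hnn]
  rw [h3, h2]
  refine (norm_sum_le _ _).trans ?_
  apply sum_le_sum
  intro r _
  refine (norm_sum_le _ _).trans ?_
  apply sum_le_sum
  intro r' _
  rw [norm_mul, norm_mul, norm_mul, norm_ee, mul_one, RCLike.norm_conj, norm_prod]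

lemma Sg_le (D : Finset ℤ) (x : ℝ) : ‖Sg D x‖ ≤ D.card := by
  unfold Sg
  refine (norm_sum_le _ _).trans ?_
  simp only [norm_ee]
  rw [sum_const, nsmul_eq_mul, mul_one]

/-- the saving of one digit -/
lemma Sg_save (C : ℕ) (D : Finset ℤ) (hD : D ⊆ Icc (-(C : ℤ)) C) (hD2 : 2 ≤ D.card) (x ε : ℝ) (hε : 0 < ε) (hε1 : ε ≤ 1)
    (h : ε < |((2 * C).factorial : ℝ) * x - round (((2 * C).factorial : ℝ) * x)|) :
    ‖Sg D x‖ ≤ (1 - 4 * (ε / (2 * C).factorial) ^ 2 / (2 * C + 1)) * D.card := by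
  classical
  obtain ⟨c, hc, c', hc', hne⟩ := one_lt_card.1 (by omega : 1 < D.card)
  wlog hlt : c < c' generalizing c c' with H
  · exact H c' hc' c hc (Ne.symm hne) (by omega)
  obtain ⟨m, hm⟩ : ∃ m : ℕ, m = (2 * C).factorial := ⟨_, rfl⟩
  rw [← hm] at h ⊢
  have hm0 : 0 < m := by rw [hm]; exact Nat.factorial_pos _
  have hmr : (0 : ℝ) < m := by exact_mod_cast hm0
  have hm1 : (1 : ℝ) ≤ m := by exact_mod_cast hm0
  have b1 := mem_Icc.1 (hD hc)
  have b2 := mem_Icc.1 (hD hc')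
  obtain ⟨d, hd⟩ : ∃ d : ℕ, (d : ℤ) = c' - c := ⟨(c' - c).toNat, by omega⟩
  have hd1 : 1 ≤ d := by omega
  have hd2 : d ≤ 2 * C := by omega
  obtain ⟨v, hv⟩ : d ∣ m := by rw [hm]; exact Nat.dvd_factorial (by omega) hd2
  have hv0 : 0 < v := by
    rcases Nat.eq_zero_or_pos v with h0 | h0
    · rw [h0, mul_zero] at hv; omega
    · exact h0
  have hvr : (0 : ℝ) < v := by exact_mod_cast hv0
  have hvm : (v : ℝ) ≤ m := by
    have : v ≤ m := by rw [hv]; exact Nat.le_mul_of_pos_left _ hd1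
    exact_mod_cast this
  have hmv : (m : ℝ) = d * v := by exact_mod_cast hv
  -- the distance
  have hdist : ∀ n : ℤ, ε / m ≤ |(d : ℝ) * x - n| := by
    intro n
    have h1 : |(m : ℝ) * x - round ((m : ℝ) * x)| ≤ |(m : ℝ) * x - ((v * n : ℤ) : ℝ)| := round_le _ _
    have h2 : (m : ℝ) * x - ((v * n : ℤ) : ℝ) = v * ((d : ℝ) * x - n) := by rw [hmv]; push_cast; ring
    rw [h2, abs_mul, abs_of_pos hvr] at h1
    rw [div_le_iff₀ hmr]
    have h3 : (v : ℝ) * |(d : ℝ) * x - n| ≤ m * |(d : ℝ) * x - n| := mul_le_mul_of_nonneg_right hvm (abs_nonneg _)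
    linarith
  have h1 := cos_dist ((d : ℝ) * x) (ε / m) (by positivity) hdist
  have h2 : Sg D x = (ee ((c : ℝ) * x) + ee ((c' : ℝ) * x)) + ∑ e ∈ D \ {c, c'}, ee ((e : ℝ) * x) := by
    unfold Sg
    have h3 : ({c, c'} : Finset ℤ) ⊆ D := by
      intro y hy
      rw [mem_insert, mem_singleton] at hy
      rcases hy with rfl | rfl
      · exact hc
      · exact hc'
    rw [← sum_sdiff h3, sum_pair hne, add_comm]
  have h3 : ee ((c : ℝ) * x) + ee ((c' : ℝ) * x) = ee ((c : ℝ) * x) * (1 + ee ((d : ℝ) * x)) := by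
    rw [mul_add, mul_one, ← ee_add]
    congr 2
    have : (d : ℝ) = (c' : ℝ) - c := by exact_mod_cast hd
    rw [this]
    ring
  have h4 : (D \ {c, c'}).card = D.card - 2 := by
    rw [card_sdiff_of_subset, card_pair hne]
    intro y hy
    rw [mem_insert, mem_singleton] at hy
    rcases hy with rfl | rfl
    · exact hc
    · exact hc'
  have h5 : ‖∑ e ∈ D \ {c, c'}, ee ((e : ℝ) * x)‖ ≤ (D.card : ℝ) - 2 := by
    refine (norm_sum_le _ _).trans ?_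
    simp only [norm_ee]
    rw [sum_const, nsmul_eq_mul, mul_one, h4, Nat.cast_sub hD2]
    norm_num
  have h6 : ‖Sg D x‖ ≤ D.card - 4 * (ε / m) ^ 2 := by
    rw [h2, h3]
    refine (norm_add_le _ _).trans ?_
    rw [norm_mul, norm_ee, one_mul]
    linarith
  refine h6.trans ?_
  have h7 : (D.card : ℝ) ≤ 2 * C + 1 := by
    have := card_le_card hD
    rw [Int.card_Icc] at this
    have h8 : D.card ≤ 2 * C + 1 := by omega
    exact_mod_cast h8
  have h8 : 4 * (ε / m) ^ 2 / (2 * C + 1) * D.card ≤ 4 * (ε / m) ^ 2 := by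
    rw [div_mul_eq_mul_div, div_le_iff₀ (by positivity)]
    exact mul_le_mul_of_nonneg_left h7 (by positivity)
  rw [sub_mul, one_mul]
  linarith

/-- the product over all digits -/
lemma prod_Sg (C : ℕ) (D : ℕ → Finset ℤ) (κ : ℕ) (hD : ∀ j < κ, D j ⊆ Icc (-(C : ℤ)) C ∧ 2 ≤ (D j).card) (a : ℕ → ℕ) (θ ε : ℝ)
    (hε : 0 < ε) (hε1 : ε ≤ 1) :
    ∏ j : Fin κ, ‖Sg (D j) (den a j * θ)‖ ≤
      (1 - 4 * (ε / (2 * C).factorial) ^ 2 / (2 * C + 1)) ^ (farc a ε 0 κ ((2 * C).factorial * θ)) * ∏ j : Fin κ, ((D j).card : ℝ) := by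
  classical
  obtain ⟨η, hη⟩ : ∃ η : ℝ, η = 1 - 4 * (ε / (2 * C).factorial) ^ 2 / (2 * C + 1) := ⟨_, rfl⟩
  rw [← hη]
  have h1 : ∀ j : Fin κ, ‖Sg (D j) (den a j * θ)‖ ≤ (if ε < |rho a j ((2 * C).factorial * θ)| then η else 1) * ((D j).card : ℝ) := by
    intro j
    obtain ⟨h2, h3⟩ := hD j j.2
    split_ifs with h
    · rw [hη]
      apply Sg_save C (D j) h2 h3 _ ε hε hε1
      unfold rho at h
      have e1 : ((2 * C).factorial : ℝ) * (den a j * θ) = den a j * ((2 * C).factorial * θ) := by ring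
      rw [e1]
      exact h
    · rw [one_mul]
      exact Sg_le _ _
  refine (prod_le_prod (fun j _ => norm_nonneg _) (fun j _ => h1 j)).trans (le_of_eq ?_)
  rw [prod_mul_distrib]
  congr 1
  rw [prod_ite, prod_const_one, mul_one, prod_const]
  congr 1
  unfold farc
  rw [zero_add]
  apply card_bij (fun (j : Fin κ) _ => (j : ℕ))
  · intro j hj
    rw [mem_filter] at hj ⊢
    exact ⟨mem_Ico.2 ⟨Nat.zero_le _, j.2⟩, hj.2⟩
  · intro j _ j' _ hjj
    exact Fin.ext hjj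
  · intro n hn
    rw [mem_filter, mem_Ico] at hn
    exact ⟨⟨n, hn.1.2⟩, by rw [mem_filter]; exact ⟨mem_univ _, hn.2⟩, rfl⟩

/-- the second moment is bounded by the contribution of the nearly extremal frequencies -/
theorem coreD (C : ℕ) (R : ℕ) (hR : 1 ≤ R) (ε : ℝ) (hε0 : 0 < ε) (hε1 : ε ≤ 1) (a : ℕ → ℕ) (M κ h : ℕ) (hM : 1 ≤ M)
    (hκ : 2 * (4 * h + 2) ≤ κ) (N : ℤ) (D : ℕ → Finset ℤ) (hD : ∀ j < κ, D j ⊆ Icc (-(C : ℤ)) C ∧ 2 ≤ (D j).card) (V : ℕ → ℂ) (E₀ : ℝ)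
    (hbad : ∀ r < M, ∀ S : Finset ℕ, (∀ r' ∈ S, r' < M ∧
        BadC a ε R κ h ((((2 * C).factorial * r' + (2 * C).factorial * (M - r) : ℕ) : ℝ) / (M : ℝ))) → ∑ r' ∈ S, ‖V r'‖ ≤ E₀)
    (η' : ℝ) (hη0 : 0 ≤ η') (hη : ∀ v : ℕ, 8 * h ≤ R * v → (1 - 4 * (ε / (2 * C).factorial) ^ 2 / (2 * C + 1)) ^ v ≤ η') :
    ∑ ω ∈ OmD D κ, ‖EE V M (nwD a N ω)‖ ^ 2 ≤
      (E₀ * ∑ r ∈ range M, ‖V r‖ + η' * (∑ r ∈ range M, ‖V r‖) ^ 2) * (OmD D κ).card := by
  classical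
  refine (EE_secondD M a N D κ _).trans ?_
  have hM0 : (0 : ℝ) < M := by exact_mod_cast hM
  rw [card_OmD]
  obtain ⟨T, hT⟩ : ∃ T : ℝ, T = ∏ j : Fin κ, ((D j).card : ℝ) := ⟨_, rfl⟩
  have hT0 : 0 ≤ T := by rw [hT]; exact prod_nonneg fun _ _ => Nat.cast_nonneg _
  rw [← hT]
  obtain ⟨P, hP⟩ : ∃ P : ℕ → ℕ → ℝ, P = fun (r r' : ℕ) => ∏ j : Fin κ, ‖Sg (D j) (den a j * (((r' : ℝ) - (r : ℝ)) / (M : ℝ)))‖ := ⟨_, rfl⟩
  obtain ⟨α, hα⟩ : ∃ α : ℕ → ℕ → ℝ, α = fun r r' => (((2 * C).factorial * r' + (2 * C).factorial * (M - r) : ℕ) : ℝ) / (M : ℝ) := ⟨_, rfl⟩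
  have hPT : ∀ r r', P r r' ≤ T := by
    intro r r'
    rw [hP, hT]
    exact prod_le_prod (fun _ _ => norm_nonneg _) fun _ _ => Sg_le _ _
  have hP0 : ∀ r r', 0 ≤ P r r' := by
    intro r r'
    rw [hP]
    exact prod_nonneg fun _ _ => norm_nonneg _
  have hgood : ∀ r < M, ∀ r', ¬ BadC a ε R κ h (α r r') → P r r' ≤ η' * T := by
    intro r hr r' hnb
    have h1 := prod_Sg C D κ hD a (((r' : ℝ) - (r : ℝ)) / (M : ℝ)) ε hε0 hε1
    have h2 : farc a ε 0 κ ((2 * C).factorial * (((r' : ℝ) - (r : ℝ)) / (M : ℝ))) = farc a ε 0 κ (α r r') := by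
      rw [← farc_sub_int a ε 0 κ (α r r') ((2 * C).factorial : ℤ)]
      congr 1
      rw [hα]
      simp only
      push_cast [Nat.cast_sub hr.le]
      field_simp
      ring
    rw [h2] at h1
    have h3 : farc a ε 0 κ (α r r') = farc a ε 0 (κ - (4 * h + 2)) (α r r') + farc a ε (κ - (4 * h + 2)) (4 * h + 2) (α r r') := by
      have := farc_add a ε 0 (κ - (4 * h + 2)) (4 * h + 2) (α r r')
      rw [zero_add] at this
      rw [← this]
      congr 1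
      omega
    have h4 : 8 * h ≤ R * farc a ε 0 κ (α r r') := by
      unfold BadC at hnb
      rw [h3, mul_add, mul_comm R, mul_comm R]
      by_contra hcon
      apply hnb
      constructor <;> omega
    have h5 := hη _ h4
    rw [hP]
    refine h1.trans ?_
    rw [← hT]
    exact mul_le_mul_of_nonneg_right h5 hT0
  have hrow : ∀ r ∈ range M, ∑ r' ∈ range M, ‖V r‖ * ‖V r'‖ * P r r' ≤
      ‖V r‖ * (E₀ * T) + (η' * T) * (‖V r‖ * ∑ r' ∈ range M, ‖V r'‖) := by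
    intro r hr
    rw [mem_range] at hr
    rw [← sum_filter_add_sum_filter_not (range M) (fun r' => BadC a ε R κ h (α r r'))]
    apply add_le_add
    · have e1 := hbad r hr ((range M).filter (fun r' => BadC a ε R κ h (α r r'))) (by
          intro r' hr'
          rw [mem_filter, mem_range, hα] at hr'
          exact hr')
      have e2 : ∑ r' ∈ (range M).filter (fun r' => BadC a ε R κ h (α r r')), ‖V r‖ * ‖V r'‖ * P r r' ≤
          ∑ r' ∈ (range M).filter (fun r' => BadC a ε R κ h (α r r')), ‖V r‖ * (‖V r'‖ * T) := by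
        apply sum_le_sum
        intro r' _
        rw [mul_assoc]
        apply mul_le_mul_of_nonneg_left _ (norm_nonneg _)
        exact mul_le_mul_of_nonneg_left (hPT r r') (norm_nonneg _)
      refine e2.trans ?_
      rw [← mul_sum, ← sum_mul]
      apply mul_le_mul_of_nonneg_left _ (norm_nonneg _)
      exact mul_le_mul_of_nonneg_right e1 hT0
    · have e1 : ∀ r' ∈ (range M).filter (fun r' => ¬ BadC a ε R κ h (α r r')),
          ‖V r‖ * ‖V r'‖ * P r r' ≤ (η' * T) * (‖V r‖ * ‖V r'‖) := by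
        intro r' hr'
        rw [mem_filter] at hr'
        have e2 := hgood r hr r' hr'.2
        calc ‖V r‖ * ‖V r'‖ * P r r' ≤ (‖V r‖ * ‖V r'‖) * (η' * T) := mul_le_mul_of_nonneg_left e2 (by positivity)
          _ = _ := by ring
      refine (sum_le_sum e1).trans ?_
      rw [← mul_sum]
      apply mul_le_mul_of_nonneg_left _ (by positivity)
      rw [mul_sum]
      apply sum_le_sum_of_subset_of_nonneg (filter_subset _ _)
      intro r' _ _
      positivity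
  have hsum := sum_le_sum hrow
  rw [sum_add_distrib, ← sum_mul, ← mul_sum, ← sum_mul] at hsum
  have hgoal : ∑ r ∈ range M, ∑ r' ∈ range M, ‖V r‖ * ‖V r'‖ * ∏ j : Fin κ, ‖Sg (D j) (den a j * (((r' : ℝ) - r) / (M : ℝ)))‖ =
      ∑ r ∈ range M, ∑ r' ∈ range M, ‖V r‖ * ‖V r'‖ * P r r' := by rw [hP]
  rw [hgoal]
  refine hsum.trans (le_of_eq ?_)
  ring

end Pool.Agent.R461.CF
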