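import Pool.Agent.R461.CF.D1
import Pool.Agent.W93.TD2
import Pool.Agent.TH894.SM6

set_option autoImplicit false

/-! Few random digits are exceptional. -/

namespace Pool.Agent.R461.CF

open Finset
open Pool.Agent.H807R2.Dav
open Pool.Agent.H373R2.T7
open Pool.Agent.H560R3.GB
open Pool.Agent.W93.DG (hh FF FF_pars sum_vM_sq logX)
open Pool.Agent.W93.RD (EE EE_conv)
open Pool.Agent.W93.TD (G_sq)
open Pool.Agent.TH894.SM (Good good_of2)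

/-- the second moment over random digits -/
theorem second_D (B C U : ℕ) : ∃ B₀ : ℕ, ∀ Ez : ℕ, ∃ k₀ : ℕ, ∀ k : ℕ, k₀ ≤ k → ∀ a : ℕ → ℕ, Bd B a → ∀ κ : ℕ,
    den a κ ≤ 2 ^ k → 2 ^ k ≤ k * den a κ → ∀ z : ℕ, Real.log ((2 ^ k : ℕ) : ℝ) ^ B₀ ≤ z → (z : ℝ) ≤ Real.log ((2 ^ k : ℕ) : ℝ) ^ Ez →
    ∀ (N : ℤ) (D : ℕ → Finset ℤ), (∀ j < κ, D j ⊆ Icc (-(C : ℤ)) C ∧ 2 ≤ (D j).card) → ∀ V Fg : ℕ → ℂ,
    (∀ r, ‖V r‖ = ‖Fg r‖ * ‖FF (fun n => ArithmeticFunction.vonMangoldt n - lamz z n) (2 ^ k) (2 ^ (k + 1)) r‖) →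
    ∑ r ∈ range (2 ^ (k + 1)), ‖Fg r‖ ^ 2 ≤ ((2 ^ (k + 1) : ℕ) : ℝ) * ((2 ^ k : ℕ) : ℝ) * (k : ℝ) ^ 2 →
    ∑ ω ∈ OmD D κ, ‖EE V (2 ^ (k + 1)) (nwD a N ω)‖ ^ 2 ≤
      (((2 ^ (k + 1) : ℕ) : ℝ) * ((2 ^ k : ℕ) : ℝ)) ^ 2 / (k : ℝ) ^ U * (OmD D κ).card := by
  classical
  obtain ⟨R, ε, hR, hε0, hε1, hbad⟩ := bad_L2 B
  obtain ⟨m, hm⟩ : ∃ m : ℕ, m = (2 * C).factorial := ⟨_, rfl⟩
  have hm1 : 1 ≤ m := by rw [hm]; exact Nat.factorial_pos _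
  have hmr : (1 : ℝ) ≤ m := by exact_mod_cast hm1
  obtain ⟨η, hη⟩ : ∃ η : ℝ, η = 1 - 4 * (ε / (2 * C).factorial) ^ 2 / (2 * C + 1) := ⟨_, rfl⟩
  have hCr : (1 : ℝ) ≤ 2 * C + 1 := by
    have : (0 : ℝ) ≤ C := Nat.cast_nonneg C
    linarith
  have hη0 : 0 ≤ η := by
    rw [hη, ← hm]
    have h1 : ε / m ≤ 1 / 4 := (div_le_self hε0.le hmr).trans hε1
    have h2 : (ε / m) ^ 2 ≤ (1 / 4) ^ 2 := pow_le_pow_left₀ (by positivity) h1 2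
    have h3 : 4 * (ε / m) ^ 2 / (2 * C + 1) ≤ 4 * (ε / m) ^ 2 := div_le_self (by positivity) hCr
    linarith
  have hη1 : η < 1 := by
    rw [hη, ← hm]
    have : 0 < 4 * (ε / (m : ℝ)) ^ 2 / (2 * C + 1) := by positivity
    linarith
  obtain ⟨W, hW⟩ : ∃ W, W = U + 7 := ⟨_, rfl⟩
  obtain ⟨c0, hc0⟩ := exists_pow_lt_of_lt_one (show (0 : ℝ) < 1 / (2 : ℝ) ^ W by positivity) hη1
  obtain ⟨U', hU'⟩ : ∃ U', U' = 2 * U + 10 + R * c0 := ⟨_, rfl⟩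
  obtain ⟨A, B₀, hA, hEz⟩ := hbad m U'
  refine ⟨B₀, fun Ez => ?_⟩
  obtain ⟨k1, h1⟩ := hEz Ez
  obtain ⟨n2, h2⟩ := G_sq Ez
  obtain ⟨k3, h3⟩ := sizesC B A 1 (by omega)
  refine ⟨k1 + n2 + k3 + 16, fun k hk a ha κ hκ1 hκ2 z hz1 hz2 N D hD V Fg hV hFg => ?_⟩
  obtain ⟨s1, s2, s3, s4, s5, s6, s7, s8, s9, s10⟩ := h3 k (by omega) a ha κ hκ1 hκ2
  obtain ⟨X, hX⟩ : ∃ X, X = 2 ^ k := ⟨_, rfl⟩
  obtain ⟨M, hM⟩ : ∃ M, M = 2 ^ (k + 1) := ⟨_, rfl⟩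
  have hkX : k < X := by rw [hX]; exact Nat.lt_two_pow_self
  have hXM : X ≤ M := by rw [hX, hM]; exact Nat.pow_le_pow_right (by norm_num) (by omega)
  have hX0 : (0 : ℝ) < X := by exact_mod_cast (by omega : 0 < X)
  have hM0 : (0 : ℝ) < M := by exact_mod_cast (by omega : 0 < M)
  have hk16 : (16 : ℝ) ≤ k := by exact_mod_cast (by omega : 16 ≤ k)
  have hk0 : (0 : ℝ) < k := by linarith
  have hk1 : (1 : ℝ) ≤ k := by linarith
  obtain ⟨hL1, hL2⟩ := logX 2 k le_rfl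
  obtain ⟨L, hL⟩ : ∃ L, L = Real.log (X : ℝ) := ⟨_, rfl⟩
  have hLk : L ≤ k := by
    rw [hL, hX]
    push_cast
    rw [Real.log_pow]
    have := Real.log_two_lt_d9
    nlinarith
  have hL0 : 0 ≤ L := by rw [hL]; exact Real.log_natCast_nonneg _
  have hLge : 1 ≤ L := by
    rw [← hX, ← hL] at hL1
    linarith
  have hz : 1 ≤ z := by
    have : (1 : ℝ) ≤ z := le_trans (one_le_pow₀ hLge) (by rw [hL, hX]; exact hz1)
    exact_mod_cast this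
  obtain ⟨G, hG⟩ : ∃ G : ℕ → ℂ, G = FF (fun n => ArithmeticFunction.vonMangoldt n - lamz z n) (2 ^ k) (2 ^ (k + 1)) := ⟨_, rfl⟩
  rw [← hG] at hV
  have hbadk := h1 k (by omega) a ha κ hκ1 hκ2 z hz1 hz2
  rw [← hG] at hbadk
  have hGsq := h2 X (by omega) M hXM z hz (by rw [hX]; exact hz2)
  rw [← hL, hX, hM, ← hG, ← hM, ← hX] at hGsq
  rw [← hX, ← hM] at hFg hbadk
  rw [← hX, ← hM]
  have hMX0 : (0 : ℝ) ≤ M * X := by positivity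
  have hGsq' : ∑ r ∈ range M, ‖G r‖ ^ 2 ≤ M * X * (k : ℝ) ^ 4 := by
    refine hGsq.trans ?_
    have e1 : 14 * L ^ 2 ≤ (k : ℝ) ^ 4 := by
      have e2 : L ^ 2 ≤ (k : ℝ) ^ 2 := pow_le_pow_left₀ hL0 hLk 2
      have e3 : (14 : ℝ) ≤ (k : ℝ) ^ 2 := by nlinarith
      calc 14 * L ^ 2 ≤ (k : ℝ) ^ 2 * (k : ℝ) ^ 2 := mul_le_mul e3 e2 (by positivity) (by positivity)
        _ = _ := by ring
    calc (M : ℝ) * (14 * X * L ^ 2) = (M * X) * (14 * L ^ 2) := by ring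
      _ ≤ _ := mul_le_mul_of_nonneg_left e1 hMX0
  have hmass : ∑ r ∈ range M, ‖V r‖ ≤ M * X * (k : ℝ) ^ 3 := by
    simp only [hV]
    refine (Real.sum_mul_le_sqrt_mul_sqrt _ _ _).trans ?_
    calc √(∑ r ∈ range M, ‖Fg r‖ ^ 2) * √(∑ r ∈ range M, ‖G r‖ ^ 2) ≤ √((M : ℝ) * X * k ^ 2) * √((M : ℝ) * X * k ^ 4) :=
          mul_le_mul (Real.sqrt_le_sqrt hFg) (Real.sqrt_le_sqrt hGsq') (Real.sqrt_nonneg _) (Real.sqrt_nonneg _)
      _ = M * X * k ^ 3 := by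
          rw [Real.sqrt_mul hMX0, Real.sqrt_mul hMX0, show (k : ℝ) ^ 4 = (k ^ 2) ^ 2 by ring, Real.sqrt_sq (by positivity), Real.sqrt_sq (by positivity)]
          have := Real.mul_self_sqrt hMX0
          calc √((M : ℝ) * X) * k * (√((M : ℝ) * X) * k ^ 2) = (√((M : ℝ) * X) * √((M : ℝ) * X)) * k ^ 3 := by ring
            _ = _ := by rw [this]
  obtain ⟨E₀, hE₀⟩ : ∃ E₀ : ℝ, E₀ = (M : ℝ) * X / (k : ℝ) ^ (U + 4) := ⟨_, rfl⟩
  have hbadV : ∀ r < M, ∀ S : Finset ℕ, (∀ r' ∈ S, r' < M ∧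
        BadC a ε R κ (hh 2 A k) ((((2 * C).factorial * r' + (2 * C).factorial * (M - r) : ℕ) : ℝ) / (M : ℝ))) →
      ∑ r' ∈ S, ‖V r'‖ ≤ E₀ := by
    intro r _ S hS
    have e1 := hbadk (m * (M - r)) m hm1 (Nat.lt_two_pow_self).le S (by
      intro x hx
      have := hS x hx
      rw [← hm] at this
      exact this)
    simp only [hV]
    refine (Real.sum_mul_le_sqrt_mul_sqrt _ _ _).trans ?_
    have hsub : S ⊆ range M := by
      intro r' hr'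
      rw [mem_range]
      exact (hS r' hr').1
    have e2 : ∑ r ∈ S, ‖Fg r‖ ^ 2 ≤ M * X * (k : ℝ) ^ 2 :=
      (sum_le_sum_of_subset_of_nonneg hsub fun _ _ _ => sq_nonneg _).trans hFg
    have e3 : ∑ r ∈ S, ‖G r‖ ^ 2 ≤ M * X / (k : ℝ) ^ (2 * U + 10) := by
      refine e1.trans ?_
      apply div_le_div_of_nonneg_left hMX0 (by positivity)
      exact pow_le_pow_right₀ hk1 (by omega)
    calc √(∑ r ∈ S, ‖Fg r‖ ^ 2) * √(∑ r ∈ S, ‖G r‖ ^ 2) ≤ √((M : ℝ) * X * k ^ 2) * √((M : ℝ) * X / k ^ (2 * U + 10)) :=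
          mul_le_mul (Real.sqrt_le_sqrt e2) (Real.sqrt_le_sqrt e3) (Real.sqrt_nonneg _) (Real.sqrt_nonneg _)
      _ = E₀ := by
          rw [Real.sqrt_mul hMX0, Real.sqrt_sq hk0.le, show (k : ℝ) ^ (2 * U + 10) = (k ^ (U + 5)) ^ 2 by ring, Real.sqrt_div' _ (by positivity),
            Real.sqrt_sq (by positivity), hE₀]
          have := Real.mul_self_sqrt hMX0
          have e4 : (k : ℝ) ^ (U + 5) = k ^ (U + 4) * k := by ring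
          rw [e4]
          have hkne : (k : ℝ) ≠ 0 := hk0.ne'
          have hkne2 : (k : ℝ) ^ (U + 4) ≠ 0 := by positivity
          field_simp
          rw [Real.sq_sqrt hMX0]
  have hηv : ∀ v : ℕ, 8 * hh 2 A k ≤ R * v → (1 - 4 * (ε / (2 * C).factorial) ^ 2 / (2 * C + 1)) ^ v ≤ 1 / (k : ℝ) ^ W := by
    intro v hv
    rw [← hη]
    obtain ⟨l, hl⟩ : ∃ l, l = Nat.log 2 k + 1 := ⟨_, rfl⟩
    have hvl : c0 * l ≤ v := by
      have e1 : 8 * hh 2 A k = 16 * A * l := by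
        unfold hh
        rw [hl]
        ring
      have e2 : R * (c0 * l) ≤ R * v := by
        calc R * (c0 * l) = (R * c0) * l := by ring
          _ ≤ (16 * A) * l := Nat.mul_le_mul_right _ (by omega)
          _ = 8 * hh 2 A k := by rw [e1]
          _ ≤ R * v := hv
      exact Nat.le_of_mul_le_mul_left e2 hR
    have hkl : k ≤ 2 ^ l := by
      rw [hl]
      exact (Nat.lt_pow_succ_log_self (by norm_num) k).le
    calc η ^ v ≤ η ^ (c0 * l) := pow_le_pow_of_le_one hη0 hη1.le hvl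
      _ = (η ^ c0) ^ l := pow_mul _ _ _
      _ ≤ (1 / (2 : ℝ) ^ W) ^ l := pow_le_pow_left₀ (pow_nonneg hη0 _) hc0.le _
      _ = 1 / ((2 : ℝ) ^ l) ^ W := by
          rw [div_pow, one_pow, ← pow_mul, ← pow_mul, mul_comm]
      _ ≤ 1 / (k : ℝ) ^ W := by
          apply one_div_le_one_div_of_le (by positivity)
          apply pow_le_pow_left₀ hk0.le
          exact_mod_cast hkl
  have hcore := coreD C R hR ε hε0 (by linarith) a M κ (hh 2 A k) (by omega) (by omega) N D hD V E₀ hbadV (1 / (k : ℝ) ^ W) (by positivity) hηv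
  refine hcore.trans ?_
  apply mul_le_mul_of_nonneg_right _ (Nat.cast_nonneg _)
  have hV0 : 0 ≤ ∑ r ∈ range M, ‖V r‖ := sum_nonneg fun _ _ => norm_nonneg _
  have hE0 : 0 ≤ E₀ := by rw [hE₀]; positivity
  have p1 : E₀ * ∑ r ∈ range M, ‖V r‖ ≤ (1 / 2) * ((M * X) ^ 2 / (k : ℝ) ^ U) := by
    calc E₀ * ∑ r ∈ range M, ‖V r‖ ≤ E₀ * (M * X * (k : ℝ) ^ 3) := mul_le_mul_of_nonneg_left hmass hE0
      _ = (1 / k) * ((M * X) ^ 2 / (k : ℝ) ^ U) := by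
          rw [hE₀, show (k : ℝ) ^ (U + 4) = k ^ U * k * k ^ 3 by ring]
          field_simp
      _ ≤ (1 / 2) * ((M * X) ^ 2 / (k : ℝ) ^ U) := by
          apply mul_le_mul_of_nonneg_right _ (by positivity)
          exact one_div_le_one_div_of_le (by norm_num) (by linarith)
  have p2 : 1 / (k : ℝ) ^ W * (∑ r ∈ range M, ‖V r‖) ^ 2 ≤ (1 / 2) * ((M * X) ^ 2 / (k : ℝ) ^ U) := by
    calc 1 / (k : ℝ) ^ W * (∑ r ∈ range M, ‖V r‖) ^ 2 ≤ 1 / (k : ℝ) ^ W * (M * X * (k : ℝ) ^ 3) ^ 2 := by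
          apply mul_le_mul_of_nonneg_left _ (by positivity)
          exact pow_le_pow_left₀ hV0 hmass 2
      _ = (1 / k) * ((M * X) ^ 2 / (k : ℝ) ^ U) := by
          rw [hW, show (k : ℝ) ^ (U + 7) = k ^ U * k * (k ^ 3) ^ 2 by ring]
          field_simp
      _ ≤ (1 / 2) * ((M * X) ^ 2 / (k : ℝ) ^ U) := by
          apply mul_le_mul_of_nonneg_right _ (by positivity)
          exact one_div_le_one_div_of_le (by norm_num) (by linarith)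
  linarith

/-- few choices of the digits are exceptional -/
theorem few_D (B C U Bc : ℕ) (hBc : 1 ≤ Bc) (ε : ℝ) (hε : 0 < ε) : ∃ k₀ : ℕ, ∀ k : ℕ, k₀ ≤ k → ∀ a : ℕ → ℕ, Bd B a → ∀ κ : ℕ,
    den a κ ≤ 2 ^ k → 2 ^ k ≤ k * den a κ → ∀ (N : ℤ) (D : ℕ → Finset ℤ), (∀ j < κ, D j ⊆ Icc (-(C : ℤ)) C ∧ 2 ≤ (D j).card) →
    ∀ S ⊆ OmD D κ, (∀ ω ∈ S, ∃ y : ℕ, (y : ℤ) = nwD a N ω ∧ 2 ∣ y ∧ 2 ^ k ≤ Bc * y ∧ y ≤ 2 ^ k ∧ ¬ Good ε y) →
    (S.card : ℝ) ≤ 1 / (k : ℝ) ^ U * (OmD D κ).card := by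
  classical
  obtain ⟨B₀, hsec⟩ := second_D B C (U + 1)
  obtain ⟨ε₂, hε₂, hgood⟩ := good_of2 Bc hBc ε hε
  obtain ⟨B₂, hB₂⟩ : ∃ B₂, B₂ = max B₀ 3 := ⟨_, rfl⟩
  obtain ⟨k1, h1⟩ := hsec (B₂ + 1)
  obtain ⟨n2, h2⟩ := hgood (B₂ + 1)
  obtain ⟨k3, hk3⟩ := exists_nat_ge (1 / ε₂ ^ 2)
  refine ⟨k1 + n2 + k3 + 16, fun k hk a ha κ hκ1 hκ2 N D hD S hS hSb => ?_⟩
  obtain ⟨X, hX⟩ : ∃ X, X = 2 ^ k := ⟨_, rfl⟩
  obtain ⟨M, hM⟩ : ∃ M, M = 2 ^ (k + 1) := ⟨_, rfl⟩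
  have hkX : k < X := by rw [hX]; exact Nat.lt_two_pow_self
  have hMX : M = 2 * X := by rw [hM, hX, pow_succ']
  have hXM : 2 * X ≤ M := hMX.ge
  have hX0 : (0 : ℝ) < X := by exact_mod_cast (by omega : 0 < X)
  have hM0 : (0 : ℝ) < M := by exact_mod_cast (by omega : 0 < M)
  have hk16 : (16 : ℝ) ≤ k := by exact_mod_cast (by omega : 16 ≤ k)
  have hk0 : (0 : ℝ) < k := by linarith
  obtain ⟨hL1, hL2⟩ := logX 2 k le_rfl
  obtain ⟨L, hL⟩ : ∃ L, L = Real.log (X : ℝ) := ⟨_, rfl⟩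
  rw [← hX, ← hL] at hL1 hL2
  have hL2' : 2 ≤ L := by linarith
  have hL0 : 0 < L := by linarith
  have hLk : L ≤ k := by
    rw [hL, hX]
    push_cast
    rw [Real.log_pow]
    have := Real.log_two_lt_d9
    nlinarith
  -- the level
  obtain ⟨z, hz⟩ : ∃ z, z = ⌈L ^ B₂⌉₊ := ⟨_, rfl⟩
  have hz1 : L ^ B₂ ≤ z := by rw [hz]; exact Nat.le_ceil _
  have hz2 : (z : ℝ) ≤ L ^ (B₂ + 1) := by
    have e1 : (z : ℝ) < L ^ B₂ + 1 := by rw [hz]; exact Nat.ceil_lt_add_one (by positivity)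
    have e2 : 1 ≤ L ^ B₂ := one_le_pow₀ (by linarith)
    rw [pow_succ]
    nlinarith
  have hz3 : L ^ B₀ ≤ z := (pow_le_pow_right₀ (by linarith) (by rw [hB₂]; exact le_max_left _ _)).trans hz1
  have hz4 : L ^ 3 ≤ z := (pow_le_pow_right₀ (by linarith) (by rw [hB₂]; exact le_max_right _ _)).trans hz1
  obtain ⟨AA, hAA⟩ : ∃ AA : ℕ → ℂ, AA = fun r => FF (fun n => ArithmeticFunction.vonMangoldt n) X M r *
        FF (fun n => ArithmeticFunction.vonMangoldt n - lamz z n) X M r := ⟨_, rfl⟩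
  have hmass : ∑ r ∈ range M, ‖FF (fun n => ArithmeticFunction.vonMangoldt n) X M r‖ ^ 2 ≤ M * X * (k : ℝ) ^ 2 := by
    rw [FF_pars _ X M (by omega) (by omega), mul_assoc]
    apply mul_le_mul_of_nonneg_left _ hM0.le
    have e1 := sum_vM_sq X (by omega)
    rw [← hL] at e1
    refine e1.trans ?_
    calc 6 * (X : ℝ) * L ≤ 6 * X * k := mul_le_mul_of_nonneg_left hLk (by positivity)
      _ = X * (6 * k) := by ring
      _ ≤ X * (k : ℝ) ^ 2 := mul_le_mul_of_nonneg_left (by nlinarith) hX0.le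
  have hmom := h1 k (by omega) a ha κ hκ1 hκ2 z (by rw [← hX, ← hL]; exact hz3) (by rw [← hX, ← hL]; exact hz2) N D hD AA
    (FF (fun n => ArithmeticFunction.vonMangoldt n) X M) (fun r => by rw [hAA, ← hX, ← hM]; simp only [norm_mul])
    (by rw [← hX, ← hM]; exact hmass)
  rw [← hX, ← hM] at hmom
  -- each exceptional choice
  have hpt : ∀ ω ∈ S, (M * (ε₂ * X)) ^ 2 ≤ ‖EE AA M (nwD a N ω)‖ ^ 2 := by
    intro ω hω
    obtain ⟨y, hy, hy2, hyb, hyX, hyG⟩ := hSb ω hω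
    rw [← hX] at hyb hyX
    have hy0 : 0 < y := by
      rcases Nat.eq_zero_or_pos y with h0 | h0
      · rw [h0, mul_zero] at hyb; omega
      · exact h0
    have hdiff : ¬ |∑ a ∈ Icc 1 X, ArithmeticFunction.vonMangoldt a * (lamI ((y : ℤ) - a) - lamzI z ((y : ℤ) - a))| ≤ ε₂ * X := by
      intro hcon
      apply hyG
      exact h2 X (by omega) z (by rw [← hL]; exact hz4) (by rw [← hL]; exact hz2) y hy2 hyb hyX hcon
    push Not at hdiff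
    have hconv := EE_conv (fun n => ArithmeticFunction.vonMangoldt n) (fun n => ArithmeticFunction.vonMangoldt n - lamz z n) X M (by omega)
        hXM (y : ℤ) (by omega) (by omega)
    rw [← hAA] at hconv
    have hS' : ∑ a ∈ Icc 1 X, ArithmeticFunction.vonMangoldt a *
        (if 1 ≤ (y : ℤ) - (a : ℤ) then (fun n => ArithmeticFunction.vonMangoldt n - lamz z n) ((y : ℤ) - (a : ℤ)).toNat else 0) =
        ∑ a ∈ Icc 1 X, ArithmeticFunction.vonMangoldt a * (lamI ((y : ℤ) - a) - lamzI z ((y : ℤ) - a)) := by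
      apply sum_congr rfl
      intro a _
      unfold lamI lamzI
      by_cases h7 : 1 ≤ (y : ℤ) - (a : ℤ)
      · rw [if_pos h7, if_pos h7, if_pos h7]
      · rw [if_neg h7, if_neg h7, if_neg h7, sub_zero]
    rw [hS'] at hconv
    obtain ⟨Sg, hSd⟩ : ∃ Sg, Sg = ∑ a ∈ Icc 1 X, ArithmeticFunction.vonMangoldt a * (lamI ((y : ℤ) - a) - lamzI z ((y : ℤ) - a)) := ⟨_, rfl⟩
    rw [← hSd] at hconv hdiff
    rw [← hy, hconv, Complex.norm_real, Real.norm_eq_abs, abs_mul, abs_of_pos hM0]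
    apply pow_le_pow_left₀ (by positivity)
    exact mul_le_mul_of_nonneg_left hdiff.le hM0.le
  have hsum : (S.card : ℝ) * (M * (ε₂ * X)) ^ 2 ≤ ((M : ℝ) * X) ^ 2 / (k : ℝ) ^ (U + 1) * (OmD D κ).card := by
    refine le_trans ?_ hmom
    calc (S.card : ℝ) * (M * (ε₂ * X)) ^ 2 = ∑ _ω ∈ S, (M * (ε₂ * X)) ^ 2 := by rw [sum_const, nsmul_eq_mul]
      _ ≤ ∑ ω ∈ S, ‖EE AA M (nwD a N ω)‖ ^ 2 := sum_le_sum hpt
      _ ≤ _ := sum_le_sum_of_subset_of_nonneg hS fun _ _ _ => sq_nonneg _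
  have hpos : 0 < (M * (ε₂ * X)) ^ 2 := by positivity
  have e1 : ((M : ℝ) * X) ^ 2 / (k : ℝ) ^ (U + 1) * (OmD D κ).card ≤ (1 / (k : ℝ) ^ U * (OmD D κ).card) * (M * (ε₂ * X)) ^ 2 := by
    have e2 : 1 / (k : ℝ) ≤ ε₂ ^ 2 := by
      have e3 : 1 / ε₂ ^ 2 ≤ k := hk3.trans (by exact_mod_cast (by omega : k3 ≤ k))
      rw [div_le_iff₀ (by positivity)] at e3
      rw [div_le_iff₀ hk0]
      linarith
    have e4 : (1 / (k : ℝ) ^ U * (OmD D κ).card) * (M * (ε₂ * X)) ^ 2 = ε₂ ^ 2 * ((((M : ℝ) * X) ^ 2 / (k : ℝ) ^ U) * (OmD D κ).card) := by ring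
    have e5 : ((M : ℝ) * X) ^ 2 / (k : ℝ) ^ (U + 1) * (OmD D κ).card = (1 / (k : ℝ)) * ((((M : ℝ) * X) ^ 2 / (k : ℝ) ^ U) * (OmD D κ).card) := by
      rw [pow_succ]
      field_simp
      ring
    rw [e4, e5]
    exact mul_le_mul_of_nonneg_right e2 (by positivity)
  exact le_of_mul_le_mul_right (hsum.trans e1) hpos

end Pool.Agent.R461.CF
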