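import Pool.Agent.R461.CF.D2

set_option autoImplicit false

/-! Random digits: the final form. -/

namespace Pool.Agent.R461.CF

open Finset
open Pool.Agent.TH894.SM (Good)

lemma den_sum {B : ℕ} {a : ℕ → ℕ} (h : Bd B a) : ∀ L, ∑ j ∈ range L, den a j ≤ 2 * den a L := by
  have key : ∀ L, ∑ j ∈ range (L + 1), den a j ≤ den a (L + 1) + den a L := by
    intro L
    induction L with
    | zero =>
      rw [sum_range_one]
      omega
    | succ L ih =>
      rw [sum_range_succ]
      have h1 : den a (L + 2) = a (L + 2) * den a (L + 1) + den a L := den_add L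
      have h2 := (h (L + 2) (by omega)).1
      have h3 : 1 * den a (L + 1) ≤ a (L + 2) * den a (L + 1) := Nat.mul_le_mul_right _ h2
      have e1 : L + 1 + 1 = L + 2 := by ring
      rw [e1]
      omega
  intro L
  rcases Nat.eq_zero_or_pos L with h0 | h0
  · rw [h0]; simp
  · obtain ⟨m, rfl⟩ : ∃ m, L = m + 1 := ⟨L - 1, by omega⟩
    have := key m
    have := den_mono h m
    omega

lemma abs_digits {B : ℕ} {a : ℕ → ℕ} (h : Bd B a) (C L : ℕ) (D : ℕ → Finset ℤ) (hD : ∀ j < L, D j ⊆ Icc (-(C : ℤ)) C)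
    (ω : Fin L → ℤ) (hω : ω ∈ OmD D L) : |∑ j, ω j * (den a j : ℤ)| ≤ C * (2 * den a L) := by
  unfold OmD at hω
  rw [Fintype.mem_piFinset] at hω
  refine (abs_sum_le_sum_abs _ _).trans ?_
  have h1 : ∀ j ∈ (univ : Finset (Fin L)), |ω j * (den a j : ℤ)| ≤ C * den a j := by
    intro j _
    rw [abs_mul, Nat.abs_cast]
    apply mul_le_mul_of_nonneg_right _ (Int.natCast_nonneg _)
    have := mem_Icc.1 (hD j j.2 (hω j))
    rw [abs_le]
    exact this
  refine (sum_le_sum h1).trans ?_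
  rw [← mul_sum]
  apply mul_le_mul_of_nonneg_left _ (Int.natCast_nonneg _)
  have h2 := den_sum h L
  rw [← Fin.sum_univ_eq_sum_range (fun j => den a j) L] at h2
  exact_mod_cast h2

/-- few choices of the digits are exceptional, for the even numbers `2 (N + ∑ c_j q_j)` -/
theorem digits_even (B C U : ℕ) (hB : 1 ≤ B) (ε : ℝ) (hε : 0 < ε) : ∃ N₀ : ℕ, ∀ N : ℕ, N₀ ≤ N → ∀ a : ℕ → ℕ, Bd B a → ∀ L : ℕ,
    8 * C * den a L ≤ N → 8 * (N : ℝ) ≤ den a L * Real.log N → ∀ D : ℕ → Finset ℤ,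
    (∀ j < L, D j ⊆ Icc (-(C : ℤ)) C ∧ 2 ≤ (D j).card) → ∀ S ⊆ OmD D L,
    (∀ ω ∈ S, ¬ Good ε (2 * (nwD a N ω).toNat)) → (S.card : ℝ) ≤ (OmD D L).card / Real.log N ^ U := by
  classical
  obtain ⟨k₀, h0⟩ := few_D B (2 * C) U 8 (by norm_num) ε hε
  refine ⟨2 ^ (k₀ + 4), fun N hN a ha L hL1 hL2 D hD S hS hSb => ?_⟩
  have hN16 : 16 ≤ N := le_trans (by
    calc 16 = 2 ^ 4 := by norm_num
      _ ≤ 2 ^ (k₀ + 4) := Nat.pow_le_pow_right (by norm_num) (by omega)) hN
  obtain ⟨k, hk⟩ : ∃ k, k = Nat.log 2 N + 3 := ⟨_, rfl⟩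
  have hkk : k₀ ≤ k := by
    have : k₀ + 4 ≤ Nat.log 2 N := by
      exact Nat.le_log_of_pow_le (by norm_num) hN
    omega
  have hk1 : 2 ^ k ≤ 8 * N := by
    have := Nat.pow_log_le_self 2 (show N ≠ 0 by omega)
    rw [hk, pow_add]
    omega
  have hk2 : 4 * N ≤ 2 ^ k := by
    have := Nat.lt_pow_succ_log_self (show 1 < 2 by norm_num) N
    rw [hk, show Nat.log 2 N + 3 = (Nat.log 2 N + 1) + 2 by ring, pow_add]
    have e : (Nat.log 2 N).succ = Nat.log 2 N + 1 := rfl
    omega
  have hNr : (16 : ℝ) ≤ N := by exact_mod_cast hN16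
  have hlogN : Real.log N ≤ k := by
    have h1 : (N : ℝ) ≤ 2 ^ k := by
      have : N ≤ 2 ^ k := by omega
      exact_mod_cast this
    have h2 := Real.log_le_log (by linarith) h1
    rw [Real.log_pow] at h2
    have h3 := Real.log_two_lt_d9
    have h4 : (0 : ℝ) ≤ k := Nat.cast_nonneg k
    nlinarith
  have hlog1 : 1 ≤ Real.log N := by
    rw [Real.le_log_iff_exp_le (by linarith)]
    have := Real.exp_one_lt_d9
    linarith
  have hC1 : L = 0 ∨ 1 ≤ C := by
    by_contra hcon
    push Not at hcon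
    have hC0 : C = 0 := by omega
    have := (hD 0 (by omega))
    rw [hC0] at this
    have h1 := card_le_card this.1
    rw [Int.card_Icc] at h1
    have h2 := this.2
    simp at h1
    omega
  have hden : den a L ≤ N := by
    rcases hC1 with h0 | h0
    · rw [h0, den_zero]; omega
    · have : 1 * den a L ≤ 8 * C * den a L := Nat.mul_le_mul_right _ (by omega)
      omega
  have hκ1 : den a L ≤ 2 ^ k := by omega
  have hκ2 : 2 ^ k ≤ k * den a L := by
    have h1 : ((2 ^ k : ℕ) : ℝ) ≤ ((8 * N : ℕ) : ℝ) := by exact_mod_cast hk1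
    have h2 : ((2 ^ k : ℕ) : ℝ) ≤ ((k * den a L : ℕ) : ℝ) := by
      refine h1.trans ?_
      push_cast
      refine hL2.trans ?_
      rw [mul_comm]
      exact mul_le_mul_of_nonneg_right hlogN (Nat.cast_nonneg _)
    exact_mod_cast h2
  -- doubling
  obtain ⟨D', hD'⟩ : ∃ D' : ℕ → Finset ℤ, D' = fun j => (D j).image (fun c => 2 * c) := ⟨_, rfl⟩
  have hinj2 : Function.Injective (fun c : ℤ => 2 * c) := fun x y h => by simpa using h
  have hD'c : ∀ j, (D' j).card = (D j).card := fun j => by rw [hD']; exact card_image_of_injective _ hinj2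
  have hcard : ((OmD D' L).card : ℝ) = (OmD D L).card := by
    rw [card_OmD, card_OmD]
    exact prod_congr rfl fun j _ => by rw [hD'c]
  obtain ⟨S', hS'⟩ : ∃ S' : Finset (Fin L → ℤ), S' = S.image (fun ω j => 2 * ω j) := ⟨_, rfl⟩
  have hS'c : S'.card = S.card := by
    rw [hS']
    apply card_image_of_injective
    intro x y h
    funext j
    have := congrFun h j
    simpa using this
  have hmain := h0 k hkk a ha L hκ1 hκ2 (2 * N) D' (by
    intro j hj
    obtain ⟨g1, g2⟩ := hD j hj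
    refine ⟨?_, by rw [hD'c]; exact g2⟩
    intro y hy
    rw [hD', mem_image] at hy
    obtain ⟨c, hc, rfl⟩ := hy
    have := mem_Icc.1 (g1 hc)
    rw [mem_Icc]
    push_cast
    omega) S' (by
    intro ω' hω'
    rw [hS', mem_image] at hω'
    obtain ⟨ω, hω, rfl⟩ := hω'
    have := hS hω
    unfold OmD at this ⊢
    rw [Fintype.mem_piFinset] at this ⊢
    intro j
    rw [hD', mem_image]
    exact ⟨ω j, this j, rfl⟩) (by
    intro ω' hω'
    rw [hS', mem_image] at hω'
    obtain ⟨ω, hω, rfl⟩ := hω'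
    have hb := hSb ω hω
    have habs := abs_digits ha C L D (fun j hj => (hD j hj).1) ω (hS hω)
    have hsum : 4 * ((C : ℤ) * (2 * den a L)) ≤ N := by
      have : ((8 * C * den a L : ℕ) : ℤ) ≤ N := by exact_mod_cast hL1
      push_cast at this
      linarith
    obtain ⟨T, hT⟩ : ∃ T : ℤ, T = ∑ j, ω j * (den a j : ℤ) := ⟨_, rfl⟩
    rw [← hT] at habs
    rw [abs_le] at habs
    have hn : nwD a N ω = N + T := by unfold nwD; rw [hT]
    have hn' : nwD a (2 * N) (fun j => 2 * ω j) = 2 * (N + T) := by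
      unfold nwD
      rw [hT, mul_add, mul_sum]
      congr 1
      apply sum_congr rfl
      intro j _
      ring
    rw [hn] at hb
    have hN0 : (0 : ℤ) ≤ N := Int.natCast_nonneg _
    have hNT : 0 ≤ (N : ℤ) + T := by linarith
    have htn : (((N : ℤ) + T).toNat : ℤ) = N + T := Int.toNat_of_nonneg hNT
    refine ⟨2 * ((N : ℤ) + T).toNat, ?_, Dvd.intro _ rfl, ?_, ?_, hb⟩
    · rw [hn', ← htn]
      push_cast
      rfl
    · have : (N : ℤ) ≤ 2 * ((N : ℤ) + T).toNat := by
        rw [htn]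
        linarith
      omega
    · have : 2 * (((N : ℤ) + T).toNat : ℤ) ≤ 4 * N := by
        rw [htn]
        linarith
      omega)
  rw [hS'c, hcard] at hmain
  refine hmain.trans ?_
  rw [one_div, inv_mul_eq_div]
  apply div_le_div_of_nonneg_left (Nat.cast_nonneg _) (by positivity)
  exact pow_le_pow_left₀ (by linarith) hlogN U

end Pool.Agent.R461.CF
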