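import Pool.Agent.R461.CF.C11
import Pool.Agent.R461.CF.D2
import Pool.Agent.W93.RD3

set_option autoImplicit false

/-! The second moment over sums of a bounded number of denominators. -/

namespace Pool.Agent.R461.CF

open Finset
open Pool.Agent.H807R2.Dav
open Pool.Agent.H373R2.T7
open Pool.Agent.H560R3.GB
open Pool.Agent.W93.DG (hh FF FF_sub FF_pars sum_vM_sq logX)
open Pool.Agent.W93.RD (EE EE_conv)
open Pool.Agent.W93.TD (G_sq)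
open Pool.Agent.TH894.SM (Good good_of2 Ph VV VV_nonneg)

/-- the second moment -/
theorem second_momentC (B : ℕ) (hB : 1 ≤ B) : ∃ A B₀ : ℕ, 4 ≤ A ∧ 1 ≤ B₀ ∧ ∀ δ : ℝ, 0 < δ → ∃ t₀ : ℕ, ∀ Ez : ℕ, ∃ k₀ : ℕ,
    ∀ k : ℕ, k₀ ≤ k → ∀ t : ℕ, t₀ ≤ t → ∀ z : ℕ, Real.log ((2 ^ k : ℕ) : ℝ) ^ B₀ ≤ z → (z : ℝ) ≤ Real.log ((2 ^ k : ℕ) : ℝ) ^ Ez →
    ∀ a : ℕ → ℕ, Bd B a → ∀ σ : ℤ, (σ = 1 ∨ σ = -1) → ∀ κ : ℕ, den a κ ≤ 2 ^ k → 2 ^ k ≤ k * den a κ → ∀ (N : ℤ) (V : ℕ → ℂ),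
    (∀ r, ‖V r‖ = ‖FF (fun n => ArithmeticFunction.vonMangoldt n) (2 ^ k) (2 ^ (k + 1)) r‖ *
      ‖FF (fun n => ArithmeticFunction.vonMangoldt n - lamz z n) (2 ^ k) (2 ^ (k + 1)) r‖) →
    ∑ ω ∈ OmC (JJ κ (hh 2 A k)) t, ‖EE V (2 ^ (k + 1)) (nwC (dlC a σ) N ω)‖ ^ 2 ≤
      δ * (((2 ^ (k + 1) : ℕ) : ℝ) * ((2 ^ k : ℕ) : ℝ)) ^ 2 * (OmC (JJ κ (hh 2 A k)) t).card := by
  classical
  obtain ⟨R, ε, hR, hε0, hε1, hbad⟩ := bad_L2 B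
  obtain ⟨A, B₀, hA, hEz⟩ := hbad B.factorial 10
  obtain ⟨C, hC0, hfour⟩ := VV_fourC B hB
  obtain ⟨η, hη0, hη1, hcore⟩ := coreC B R hR ε hε0 (by linarith)
  refine ⟨A, max B₀ 1, by omega, le_max_right _ _, fun δ hδ => ?_⟩
  obtain ⟨v, hv⟩ := exists_pow_lt_of_lt_one (show (0 : ℝ) < δ / 2 / (4 * C + 1) by positivity) (show 1 - η < 1 by linarith)
  refine ⟨v + 4, fun Ez => ?_⟩
  obtain ⟨k1, h1⟩ := hEz Ez
  obtain ⟨n2, h2⟩ := G_sq Ez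
  obtain ⟨k3, h3⟩ := sizesC B A 1 (by omega)
  obtain ⟨k4, h4⟩ := hfour Ez
  obtain ⟨k5, hk5⟩ := exists_nat_ge (2 / δ)
  refine ⟨k1 + n2 + k3 + k4 + k5 + 16, fun k hk t ht z hz1 hz2 a ha σ hσ κ hκ1 hκ2 N V hV => ?_⟩
  obtain ⟨s1, s2, s3, s4, s5, s6, s7, s8, s9, s10⟩ := h3 k (by omega) a ha κ hκ1 hκ2
  obtain ⟨X, hX⟩ : ∃ X, X = 2 ^ k := ⟨_, rfl⟩
  obtain ⟨M, hM⟩ : ∃ M, M = 2 ^ (k + 1) := ⟨_, rfl⟩
  have hkX : k < X := by rw [hX]; exact Nat.lt_two_pow_self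
  have hXM : X ≤ M := by rw [hX, hM]; exact Nat.pow_le_pow_right (by norm_num) (by omega)
  have hX0 : (0 : ℝ) < X := by exact_mod_cast (by omega : 0 < X)
  have hM0 : (0 : ℝ) < M := by exact_mod_cast (by omega : 0 < M)
  have hk16 : (16 : ℝ) ≤ k := by exact_mod_cast (by omega : 16 ≤ k)
  have hk0 : (0 : ℝ) < k := by linarith
  have hk1 : (1 : ℝ) ≤ k := by linarith
  obtain ⟨hL1, hL2⟩ := logX 2 k le_rfl
  obtain ⟨L, hL⟩ : ∃ L, L = Real.log (X : ℝ) := ⟨_, rfl⟩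
  have hLk : L ≤ k := by
    rw [hL, hX]
    push_cast
    rw [Real.log_pow]
    have := Real.log_two_lt_d9
    nlinarith
  have hL0 : 0 ≤ L := by rw [hL]; exact Real.log_natCast_nonneg _
  have hLge : 1 ≤ L := by
    rw [← hX, ← hL] at hL1
    linarith
  rw [← hX, ← hL] at hz1 hz2
  have hz3 : L ^ B₀ ≤ z := (pow_le_pow_right₀ hLge (le_max_left _ _)).trans hz1
  have hz4 : L ≤ z := by
    refine le_trans ?_ hz1
    exact le_self_pow₀ hLge (by have := le_max_right B₀ 1; omega)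
  have hz : 1 ≤ z := by
    have : (1 : ℝ) ≤ z := by linarith
    exact_mod_cast this
  obtain ⟨F, hF⟩ : ∃ F : ℕ → ℂ, F = FF (fun n => ArithmeticFunction.vonMangoldt n) X M := ⟨_, rfl⟩
  obtain ⟨G, hG⟩ : ∃ G : ℕ → ℂ, G = FF (fun n => ArithmeticFunction.vonMangoldt n - lamz z n) X M := ⟨_, rfl⟩
  rw [← hX, ← hM, ← hF, ← hG] at hV
  have hbadk := h1 k (by omega) a ha κ hκ1 hκ2 z (by rw [← hX, ← hL]; exact hz3) (by rw [← hX, ← hL]; exact hz2)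
  have hfourK := h4 k (by omega) z (by rw [← hX, ← hL]; exact hz4) (by rw [← hX, ← hL]; exact hz2) a ha σ hσ
    (κ - (4 * hh 2 A k + 2)) (by
      have : 2 * B * κ ≤ 2 * B * (2 * (κ - (4 * hh 2 A k + 2))) := Nat.mul_le_mul_left _ (by omega)
      calc k ≤ 2 * B * κ := s6
        _ ≤ 2 * B * (2 * (κ - (4 * hh 2 A k + 2))) := this
        _ = 4 * B * (κ - (4 * hh 2 A k + 2)) := by ring
        _ ≤ 8 * B * (κ - (4 * hh 2 A k + 2)) := Nat.mul_le_mul_right _ (Nat.mul_le_mul_right _ (by norm_num))) (by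
      have e1 := den_two_pow ha (κ - (4 * hh 2 A k + 2)) (2 * hh 2 A k + 1)
      have e2 : κ - (4 * hh 2 A k + 2) + 2 * (2 * hh 2 A k + 1) = κ := by omega
      rw [e2] at e1
      refine le_trans (Nat.mul_le_mul_right _ ?_) (e1.trans hκ1)
      calc 4 = 2 ^ 2 := by norm_num
        _ ≤ 2 ^ (2 * hh 2 A k + 1) := Nat.pow_le_pow_right (by norm_num) (by omega))
  have hGsq := h2 X (by omega) M hXM z hz (by rw [← hL]; exact hz2)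
  rw [← hX, ← hM] at hbadk hfourK
  rw [← hG] at hbadk
  rw [← hL, ← hG] at hGsq
  rw [← hX, ← hM]
  have hMX0 : (0 : ℝ) ≤ M * X := by positivity
  have hGsq' : ∑ r ∈ range M, ‖G r‖ ^ 2 ≤ M * X * (k : ℝ) ^ 4 := by
    refine hGsq.trans ?_
    have e1 : 14 * L ^ 2 ≤ (k : ℝ) ^ 4 := by
      have e2 : L ^ 2 ≤ (k : ℝ) ^ 2 := pow_le_pow_left₀ hL0 hLk 2
      have e3 : (14 : ℝ) ≤ (k : ℝ) ^ 2 := by nlinarith
      calc 14 * L ^ 2 ≤ (k : ℝ) ^ 2 * (k : ℝ) ^ 2 := mul_le_mul e3 e2 (by positivity) (by positivity)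
        _ = _ := by ring
    calc (M : ℝ) * (14 * X * L ^ 2) = (M * X) * (14 * L ^ 2) := by ring
      _ ≤ _ := mul_le_mul_of_nonneg_left e1 hMX0
  have hFsq : ∑ r ∈ range M, ‖F r‖ ^ 2 ≤ M * X * (k : ℝ) ^ 2 := by
    rw [hF, FF_pars _ X M (by omega) (by omega), mul_assoc]
    apply mul_le_mul_of_nonneg_left _ hM0.le
    have e1 := sum_vM_sq X (by omega)
    rw [← hL] at e1
    refine e1.trans ?_
    calc 6 * (X : ℝ) * L ≤ 6 * X * k := mul_le_mul_of_nonneg_left hLk (by positivity)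
      _ = X * (6 * k) := by ring
      _ ≤ X * (k : ℝ) ^ 2 := mul_le_mul_of_nonneg_left (by nlinarith) hX0.le
  have hmass : ∑ r ∈ range M, ‖V r‖ ≤ M * X * (k : ℝ) ^ 3 := by
    simp only [hV]
    refine (Real.sum_mul_le_sqrt_mul_sqrt _ _ _).trans ?_
    calc √(∑ r ∈ range M, ‖F r‖ ^ 2) * √(∑ r ∈ range M, ‖G r‖ ^ 2) ≤ √((M : ℝ) * X * k ^ 2) * √((M : ℝ) * X * k ^ 4) :=
          mul_le_mul (Real.sqrt_le_sqrt hFsq) (Real.sqrt_le_sqrt hGsq') (Real.sqrt_nonneg _) (Real.sqrt_nonneg _)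
      _ = M * X * k ^ 3 := by
          rw [Real.sqrt_mul hMX0, Real.sqrt_mul hMX0, show (k : ℝ) ^ 4 = (k ^ 2) ^ 2 by ring, Real.sqrt_sq (by positivity), Real.sqrt_sq (by positivity)]
          have := Real.mul_self_sqrt hMX0
          calc √((M : ℝ) * X) * k * (√((M : ℝ) * X) * k ^ 2) = (√((M : ℝ) * X) * √((M : ℝ) * X)) * k ^ 3 := by ring
            _ = _ := by rw [this]
  obtain ⟨E₀, hE₀⟩ : ∃ E₀ : ℝ, E₀ = (M : ℝ) * X / (k : ℝ) ^ 4 := ⟨_, rfl⟩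
  have hbadV : ∀ r < M, ∀ S : Finset ℕ, (∀ r' ∈ S, r' < M ∧
        BadC a ε R κ (hh 2 A k) (((B.factorial * r' + B.factorial * (M - r) : ℕ) : ℝ) / (M : ℝ))) →
      ∑ r' ∈ S, ‖V r'‖ ≤ E₀ := by
    intro r _ S hS
    have e1 := hbadk (B.factorial * (M - r)) B.factorial (Nat.factorial_pos _) (Nat.lt_two_pow_self).le S hS
    simp only [hV]
    refine (Real.sum_mul_le_sqrt_mul_sqrt _ _ _).trans ?_
    have hsub : S ⊆ range M := by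
      intro r' hr'
      rw [mem_range]
      exact (hS r' hr').1
    have e2 : ∑ r ∈ S, ‖F r‖ ^ 2 ≤ M * X * (k : ℝ) ^ 2 :=
      (sum_le_sum_of_subset_of_nonneg hsub fun _ _ _ => sq_nonneg _).trans hFsq
    calc √(∑ r ∈ S, ‖F r‖ ^ 2) * √(∑ r ∈ S, ‖G r‖ ^ 2) ≤ √((M : ℝ) * X * k ^ 2) * √((M : ℝ) * X / k ^ 10) :=
          mul_le_mul (Real.sqrt_le_sqrt e2) (Real.sqrt_le_sqrt e1) (Real.sqrt_nonneg _) (Real.sqrt_nonneg _)
      _ = E₀ := by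
          rw [Real.sqrt_mul hMX0, Real.sqrt_sq hk0.le, show (k : ℝ) ^ 10 = (k ^ 5) ^ 2 by ring, Real.sqrt_div' _ (by positivity),
            Real.sqrt_sq (by positivity), hE₀]
          have hkne : (k : ℝ) ≠ 0 := hk0.ne'
          field_simp
          rw [Real.sq_sqrt hMX0]
  have hmain := hcore a ha σ hσ M κ (hh 2 A k) (by omega) (by omega) (by omega) N t (by omega) V E₀ hbadV
  refine hmain.trans ?_
  apply mul_le_mul_of_nonneg_right _ (Nat.cast_nonneg _)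
  obtain ⟨g, hg⟩ : ∃ g, g = κ - (4 * hh 2 A k + 2) := ⟨_, rfl⟩
  have hJ0 : JJ κ (hh 2 A k) 0 = Ico 0 g := by unfold JJ; rw [if_pos rfl, hg]
  have hJ0c : ((JJ κ (hh 2 A k) 0).card : ℝ) = g := by rw [hJ0, Nat.card_Ico, Nat.sub_zero]
  rw [hJ0c, hJ0]
  rw [← hg] at hfourK
  have hg0 : (0 : ℝ) < g := by exact_mod_cast (by omega : 0 < g)
  have hE0 : 0 ≤ E₀ := by rw [hE₀]; positivity
  have hAV : ∀ r, ‖V r‖ ≤ 2 * VV z X M r := by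
    intro r
    have e1 : G r = F r - FF (lamz z) X M r := by rw [hG, hF, ← FF_sub]
    have e2 : ‖G r‖ ≤ ‖F r‖ + ‖FF (lamz z) X M r‖ := by rw [e1]; exact norm_sub_le _ _
    have e3 : VV z X M r = ‖F r‖ ^ 2 + ‖FF (lamz z) X M r‖ ^ 2 := by rw [hF]; rfl
    rw [e3, hV]
    have e4 : ‖F r‖ * ‖G r‖ ≤ ‖F r‖ * (‖F r‖ + ‖FF (lamz z) X M r‖) := mul_le_mul_of_nonneg_left e2 (norm_nonneg _)
    nlinarith [sq_nonneg (‖F r‖ - ‖FF (lamz z) X M r‖), sq_nonneg (‖F r‖), sq_nonneg (‖FF (lamz z) X M r‖)]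
  have p1 : E₀ * ∑ r ∈ range M, ‖V r‖ ≤ δ / 2 * (M * X) ^ 2 := by
    calc E₀ * ∑ r ∈ range M, ‖V r‖ ≤ E₀ * (M * X * (k : ℝ) ^ 3) := mul_le_mul_of_nonneg_left hmass hE0
      _ = (1 / k) * (M * X) ^ 2 := by
          rw [hE₀]
          field_simp
      _ ≤ (δ / 2) * (M * X) ^ 2 := by
          apply mul_le_mul_of_nonneg_right _ (by positivity)
          have e4 : 2 / δ ≤ k := hk5.trans (by exact_mod_cast (by omega : k5 ≤ k))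
          rw [div_le_iff₀ hδ] at e4
          rw [div_le_iff₀ hk0]
          linarith
  have hfour' : ∑ r ∈ range M, ∑ r' ∈ range M, ‖V r‖ * ‖V r'‖ * ‖Ph (dlC a σ) (Ico 0 g) (((r' : ℝ) - r) / (M : ℝ))‖ ^ 4 ≤
      4 * (C * ((M : ℝ) * X) ^ 2 * (g : ℝ) ^ 4) := by
    refine le_trans ?_ (mul_le_mul_of_nonneg_left hfourK (by norm_num))
    rw [mul_sum]
    apply sum_le_sum
    intro r _
    rw [mul_sum]
    apply sum_le_sum
    intro r' _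
    have e1 : ‖V r‖ * ‖V r'‖ ≤ (2 * VV z X M r) * (2 * VV z X M r') :=
      mul_le_mul (hAV r) (hAV r') (norm_nonneg _) (by have := VV_nonneg z X M r; positivity)
    calc ‖V r‖ * ‖V r'‖ * ‖Ph (dlC a σ) (Ico 0 g) (((r' : ℝ) - r) / (M : ℝ))‖ ^ 4 ≤
          ((2 * VV z X M r) * (2 * VV z X M r')) * ‖Ph (dlC a σ) (Ico 0 g) (((r' : ℝ) - r) / (M : ℝ))‖ ^ 4 :=
          mul_le_mul_of_nonneg_right e1 (by positivity)
      _ = _ := by ring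
  have hη' : 0 ≤ 1 - η := by linarith
  have p2 : (1 - η) ^ (t - 4) / (g : ℝ) ^ 4 * ∑ r ∈ range M, ∑ r' ∈ range M, ‖V r‖ * ‖V r'‖ *
      ‖Ph (dlC a σ) (Ico 0 g) (((r' : ℝ) - r) / (M : ℝ))‖ ^ 4 ≤ δ / 2 * (M * X) ^ 2 := by
    have e1 : (1 - η) ^ (t - 4) ≤ δ / 2 / (4 * C + 1) := by
      refine le_trans ?_ hv.le
      exact pow_le_pow_of_le_one hη' (by linarith) (by omega)
    have e2 : (1 - η) ^ (t - 4) * (4 * C) ≤ δ / 2 := by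
      calc (1 - η) ^ (t - 4) * (4 * C) ≤ (δ / 2 / (4 * C + 1)) * (4 * C) := mul_le_mul_of_nonneg_right e1 (by positivity)
        _ = δ / 2 * (4 * C / (4 * C + 1)) := by ring
        _ ≤ δ / 2 * 1 := by
            apply mul_le_mul_of_nonneg_left _ (by positivity)
            rw [div_le_one (by positivity)]
            linarith
        _ = δ / 2 := mul_one _
    calc _ ≤ (1 - η) ^ (t - 4) / (g : ℝ) ^ 4 * (4 * (C * ((M : ℝ) * X) ^ 2 * (g : ℝ) ^ 4)) :=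
          mul_le_mul_of_nonneg_left hfour' (by positivity)
      _ = ((1 - η) ^ (t - 4) * (4 * C)) * ((M : ℝ) * X) ^ 2 := by
          have : (g : ℝ) ^ 4 ≠ 0 := (pow_pos hg0 4).ne'
          field_simp
      _ ≤ (δ / 2) * ((M : ℝ) * X) ^ 2 := mul_le_mul_of_nonneg_right e2 (by positivity)
  linarith

/-- few choices are exceptional -/
theorem few_C (B : ℕ) (hB : 1 ≤ B) (Bc : ℕ) (hBc : 1 ≤ Bc) : ∃ A : ℕ, 4 ≤ A ∧ ∀ ε ρ : ℝ, 0 < ε → 0 < ρ → ∃ t₀ k₀ : ℕ, ∀ k : ℕ, k₀ ≤ k →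
    ∀ t : ℕ, t₀ ≤ t → ∀ a : ℕ → ℕ, Bd B a → ∀ σ : ℤ, (σ = 1 ∨ σ = -1) → ∀ κ : ℕ, den a κ ≤ 2 ^ k → 2 ^ k ≤ k * den a κ → ∀ N : ℤ,
    ∀ S ⊆ OmC (JJ κ (hh 2 A k)) t,
    (∀ ω ∈ S, ∃ y : ℕ, (y : ℤ) = nwC (dlC a σ) N ω ∧ 2 ∣ y ∧ 2 ^ k ≤ Bc * y ∧ y ≤ 2 ^ k ∧ ¬ Good ε y) →
    (S.card : ℝ) ≤ ρ * (OmC (JJ κ (hh 2 A k)) t).card := by
  classical
  obtain ⟨A, B₀, hA, hB₀, hsm⟩ := second_momentC B hB
  refine ⟨A, hA, fun ε ρ hε hρ => ?_⟩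
  obtain ⟨ε₂, hε₂, hgood⟩ := good_of2 Bc hBc ε hε
  obtain ⟨t₀, ht₀⟩ := hsm (ρ * ε₂ ^ 2) (by positivity)
  obtain ⟨B₂, hB₂⟩ : ∃ B₂, B₂ = max B₀ 3 := ⟨_, rfl⟩
  obtain ⟨k1, h1⟩ := ht₀ (B₂ + 1)
  obtain ⟨n2, h2⟩ := hgood (B₂ + 1)
  refine ⟨t₀, k1 + n2 + 4, fun k hk t ht a ha σ hσ κ hκ1 hκ2 N S hS hSb => ?_⟩
  obtain ⟨X, hX⟩ : ∃ X, X = 2 ^ k := ⟨_, rfl⟩
  obtain ⟨M, hM⟩ : ∃ M, M = 2 ^ (k + 1) := ⟨_, rfl⟩
  have hkX : k < X := by rw [hX]; exact Nat.lt_two_pow_self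
  have hMX : M = 2 * X := by rw [hM, hX, pow_succ']
  have hXM : 2 * X ≤ M := hMX.ge
  have hX0 : (0 : ℝ) < X := by exact_mod_cast (by omega : 0 < X)
  have hM0 : (0 : ℝ) < M := by exact_mod_cast (by omega : 0 < M)
  obtain ⟨hL1, hL2⟩ := logX 2 k le_rfl
  obtain ⟨L, hL⟩ : ∃ L, L = Real.log (X : ℝ) := ⟨_, rfl⟩
  rw [← hX, ← hL] at hL1 hL2
  have hK4 : (4 : ℝ) ≤ k := by exact_mod_cast (by omega : 4 ≤ k)
  have hL2' : 2 ≤ L := by linarith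
  have hL0 : 0 < L := by linarith
  -- the level
  obtain ⟨z, hz⟩ : ∃ z, z = ⌈L ^ B₂⌉₊ := ⟨_, rfl⟩
  have hz1 : L ^ B₂ ≤ z := by rw [hz]; exact Nat.le_ceil _
  have hz2 : (z : ℝ) ≤ L ^ (B₂ + 1) := by
    have e1 : (z : ℝ) < L ^ B₂ + 1 := by rw [hz]; exact Nat.ceil_lt_add_one (by positivity)
    have e2 : 1 ≤ L ^ B₂ := one_le_pow₀ (by linarith)
    rw [pow_succ]
    nlinarith
  have hz3 : L ^ B₀ ≤ z := (pow_le_pow_right₀ (by linarith) (by rw [hB₂]; exact le_max_left _ _)).trans hz1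
  have hz4 : L ^ 3 ≤ z := (pow_le_pow_right₀ (by linarith) (by rw [hB₂]; exact le_max_right _ _)).trans hz1
  obtain ⟨AA, hAA⟩ : ∃ AA : ℕ → ℂ, AA = fun r => FF (fun n => ArithmeticFunction.vonMangoldt n) X M r *
        FF (fun n => ArithmeticFunction.vonMangoldt n - lamz z n) X M r := ⟨_, rfl⟩
  have hmom := h1 k (by omega) t ht z (by rw [← hX, ← hL]; exact hz3) (by rw [← hX, ← hL]; exact hz2) a ha σ hσ κ hκ1 hκ2 N AA
    (fun r => by rw [hAA, ← hX, ← hM]; simp only [norm_mul])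
  rw [← hX, ← hM] at hmom
  -- each exceptional choice
  have hpt : ∀ ω ∈ S, (M * (ε₂ * X)) ^ 2 ≤ ‖EE AA M (nwC (dlC a σ) N ω)‖ ^ 2 := by
    intro ω hω
    obtain ⟨y, hy, hy2, hyb, hyX, hyG⟩ := hSb ω hω
    rw [← hX] at hyb hyX
    have hy0 : 0 < y := by
      rcases Nat.eq_zero_or_pos y with h0 | h0
      · rw [h0, mul_zero] at hyb; omega
      · exact h0
    have hdiff : ¬ |∑ a ∈ Icc 1 X, ArithmeticFunction.vonMangoldt a * (lamI ((y : ℤ) - a) - lamzI z ((y : ℤ) - a))| ≤ ε₂ * X := by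
      intro hcon
      apply hyG
      exact h2 X (by omega) z (by rw [← hL]; exact hz4) (by rw [← hL]; exact hz2) y hy2 hyb hyX hcon
    push Not at hdiff
    have hconv := EE_conv (fun n => ArithmeticFunction.vonMangoldt n) (fun n => ArithmeticFunction.vonMangoldt n - lamz z n) X M (by omega)
        hXM (y : ℤ) (by omega) (by omega)
    rw [← hAA] at hconv
    have hS' : ∑ a ∈ Icc 1 X, ArithmeticFunction.vonMangoldt a *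
        (if 1 ≤ (y : ℤ) - (a : ℤ) then (fun n => ArithmeticFunction.vonMangoldt n - lamz z n) ((y : ℤ) - (a : ℤ)).toNat else 0) =
        ∑ a ∈ Icc 1 X, ArithmeticFunction.vonMangoldt a * (lamI ((y : ℤ) - a) - lamzI z ((y : ℤ) - a)) := by
      apply sum_congr rfl
      intro a _
      unfold lamI lamzI
      by_cases h7 : 1 ≤ (y : ℤ) - (a : ℤ)
      · rw [if_pos h7, if_pos h7, if_pos h7]
      · rw [if_neg h7, if_neg h7, if_neg h7, sub_zero]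
    rw [hS'] at hconv
    obtain ⟨Sg, hSd⟩ : ∃ Sg, Sg = ∑ a ∈ Icc 1 X, ArithmeticFunction.vonMangoldt a * (lamI ((y : ℤ) - a) - lamzI z ((y : ℤ) - a)) := ⟨_, rfl⟩
    rw [← hSd] at hconv hdiff
    rw [← hy, hconv, Complex.norm_real, Real.norm_eq_abs, abs_mul, abs_of_pos hM0]
    apply pow_le_pow_left₀ (by positivity)
    exact mul_le_mul_of_nonneg_left hdiff.le hM0.le
  have hsum : (S.card : ℝ) * (M * (ε₂ * X)) ^ 2 ≤ ρ * ε₂ ^ 2 * ((M : ℝ) * X) ^ 2 * (OmC (JJ κ (hh 2 A k)) t).card := by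
    refine le_trans ?_ hmom
    calc (S.card : ℝ) * (M * (ε₂ * X)) ^ 2 = ∑ _ω ∈ S, (M * (ε₂ * X)) ^ 2 := by rw [sum_const, nsmul_eq_mul]
      _ ≤ ∑ ω ∈ S, ‖EE AA M (nwC (dlC a σ) N ω)‖ ^ 2 := sum_le_sum hpt
      _ ≤ _ := sum_le_sum_of_subset_of_nonneg hS fun _ _ _ => sq_nonneg _
  have hpos : 0 < (M * (ε₂ * X)) ^ 2 := by positivity
  have e1 : ρ * ε₂ ^ 2 * ((M : ℝ) * X) ^ 2 * (OmC (JJ κ (hh 2 A k)) t).card = ρ * (OmC (JJ κ (hh 2 A k)) t).card * (M * (ε₂ * X)) ^ 2 := by ring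
  rw [e1] at hsum
  exact le_of_mul_le_mul_right hsum hpos

end Pool.Agent.R461.CF
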