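import Pool.Agent.R461.CF.E1

set_option autoImplicit false

/-! Linnik's theorem for the denominators of convergents. -/

namespace Pool.Agent.R461.CF

open Finset
open Pool.Agent.W93.DG (hh)
open Pool.Agent.TH894.SM (Good)

/-- at least one half of the sums are even -/
lemma even_half (a : ℕ → ℕ) (J : Fin 2 → Finset ℕ) (t : ℕ) (ht : Even t) :
    (OmC J t).card ≤ 2 * ((OmC J t).filter (fun ω => Even (∑ c, den a (ω c)))).card := by
  classical
  have h1 : 0 ≤ ∑ ω ∈ OmC J t, ∏ c, ((-1 : ℤ) ^ den a (ω c)) := by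
    have h2 : ∑ ω ∈ OmC J t, ∏ c, ((-1 : ℤ) ^ den a (ω c)) = ∏ c : Fin 2 × Fin t, ∑ j ∈ J c.1, ((-1 : ℤ) ^ den a j) := by
      unfold OmC
      rw [Finset.prod_univ_sum]
    rw [h2, Fintype.prod_prod_type]
    apply prod_nonneg
    intro q _
    simp only [prod_const, card_univ, Fintype.card_fin]
    exact ht.pow_nonneg _
  have h2 : ∀ ω : Fin 2 × Fin t → ℕ, ∏ c, ((-1 : ℤ) ^ den a (ω c)) = if Even (∑ c, den a (ω c)) then 1 else -1 := by
    intro ω
    rw [prod_pow_eq_pow_sum]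
    split_ifs with h
    · exact h.neg_one_pow
    · exact (Nat.not_even_iff_odd.1 h).neg_one_pow
  simp only [h2] at h1
  rw [sum_ite, sum_const, sum_const] at h1
  have h3 := card_filter_add_card_filter_not (s := OmC J t) (fun ω => Even (∑ c, den a (ω c)))
  simp only [nsmul_eq_mul, mul_one, mul_neg] at h1
  omega

/-- the choice of the number of positions -/
lemma choose_kap {B : ℕ} {a : ℕ → ℕ} (h : Bd B a) (k : ℕ) (hk : 1 ≤ k) :
    ∃ κ : ℕ, 2 ^ k ≤ k * den a κ ∧ k * den a κ ≤ (B + 1) * 2 ^ k := by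
  classical
  have hex : ∃ κ, 2 ^ k ≤ k * den a κ := by
    refine ⟨2 * k, ?_⟩
    have h1 := den_two_pow h 0 k
    rw [den_zero, mul_one, zero_add] at h1
    calc 2 ^ k ≤ den a (2 * k) := h1
      _ ≤ k * den a (2 * k) := Nat.le_mul_of_pos_left _ hk
  refine ⟨Nat.find hex, Nat.find_spec hex, ?_⟩
  obtain ⟨κ, hκ⟩ : ∃ κ, κ = Nat.find hex := ⟨_, rfl⟩
  rw [← hκ]
  rcases Nat.eq_zero_or_pos κ with h0 | h0
  · rw [h0, den_zero, mul_one]
    have := Nat.lt_two_pow_self (n := k)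
    have h1 : 1 * 2 ^ k ≤ (B + 1) * 2 ^ k := Nat.mul_le_mul_right _ (by omega)
    omega
  · have h1 : ¬ 2 ^ k ≤ k * den a (κ - 1) := Nat.find_min hex (by omega)
    have h2 := den_succ_le h (κ - 1)
    have e : κ - 1 + 1 = κ := by omega
    rw [e] at h2
    calc k * den a κ ≤ k * ((B + 1) * den a (κ - 1)) := Nat.mul_le_mul_left _ h2
      _ = (B + 1) * (k * den a (κ - 1)) := by ring
      _ ≤ (B + 1) * 2 ^ k := Nat.mul_le_mul_left _ (by omega)

/-- Linnik's theorem for denominators of convergents: even numbers -/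
theorem linnik_even (B : ℕ) (hB : 1 ≤ B) (ε : ℝ) (hε : 0 < ε) : ∃ t K N₀ : ℕ, ∀ N : ℕ, N₀ ≤ N → Even N → ∀ a : ℕ → ℕ, Bd B a →
    ∃ n : ℕ, ∃ j : Fin (2 * t) → ℕ, N = n + ∑ i, den a (j i) ∧ ((∑ i, den a (j i) : ℕ) : ℝ) * Real.log N ≤ K * N ∧ Even n ∧ Good ε n := by
  classical
  obtain ⟨A, hA, hfew⟩ := few_C B hB 4 (by norm_num)
  obtain ⟨t₀, k₀, h0⟩ := hfew ε (1 / 4) hε (by norm_num)
  obtain ⟨t, ht⟩ : ∃ t, t = 2 * (t₀ + 1) := ⟨_, rfl⟩
  obtain ⟨K, hK⟩ : ∃ K, K = 4 * t * (B + 1) := ⟨_, rfl⟩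
  obtain ⟨k3, h3⟩ := sizesC B A 1 hA
  refine ⟨t, K, 2 ^ (k₀ + k3 + 2 * K + B + 8), fun N hN hev a ha => ?_⟩
  have hN16 : 2 ^ 8 ≤ N := le_trans (Nat.pow_le_pow_right (by norm_num) (by omega)) hN
  obtain ⟨k, hk⟩ : ∃ k, k = Nat.log 2 N + 1 := ⟨_, rfl⟩
  have hkk : k₀ + k3 + 2 * K + B + 8 ≤ k := by
    have := Nat.le_log_of_pow_le (by norm_num) hN
    omega
  have hk1 : 2 ^ k ≤ 2 * N := by
    have := Nat.pow_log_le_self 2 (show N ≠ 0 by omega)
    rw [hk, pow_succ]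
    omega
  have hk2 : N < 2 ^ k := by
    have := Nat.lt_pow_succ_log_self (show 1 < 2 by norm_num) N
    rw [hk]
    exact this
  obtain ⟨κ, hκ1, hκ2⟩ := choose_kap ha k (by omega)
  obtain ⟨q, hq⟩ : ∃ q, q = den a κ := ⟨_, rfl⟩
  rw [← hq] at hκ1 hκ2
  -- the size of the sum
  have hs1 : k * (2 * t * q) ≤ K * N := by
    calc k * (2 * t * q) = 2 * t * (k * q) := by ring
      _ ≤ 2 * t * ((B + 1) * 2 ^ k) := Nat.mul_le_mul_left _ hκ2
      _ ≤ 2 * t * ((B + 1) * (2 * N)) := Nat.mul_le_mul_left _ (Nat.mul_le_mul_left _ hk1)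
      _ = K * N := by rw [hK]; ring
  have hs2 : 2 * (2 * t * q) ≤ N := by
    have e1 : (2 * K) * (2 * t * q) ≤ k * (2 * t * q) := Nat.mul_le_mul_right _ (by omega)
    have e2 : K * (2 * (2 * t * q)) ≤ K * N := by
      calc K * (2 * (2 * t * q)) = (2 * K) * (2 * t * q) := by ring
        _ ≤ _ := e1.trans hs1
    refine Nat.le_of_mul_le_mul_left e2 ?_
    rw [hK, ht]
    exact Nat.mul_pos (by omega) (by omega)
  have hq2 : q ≤ 2 ^ k := by
    have e1 : k * q ≤ k * 2 ^ k := hκ2.trans (Nat.mul_le_mul_right _ (by omega))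
    exact Nat.le_of_mul_le_mul_left e1 (by omega)
  obtain ⟨s1, s2, s3, s4, s5, s6, s7, s8, s9, s10⟩ := h3 k (by omega) a ha κ (by rw [← hq]; exact hq2) (by rw [← hq]; exact hκ1)
  obtain ⟨Ω, hΩ⟩ : ∃ Ω, Ω = OmC (JJ κ (hh 2 A k)) t := ⟨_, rfl⟩
  have hbound : ∀ ω ∈ Ω, ∑ c, den a (ω c) ≤ 2 * t * q := by
    intro ω hω
    rw [hΩ] at hω
    unfold OmC at hω
    rw [Fintype.mem_piFinset] at hω
    have h1 : ∀ c ∈ (univ : Finset (Fin 2 × Fin t)), den a (ω c) ≤ q := by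
      intro c _
      rw [hq]
      apply den_monotone ha
      have h2 := hω c
      unfold JJ at h2
      split_ifs at h2 with h5
      · rw [mem_Ico] at h2; omega
      · rw [mem_Ico] at h2; omega
    refine (sum_le_card_nsmul _ _ _ h1).trans ?_
    rw [smul_eq_mul, card_univ, Fintype.card_prod, Fintype.card_fin, Fintype.card_fin]
  have hnw : ∀ ω ∈ Ω, nwC (dlC a (-1)) N ω = ((N - ∑ c, den a (ω c) : ℕ) : ℤ) := by
    intro ω hω
    have h1 := hbound ω hω
    rw [Nat.cast_sub (by omega)]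
    unfold nwC dlC
    push_cast
    rw [sub_eq_add_neg, ← sum_neg_distrib]
    congr 1
    apply sum_congr rfl
    intro c _
    ring
  -- there is a good choice
  have hex : ∃ ω ∈ Ω, Even (∑ c, den a (ω c)) ∧ Good ε (N - ∑ c, den a (ω c)) := by
    by_contra hcon
    push Not at hcon
    have h1 := even_half a (JJ κ (hh 2 A k)) t (by rw [ht]; exact even_two_mul _)
    rw [← hΩ] at h1
    obtain ⟨S, hS⟩ : ∃ S, S = Ω.filter (fun ω => Even (∑ c, den a (ω c))) := ⟨_, rfl⟩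
    rw [← hS] at h1
    have h2 := h0 k (by omega) t (by omega) a ha (-1) (Or.inr rfl) κ (by rw [← hq]; exact hq2) (by rw [← hq]; exact hκ1) N S
      (by rw [hS, hΩ]; exact filter_subset _ _) (by
        intro ω hω
        rw [hS, mem_filter] at hω
        have h3 := hbound ω hω.1
        refine ⟨N - ∑ c, den a (ω c), (hnw ω hω.1).symm, ?_, by omega, by omega, hcon ω hω.1 hω.2⟩
        exact ((Nat.even_sub (by omega)).2 (iff_of_true hev hω.2)).two_dvd)
    rw [← hΩ] at h2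
    have h3 : (Ω.card : ℝ) ≤ 2 * S.card := by exact_mod_cast h1
    have h4 : 0 < (Ω.card : ℝ) := by
      rw [hΩ, card_OmC]
      apply prod_pos
      intro c _
      apply pow_pos
      have : 0 < (JJ κ (hh 2 A k) c).card := by
        unfold JJ
        split_ifs
        · rw [Nat.card_Ico]; omega
        · rw [Nat.card_Ico]; omega
      exact_mod_cast this
    linarith
  obtain ⟨ω, hω, hωe, hωg⟩ := hex
  have h1 := hbound ω hω
  obtain ⟨e, _⟩ : ∃ e : Fin (2 * t) ≃ Fin 2 × Fin t, e = (finProdFinEquiv).symm := ⟨_, rfl⟩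
  have hsum : ∑ i, den a (ω (e i)) = ∑ c, den a (ω c) := Equiv.sum_comp e (fun c => den a (ω c))
  refine ⟨N - ∑ c, den a (ω c), fun i => ω (e i), ?_, ?_, (Nat.even_sub (by omega)).2 (iff_of_true hev hωe), hωg⟩
  · simp only
    rw [hsum]
    omega
  · simp only
    rw [hsum]
    have h2 : Real.log N ≤ k := by
      have h3 : (N : ℝ) ≤ 2 ^ k := by exact_mod_cast hk2.le
      have h4 := Real.log_le_log (by exact_mod_cast (by omega : 0 < N)) h3
      rw [Real.log_pow] at h4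
      have h5 := Real.log_two_lt_d9
      have h6 : (0 : ℝ) ≤ k := Nat.cast_nonneg k
      nlinarith
    have h3 : ((∑ c, den a (ω c) : ℕ) : ℝ) * k ≤ K * N := by
      have h4 : (∑ c, den a (ω c)) * k ≤ K * N := by
        calc (∑ c, den a (ω c)) * k ≤ (2 * t * q) * k := Nat.mul_le_mul_right _ h1
          _ = k * (2 * t * q) := by ring
          _ ≤ K * N := hs1
      exact_mod_cast h4
    exact (mul_le_mul_of_nonneg_left h2 (Nat.cast_nonneg _)).trans h3

end Pool.Agent.R461.CF
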