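import Pool.Agent.R461.CF.E1

set_option autoImplicit false

/-! The second moment over sums of few denominators with a multiplier. -/

namespace Pool.Agent.R461.CF

open Finset
open Pool.Agent.H807R2.Dav
open Pool.Agent.H373R2.T7
open Pool.Agent.H560R3.GB
open Pool.Agent.W93.HD
open Pool.Agent.W93.DG (hh FF FF_sub FF_pars sum_vM_sq logX)
open Pool.Agent.W93.RD (EE EE_conv)
open Pool.Agent.W93.TD (G_sq)
open Pool.Agent.TH894.SM (Good good_of2 Ph Ph_le VV VV_nonneg yq fourth cor cor_FF cor_neg cor_nonneg cor_bound)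

lemma gg_mul_le (m n : ℕ) (hm : m ≠ 0) (hn : n ≠ 0) : gg (m * n) ≤ gg m * gg n := by
  classical
  unfold gg
  rw [Nat.primeFactors_mul hm hn]
  have h1 : m.primeFactors ∪ n.primeFactors = m.primeFactors ∪ (n.primeFactors \ m.primeFactors) := by
    ext p
    simp only [mem_union, mem_sdiff]
    tauto
  rw [h1, prod_union disjoint_sdiff]
  apply mul_le_mul_of_nonneg_left
  · apply prod_mono_one_add
    exact sdiff_subset
  · exact prod_nonneg fun _ _ => by positivity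

lemma yq_mul (a : ℕ → ℕ) (σ : ℤ) (m : ℕ) (q : (ℕ × ℕ) × (ℕ × ℕ)) : yq (dlC a (σ * m)) q = m * yq (dlC a σ) q := by
  unfold yq dlC
  ring

lemma Ph_mul (a : ℕ → ℕ) (σ : ℤ) (m : ℕ) (J : Finset ℕ) (θ : ℝ) : Ph (dlC a (σ * m)) J θ = Ph (dlC a σ) J (m * θ) := by
  unfold Ph dlC
  apply sum_congr rfl
  intro j _
  congr 1
  push_cast
  ring

/-- the fourth moment -/
theorem VV_fourM (B m : ℕ) (hB : 1 ≤ B) (hm : 1 ≤ m) : ∃ C : ℝ, 0 ≤ C ∧ ∀ Ez : ℕ, ∃ k₀ : ℕ, ∀ k : ℕ, k₀ ≤ k → ∀ z : ℕ,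
    Real.log ((2 ^ k : ℕ) : ℝ) ≤ z → (z : ℝ) ≤ Real.log ((2 ^ k : ℕ) : ℝ) ^ Ez → ∀ a : ℕ → ℕ, Bd B a → ∀ σ : ℤ, (σ = 1 ∨ σ = -1) →
    ∀ g : ℕ, k ≤ 8 * B * g → 4 * m * den a g ≤ 2 ^ k →
    ∑ r ∈ range (2 ^ (k + 1)), ∑ r' ∈ range (2 ^ (k + 1)), VV z (2 ^ k) (2 ^ (k + 1)) r * VV z (2 ^ k) (2 ^ (k + 1)) r' *
        ‖Ph (dlC a (σ * m)) (Ico 0 g) (((r' : ℝ) - r) / ((2 ^ (k + 1) : ℕ) : ℝ))‖ ^ 4 ≤
      C * (((2 ^ (k + 1) : ℕ) : ℝ) * ((2 ^ k : ℕ) : ℝ)) ^ 2 * (g : ℝ) ^ 4 := by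
  classical
  obtain ⟨C₁, hC₁, hcor⟩ := cor_bound 2 le_rfl
  obtain ⟨C₂, hC₂, hrom⟩ := rom_fourC B hB
  have hm0 : (m : ℤ) ≠ 0 := by exact_mod_cast (by omega : m ≠ 0)
  refine ⟨C₁ ^ 2 * (768 * B ^ 2 + gg m ^ 2 * C₂), by positivity, fun Ez => ?_⟩
  obtain ⟨k₀, h0⟩ := hcor Ez
  refine ⟨k₀ + 3, fun k hk z hz1 hz2 a ha σ hσ g hkg hg4 => ?_⟩
  obtain ⟨hc0, hc1⟩ := h0 k (by omega) z hz1 hz2
  obtain ⟨X, hX⟩ : ∃ X, X = 2 ^ k := ⟨_, rfl⟩
  obtain ⟨M, hM⟩ : ∃ M, M = 2 ^ (k + 1) := ⟨_, rfl⟩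
  rw [← hX] at hc0 hc1 hg4 ⊢
  rw [← hM]
  have hX0 : 0 < X := by rw [hX]; positivity
  have hMX : M = 2 * X := by rw [hM, hX, pow_succ']
  have hXM : 2 * X ≤ M := hMX.ge
  have hXr : (0 : ℝ) < X := by exact_mod_cast hX0
  have hMr : (0 : ℝ) < M := by exact_mod_cast (by omega : 0 < M)
  have hg1 : 1 ≤ g := by
    rcases Nat.eq_zero_or_pos g with h | h
    · rw [h, mul_zero] at hkg
      omega
    · exact h
  obtain ⟨J, hJ⟩ : ∃ J, J = Ico 0 g := ⟨_, rfl⟩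
  have hJc : J.card = g := by rw [hJ, Nat.card_Ico, Nat.sub_zero]
  have hJr : J ⊆ range g := by
    intro j hj
    rw [hJ, mem_Ico] at hj
    exact mem_range.2 hj.2
  rw [← hJ]
  obtain ⟨c, hc⟩ : ∃ c : ℤ → ℝ, c = fun y => cor (fun n => ArithmeticFunction.vonMangoldt n) X y + cor (lamz z) X y := ⟨_, rfl⟩
  have hyq : ∀ q ∈ (J ×ˢ J) ×ˢ (J ×ˢ J), |yq (dlC a (σ * m)) q| ≤ (X : ℤ) := by
    intro q hq
    rw [mem_product, mem_product, mem_product] at hq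
    have hb : ∀ j ∈ J, (0 : ℤ) ≤ m * den a j ∧ 4 * (m * (den a j : ℤ)) ≤ X := by
      intro j hj
      have h1 := den_monotone ha (mem_range.1 (hJr hj)).le
      refine ⟨by positivity, ?_⟩
      have : 4 * (m * den a j) ≤ X := by
        calc 4 * (m * den a j) = 4 * m * den a j := by ring
          _ ≤ 4 * m * den a g := Nat.mul_le_mul_left _ h1
          _ ≤ X := hg4
      exact_mod_cast this
    have a0 := hb _ hq.1.1
    have a1 := hb _ hq.1.2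
    have a2 := hb _ hq.2.1
    have a3 := hb _ hq.2.2
    rw [yq_mul, yq_dlC]
    have : |(m : ℤ) * (σ * ((den a q.1.1 : ℤ) + (den a q.1.2 - den a q.2.1 - den a q.2.2)))| =
        |m * (den a q.1.1 : ℤ) + (m * den a q.1.2 - m * den a q.2.1 - m * den a q.2.2)| := by
      rcases hσ with rfl | rfl
      · congr 1
        ring
      · rw [← abs_neg]
        congr 1
        ring
    rw [this, abs_le]
    constructor <;> linarith
  have hV : ∀ y : ℤ, |y| ≤ (X : ℤ) → ∑ r ∈ range M, ((VV z X M r : ℝ) : ℂ) * ee (-((y : ℝ) * ((r : ℝ) / (M : ℝ)))) = ((M * c y : ℝ) : ℂ) := by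
    intro y hy
    have hyM : |y| + X ≤ M := by
      have : (2 * X : ℤ) ≤ M := by exact_mod_cast hXM
      linarith
    have a1 := cor_FF (fun n => ArithmeticFunction.vonMangoldt n) X M (by omega) y hyM
    have a2 := cor_FF (lamz z) X M (by omega) y hyM
    rw [hc]
    simp only
    rw [mul_add, Complex.ofReal_add, ← a1, ← a2, ← sum_add_distrib]
    apply sum_congr rfl
    intro r _
    unfold VV
    push_cast
    ring
  rw [fourth (dlC a (σ * m)) J M (VV z X M) c X hyq hV]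
  have hcn : ∀ y, c (-y) = c y := by
    intro y
    rw [hc]
    simp only
    rw [cor_neg, cor_neg]
  have hcp : ∀ y, 0 ≤ c y := by
    intro y
    rw [hc]
    exact add_nonneg (cor_nonneg _ (fun a => ArithmeticFunction.vonMangoldt_nonneg) X y) (cor_nonneg _ (lamz_nonneg z) X y)
  have hgg : 0 ≤ gg m := by have := one_le_gg m; linarith
  have hterm : ∀ q ∈ (J ×ˢ J) ×ˢ (J ×ˢ J), c (yq (dlC a (σ * m)) q) * c (-yq (dlC a (σ * m)) q) ≤
      (C₁ * X) ^ 2 * ((k : ℝ) ^ 2 * (if yq (dlC a σ) q = 0 then (1 : ℝ) else 0) + gg m ^ 2 * (if yq (dlC a σ) q = 0 then 0 else gg (yq (dlC a σ) q).natAbs ^ 2)) := by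
    intro q hq
    have hy := hyq q hq
    rw [hcn, ← sq, yq_mul]
    rw [yq_mul] at hy
    by_cases h : yq (dlC a σ) q = 0
    · rw [if_pos h, if_pos h, h, mul_zero, mul_zero, mul_one, add_zero, ← mul_pow]
      apply pow_le_pow_left₀ (hcp _)
      rw [hc]
      exact hc0
    · rw [if_neg h, if_neg h, mul_zero, zero_add]
      have h1 := hc1 _ (mul_ne_zero hm0 h) hy
      have h2 : gg ((m : ℤ) * yq (dlC a σ) q).natAbs ≤ gg m * gg (yq (dlC a σ) q).natAbs := by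
        rw [Int.natAbs_mul, Int.natAbs_natCast]
        exact gg_mul_le m _ (by omega) (Int.natAbs_ne_zero.2 h)
      have h3 : c ((m : ℤ) * yq (dlC a σ) q) ≤ C₁ * X * (gg m * gg (yq (dlC a σ) q).natAbs) := by
        rw [hc]
        exact h1.trans (mul_le_mul_of_nonneg_left h2 (by positivity))
      calc c ((m : ℤ) * yq (dlC a σ) q) ^ 2 ≤ (C₁ * X * (gg m * gg (yq (dlC a σ) q).natAbs)) ^ 2 := pow_le_pow_left₀ (hcp _) h3 2
        _ = _ := by ring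
  have hsum := sum_le_sum hterm
  rw [← mul_sum, sum_add_distrib, ← mul_sum, ← mul_sum] at hsum
  have hz := zero_cntC ha σ hσ J
  have hr := hrom g hg1 a ha σ hσ J hJr
  rw [hJc] at hz hr
  have hkgr : (k : ℝ) ≤ 8 * B * g := by exact_mod_cast hkg
  have hk0 : (0 : ℝ) ≤ k := Nat.cast_nonneg k
  have hg0 : (0 : ℝ) ≤ g := Nat.cast_nonneg _
  have hB0 : (0 : ℝ) ≤ B := Nat.cast_nonneg _
  have hfin : (k : ℝ) ^ 2 * ∑ q ∈ (J ×ˢ J) ×ˢ (J ×ˢ J), (if yq (dlC a σ) q = 0 then (1 : ℝ) else 0) +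
      gg m ^ 2 * ∑ q ∈ (J ×ˢ J) ×ˢ (J ×ˢ J), (if yq (dlC a σ) q = 0 then 0 else gg (yq (dlC a σ) q).natAbs ^ 2) ≤
      (768 * B ^ 2 + gg m ^ 2 * C₂) * (g : ℝ) ^ 4 := by
    have a1 : (k : ℝ) ^ 2 * ∑ q ∈ (J ×ˢ J) ×ˢ (J ×ˢ J), (if yq (dlC a σ) q = 0 then (1 : ℝ) else 0) ≤ (8 * (B : ℝ) * g) ^ 2 * (12 * (g : ℝ) ^ 2) := by
      apply mul_le_mul (pow_le_pow_left₀ hk0 hkgr 2) hz _ (by positivity)
      exact sum_nonneg fun _ _ => by split_ifs <;> norm_num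
    have a2 := mul_le_mul_of_nonneg_left hr (show (0 : ℝ) ≤ gg m ^ 2 by positivity)
    calc _ ≤ (8 * (B : ℝ) * g) ^ 2 * (12 * (g : ℝ) ^ 2) + gg m ^ 2 * (C₂ * g * (g : ℝ) ^ 3) := add_le_add a1 a2
      _ = _ := by ring
  calc (M : ℝ) ^ 2 * ∑ q ∈ (J ×ˢ J) ×ˢ (J ×ˢ J), c (yq (dlC a (σ * m)) q) * c (-yq (dlC a (σ * m)) q) ≤
      (M : ℝ) ^ 2 * ((C₁ * X) ^ 2 * ((768 * B ^ 2 + gg m ^ 2 * C₂) * (g : ℝ) ^ 4)) := by
        apply mul_le_mul_of_nonneg_left _ (by positivity)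
        exact hsum.trans (mul_le_mul_of_nonneg_left hfin (by positivity))
    _ = _ := by ring

/-- the second moment is bounded by the contribution of the nearly extremal frequencies and a fourth moment -/
theorem coreM (B R m : ℕ) (hR : 1 ≤ R) (ε : ℝ) (hε0 : 0 < ε) (hε1 : ε ≤ 1) : ∃ η : ℝ, 0 < η ∧ η < 1 ∧ ∀ a : ℕ → ℕ, Bd B a →
    ∀ σ : ℤ, (σ = 1 ∨ σ = -1) → ∀ M κ h : ℕ, 1 ≤ M → 1 ≤ h → 4 * h + 7 ≤ κ → ∀ (N : ℤ) (t : ℕ), 4 ≤ t → ∀ (V : ℕ → ℂ) (E₀ : ℝ),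
    (∀ r < M, ∀ S : Finset ℕ, (∀ r' ∈ S, r' < M ∧
        BadC a ε R κ h (((B.factorial * m * r' + B.factorial * m * (M - r) : ℕ) : ℝ) / (M : ℝ))) → ∑ r' ∈ S, ‖V r'‖ ≤ E₀) →
    ∑ ω ∈ OmC (JJ κ h) t, ‖EE V M (nwC (dlC a (σ * m)) N ω)‖ ^ 2 ≤
      (E₀ * ∑ r ∈ range M, ‖V r‖ + (1 - η) ^ (t - 4) / ((JJ κ h 0).card : ℝ) ^ 4 *
        ∑ r ∈ range M, ∑ r' ∈ range M,
          ‖V r‖ * ‖V r'‖ * ‖Ph (dlC a (σ * m)) (JJ κ h 0) (((r' : ℝ) - r) / (M : ℝ))‖ ^ 4) * (OmC (JJ κ h) t).card := by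
  classical
  obtain ⟨η, hη0, hη1, hwin⟩ := Ph_winC B R hR ε hε0 hε1
  refine ⟨η, hη0, hη1, fun a ha σ hσ M κ h hM hh1 hκ N t ht V E₀ hbad => ?_⟩
  refine (EE_secondC M (dlC a (σ * m)) N (JJ κ h) t _).trans ?_
  have hM0 : (0 : ℝ) < M := by exact_mod_cast hM
  obtain ⟨g, hg⟩ : ∃ g, g = κ - (4 * h + 2) := ⟨_, rfl⟩
  have hJ0 : JJ κ h 0 = Ico 0 g := by unfold JJ; rw [if_pos rfl, hg]
  have hJ1 : JJ κ h 1 = Ico g κ := by unfold JJ; rw [if_neg (by decide), hg]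
  have hJ0c : ((JJ κ h 0).card : ℝ) = g := by rw [hJ0, Nat.card_Ico, Nat.sub_zero]
  have hJ1c : ((JJ κ h 1).card : ℝ) = ((4 * h + 2 : ℕ) : ℝ) := by rw [hJ1, Nat.card_Ico]; congr 1; omega
  obtain ⟨α, hα⟩ : ∃ α : ℕ → ℕ → ℝ, α = fun r r' => ((B.factorial * m * r' + B.factorial * m * (M - r) : ℕ) : ℝ) / (M : ℝ) := ⟨_, rfl⟩
  obtain ⟨P, hP⟩ : ∃ P : Fin 2 → ℕ → ℕ → ℝ, P = fun (q : Fin 2) (r r' : ℕ) => ‖Ph (dlC a (σ * m)) (JJ κ h q) (((r' : ℝ) - (r : ℝ)) / (M : ℝ))‖ := ⟨_, rfl⟩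
  obtain ⟨T, hT⟩ : ∃ T : Fin 2 → ℝ, T = fun q => ((JJ κ h q).card : ℝ) := ⟨_, rfl⟩
  have hP0 : ∀ q r r', 0 ≤ P q r r' := fun q r r' => by rw [hP]; exact norm_nonneg _
  have hPT : ∀ q r r', P q r r' ≤ T q := fun q r r' => by rw [hP, hT]; exact Ph_le _ _ _
  have hT0 : ∀ q, 0 ≤ T q := fun q => by rw [hT]; exact Nat.cast_nonneg _
  have hOm : ((OmC (JJ κ h) t).card : ℝ) = ∏ q, T q ^ t := by rw [card_OmC, hT]
  have hTall : 0 ≤ ∏ q, T q ^ t := prod_nonneg fun q _ => pow_nonneg (hT0 q) t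
  have hT00 : 0 < T 0 := by rw [hT]; simp only; rw [hJ0c]; exact_mod_cast (by omega : 0 < g)
  have hT0' : T 0 = ((JJ κ h 0).card : ℝ) := by rw [hT]
  rw [hOm, ← hT0']
  have hshift : ∀ r < M, ∀ r' x w : ℕ, farc a ε x w (B.factorial * (m * (((r' : ℝ) - (r : ℝ)) / (M : ℝ)))) = farc a ε x w (α r r') := by
    intro r hr r' x w
    rw [← farc_sub_int a ε x w (α r r') ((B.factorial * m : ℕ) : ℤ)]
    congr 1
    rw [hα]
    simp only
    push_cast [Nat.cast_sub hr.le]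
    field_simp
    ring
  -- the frequencies which are not nearly extremal
  have hgood : ∀ r < M, ∀ r', ¬ BadC a ε R κ h (α r r') →
      ∏ q, P q r r' ^ t ≤ (1 - η) ^ (t - 4) * (P 0 r r' ^ 4 / T 0 ^ 4) * ∏ q, T q ^ t := by
    intro r hr r' hnb
    have hex : ∃ q₀ : Fin 2, P q₀ r r' ≤ (1 - η) * T q₀ := by
      unfold BadC at hnb
      rw [← hg] at hnb
      by_cases c1 : farc a ε 0 g (α r r') * R ≤ κ
      · have c2 : ¬ farc a ε g (4 * h + 2) (α r r') * R ≤ 2 * (4 * h + 2) := fun c2 => hnb ⟨c1, c2⟩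
        refine ⟨1, ?_⟩
        have e0 := hwin a ha σ hσ g (4 * h + 2) (m * (((r' : ℝ) - (r : ℝ)) / (M : ℝ))) (by omega) (by
          rw [hshift r hr r', mul_comm R]
          omega)
        rw [← Ph_mul] at e0
        rw [hP, hT]
        simp only
        rw [hJ1c, hJ1]
        have e1 : g + (4 * h + 2) = κ := by omega
        rw [e1] at e0
        exact e0
      · refine ⟨0, ?_⟩
        have e0 := hwin a ha σ hσ 0 g (m * (((r' : ℝ) - (r : ℝ)) / (M : ℝ))) (by omega) (by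
          rw [hshift r hr r', mul_comm R]
          omega)
        rw [← Ph_mul] at e0
        rw [hP, hT]
        simp only
        rw [hJ0c, hJ0]
        rw [zero_add] at e0
        exact e0
    obtain ⟨q₀, hq₀⟩ := hex
    exact two_win (fun q => P q r r') T η t ht hη0.le hη1.le (fun q => hP0 q r r') (fun q => hPT q r r') hT00 q₀ hq₀
  have hη' : 0 ≤ 1 - η := by linarith
  -- the rows
  have hrow : ∀ r ∈ range M, ∑ r' ∈ range M, ‖V r‖ * ‖V r'‖ * ∏ q, P q r r' ^ t ≤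
      ‖V r‖ * (E₀ * ∏ q, T q ^ t) +
      (((1 - η) ^ (t - 4) / T 0 ^ 4) * ∏ q, T q ^ t) * ∑ r' ∈ range M, ‖V r‖ * ‖V r'‖ * P 0 r r' ^ 4 := by
    intro r hr
    rw [mem_range] at hr
    rw [← sum_filter_add_sum_filter_not (range M) (fun r' => BadC a ε R κ h (α r r'))]
    apply add_le_add
    · have e1 := hbad r hr ((range M).filter (fun r' => BadC a ε R κ h (α r r'))) (by
          intro r' hr'
          rw [mem_filter, mem_range, hα] at hr'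
          exact hr')
      have e2 : ∑ r' ∈ (range M).filter (fun r' => BadC a ε R κ h (α r r')), ‖V r‖ * ‖V r'‖ * ∏ q, P q r r' ^ t ≤
          ∑ r' ∈ (range M).filter (fun r' => BadC a ε R κ h (α r r')), ‖V r‖ * (‖V r'‖ * ∏ q, T q ^ t) := by
        apply sum_le_sum
        intro r' _
        rw [mul_assoc]
        apply mul_le_mul_of_nonneg_left _ (norm_nonneg _)
        apply mul_le_mul_of_nonneg_left _ (norm_nonneg _)
        exact prod_le_prod (fun q _ => pow_nonneg (hP0 q r r') t) fun q _ => pow_le_pow_left₀ (hP0 q r r') (hPT q r r') t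
      refine e2.trans ?_
      rw [← mul_sum, ← sum_mul]
      apply mul_le_mul_of_nonneg_left _ (norm_nonneg _)
      exact mul_le_mul_of_nonneg_right e1 hTall
    · have e1 : ∀ r' ∈ (range M).filter (fun r' => ¬ BadC a ε R κ h (α r r')),
          ‖V r‖ * ‖V r'‖ * ∏ q, P q r r' ^ t ≤
          (((1 - η) ^ (t - 4) / T 0 ^ 4) * ∏ q, T q ^ t) * (‖V r‖ * ‖V r'‖ * P 0 r r' ^ 4) := by
        intro r' hr'
        rw [mem_filter] at hr'
        have e2 := hgood r hr r' hr'.2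
        calc ‖V r‖ * ‖V r'‖ * ∏ q, P q r r' ^ t ≤ (‖V r‖ * ‖V r'‖) * ((1 - η) ^ (t - 4) * (P 0 r r' ^ 4 / T 0 ^ 4) * ∏ q, T q ^ t) :=
              mul_le_mul_of_nonneg_left e2 (by positivity)
          _ = _ := by ring
      refine (sum_le_sum e1).trans ?_
      rw [← mul_sum]
      apply mul_le_mul_of_nonneg_left _ (by positivity)
      apply sum_le_sum_of_subset_of_nonneg (filter_subset _ _)
      intro r' _ _
      have := hP0 0 r r'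
      positivity
  have hsum := sum_le_sum hrow
  rw [sum_add_distrib, ← sum_mul, ← mul_sum] at hsum
  have hgoal : ∑ r ∈ range M, ∑ r' ∈ range M, ‖V r‖ * ‖V r'‖ * ∏ q, ‖Ph (dlC a (σ * m)) (JJ κ h q) (((r' : ℝ) - r) / (M : ℝ))‖ ^ t =
      ∑ r ∈ range M, ∑ r' ∈ range M, ‖V r‖ * ‖V r'‖ * ∏ q, P q r r' ^ t := by rw [hP]
  rw [hgoal]
  refine hsum.trans (le_of_eq ?_)
  have hgoal2 : ∑ r ∈ range M, ∑ r' ∈ range M, ‖V r‖ * ‖V r'‖ * ‖Ph (dlC a (σ * m)) (JJ κ h 0) (((r' : ℝ) - r) / (M : ℝ))‖ ^ 4 =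
      ∑ r ∈ range M, ∑ r' ∈ range M, ‖V r‖ * ‖V r'‖ * P 0 r r' ^ 4 := by rw [hP]
  rw [hgoal2]
  ring

end Pool.Agent.R461.CF
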