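import Pool.Agent.R461.CF.F1
import Pool.Agent.R461.CF.E2

set_option autoImplicit false

/-! The second moment over sums of few denominators, with an exponential saving. -/

namespace Pool.Agent.R461.CF

open Finset
open Pool.Agent.H807R2.Dav
open Pool.Agent.H373R2.T7
open Pool.Agent.H560R3.GB
open Pool.Agent.W93.HD
open Pool.Agent.W93.DG (hh FF FF_sub FF_pars sum_vM_sq logX)
open Pool.Agent.W93.RD (EE EE_conv)
open Pool.Agent.W93.TD (G_sq)
open Pool.Agent.TH894.SM (Good good_of2 Ph Ph_le VV VV_nonneg)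

/-- the positions below `g` and the positions from `g` to `κ - 1` -/
def JG (g κ : ℕ) (q : Fin 2) : Finset ℕ := if q = 0 then Ico 0 g else Ico g κ

/-- the second moment is bounded by the contribution of the nearly extremal frequencies and a fourth moment -/
theorem coreG (B R m D : ℕ) (hR : 1 ≤ R) (hD : 1 ≤ D) (ε : ℝ) (hε0 : 0 < ε) (hε1 : ε ≤ 1) : ∃ η : ℝ, 0 < η ∧ η < 1 ∧ ∀ a : ℕ → ℕ, Bd B a →
    ∀ σ : ℤ, (σ = 1 ∨ σ = -1) → ∀ M κ h g : ℕ, 1 ≤ M → 1 ≤ h → 4 * h + 7 ≤ κ → g ≤ κ → 4 * h + 2 ≤ κ - g → κ - g ≤ D * (4 * h + 2) →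
    2 * R * (κ - g) ≤ κ → 10 ≤ g → ∀ (N : ℤ) (t : ℕ), 4 ≤ t → ∀ (V : ℕ → ℂ) (E₀ : ℝ),
    (∀ r < M, ∀ S : Finset ℕ, (∀ r' ∈ S, r' < M ∧
        BadC a ε R κ h (((B.factorial * m * r' + B.factorial * m * (M - r) : ℕ) : ℝ) / (M : ℝ))) → ∑ r' ∈ S, ‖V r'‖ ≤ E₀) →
    ∑ ω ∈ OmC (JG g κ) t, ‖EE V M (nwC (dlC a (σ * m)) N ω)‖ ^ 2 ≤
      (E₀ * ∑ r ∈ range M, ‖V r‖ + (1 - η) ^ (t - 4) / ((JG g κ 0).card : ℝ) ^ 4 *
        ∑ r ∈ range M, ∑ r' ∈ range M,
          ‖V r‖ * ‖V r'‖ * ‖Ph (dlC a (σ * m)) (JG g κ 0) (((r' : ℝ) - r) / (M : ℝ))‖ ^ 4) * (OmC (JG g κ) t).card := by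
  classical
  obtain ⟨η, hη0, hη1, hwin⟩ := Ph_winC B (2 * D * R) (Nat.mul_pos (by omega) hR) ε hε0 hε1
  refine ⟨η, hη0, hη1, fun a ha σ hσ M κ h g hM hh1 hκ hgκ hw1 hw2 hw3 hg10 N t ht V E₀ hbad => ?_⟩
  refine (EE_secondC M (dlC a (σ * m)) N (JG g κ) t _).trans ?_
  have hM0 : (0 : ℝ) < M := by exact_mod_cast hM
  have hJ0 : JG g κ 0 = Ico 0 g := by unfold JG; rw [if_pos rfl]
  have hJ1 : JG g κ 1 = Ico g κ := by unfold JG; rw [if_neg (by decide)]
  have hJ0c : ((JG g κ 0).card : ℝ) = g := by rw [hJ0, Nat.card_Ico, Nat.sub_zero]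
  have hJ1c : ((JG g κ 1).card : ℝ) = ((κ - g : ℕ) : ℝ) := by rw [hJ1, Nat.card_Ico]
  obtain ⟨α, hα⟩ : ∃ α : ℕ → ℕ → ℝ, α = fun r r' => ((B.factorial * m * r' + B.factorial * m * (M - r) : ℕ) : ℝ) / (M : ℝ) := ⟨_, rfl⟩
  obtain ⟨P, hP⟩ : ∃ P : Fin 2 → ℕ → ℕ → ℝ, P = fun (q : Fin 2) (r r' : ℕ) => ‖Ph (dlC a (σ * m)) (JG g κ q) (((r' : ℝ) - (r : ℝ)) / (M : ℝ))‖ := ⟨_, rfl⟩
  obtain ⟨T, hT⟩ : ∃ T : Fin 2 → ℝ, T = fun q => ((JG g κ q).card : ℝ) := ⟨_, rfl⟩
  have hP0 : ∀ q r r', 0 ≤ P q r r' := fun q r r' => by rw [hP]; exact norm_nonneg _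
  have hPT : ∀ q r r', P q r r' ≤ T q := fun q r r' => by rw [hP, hT]; exact Ph_le _ _ _
  have hT0 : ∀ q, 0 ≤ T q := fun q => by rw [hT]; exact Nat.cast_nonneg _
  have hOm : ((OmC (JG g κ) t).card : ℝ) = ∏ q, T q ^ t := by rw [card_OmC, hT]
  have hTall : 0 ≤ ∏ q, T q ^ t := prod_nonneg fun q _ => pow_nonneg (hT0 q) t
  have hT00 : 0 < T 0 := by rw [hT]; simp only; rw [hJ0c]; exact_mod_cast (by omega : 0 < g)
  have hT0' : T 0 = ((JG g κ 0).card : ℝ) := by rw [hT]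
  rw [hOm, ← hT0']
  have hshift : ∀ r < M, ∀ r' x w : ℕ, farc a ε x w (B.factorial * (m * (((r' : ℝ) - (r : ℝ)) / (M : ℝ)))) = farc a ε x w (α r r') := by
    intro r hr r' x w
    rw [← farc_sub_int a ε x w (α r r') ((B.factorial * m : ℕ) : ℤ)]
    congr 1
    rw [hα]
    simp only
    push_cast [Nat.cast_sub hr.le]
    field_simp
    ring
  -- the frequencies which are not nearly extremal
  have hgood : ∀ r < M, ∀ r', ¬ BadC a ε R κ h (α r r') →
      ∏ q, P q r r' ^ t ≤ (1 - η) ^ (t - 4) * (P 0 r r' ^ 4 / T 0 ^ 4) * ∏ q, T q ^ t := by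
    intro r hr r' hnb
    have hex : ∃ q₀ : Fin 2, P q₀ r r' ≤ (1 - η) * T q₀ := by
      unfold BadC at hnb
      obtain ⟨w, hw⟩ : ∃ w, w = 4 * h + 2 := ⟨_, rfl⟩
      rw [← hw] at hnb hw1 hw2
      -- the residuals in the windows
      have a1 : farc a ε g (κ - g) (α r r') = farc a ε g (κ - w - g) (α r r') + farc a ε (κ - w) w (α r r') := by
        have := farc_add a ε g (κ - w - g) w (α r r')
        rw [show g + (κ - w - g) = κ - w by omega, show κ - w - g + w = κ - g by omega] at this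
        exact this
      have a2 : farc a ε 0 (κ - w) (α r r') = farc a ε 0 g (α r r') + farc a ε g (κ - w - g) (α r r') := by
        have := farc_add a ε 0 g (κ - w - g) (α r r')
        rw [zero_add, show g + (κ - w - g) = κ - w by omega] at this
        exact this
      have a3 : farc a ε g (κ - w - g) (α r r') ≤ κ - g := by
        unfold farc
        refine (card_filter_le _ _).trans ?_
        rw [Nat.card_Ico]
        omega
      by_cases c1 : farc a ε 0 (κ - w) (α r r') * R ≤ κ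
      · have c2 : ¬ farc a ε (κ - w) w (α r r') * R ≤ 2 * w := fun c2 => hnb ⟨c1, c2⟩
        refine ⟨1, ?_⟩
        have e0 := hwin a ha σ hσ g (κ - g) (m * (((r' : ℝ) - (r : ℝ)) / (M : ℝ))) (by omega) (by
          rw [hshift r hr r']
          have d1 : farc a ε (κ - w) w (α r r') * R ≤ farc a ε g (κ - g) (α r r') * R := Nat.mul_le_mul_right _ (by omega)
          have d2 : D * w ≤ D * (farc a ε g (κ - g) (α r r') * R) := Nat.mul_le_mul_left _ (by omega)
          calc κ - g ≤ D * w := hw2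
            _ ≤ D * (farc a ε g (κ - g) (α r r') * R) := d2
            _ ≤ 2 * (D * (farc a ε g (κ - g) (α r r') * R)) := by omega
            _ = 2 * D * R * farc a ε g (κ - g) (α r r') := by ring)
        rw [← Ph_mul] at e0
        rw [hP, hT]
        simp only
        rw [hJ1c, hJ1]
        have e1 : g + (κ - g) = κ := by omega
        rw [e1] at e0
        exact e0
      · refine ⟨0, ?_⟩
        have e0 := hwin a ha σ hσ 0 g (m * (((r' : ℝ) - (r : ℝ)) / (M : ℝ))) (by omega) (by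
          rw [hshift r hr r']
          have d1 : κ < (farc a ε 0 g (α r r') + (κ - g)) * R := by
            refine lt_of_lt_of_le (not_le.1 c1) (Nat.mul_le_mul_right _ (by omega))
          have d2 : 2 * ((κ - g) * R) ≤ κ := by
            calc 2 * ((κ - g) * R) = 2 * R * (κ - g) := by ring
              _ ≤ κ := hw3
          rw [add_mul] at d1
          have d3 : κ ≤ 2 * (farc a ε 0 g (α r r') * R) := by omega
          have d4 : 1 * (2 * (farc a ε 0 g (α r r') * R)) ≤ D * (2 * (farc a ε 0 g (α r r') * R)) := Nat.mul_le_mul_right _ hD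
          calc g ≤ κ := hgκ
            _ ≤ 1 * (2 * (farc a ε 0 g (α r r') * R)) := by omega
            _ ≤ D * (2 * (farc a ε 0 g (α r r') * R)) := d4
            _ = 2 * D * R * farc a ε 0 g (α r r') := by ring)
        rw [← Ph_mul] at e0
        rw [hP, hT]
        simp only
        rw [hJ0c, hJ0]
        rw [zero_add] at e0
        exact e0
    obtain ⟨q₀, hq₀⟩ := hex
    exact two_win (fun q => P q r r') T η t ht hη0.le hη1.le (fun q => hP0 q r r') (fun q => hPT q r r') hT00 q₀ hq₀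
  have hη' : 0 ≤ 1 - η := by linarith
  -- the rows
  have hrow : ∀ r ∈ range M, ∑ r' ∈ range M, ‖V r‖ * ‖V r'‖ * ∏ q, P q r r' ^ t ≤
      ‖V r‖ * (E₀ * ∏ q, T q ^ t) +
      (((1 - η) ^ (t - 4) / T 0 ^ 4) * ∏ q, T q ^ t) * ∑ r' ∈ range M, ‖V r‖ * ‖V r'‖ * P 0 r r' ^ 4 := by
    intro r hr
    rw [mem_range] at hr
    rw [← sum_filter_add_sum_filter_not (range M) (fun r' => BadC a ε R κ h (α r r'))]
    apply add_le_add
    · have e1 := hbad r hr ((range M).filter (fun r' => BadC a ε R κ h (α r r'))) (by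
          intro r' hr'
          rw [mem_filter, mem_range, hα] at hr'
          exact hr')
      have e2 : ∑ r' ∈ (range M).filter (fun r' => BadC a ε R κ h (α r r')), ‖V r‖ * ‖V r'‖ * ∏ q, P q r r' ^ t ≤
          ∑ r' ∈ (range M).filter (fun r' => BadC a ε R κ h (α r r')), ‖V r‖ * (‖V r'‖ * ∏ q, T q ^ t) := by
        apply sum_le_sum
        intro r' _
        rw [mul_assoc]
        apply mul_le_mul_of_nonneg_left _ (norm_nonneg _)
        apply mul_le_mul_of_nonneg_left _ (norm_nonneg _)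
        exact prod_le_prod (fun q _ => pow_nonneg (hP0 q r r') t) fun q _ => pow_le_pow_left₀ (hP0 q r r') (hPT q r r') t
      refine e2.trans ?_
      rw [← mul_sum, ← sum_mul]
      apply mul_le_mul_of_nonneg_left _ (norm_nonneg _)
      exact mul_le_mul_of_nonneg_right e1 hTall
    · have e1 : ∀ r' ∈ (range M).filter (fun r' => ¬ BadC a ε R κ h (α r r')),
          ‖V r‖ * ‖V r'‖ * ∏ q, P q r r' ^ t ≤
          (((1 - η) ^ (t - 4) / T 0 ^ 4) * ∏ q, T q ^ t) * (‖V r‖ * ‖V r'‖ * P 0 r r' ^ 4) := by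
        intro r' hr'
        rw [mem_filter] at hr'
        have e2 := hgood r hr r' hr'.2
        calc ‖V r‖ * ‖V r'‖ * ∏ q, P q r r' ^ t ≤ (‖V r‖ * ‖V r'‖) * ((1 - η) ^ (t - 4) * (P 0 r r' ^ 4 / T 0 ^ 4) * ∏ q, T q ^ t) :=
              mul_le_mul_of_nonneg_left e2 (by positivity)
          _ = _ := by ring
      refine (sum_le_sum e1).trans ?_
      rw [← mul_sum]
      apply mul_le_mul_of_nonneg_left _ (by positivity)
      apply sum_le_sum_of_subset_of_nonneg (filter_subset _ _)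
      intro r' _ _
      have := hP0 0 r r'
      positivity
  have hsum := sum_le_sum hrow
  rw [sum_add_distrib, ← sum_mul, ← mul_sum] at hsum
  have hgoal : ∑ r ∈ range M, ∑ r' ∈ range M, ‖V r‖ * ‖V r'‖ * ∏ q, ‖Ph (dlC a (σ * m)) (JG g κ q) (((r' : ℝ) - r) / (M : ℝ))‖ ^ t =
      ∑ r ∈ range M, ∑ r' ∈ range M, ‖V r‖ * ‖V r'‖ * ∏ q, P q r r' ^ t := by rw [hP]
  rw [hgoal]
  refine hsum.trans (le_of_eq ?_)
  have hgoal2 : ∑ r ∈ range M, ∑ r' ∈ range M, ‖V r‖ * ‖V r'‖ * ‖Ph (dlC a (σ * m)) (JG g κ 0) (((r' : ℝ) - r) / (M : ℝ))‖ ^ 4 =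
      ∑ r ∈ range M, ∑ r' ∈ range M, ‖V r‖ * ‖V r'‖ * P 0 r r' ^ 4 := by rw [hP]
  rw [hgoal2]
  ring

end Pool.Agent.R461.CF
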