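import Pool.Agent.R461.CF.F2

set_option autoImplicit false

/-! The second moment over sums of few denominators, with an exponential saving: the estimate. -/

namespace Pool.Agent.R461.CF

open Finset
open Pool.Agent.H807R2.Dav
open Pool.Agent.H373R2.T7
open Pool.Agent.H560R3.GB
open Pool.Agent.W93.HD
open Pool.Agent.W93.DG (hh FF FF_sub FF_pars sum_vM_sq logX)
open Pool.Agent.W93.RD (EE EE_conv)
open Pool.Agent.W93.TD (G_sq)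
open Pool.Agent.TH894.SM (Good good_of2 Ph Ph_le VV VV_nonneg)

/-- the second moment -/
theorem second_unif (B m : ℕ) (hB : 1 ≤ B) (hm : 1 ≤ m) : ∃ η C' : ℝ, 0 < η ∧ η < 1 ∧ 0 ≤ C' ∧ ∀ U : ℕ, ∃ A B₀ : ℕ, 4 ≤ A ∧ 1 ≤ B₀ ∧
    ∀ Ez : ℕ, ∃ k₀ : ℕ, ∀ k : ℕ, k₀ ≤ k → ∀ t : ℕ, 4 ≤ t → ∀ z : ℕ, Real.log ((2 ^ k : ℕ) : ℝ) ^ B₀ ≤ z →
    (z : ℝ) ≤ Real.log ((2 ^ k : ℕ) : ℝ) ^ Ez →
    ∀ a : ℕ → ℕ, Bd B a → ∀ σ : ℤ, (σ = 1 ∨ σ = -1) → ∀ κ : ℕ, den a κ ≤ 2 ^ k → 2 ^ k ≤ k * den a κ →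
    ∀ g : ℕ, g ≤ κ → 4 * hh 2 A k + 2 ≤ κ - g → κ - g ≤ 4 * (4 * hh 2 A k + 2) → ∀ (N : ℤ) (V : ℕ → ℂ),
    (∀ r, ‖V r‖ = ‖FF (fun n => ArithmeticFunction.vonMangoldt n) (2 ^ k) (2 ^ (k + 1)) r‖ *
      ‖FF (fun n => ArithmeticFunction.vonMangoldt n - lamz z n) (2 ^ k) (2 ^ (k + 1)) r‖) →
    ∑ ω ∈ OmC (JG g κ) t, ‖EE V (2 ^ (k + 1)) (nwC (dlC a (σ * m)) N ω)‖ ^ 2 ≤
      (C' * (1 - η) ^ t + 1 / (k : ℝ) ^ U) * (((2 ^ (k + 1) : ℕ) : ℝ) * ((2 ^ k : ℕ) : ℝ)) ^ 2 * (OmC (JG g κ) t).card := by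
  classical
  obtain ⟨R, ε, hR, hε0, hε1, hbad⟩ := bad_L2 B
  obtain ⟨C, hC0, hfour⟩ := VV_fourM B m hB hm
  obtain ⟨η, hη0, hη1, hcore⟩ := coreG B R m 4 hR (by norm_num) ε hε0 (by linarith)
  have h1η : 0 < 1 - η := by linarith
  refine ⟨η, 4 * C / (1 - η) ^ 4, hη0, hη1, by positivity, fun U => ?_⟩
  obtain ⟨A, B₀, hA, hEz⟩ := hbad (B.factorial * m) (2 * U + 10)
  refine ⟨A, max B₀ 1, by omega, le_max_right _ _, fun Ez => ?_⟩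
  obtain ⟨k1, h1⟩ := hEz Ez
  obtain ⟨n2, h2⟩ := G_sq Ez
  obtain ⟨k3, h3⟩ := sizesC B A (48 * R) (by omega)
  obtain ⟨k4, h4⟩ := hfour Ez
  refine ⟨k1 + n2 + k3 + k4 + m + 16, fun k hk t ht z hz1 hz2 a ha σ hσ κ hκ1 hκ2 g hgκ hw1 hw2 N V hV => ?_⟩
  obtain ⟨s1, s2, s3, s4, s5, s6, s7, s8, s9, s10⟩ := h3 k (by omega) a ha κ hκ1 hκ2
  have hR48 : 48 * 1 * hh 2 A k ≤ 48 * R * hh 2 A k := Nat.mul_le_mul_right _ (Nat.mul_le_mul_left _ hR)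
  have hκR : 128 * (48 * R * hh 2 A k) ≤ κ := by
    have := Nat.mul_div_le κ 128
    have h8 : 128 * (48 * R * hh 2 A k) ≤ 128 * (κ / 128) := Nat.mul_le_mul_left _ s7
    omega
  have hRw : 2 * R * (κ - g) ≤ κ := by
    calc 2 * R * (κ - g) ≤ 2 * R * (4 * (6 * hh 2 A k)) := Nat.mul_le_mul_left _ (by omega)
      _ = 48 * R * hh 2 A k := by ring
      _ ≤ κ := by omega
  obtain ⟨X, hX⟩ : ∃ X, X = 2 ^ k := ⟨_, rfl⟩
  obtain ⟨M, hM⟩ : ∃ M, M = 2 ^ (k + 1) := ⟨_, rfl⟩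
  have hkX : k < X := by rw [hX]; exact Nat.lt_two_pow_self
  have hXM : X ≤ M := by rw [hX, hM]; exact Nat.pow_le_pow_right (by norm_num) (by omega)
  have hX0 : (0 : ℝ) < X := by exact_mod_cast (by omega : 0 < X)
  have hM0 : (0 : ℝ) < M := by exact_mod_cast (by omega : 0 < M)
  have hk16 : (16 : ℝ) ≤ k := by exact_mod_cast (by omega : 16 ≤ k)
  have hk0 : (0 : ℝ) < k := by linarith
  have hk1 : (1 : ℝ) ≤ k := by linarith
  obtain ⟨hL1, hL2⟩ := logX 2 k le_rfl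
  obtain ⟨L, hL⟩ : ∃ L, L = Real.log (X : ℝ) := ⟨_, rfl⟩
  have hLk : L ≤ k := by
    rw [hL, hX]
    push_cast
    rw [Real.log_pow]
    have := Real.log_two_lt_d9
    nlinarith
  have hL0 : 0 ≤ L := by rw [hL]; exact Real.log_natCast_nonneg _
  have hLge : 1 ≤ L := by
    rw [← hX, ← hL] at hL1
    linarith
  rw [← hX, ← hL] at hz1 hz2
  have hz3 : L ^ B₀ ≤ z := (pow_le_pow_right₀ hLge (le_max_left _ _)).trans hz1
  have hz4 : L ≤ z := by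
    refine le_trans ?_ hz1
    exact le_self_pow₀ hLge (by have := le_max_right B₀ 1; omega)
  have hz : 1 ≤ z := by
    have : (1 : ℝ) ≤ z := by linarith
    exact_mod_cast this
  obtain ⟨F, hF⟩ : ∃ F : ℕ → ℂ, F = FF (fun n => ArithmeticFunction.vonMangoldt n) X M := ⟨_, rfl⟩
  obtain ⟨G, hG⟩ : ∃ G : ℕ → ℂ, G = FF (fun n => ArithmeticFunction.vonMangoldt n - lamz z n) X M := ⟨_, rfl⟩
  rw [← hX, ← hM, ← hF, ← hG] at hV
  have hbadk := h1 k (by omega) a ha κ hκ1 hκ2 z (by rw [← hX, ← hL]; exact hz3) (by rw [← hX, ← hL]; exact hz2)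
  have hfourK := h4 k (by omega) z (by rw [← hX, ← hL]; exact hz4) (by rw [← hX, ← hL]; exact hz2) a ha σ hσ
    g (by
      calc k ≤ 2 * B * κ := s6
        _ ≤ 2 * B * (2 * g) := Nat.mul_le_mul_left _ (by omega)
        _ = 4 * B * g := by ring
        _ ≤ 8 * B * g := Nat.mul_le_mul_right _ (Nat.mul_le_mul_right _ (by norm_num))) (by
      have e1 := den_two_pow ha g (2 * hh 2 A k + 1)
      have e2 : den a (g + 2 * (2 * hh 2 A k + 1)) ≤ den a κ := den_monotone ha (by omega)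
      refine le_trans (Nat.mul_le_mul_right _ ?_) ((e1.trans e2).trans hκ1)
      calc 4 * m ≤ 4 * k := by omega
        _ ≤ 4 * 2 ^ hh 2 A k := Nat.mul_le_mul_left _ s3
        _ = 2 ^ (hh 2 A k + 2) := by ring
        _ ≤ 2 ^ (2 * hh 2 A k + 1) := Nat.pow_le_pow_right (by norm_num) (by omega))
  have hGsq := h2 X (by omega) M hXM z hz (by rw [← hL]; exact hz2)
  rw [← hX, ← hM] at hbadk hfourK
  rw [← hG] at hbadk
  rw [← hL, ← hG] at hGsq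
  rw [← hX, ← hM]
  have hMX0 : (0 : ℝ) ≤ M * X := by positivity
  have hGsq' : ∑ r ∈ range M, ‖G r‖ ^ 2 ≤ M * X * (k : ℝ) ^ 4 := by
    refine hGsq.trans ?_
    have e1 : 14 * L ^ 2 ≤ (k : ℝ) ^ 4 := by
      have e2 : L ^ 2 ≤ (k : ℝ) ^ 2 := pow_le_pow_left₀ hL0 hLk 2
      have e3 : (14 : ℝ) ≤ (k : ℝ) ^ 2 := by nlinarith
      calc 14 * L ^ 2 ≤ (k : ℝ) ^ 2 * (k : ℝ) ^ 2 := mul_le_mul e3 e2 (by positivity) (by positivity)
        _ = _ := by ring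
    calc (M : ℝ) * (14 * X * L ^ 2) = (M * X) * (14 * L ^ 2) := by ring
      _ ≤ _ := mul_le_mul_of_nonneg_left e1 hMX0
  have hFsq : ∑ r ∈ range M, ‖F r‖ ^ 2 ≤ M * X * (k : ℝ) ^ 2 := by
    rw [hF, FF_pars _ X M (by omega) (by omega), mul_assoc]
    apply mul_le_mul_of_nonneg_left _ hM0.le
    have e1 := sum_vM_sq X (by omega)
    rw [← hL] at e1
    refine e1.trans ?_
    calc 6 * (X : ℝ) * L ≤ 6 * X * k := mul_le_mul_of_nonneg_left hLk (by positivity)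
      _ = X * (6 * k) := by ring
      _ ≤ X * (k : ℝ) ^ 2 := mul_le_mul_of_nonneg_left (by nlinarith) hX0.le
  have hmass : ∑ r ∈ range M, ‖V r‖ ≤ M * X * (k : ℝ) ^ 3 := by
    simp only [hV]
    refine (Real.sum_mul_le_sqrt_mul_sqrt _ _ _).trans ?_
    calc √(∑ r ∈ range M, ‖F r‖ ^ 2) * √(∑ r ∈ range M, ‖G r‖ ^ 2) ≤ √((M : ℝ) * X * k ^ 2) * √((M : ℝ) * X * k ^ 4) :=
          mul_le_mul (Real.sqrt_le_sqrt hFsq) (Real.sqrt_le_sqrt hGsq') (Real.sqrt_nonneg _) (Real.sqrt_nonneg _)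
      _ = M * X * k ^ 3 := by
          rw [Real.sqrt_mul hMX0, Real.sqrt_mul hMX0, show (k : ℝ) ^ 4 = (k ^ 2) ^ 2 by ring, Real.sqrt_sq (by positivity), Real.sqrt_sq (by positivity)]
          have := Real.mul_self_sqrt hMX0
          calc √((M : ℝ) * X) * k * (√((M : ℝ) * X) * k ^ 2) = (√((M : ℝ) * X) * √((M : ℝ) * X)) * k ^ 3 := by ring
            _ = _ := by rw [this]
  obtain ⟨E₀, hE₀⟩ : ∃ E₀ : ℝ, E₀ = (M : ℝ) * X / (k : ℝ) ^ (U + 4) := ⟨_, rfl⟩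
  have hbadV : ∀ r < M, ∀ S : Finset ℕ, (∀ r' ∈ S, r' < M ∧
        BadC a ε R κ (hh 2 A k) (((B.factorial * m * r' + B.factorial * m * (M - r) : ℕ) : ℝ) / (M : ℝ))) →
      ∑ r' ∈ S, ‖V r'‖ ≤ E₀ := by
    intro r _ S hS
    have e1 := hbadk (B.factorial * m * (M - r)) (B.factorial * m) (Nat.mul_pos (Nat.factorial_pos _) hm) (Nat.lt_two_pow_self).le S hS
    simp only [hV]
    refine (Real.sum_mul_le_sqrt_mul_sqrt _ _ _).trans ?_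
    have hsub : S ⊆ range M := by
      intro r' hr'
      rw [mem_range]
      exact (hS r' hr').1
    have e2 : ∑ r ∈ S, ‖F r‖ ^ 2 ≤ M * X * (k : ℝ) ^ 2 :=
      (sum_le_sum_of_subset_of_nonneg hsub fun _ _ _ => sq_nonneg _).trans hFsq
    calc √(∑ r ∈ S, ‖F r‖ ^ 2) * √(∑ r ∈ S, ‖G r‖ ^ 2) ≤ √((M : ℝ) * X * k ^ 2) * √((M : ℝ) * X / k ^ (2 * U + 10)) :=
          mul_le_mul (Real.sqrt_le_sqrt e2) (Real.sqrt_le_sqrt e1) (Real.sqrt_nonneg _) (Real.sqrt_nonneg _)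
      _ = E₀ := by
          rw [Real.sqrt_mul hMX0, Real.sqrt_sq hk0.le, show (k : ℝ) ^ (2 * U + 10) = (k ^ (U + 5)) ^ 2 by ring, Real.sqrt_div' _ (by positivity),
            Real.sqrt_sq (by positivity), hE₀]
          have e4 : (k : ℝ) ^ (U + 5) = k ^ (U + 4) * k := by ring
          rw [e4]
          have hkne : (k : ℝ) ≠ 0 := hk0.ne'
          have hkne2 : (k : ℝ) ^ (U + 4) ≠ 0 := by positivity
          field_simp
          rw [Real.sq_sqrt hMX0]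
  have hmain := hcore a ha σ hσ M κ (hh 2 A k) g (by omega) (by omega) (by omega) hgκ hw1 hw2 hRw (by omega) N t ht V E₀ hbadV
  refine hmain.trans ?_
  apply mul_le_mul_of_nonneg_right _ (Nat.cast_nonneg _)
  have hJ0 : JG g κ 0 = Ico 0 g := by unfold JG; rw [if_pos rfl]
  have hJ0c : ((JG g κ 0).card : ℝ) = g := by rw [hJ0, Nat.card_Ico, Nat.sub_zero]
  rw [hJ0c, hJ0]
  have hg0 : (0 : ℝ) < g := by exact_mod_cast (by omega : 0 < g)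
  have hE0 : 0 ≤ E₀ := by rw [hE₀]; positivity
  have hAV : ∀ r, ‖V r‖ ≤ 2 * VV z X M r := by
    intro r
    have e1 : G r = F r - FF (lamz z) X M r := by rw [hG, hF, ← FF_sub]
    have e2 : ‖G r‖ ≤ ‖F r‖ + ‖FF (lamz z) X M r‖ := by rw [e1]; exact norm_sub_le _ _
    have e3 : VV z X M r = ‖F r‖ ^ 2 + ‖FF (lamz z) X M r‖ ^ 2 := by rw [hF]; rfl
    rw [e3, hV]
    have e4 : ‖F r‖ * ‖G r‖ ≤ ‖F r‖ * (‖F r‖ + ‖FF (lamz z) X M r‖) := mul_le_mul_of_nonneg_left e2 (norm_nonneg _)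
    nlinarith [sq_nonneg (‖F r‖ - ‖FF (lamz z) X M r‖), sq_nonneg (‖F r‖), sq_nonneg (‖FF (lamz z) X M r‖)]
  have p1 : E₀ * ∑ r ∈ range M, ‖V r‖ ≤ 1 / (k : ℝ) ^ U * (M * X) ^ 2 := by
    calc E₀ * ∑ r ∈ range M, ‖V r‖ ≤ E₀ * (M * X * (k : ℝ) ^ 3) := mul_le_mul_of_nonneg_left hmass hE0
      _ = (1 / k) * (1 / (k : ℝ) ^ U * (M * X) ^ 2) := by
          rw [hE₀, show (k : ℝ) ^ (U + 4) = k ^ U * k * k ^ 3 by ring]
          field_simp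
      _ ≤ 1 * (1 / (k : ℝ) ^ U * (M * X) ^ 2) := by
          apply mul_le_mul_of_nonneg_right _ (by positivity)
          rw [div_le_one hk0]
          exact hk1
      _ = _ := one_mul _
  have hfour' : ∑ r ∈ range M, ∑ r' ∈ range M, ‖V r‖ * ‖V r'‖ * ‖Ph (dlC a (σ * m)) (Ico 0 g) (((r' : ℝ) - r) / (M : ℝ))‖ ^ 4 ≤
      4 * (C * ((M : ℝ) * X) ^ 2 * (g : ℝ) ^ 4) := by
    refine le_trans ?_ (mul_le_mul_of_nonneg_left hfourK (by norm_num))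
    rw [mul_sum]
    apply sum_le_sum
    intro r _
    rw [mul_sum]
    apply sum_le_sum
    intro r' _
    have e1 : ‖V r‖ * ‖V r'‖ ≤ (2 * VV z X M r) * (2 * VV z X M r') :=
      mul_le_mul (hAV r) (hAV r') (norm_nonneg _) (by have := VV_nonneg z X M r; positivity)
    calc ‖V r‖ * ‖V r'‖ * ‖Ph (dlC a (σ * m)) (Ico 0 g) (((r' : ℝ) - r) / (M : ℝ))‖ ^ 4 ≤
          ((2 * VV z X M r) * (2 * VV z X M r')) * ‖Ph (dlC a (σ * m)) (Ico 0 g) (((r' : ℝ) - r) / (M : ℝ))‖ ^ 4 :=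
          mul_le_mul_of_nonneg_right e1 (by positivity)
      _ = _ := by ring
  have p2 : (1 - η) ^ (t - 4) / (g : ℝ) ^ 4 * ∑ r ∈ range M, ∑ r' ∈ range M, ‖V r‖ * ‖V r'‖ *
      ‖Ph (dlC a (σ * m)) (Ico 0 g) (((r' : ℝ) - r) / (M : ℝ))‖ ^ 4 ≤ 4 * C / (1 - η) ^ 4 * (1 - η) ^ t * (M * X) ^ 2 := by
    have e1 : (1 - η) ^ t = (1 - η) ^ (t - 4) * (1 - η) ^ 4 := by rw [← pow_add]; congr 1; omega
    calc _ ≤ (1 - η) ^ (t - 4) / (g : ℝ) ^ 4 * (4 * (C * ((M : ℝ) * X) ^ 2 * (g : ℝ) ^ 4)) :=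
          mul_le_mul_of_nonneg_left hfour' (by positivity)
      _ = _ := by
          rw [e1]
          have : (g : ℝ) ^ 4 ≠ 0 := (pow_pos hg0 4).ne'
          have h4 : (1 - η) ^ 4 ≠ 0 := (pow_pos h1η 4).ne'
          field_simp
  linarith

end Pool.Agent.R461.CF
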