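import Pool.Agent.R461.CF.F3

set_option autoImplicit false

/-! Few sums of denominators are exceptional. -/

namespace Pool.Agent.R461.CF

open Finset
open Pool.Agent.H807R2.Dav
open Pool.Agent.H373R2.T7
open Pool.Agent.H560R3.GB
open Pool.Agent.W93.HD
open Pool.Agent.W93.DG (hh FF FF_sub FF_pars sum_vM_sq logX)
open Pool.Agent.W93.RD (EE EE_conv)
open Pool.Agent.W93.TD (G_sq)
open Pool.Agent.TH894.SM (Good good_of2 Ph Ph_le VV VV_nonneg)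

/-- few choices are exceptional -/
theorem few_unif (B m Bc : ℕ) (hB : 1 ≤ B) (hm : 1 ≤ m) (hBc : 1 ≤ Bc) : ∃ η : ℝ, 0 < η ∧ η < 1 ∧ ∀ (U : ℕ) (ε : ℝ), 0 < ε →
    ∃ (A : ℕ) (C : ℝ) (k₀ : ℕ), 4 ≤ A ∧ 0 ≤ C ∧ ∀ k : ℕ, k₀ ≤ k → ∀ t : ℕ, ∀ a : ℕ → ℕ, Bd B a → ∀ σ : ℤ, (σ = 1 ∨ σ = -1) →
    ∀ κ : ℕ, den a κ ≤ 2 ^ k → 2 ^ k ≤ k * den a κ →
    ∀ g : ℕ, g ≤ κ → 4 * hh 2 A k + 2 ≤ κ - g → κ - g ≤ 4 * (4 * hh 2 A k + 2) → ∀ N : ℤ,
    ∀ S ⊆ OmC (JG g κ) t,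
    (∀ ω ∈ S, ∃ y : ℕ, (y : ℤ) = nwC (dlC a (σ * m)) N ω ∧ 2 ∣ y ∧ 2 ^ k ≤ Bc * y ∧ y ≤ 2 ^ k ∧ ¬ Good ε y) →
    (S.card : ℝ) ≤ (C * (1 - η) ^ t + 1 / (k : ℝ) ^ U) * (OmC (JG g κ) t).card := by
  classical
  obtain ⟨η, C', hη0, hη1, hC'0, hsm⟩ := second_unif B m hB hm
  refine ⟨η, hη0, hη1, fun U ε hε => ?_⟩
  have h1η : 0 < 1 - η := by linarith
  obtain ⟨A, B₀, hA, hB₀, hEz⟩ := hsm (U + 1)
  obtain ⟨ε₂, hε₂, hgood⟩ := good_of2 Bc hBc ε hε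
  obtain ⟨B₂, hB₂⟩ : ∃ B₂, B₂ = max B₀ 3 := ⟨_, rfl⟩
  obtain ⟨k1, h1⟩ := hEz (B₂ + 1)
  obtain ⟨n2, h2⟩ := hgood (B₂ + 1)
  obtain ⟨k3, hk3⟩ := exists_nat_ge (1 / ε₂ ^ 2)
  refine ⟨A, C' / ε₂ ^ 2 + 1 / (1 - η) ^ 4, k1 + n2 + k3 + 4, hA, by positivity, fun k hk t a ha σ hσ κ hκ1 hκ2 g hgκ hw1 hw2 N S hS hSb => ?_⟩
  have hk0' : (0 : ℝ) < k := by exact_mod_cast (by omega : 0 < k)
  rcases Nat.lt_or_ge t 4 with ht | ht
  · -- few terms
    have e1 : (S.card : ℝ) ≤ (OmC (JG g κ) t).card := by exact_mod_cast card_le_card hS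
    refine e1.trans ?_
    apply le_mul_of_one_le_left (Nat.cast_nonneg _)
    have e2 : (1 - η) ^ 4 ≤ (1 - η) ^ t := pow_le_pow_of_le_one h1η.le (by linarith) ht.le
    have e3 : 1 ≤ 1 / (1 - η) ^ 4 * (1 - η) ^ t := by
      rw [one_div, inv_mul_eq_div, one_le_div (by positivity)]
      exact e2
    have e4 : 0 ≤ C' / ε₂ ^ 2 * (1 - η) ^ t := by positivity
    have e5 : 0 ≤ 1 / (k : ℝ) ^ U := by positivity
    rw [add_mul]
    linarith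
  obtain ⟨X, hX⟩ : ∃ X, X = 2 ^ k := ⟨_, rfl⟩
  obtain ⟨M, hM⟩ : ∃ M, M = 2 ^ (k + 1) := ⟨_, rfl⟩
  have hkX : k < X := by rw [hX]; exact Nat.lt_two_pow_self
  have hMX : M = 2 * X := by rw [hM, hX, pow_succ']
  have hXM : 2 * X ≤ M := hMX.ge
  have hX0 : (0 : ℝ) < X := by exact_mod_cast (by omega : 0 < X)
  have hM0 : (0 : ℝ) < M := by exact_mod_cast (by omega : 0 < M)
  obtain ⟨hL1, hL2⟩ := logX 2 k le_rfl
  obtain ⟨L, hL⟩ : ∃ L, L = Real.log (X : ℝ) := ⟨_, rfl⟩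
  rw [← hX, ← hL] at hL1 hL2
  have hK4 : (4 : ℝ) ≤ k := by exact_mod_cast (by omega : 4 ≤ k)
  have hL2' : 2 ≤ L := by linarith
  have hL0 : 0 < L := by linarith
  -- the level
  obtain ⟨z, hz⟩ : ∃ z, z = ⌈L ^ B₂⌉₊ := ⟨_, rfl⟩
  have hz1 : L ^ B₂ ≤ z := by rw [hz]; exact Nat.le_ceil _
  have hz2 : (z : ℝ) ≤ L ^ (B₂ + 1) := by
    have e1 : (z : ℝ) < L ^ B₂ + 1 := by rw [hz]; exact Nat.ceil_lt_add_one (by positivity)
    have e2 : 1 ≤ L ^ B₂ := one_le_pow₀ (by linarith)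
    rw [pow_succ]
    nlinarith
  have hz3 : L ^ B₀ ≤ z := (pow_le_pow_right₀ (by linarith) (by rw [hB₂]; exact le_max_left _ _)).trans hz1
  have hz4 : L ^ 3 ≤ z := (pow_le_pow_right₀ (by linarith) (by rw [hB₂]; exact le_max_right _ _)).trans hz1
  obtain ⟨AA, hAA⟩ : ∃ AA : ℕ → ℂ, AA = fun r => FF (fun n => ArithmeticFunction.vonMangoldt n) X M r *
        FF (fun n => ArithmeticFunction.vonMangoldt n - lamz z n) X M r := ⟨_, rfl⟩
  have hmom := h1 k (by omega) t ht z (by rw [← hX, ← hL]; exact hz3) (by rw [← hX, ← hL]; exact hz2) a ha σ hσ κ hκ1 hκ2 g hgκ hw1 hw2 N AA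
    (fun r => by rw [hAA, ← hX, ← hM]; simp only [norm_mul])
  rw [← hX, ← hM] at hmom
  -- each exceptional choice
  have hpt : ∀ ω ∈ S, (M * (ε₂ * X)) ^ 2 ≤ ‖EE AA M (nwC (dlC a (σ * m)) N ω)‖ ^ 2 := by
    intro ω hω
    obtain ⟨y, hy, hy2, hyb, hyX, hyG⟩ := hSb ω hω
    rw [← hX] at hyb hyX
    have hy0 : 0 < y := by
      rcases Nat.eq_zero_or_pos y with h0 | h0
      · rw [h0, mul_zero] at hyb; omega
      · exact h0
    have hdiff : ¬ |∑ a ∈ Icc 1 X, ArithmeticFunction.vonMangoldt a * (lamI ((y : ℤ) - a) - lamzI z ((y : ℤ) - a))| ≤ ε₂ * X := by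
      intro hcon
      apply hyG
      exact h2 X (by omega) z (by rw [← hL]; exact hz4) (by rw [← hL]; exact hz2) y hy2 hyb hyX hcon
    push Not at hdiff
    have hconv := EE_conv (fun n => ArithmeticFunction.vonMangoldt n) (fun n => ArithmeticFunction.vonMangoldt n - lamz z n) X M (by omega)
        hXM (y : ℤ) (by omega) (by omega)
    rw [← hAA] at hconv
    have hS' : ∑ a ∈ Icc 1 X, ArithmeticFunction.vonMangoldt a *
        (if 1 ≤ (y : ℤ) - (a : ℤ) then (fun n => ArithmeticFunction.vonMangoldt n - lamz z n) ((y : ℤ) - (a : ℤ)).toNat else 0) =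
        ∑ a ∈ Icc 1 X, ArithmeticFunction.vonMangoldt a * (lamI ((y : ℤ) - a) - lamzI z ((y : ℤ) - a)) := by
      apply sum_congr rfl
      intro a _
      unfold lamI lamzI
      by_cases h7 : 1 ≤ (y : ℤ) - (a : ℤ)
      · rw [if_pos h7, if_pos h7, if_pos h7]
      · rw [if_neg h7, if_neg h7, if_neg h7, sub_zero]
    rw [hS'] at hconv
    obtain ⟨Sg, hSd⟩ : ∃ Sg, Sg = ∑ a ∈ Icc 1 X, ArithmeticFunction.vonMangoldt a * (lamI ((y : ℤ) - a) - lamzI z ((y : ℤ) - a)) := ⟨_, rfl⟩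
    rw [← hSd] at hconv hdiff
    rw [← hy, hconv, Complex.norm_real, Real.norm_eq_abs, abs_mul, abs_of_pos hM0]
    apply pow_le_pow_left₀ (by positivity)
    exact mul_le_mul_of_nonneg_left hdiff.le hM0.le
  obtain ⟨W, hW⟩ : ∃ W : ℝ, W = C' * (1 - η) ^ t + 1 / (k : ℝ) ^ (U + 1) := ⟨_, rfl⟩
  rw [← hW] at hmom
  have hsum : (S.card : ℝ) * (M * (ε₂ * X)) ^ 2 ≤ W * ((M : ℝ) * X) ^ 2 * (OmC (JG g κ) t).card := by
    refine le_trans ?_ hmom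
    calc (S.card : ℝ) * (M * (ε₂ * X)) ^ 2 = ∑ _ω ∈ S, (M * (ε₂ * X)) ^ 2 := by rw [sum_const, nsmul_eq_mul]
      _ ≤ ∑ ω ∈ S, ‖EE AA M (nwC (dlC a (σ * m)) N ω)‖ ^ 2 := sum_le_sum hpt
      _ ≤ _ := sum_le_sum_of_subset_of_nonneg hS fun _ _ _ => sq_nonneg _
  have hpos : 0 < (M * (ε₂ * X)) ^ 2 := by positivity
  have hW2 : W ≤ ε₂ ^ 2 * ((C' / ε₂ ^ 2 + 1 / (1 - η) ^ 4) * (1 - η) ^ t + 1 / (k : ℝ) ^ U) := by
    have e3 : 1 / ε₂ ^ 2 ≤ k := hk3.trans (by exact_mod_cast (by omega : k3 ≤ k))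
    rw [div_le_iff₀ (by positivity)] at e3
    have e4 : 1 / (k : ℝ) ^ (U + 1) ≤ ε₂ ^ 2 * (1 / (k : ℝ) ^ U) := by
      rw [pow_succ, mul_one_div, div_le_div_iff₀ (by positivity) (by positivity)]
      have : 0 < (k : ℝ) ^ U := by positivity
      nlinarith
    have e5 : ε₂ ^ 2 * ((C' / ε₂ ^ 2 + 1 / (1 - η) ^ 4) * (1 - η) ^ t) = C' * (1 - η) ^ t + ε₂ ^ 2 * (1 / (1 - η) ^ 4 * (1 - η) ^ t) := by
      have : ε₂ ^ 2 ≠ 0 := by positivity
      field_simp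
    have e6 : 0 ≤ ε₂ ^ 2 * (1 / (1 - η) ^ 4 * (1 - η) ^ t) := by positivity
    rw [hW, mul_add, e5]
    linarith
  have e1 : W * ((M : ℝ) * X) ^ 2 * (OmC (JG g κ) t).card ≤
      (((C' / ε₂ ^ 2 + 1 / (1 - η) ^ 4) * (1 - η) ^ t + 1 / (k : ℝ) ^ U) * (OmC (JG g κ) t).card) * (M * (ε₂ * X)) ^ 2 := by
    calc W * ((M : ℝ) * X) ^ 2 * (OmC (JG g κ) t).card = W * (((M : ℝ) * X) ^ 2 * (OmC (JG g κ) t).card) := by ring
      _ ≤ (ε₂ ^ 2 * ((C' / ε₂ ^ 2 + 1 / (1 - η) ^ 4) * (1 - η) ^ t + 1 / (k : ℝ) ^ U)) * (((M : ℝ) * X) ^ 2 * (OmC (JG g κ) t).card) :=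
          mul_le_mul_of_nonneg_right hW2 (by positivity)
      _ = _ := by ring
  exact le_of_mul_le_mul_right (hsum.trans e1) hpos


/-- the sizes of the window of the large denominators -/
lemma win_size (A₁ : ℕ) (hA : 4 ≤ A₁) : ∃ N₀ : ℕ, ∀ N : ℕ, N₀ ≤ N → ∀ w : ℕ, ((17 * A₁ : ℕ) : ℝ) * Real.log (Real.log N) ≤ w →
    (w : ℝ) ≤ 2 * ((17 * A₁ : ℕ) : ℝ) * Real.log (Real.log N) →
    4 * hh 2 A₁ (Nat.log 2 N + 3) + 2 ≤ w ∧ w ≤ 4 * (4 * hh 2 A₁ (Nat.log 2 N + 3) + 2) := by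
  obtain ⟨N₀, hN₀⟩ := Filter.eventually_atTop.1 ((Real.tendsto_log_atTop.comp Real.tendsto_log_atTop).comp tendsto_natCast_atTop_atTop |>.eventually_ge_atTop 4)
  refine ⟨N₀ + 16, fun N hN w hw1 hw2 => ?_⟩
  have hLL : 4 ≤ Real.log (Real.log N) := hN₀ N (by omega)
  have hN16 : (16 : ℝ) ≤ N := by exact_mod_cast (by omega : 16 ≤ N)
  obtain ⟨L, hL⟩ : ∃ L, L = Real.log (N : ℝ) := ⟨_, rfl⟩
  rw [← hL] at hLL hw1 hw2
  have hL0 : 0 < L := by rw [hL]; exact Real.log_pos (by linarith)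
  have hL6 : 6 ≤ L := by
    have h1 : Real.exp 4 ≤ L := by
      rw [← Real.le_log_iff_exp_le hL0]
      exact hLL
    have h2 := Real.add_one_le_exp (4 : ℝ)
    have h3 : Real.exp 4 = Real.exp 2 * Real.exp 2 := by rw [← Real.exp_add]; norm_num
    have h4 := Real.add_one_le_exp (2 : ℝ)
    nlinarith
  obtain ⟨LL, hLLd⟩ : ∃ LL, LL = Real.log L := ⟨_, rfl⟩
  rw [← hLLd] at hLL hw1 hw2
  obtain ⟨k, hk⟩ : ∃ k, k = Nat.log 2 N + 3 := ⟨_, rfl⟩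
  rw [← hk]
  obtain ⟨l, hl⟩ : ∃ l, l = Nat.log 2 k + 1 := ⟨_, rfl⟩
  have hh1 : hh 2 A₁ k = 2 * A₁ * l := by unfold hh; rw [hl]
  rw [hh1]
  have hlog2a := Real.log_two_gt_d9
  have hlog2b := Real.log_two_lt_d9
  have hA0 : (4 : ℝ) ≤ A₁ := by exact_mod_cast hA
  have hk0 : (0 : ℝ) < k := by exact_mod_cast (by omega : 0 < k)
  -- the size of k
  have hkL : L ≤ k := by
    have h1 : N < 2 ^ k := by
      have := Nat.lt_pow_succ_log_self (show 1 < 2 by norm_num) N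
      refine lt_of_lt_of_le this ?_
      exact Nat.pow_le_pow_right (by norm_num) (by rw [hk]; omega)
    have h2 : (N : ℝ) ≤ 2 ^ k := by exact_mod_cast h1.le
    have h3 := Real.log_le_log (by linarith) h2
    rw [Real.log_pow, ← hL] at h3
    nlinarith
  have hkU : (k : ℝ) ≤ 2 * L := by
    have h1 := Nat.pow_log_le_self 2 (show N ≠ 0 by omega)
    have h2 : (2 : ℝ) ^ Nat.log 2 N ≤ N := by exact_mod_cast h1
    have h3 := Real.log_le_log (by positivity) h2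
    rw [Real.log_pow, ← hL] at h3
    have h4 : (k : ℝ) = (Nat.log 2 N : ℝ) + 3 := by rw [hk]; push_cast; ring
    rw [h4]
    nlinarith
  have hlogk1 : LL ≤ Real.log k := by rw [hLLd]; exact Real.log_le_log hL0 hkL
  have hlogk2 : Real.log k ≤ Real.log 2 + LL := by
    rw [hLLd, ← Real.log_mul (by norm_num) hL0.ne']
    exact Real.log_le_log hk0 hkU
  have hl1 : Real.log k ≤ l * Real.log 2 := by
    have h1 : k < 2 ^ l := by rw [hl]; exact Nat.lt_pow_succ_log_self (by norm_num) k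
    have h2 : (k : ℝ) ≤ 2 ^ l := by exact_mod_cast h1.le
    have h3 := Real.log_le_log hk0 h2
    rwa [Real.log_pow] at h3
  have hl2 : ((l : ℝ) - 1) * Real.log 2 ≤ Real.log k := by
    have h1 := Nat.pow_log_le_self 2 (show k ≠ 0 by omega)
    have h2 : (2 : ℝ) ^ Nat.log 2 k ≤ k := by exact_mod_cast h1
    have h3 := Real.log_le_log (by positivity) h2
    rw [Real.log_pow] at h3
    have h4 : (l : ℝ) - 1 = (Nat.log 2 k : ℝ) := by rw [hl]; push_cast; ring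
    rw [h4]
    exact h3
  have hl3 : (l : ℝ) ≤ 2 * LL := by nlinarith
  have hl4 : LL ≤ (l : ℝ) * 0.6931471808 := by
    have hl0 : (0 : ℝ) ≤ l := Nat.cast_nonneg l
    nlinarith
  push_cast at hw1 hw2
  constructor
  · have : ((4 * (2 * A₁ * l) + 2 : ℕ) : ℝ) ≤ w := by
      push_cast
      refine le_trans ?_ hw1
      have h1 : (A₁ : ℝ) * l ≤ A₁ * (2 * LL) := mul_le_mul_of_nonneg_left hl3 (by linarith)
      nlinarith
    exact_mod_cast this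
  · have : (w : ℝ) ≤ ((4 * (4 * (2 * A₁ * l) + 2) : ℕ) : ℝ) := by
      push_cast
      refine hw2.trans ?_
      have h1 : (A₁ : ℝ) * LL ≤ A₁ * ((l : ℝ) * 0.6931471808) := mul_le_mul_of_nonneg_left hl4 (by linarith)
      have h2 : (0 : ℝ) ≤ A₁ * l := by positivity
      nlinarith
    exact_mod_cast this

/-- few choices of the denominators are exceptional, for the even numbers `2 (N - ∑ q)` -/
theorem few_denoms (B : ℕ) (hB : 1 ≤ B) : ∃ η : ℝ, 0 < η ∧ η < 1 ∧ ∀ (U : ℕ) (ε : ℝ), 0 < ε → ∃ (A : ℕ) (C : ℝ) (N₀ : ℕ), 1 ≤ A ∧ 0 ≤ C ∧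
    ∀ N : ℕ, N₀ ≤ N → ∀ a : ℕ → ℕ, Bd B a → ∀ L w t : ℕ, 1 ≤ t → 4 * t * den a L ≤ N → 8 * (N : ℝ) ≤ den a L * Real.log N →
    (A : ℝ) * Real.log (Real.log N) ≤ w → (w : ℝ) ≤ 2 * A * Real.log (Real.log N) → w ≤ L ∧
    ∀ S ⊆ OmC (JG (L - w) L) t, (∀ ω ∈ S, ¬ Good ε (2 * (N - ∑ c, den a (ω c)))) →
      (S.card : ℝ) ≤ (C * (1 - η) ^ t + 1 / Real.log N ^ U) * (OmC (JG (L - w) L) t).card := by
  classical
  obtain ⟨η, hη0, hη1, hmain⟩ := few_unif B 2 8 hB (by norm_num) (by norm_num)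
  refine ⟨η, hη0, hη1, fun U ε hε => ?_⟩
  have h1η : 0 < 1 - η := by linarith
  obtain ⟨A₁, C, k₀, hA₁, hC0, hk⟩ := hmain U ε hε
  obtain ⟨k3, h3⟩ := sizesC B A₁ 1 hA₁
  obtain ⟨n4, h4⟩ := win_size A₁ hA₁
  refine ⟨17 * A₁, C, 2 ^ (k₀ + k3 + 4) + n4 + 16, by omega, hC0, fun N hN a ha L w t ht hL1 hL2 hw1 hw2 => ?_⟩
  have hp0 : 1 ≤ 2 ^ (k₀ + k3 + 4) := Nat.one_le_two_pow
  obtain ⟨P, hP⟩ : ∃ P, P = 2 ^ (k₀ + k3 + 4) := ⟨_, rfl⟩
  have hNP : 2 ^ (k₀ + k3 + 4) ≤ N := by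
    rw [← hP] at hN ⊢
    omega
  have hN4 : n4 ≤ N := by
    rw [← hP] at hN
    omega
  have hN16 : 16 ≤ N := by
    rw [← hP] at hN
    omega
  obtain ⟨hw3, hw4⟩ := h4 N hN4 w hw1 hw2
  obtain ⟨k, hk'⟩ : ∃ k, k = Nat.log 2 N + 3 := ⟨_, rfl⟩
  rw [← hk'] at hw3 hw4
  have hNr : (16 : ℝ) ≤ N := by exact_mod_cast hN16
  have hkk : k₀ + k3 ≤ k := by
    have : k₀ + k3 + 4 ≤ Nat.log 2 N := Nat.le_log_of_pow_le (by norm_num) hNP
    omega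
  have hk1 : 2 ^ k ≤ 8 * N := by
    have := Nat.pow_log_le_self 2 (show N ≠ 0 by omega)
    rw [hk', pow_add]
    omega
  have hk2 : 4 * N ≤ 2 ^ k := by
    have := Nat.lt_pow_succ_log_self (show 1 < 2 by norm_num) N
    rw [hk', show Nat.log 2 N + 3 = (Nat.log 2 N + 1) + 2 by ring, pow_add]
    have e : (Nat.log 2 N).succ = Nat.log 2 N + 1 := rfl
    omega
  have hlogN : Real.log N ≤ k := by
    have h1 : (N : ℝ) ≤ 2 ^ k := by
      have : N ≤ 2 ^ k := by omega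
      exact_mod_cast this
    have h2 := Real.log_le_log (by linarith) h1
    rw [Real.log_pow] at h2
    have h3 := Real.log_two_lt_d9
    have h4 : (0 : ℝ) ≤ k := Nat.cast_nonneg k
    nlinarith
  have hlog1 : 1 ≤ Real.log N := by
    rw [Real.le_log_iff_exp_le (by linarith)]
    have := Real.exp_one_lt_d9
    linarith
  have hden : den a L ≤ N := by
    have : 1 * den a L ≤ 4 * t * den a L := Nat.mul_le_mul_right _ (by omega)
    omega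
  have hκ1 : den a L ≤ 2 ^ k := by omega
  have hκ2 : 2 ^ k ≤ k * den a L := by
    have h1 : ((2 ^ k : ℕ) : ℝ) ≤ ((8 * N : ℕ) : ℝ) := by exact_mod_cast hk1
    have h2 : ((2 ^ k : ℕ) : ℝ) ≤ ((k * den a L : ℕ) : ℝ) := by
      refine h1.trans ?_
      push_cast
      refine hL2.trans ?_
      rw [mul_comm]
      exact mul_le_mul_of_nonneg_right hlogN (Nat.cast_nonneg _)
    exact_mod_cast h2
  obtain ⟨s1, s2, s3, s4, s5, s6, s7, s8, s9, s10⟩ := h3 k (by omega) a ha L hκ1 hκ2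
  have hwL : w ≤ L := by omega
  refine ⟨hwL, fun S hS hSb => ?_⟩
  have hlw : L - (L - w) = w := by omega
  have hres := hk k (by omega) t a ha (-1) (Or.inr rfl) L hκ1 hκ2 (L - w) (by omega) (by rw [hlw]; exact hw3) (by rw [hlw]; exact hw4)
    (2 * N) S hS (by
    intro ω hω
    have hb := hSb ω hω
    have hsum : ∑ c, den a (ω c) ≤ 2 * t * den a L := by
      have hω' := hS hω
      unfold OmC at hω'
      rw [Fintype.mem_piFinset] at hω'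
      have h1 : ∀ c ∈ (univ : Finset (Fin 2 × Fin t)), den a (ω c) ≤ den a L := by
        intro c _
        apply den_monotone ha
        have h2 := hω' c
        unfold JG at h2
        split_ifs at h2 with h5
        · rw [mem_Ico] at h2; omega
        · rw [mem_Ico] at h2; omega
      refine (sum_le_card_nsmul _ _ _ h1).trans ?_
      rw [smul_eq_mul, card_univ, Fintype.card_prod, Fintype.card_fin, Fintype.card_fin]
    have hsum2 : 2 * ∑ c, den a (ω c) ≤ N := by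
      calc 2 * ∑ c, den a (ω c) ≤ 2 * (2 * t * den a L) := Nat.mul_le_mul_left _ hsum
        _ = 4 * t * den a L := by ring
        _ ≤ N := hL1
    refine ⟨2 * (N - ∑ c, den a (ω c)), ?_, Dvd.intro _ rfl, by omega, by omega, hb⟩
    push_cast [Nat.cast_sub (show ∑ c, den a (ω c) ≤ N by omega)]
    unfold nwC dlC
    rw [mul_sub, mul_sum, sub_eq_add_neg, ← sum_neg_distrib]
    congr 1)
  refine hres.trans ?_
  apply mul_le_mul_of_nonneg_right _ (Nat.cast_nonneg _)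
  apply add_le_add_right
  apply one_div_le_one_div_of_le (by positivity)
  exact pow_le_pow_left₀ (by linarith) hlogN U

end Pool.Agent.R461.CF
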