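import Pool.Agent.R461.CF.F4
import Pool.Agent.R461.CF.E2

set_option autoImplicit false

/-! A common sum of few denominators for most members of a set of even numbers. -/

namespace Pool.Agent.R461.CF

open Finset
open Pool.Agent.W93.DG (hh)
open Pool.Agent.TH894.SM (Good)

/-- one sum of few denominators serves most members of a given set of even numbers -/
theorem common_sum (B m : ℕ) (hB : 1 ≤ B) (hm : 1 ≤ m) : ∃ η : ℝ, 0 < η ∧ η < 1 ∧ ∀ (U : ℕ) (ε : ℝ), 0 < ε → ∃ (C : ℝ) (N₀ : ℕ), 0 ≤ C ∧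
    ∀ X : ℕ, N₀ ≤ X → ∀ a : ℕ → ℕ, Bd B a → ∀ t : ℕ, 1 ≤ t → 16 * m * (B + 1) * (t : ℝ) ≤ Real.log X →
    ∀ T : Finset ℕ, (∀ N ∈ T, Even N ∧ X ≤ m * N ∧ N ≤ X) →
    ∃ j : Fin (4 * t) → ℕ, Even (∑ i, den a (j i)) ∧ ((∑ i, den a (j i) : ℕ) : ℝ) * Real.log X ≤ 8 * (B + 1) * t * X ∧
      ∀ T' ⊆ T, (∀ N ∈ T', ¬ Good ε (N - ∑ i, den a (j i))) → (T'.card : ℝ) ≤ (C * (1 - η) ^ t + 1 / Real.log X ^ U) * T.card := by
  classical
  obtain ⟨η, hη0, hη1, hmain⟩ := few_unif B 1 (4 * m) hB le_rfl (by omega)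
  refine ⟨η, hη0, hη1, fun U ε hε => ?_⟩
  have h1η : 0 < 1 - η := by linarith
  obtain ⟨A, C, k₀, hA, hC0, hk⟩ := hmain (U + 1) ε hε
  obtain ⟨k3, h3⟩ := sizesC B A 1 hA
  refine ⟨2 * C, 2 ^ (k₀ + k3 + B + 8), by positivity, fun X hX a ha t ht htX T hT => ?_⟩
  have hX16 : 2 ^ 8 ≤ X := le_trans (Nat.pow_le_pow_right (by norm_num) (by omega)) hX
  have hXr : (256 : ℝ) ≤ X := by exact_mod_cast hX16
  obtain ⟨k, hk'⟩ : ∃ k, k = Nat.log 2 X + 1 := ⟨_, rfl⟩
  have hkk : k₀ + k3 + B + 8 ≤ k := by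
    have := Nat.le_log_of_pow_le (by norm_num) hX
    omega
  have hk1 : 2 ^ k ≤ 2 * X := by
    have := Nat.pow_log_le_self 2 (show X ≠ 0 by omega)
    rw [hk', pow_succ]
    omega
  have hk2 : X < 2 ^ k := by
    have := Nat.lt_pow_succ_log_self (show 1 < 2 by norm_num) X
    rw [hk']
    exact this
  have hlogX : Real.log X ≤ k := by
    have h1 : (X : ℝ) ≤ 2 ^ k := by exact_mod_cast hk2.le
    have h2 := Real.log_le_log (by linarith) h1
    rw [Real.log_pow] at h2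
    have h3 := Real.log_two_lt_d9
    have h4 : (0 : ℝ) ≤ k := Nat.cast_nonneg k
    nlinarith
  have hlog1 : 1 ≤ Real.log X := by
    rw [Real.le_log_iff_exp_le (by linarith)]
    have := Real.exp_one_lt_d9
    linarith
  obtain ⟨κ, hκ1, hκ2⟩ := choose_kap ha k (by omega)
  obtain ⟨q, hq⟩ : ∃ q, q = den a κ := ⟨_, rfl⟩
  rw [← hq] at hκ1 hκ2
  have htk : 16 * m * (B + 1) * t ≤ k := by
    have : ((16 * m * (B + 1) * t : ℕ) : ℝ) ≤ k := by
      push_cast
      exact htX.trans hlogX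
    exact_mod_cast this
  -- the size of the sum
  have hs1 : k * (4 * t * q) ≤ 8 * (B + 1) * t * X := by
    calc k * (4 * t * q) = 4 * t * (k * q) := by ring
      _ ≤ 4 * t * ((B + 1) * 2 ^ k) := Nat.mul_le_mul_left _ hκ2
      _ ≤ 4 * t * ((B + 1) * (2 * X)) := Nat.mul_le_mul_left _ (Nat.mul_le_mul_left _ hk1)
      _ = 8 * (B + 1) * t * X := by ring
  have hs2 : ∀ N : ℕ, X ≤ m * N → 2 * (4 * t * q) ≤ N := by
    intro N hN
    have e1 : (16 * m * (B + 1) * t) * (4 * t * q) ≤ k * (4 * t * q) := Nat.mul_le_mul_right _ htk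
    have e2 : (8 * (B + 1) * t * m) * (2 * (4 * t * q)) ≤ (8 * (B + 1) * t * m) * N := by
      calc (8 * (B + 1) * t * m) * (2 * (4 * t * q)) = (16 * m * (B + 1) * t) * (4 * t * q) := by ring
        _ ≤ 8 * (B + 1) * t * X := e1.trans hs1
        _ ≤ 8 * (B + 1) * t * (m * N) := Nat.mul_le_mul_left _ hN
        _ = _ := by ring
    exact Nat.le_of_mul_le_mul_left e2 (by positivity)
  have hq2 : q ≤ 2 ^ k := by
    have e1 : k * q ≤ k * 2 ^ k := hκ2.trans (Nat.mul_le_mul_right _ (by omega))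
    exact Nat.le_of_mul_le_mul_left e1 (by omega)
  obtain ⟨s1, s2, s3, s4, s5, s6, s7, s8, s9, s10⟩ := h3 k (by omega) a ha κ (by rw [← hq]; exact hq2) (by rw [← hq]; exact hκ1)
  obtain ⟨g, hg⟩ : ∃ g, g = κ - (4 * hh 2 A k + 2) := ⟨_, rfl⟩
  have hgκ : κ - g = 4 * hh 2 A k + 2 := by omega
  obtain ⟨Ω, hΩ⟩ : ∃ Ω, Ω = OmC (JG g κ) (2 * t) := ⟨_, rfl⟩
  have hbound : ∀ ω ∈ Ω, ∑ c, den a (ω c) ≤ 4 * t * q := by
    intro ω hω
    rw [hΩ] at hω
    unfold OmC at hω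
    rw [Fintype.mem_piFinset] at hω
    have h1 : ∀ c ∈ (univ : Finset (Fin 2 × Fin (2 * t))), den a (ω c) ≤ q := by
      intro c _
      rw [hq]
      apply den_monotone ha
      have h2 := hω c
      unfold JG at h2
      split_ifs at h2 with h5
      · rw [mem_Ico] at h2; omega
      · rw [mem_Ico] at h2; omega
    refine (sum_le_card_nsmul _ _ _ h1).trans ?_
    rw [smul_eq_mul, card_univ, Fintype.card_prod, Fintype.card_fin, Fintype.card_fin]
    apply Nat.mul_le_mul_right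
    omega
  have hnw : ∀ N : ℕ, X ≤ m * N → ∀ ω ∈ Ω, nwC (dlC a (-1 * (1 : ℕ))) N ω = ((N - ∑ c, den a (ω c) : ℕ) : ℤ) := by
    intro N hN ω hω
    have h1 := hbound ω hω
    have h2 := hs2 N hN
    rw [Nat.cast_sub (by omega)]
    unfold nwC dlC
    push_cast
    rw [sub_eq_add_neg, ← sum_neg_distrib]
    congr 1
    apply sum_congr rfl
    intro c _
    ring
  -- the exceptional choices of one number
  obtain ⟨Ωe, hΩe⟩ : ∃ Ωe, Ωe = Ω.filter (fun ω => Even (∑ c, den a (ω c))) := ⟨_, rfl⟩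
  obtain ⟨W, hW⟩ : ∃ W : ℝ, W = C * (1 - η) ^ (2 * t) + 1 / (k : ℝ) ^ (U + 1) := ⟨_, rfl⟩
  have hone : ∀ N ∈ T, ((Ωe.filter (fun ω => ¬ Good ε (N - ∑ c, den a (ω c)))).card : ℝ) ≤ W * Ω.card := by
    intro N hN
    obtain ⟨hNe, hNX, hNX2⟩ := hT N hN
    have h2 := hk k (by omega) (2 * t) a ha (-1) (Or.inr rfl) κ (by rw [← hq]; exact hq2) (by rw [← hq]; exact hκ1) g (by omega)
      (by omega) (by omega) N (Ωe.filter (fun ω => ¬ Good ε (N - ∑ c, den a (ω c)))) (by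
        rw [hΩe, hΩ]
        exact (filter_subset _ _).trans (filter_subset _ _)) (by
        intro ω hω
        rw [mem_filter, hΩe, mem_filter] at hω
        obtain ⟨⟨hω1, hω2⟩, hω3⟩ := hω
        have h3 := hbound ω hω1
        have h4 := hs2 N hNX
        refine ⟨N - ∑ c, den a (ω c), (hnw N hNX ω hω1).symm, ?_, ?_, by omega, hω3⟩
        · exact ((Nat.even_sub (by omega)).2 (iff_of_true hNe hω2)).two_dvd
        · have h5 : N ≤ 2 * (N - ∑ c, den a (ω c)) := by omega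
          calc 2 ^ k ≤ 2 * X := hk1
            _ ≤ 2 * (m * N) := Nat.mul_le_mul_left _ hNX
            _ ≤ 2 * (m * (2 * (N - ∑ c, den a (ω c)))) := Nat.mul_le_mul_left _ (Nat.mul_le_mul_left _ h5)
            _ = 4 * m * (N - ∑ c, den a (ω c)) := by ring)
    rw [← hΩ, ← hW] at h2
    exact h2
  have hhalf : (Ω.card : ℝ) ≤ 2 * Ωe.card := by
    have h1 := even_half a (JG g κ) (2 * t) (even_two_mul _)
    rw [← hΩ, ← hΩe] at h1
    exact_mod_cast h1
  have hΩpos : 0 < (Ω.card : ℝ) := by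
    rw [hΩ, card_OmC]
    apply prod_pos
    intro c _
    apply pow_pos
    have : 0 < (JG g κ c).card := by
      unfold JG
      split_ifs
      · rw [Nat.card_Ico]; omega
      · rw [Nat.card_Ico]; omega
    exact_mod_cast this
  have hne : Ωe.Nonempty := by
    rw [← card_pos]
    have : (0 : ℝ) < Ωe.card := by linarith
    exact_mod_cast this
  have hW0 : 0 ≤ W := by rw [hW]; positivity
  -- the average over the choices
  have hsum : ∑ ω ∈ Ωe, ((T.filter (fun N => ¬ Good ε (N - ∑ c, den a (ω c)))).card : ℝ) ≤ ∑ ω ∈ Ωe, (2 * W * T.card) := by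
    have e1 : ∑ ω ∈ Ωe, ((T.filter (fun N => ¬ Good ε (N - ∑ c, den a (ω c)))).card : ℝ) =
        ∑ N ∈ T, ((Ωe.filter (fun ω => ¬ Good ε (N - ∑ c, den a (ω c)))).card : ℝ) := by
      simp only [card_filter, Nat.cast_sum]
      exact sum_comm
    rw [e1, sum_const, nsmul_eq_mul]
    calc ∑ N ∈ T, ((Ωe.filter (fun ω => ¬ Good ε (N - ∑ c, den a (ω c)))).card : ℝ) ≤ ∑ _N ∈ T, W * Ω.card := sum_le_sum hone
      _ = T.card * (W * Ω.card) := by rw [sum_const, nsmul_eq_mul]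
      _ ≤ T.card * (W * (2 * Ωe.card)) := by
          apply mul_le_mul_of_nonneg_left _ (Nat.cast_nonneg _)
          exact mul_le_mul_of_nonneg_left hhalf hW0
      _ = Ωe.card * (2 * W * T.card) := by ring
  obtain ⟨ω, hωe, hω⟩ := exists_le_of_sum_le hne hsum
  have hωΩ : ω ∈ Ω := by rw [hΩe] at hωe; exact (mem_filter.1 hωe).1
  have hωev : Even (∑ c, den a (ω c)) := by rw [hΩe] at hωe; exact (mem_filter.1 hωe).2
  obtain ⟨e, _⟩ : ∃ e : Fin (4 * t) ≃ Fin 2 × Fin (2 * t), e = (finCongr (by ring)).trans (finProdFinEquiv).symm := ⟨_, rfl⟩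
  have hse : ∑ i, den a (ω (e i)) = ∑ c, den a (ω c) := Equiv.sum_comp e (fun c => den a (ω c))
  refine ⟨fun i => ω (e i), ?_, ?_, ?_⟩
  · simp only
    rw [hse]
    exact hωev
  · simp only
    rw [hse]
    have h4 : (∑ c, den a (ω c)) * k ≤ 8 * (B + 1) * t * X := by
      calc (∑ c, den a (ω c)) * k ≤ (4 * t * q) * k := Nat.mul_le_mul_right _ (hbound ω hωΩ)
        _ = k * (4 * t * q) := by ring
        _ ≤ _ := hs1
    have h5 : ((∑ c, den a (ω c) : ℕ) : ℝ) * k ≤ 8 * (B + 1) * t * X := by exact_mod_cast h4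
    exact (mul_le_mul_of_nonneg_left hlogX (Nat.cast_nonneg _)).trans h5
  · intro T' hT' hb
    simp only at hb
    rw [hse] at hb
    have h6 : (T'.card : ℝ) ≤ ((T.filter (fun N => ¬ Good ε (N - ∑ c, den a (ω c)))).card : ℝ) := by
      have : T'.card ≤ (T.filter (fun N => ¬ Good ε (N - ∑ c, den a (ω c)))).card := by
        apply card_le_card
        intro N hN
        rw [mem_filter]
        exact ⟨hT' hN, hb N hN⟩
      exact_mod_cast this
    refine (h6.trans hω).trans ?_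
    apply mul_le_mul_of_nonneg_right _ (Nat.cast_nonneg _)
    have e2 : (1 - η) ^ (2 * t) ≤ (1 - η) ^ t := pow_le_pow_of_le_one h1η.le (by linarith) (by omega)
    have hk0 : (0 : ℝ) < k := by exact_mod_cast (by omega : 0 < k)
    have hk2' : (2 : ℝ) ≤ k := by exact_mod_cast (by omega : 2 ≤ k)
    have e3 : 2 * (1 / (k : ℝ) ^ (U + 1)) ≤ 1 / (k : ℝ) ^ U := by
      rw [pow_succ, mul_one_div, div_le_div_iff₀ (by positivity) (by positivity)]
      have : 0 < (k : ℝ) ^ U := by positivity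
      nlinarith
    have e4 : 1 / (k : ℝ) ^ U ≤ 1 / Real.log X ^ U := by
      apply one_div_le_one_div_of_le (by positivity)
      exact pow_le_pow_left₀ (by linarith) hlogX U
    have e5 : C * (1 - η) ^ (2 * t) ≤ C * (1 - η) ^ t := mul_le_mul_of_nonneg_left e2 hC0
    rw [hW]
    linarith

end Pool.Agent.R461.CF
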